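import Pool.Agent.W_04c03c_h58t.DDef

/-!
# Equivariant maps and equivariant cochains are determined by their values at representatives
-/

namespace Thu

open RCan

section

variable {G Ξ V : Type} [Group G] [MulAction G Ξ] [MulAction G V] {sm : V → V → Prop}
  {cusp : V → Option Ξ} {K : Type} [Field K] {E : Type} [AddCommGroup E] [Module K E]

/-- Equivariant maps are determined by arbitrary values at the basis elements `b (s, 1)`.

Proof. Injective: `b (s, g) = trD g (b (s, 1)) = (ω g)⁻¹ • τD g (b (s, 1))`, so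
`Ψ (b (s, g)) = (ω g)⁻¹ • σ g (Ψ (b (s, 1)))`. Surjective: for `u : R → E` let
`Ψ = b.constr K (fun (s, g) => (ω g)⁻¹ • σ g (u s))`; equivariance on the basis:
`τD h (b (s, g)) = ω h • b (s, h * g)`, and `ω h * (ω (h * g))⁻¹ = (ω g)⁻¹`. -/
theorem evalH (hF : Face G Ξ V sm cusp) (ω : G →* Kˣ) (σ : Representation K G E) (n : ℕ)
    {R : Finset (List V)} (b : Module.Basis (R × G) K (DSub sm cusp K n))
    (hb : ∀ (g : G) (s : R) (h : G), trD hF K n g (b (s, h)) = b (s, g * h)) :
    ∃ Φ : HomG (τD hF ω n) σ ≃ₗ[K] (R → E), ∀ Ψ s, Φ Ψ s = Ψ.1 (b (s, 1)) := by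
  let L : HomG (τD hF ω n) σ →ₗ[K] (R → E) :=
    { toFun := fun Ψ s => Ψ.1 (b (s, 1))
      map_add' := fun _ _ => rfl
      map_smul' := fun _ _ => rfl }
  have hω : ∀ g : G, (ω g : K) ≠ 0 := fun g => (ω g).ne_zero
  have hval : ∀ (Ψ : HomG (τD hF ω n) σ) (s : R) (g : G),
      Ψ.1 (b (s, g)) = (ω g : K)⁻¹ • σ g (Ψ.1 (b (s, 1))) := by
    intro Ψ s g
    have h1 : τD hF ω n g (b (s, 1)) = (ω g : K) • b (s, g) := by
      rw [τD_apply, hb, mul_one]
    have h2 := Ψ.2 g (b (s, 1))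
    rw [← h2, h1, map_smul, smul_smul, inv_mul_cancel₀ (hω g), one_smul]
  have hinj : Function.Injective L := by
    intro Ψ Ψ' h
    apply Subtype.ext
    refine b.ext fun i => ?_
    obtain ⟨s, g⟩ := i
    have h1 : Ψ.1 (b (s, 1)) = Ψ'.1 (b (s, 1)) := congrFun h s
    rw [hval Ψ s g, hval Ψ' s g, h1]
  have hsur : Function.Surjective L := by
    intro u
    let F : DSub sm cusp K n →ₗ[K] E := b.constr K (fun i : R × G => (ω i.2 : K)⁻¹ • σ i.2 (u i.1))
    have hF' : ∀ (s : R) (g : G), F (b (s, g)) = (ω g : K)⁻¹ • σ g (u s) := fun s g => by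
      simp only [F]
      rw [Module.Basis.constr_basis]
    have heq : ∀ (g : G), F ∘ₗ τD hF ω n g = σ g ∘ₗ F := by
      intro h
      refine b.ext fun i => ?_
      obtain ⟨s, g⟩ := i
      rw [LinearMap.comp_apply, LinearMap.comp_apply, τD_apply, hb, map_smul, hF', hF', map_smul,
        smul_smul, map_mul ω, map_mul σ, Units.val_mul, mul_inv, ← mul_assoc,
        mul_inv_cancel₀ (hω h), one_mul]
      rfl
    refine ⟨⟨F, fun g f => ?_⟩, funext fun s => ?_⟩
    · exact LinearMap.congr_fun (heq g) f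
    · show F (b (s, 1)) = u s
      rw [hF', map_one, map_one, Units.val_one, inv_one, one_smul]
      rfl
  exact ⟨LinearEquiv.ofBijective L ⟨hinj, hsur⟩, fun _ _ => rfl⟩

end

end Thu
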