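import Pool.Agent.W_04c03c_h58t.DDef
import Pool.Agent.W_04c03c_h58.AlgE

/-!
# Averages with values in a representation
-/

namespace Thu

open RCan

section

variable {G Ξ V : Type} [Group G] [MulAction G Ξ] [MulAction G V] {sm : V → V → Prop}
  {cusp : V → Option Ξ} {K : Type} [Field K] {E : Type} [AddCommGroup E] [Module K E]

/-- the average of the cochain `f ⊗ v` -/
noncomputable def avE (σ : Representation K G E) (f : List V → K) (v : E) : List V → E :=
  fun l => ∑ᶠ g : G, f (l.map (fun x => g⁻¹ • x)) • σ g v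

/-- Only finitely many terms of the average are not zero. As `av_finite` in
`W_04c03c_h58/AlgE.lean` (copy its proof): `l ≠ []`, `g ↦ l.map (g⁻¹ • ·)` is injective by `hF.free` and
`f` has finite support. -/
theorem avE_finite (hF : Face G Ξ V sm cusp) {n : ℕ} {f : List V → K} (hf : IsD sm cusp K n f)
    (l : List V) : {g : G | f (l.map (fun x => g⁻¹ • x)) ≠ 0}.Finite :=
  av_finite hF hf l

theorem DB_ex (σ : Representation K G E) {f : List V → K} {v : E} {l : List V}
    (h : avE σ f v l ≠ 0) : ∃ g : G, f (l.map (fun x => g⁻¹ • x)) ≠ 0 := by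
  by_contra h1
  push Not at h1
  apply h
  unfold avE
  simp [h1]

theorem DB_alt (σ : Representation K G E) {f : List V → K} (hf : Alt f) (v : E) :
    Alt (avE σ f v) := by
  constructor
  · intro l₁ x y l₂
    unfold avE
    rw [← finsum_neg_distrib]
    congr 1
    funext g
    have := (hf.map (fun x => g⁻¹ • x)).1 l₁ x y l₂
    rw [show f ((l₁ ++ x :: y :: l₂).map (fun x => g⁻¹ • x))
      = -f ((l₁ ++ y :: x :: l₂).map (fun x => g⁻¹ • x)) from this, neg_smul]
  · intro l₁ x l₂
    unfold avE
    have h0 : (fun g : G => f ((l₁ ++ x :: x :: l₂).map (fun x => g⁻¹ • x)) • σ g v)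
        = fun _ => 0 := by
      funext g
      rw [show f ((l₁ ++ x :: x :: l₂).map (fun x => g⁻¹ • x)) = 0 from
        (hf.map (fun x => g⁻¹ • x)).2 l₁ x l₂, zero_smul]
    rw [h0]
    exact finsum_zero

/-- Averages are equivariant, relative and alternating. As `av_mem` in `W_04c03c_h58/AlgE.lean`:
each property from the same property of `l ↦ f (l.map (g⁻¹ • ·))`, and
`avE σ f v (l.map (h • ·)) = ∑ᶠ g, f (l.map ((g⁻¹ * h) • ·)) • σ g v = σ h (avE σ f v l)` by the
substitution `g = h * g'`. -/
theorem avE_mem (hF : Face G Ξ V sm cusp) (σ : Representation K G E) {n : ℕ} {f : List V → K}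
    (hf : IsD sm cusp K n f) (v : E) : avE σ f v ∈ EQE sm cusp σ n := by
  refine ⟨⟨DB_alt σ hf.alt v, ?_, ?_⟩, ?_⟩
  · intro l hl
    obtain ⟨g, hg⟩ := DB_ex σ hl
    simpa using hf.len _ hg
  · intro l hl
    obtain ⟨g, hg⟩ := DB_ex σ hl
    have h1 := hf.rl _ hg
    exact ⟨(sml_smul hF.smul_sm g⁻¹ l).1 h1.1,
      fun h2 => h1.2 ((inC_smul hF.cusp_smul g⁻¹ l).2 h2)⟩
  · intro h l
    unfold avE
    have hfin : (Function.support fun g : G => f (l.map (fun x => g⁻¹ • x)) • σ g v).Finite := by
      refine (avE_finite hF hf l).subset ?_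
      intro g hg h0
      apply hg
      show f (l.map (fun x => g⁻¹ • x)) • σ g v = 0
      rw [h0, zero_smul]
    have h1 : σ h (∑ᶠ g : G, f (l.map (fun x => g⁻¹ • x)) • σ g v) =
        ∑ᶠ g : G, σ h (f (l.map (fun x => g⁻¹ • x)) • σ g v) :=
      (σ h).toAddMonoidHom.map_finsum hfin
    rw [h1, ← finsum_comp_equiv (Equiv.mulLeft h)
      (f := fun g : G => f ((l.map (fun x => h • x)).map (fun x => g⁻¹ • x)) • σ g v)]
    congr 1
    funext g
    simp only [Equiv.coe_mulLeft]
    rw [map_smul_smul, mul_inv_rev, inv_mul_cancel_right, map_mul, map_smul]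
    rfl

/-- Averaging commutes with the coboundary. As `crE_avL` in `W_04c03c_h58/AlgE.lean`. -/
theorem cr_avE (hF : Face G Ξ V sm cusp) (σ : Representation K G E) {n : ℕ}
    (f : DSub sm cusp K n) (v : E) : cr sm (avE σ f.1 v) = avE σ (crD hF K n f).1 v := by
  classical
  funext l
  show cr sm (avE σ f.1 v) l = avE σ (cr sm f.1) v l
  by_cases hl : Sml sm l
  · rw [cr_of_sml _ hl]
    have hfin : {g : G | ∃ m : List V, m.Sublist l ∧ f.1 (m.map (fun x => g⁻¹ • x)) ≠ 0}.Finite := by
      have h1 : ∀ L : List (List V),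
          {g : G | ∃ m ∈ L, f.1 (m.map (fun x => g⁻¹ • x)) ≠ 0}.Finite := by
        intro L
        induction L with
        | nil => simp
        | cons a L ih =>
          refine ((avE_finite hF f.2 a).union ih).subset ?_
          rintro g ⟨m, hm, h2⟩
          rcases List.mem_cons.1 hm with rfl | hm
          · exact Or.inl h2
          · exact Or.inr ⟨m, hm, h2⟩
      refine (h1 l.sublists).subset ?_
      rintro g ⟨m, hm, h2⟩
      exact ⟨m, List.mem_sublists.2 hm, h2⟩
    have h2 : ∀ m : List V, m.Sublist l → avE σ f.1 v m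
        = ∑ g ∈ hfin.toFinset, f.1 (m.map (fun x => g⁻¹ • x)) • σ g v := by
      intro m hm
      unfold avE
      apply finsum_eq_sum_of_support_subset
      intro g hg
      simp only [Set.Finite.coe_toFinset, Set.mem_ofPred_eq]
      refine ⟨m, hm, fun h0 => hg ?_⟩
      show f.1 (m.map (fun x => g⁻¹ • x)) • σ g v = 0
      rw [h0, zero_smul]
    have h3 : avE σ (cr sm f.1) v l
        = ∑ g ∈ hfin.toFinset, cr sm f.1 (l.map (fun x => g⁻¹ • x)) • σ g v := by
      unfold avE
      apply finsum_eq_sum_of_support_subset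
      intro g hg
      simp only [Set.Finite.coe_toFinset, Set.mem_ofPred_eq]
      by_contra hcon
      push Not at hcon
      apply hg
      show cr sm f.1 (l.map (fun x => g⁻¹ • x)) • σ g v = 0
      rw [cr_of_sml _ ((sml_smul hF.smul_sm g⁻¹ l).2 hl), co_map]
      have h0 : co (fun m : List V => f.1 (m.map (fun x => g⁻¹ • x))) l = 0 :=
        dl_eq_zero l (fun l' h4 _ => hcon l' h4)
      rw [h0, zero_smul]
    rw [h3]
    show dl l (avE σ f.1 v) = _
    rw [dl_congr l (g := fun m => ∑ g ∈ hfin.toFinset, f.1 (m.map (fun x => g⁻¹ • x)) • σ g v)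
      (fun l' h4 _ => h2 l' h4)]
    have h5 : ∀ S : Finset G,
        dl l (fun m => ∑ g ∈ S, f.1 (m.map (fun x => g⁻¹ • x)) • σ g v)
        = ∑ g ∈ S, dl l (fun m => f.1 (m.map (fun x => g⁻¹ • x))) • σ g v := by
      intro S
      induction S using Finset.induction_on with
      | empty =>
        simp only [Finset.sum_empty]
        exact dl_zero l
      | insert a S ha ih =>
        have h6 : (fun m : List V => ∑ g ∈ insert a S, f.1 (m.map (fun x => g⁻¹ • x)) • σ g v)
            = (fun m => f.1 (m.map (fun x => a⁻¹ • x)) • σ a v)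
              + (fun m => ∑ g ∈ S, f.1 (m.map (fun x => g⁻¹ • x)) • σ g v) := by
          funext m
          rw [Finset.sum_insert ha]
          rfl
        have h7 : dl l (fun m => f.1 (m.map (fun x => a⁻¹ • x)) • σ a v) =
            dl l (fun m => f.1 (m.map (fun x => a⁻¹ • x))) • σ a v :=
          dl_hom l ((LinearMap.toSpanSingleton K E (σ a v)).toAddMonoidHom) _
        rw [h6, dl_add, h7, ih, Finset.sum_insert ha]
    rw [h5]
    apply Finset.sum_congr rfl
    intro g _
    rw [cr_of_sml _ ((sml_smul hF.smul_sm g⁻¹ l).2 hl), co_map]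
    rfl
  · have h1 : cr sm (avE σ f.1 v) l = 0 := by simp [cr, hl]
    have h2 : ∀ g : G, cr sm f.1 (l.map (fun x => g⁻¹ • x)) = 0 := by
      intro g
      have : ¬ Sml sm (l.map (fun x => g⁻¹ • x)) := fun h => hl ((sml_smul hF.smul_sm g⁻¹ l).1 h)
      simp [cr, this]
    rw [h1]
    unfold avE
    simp [h2]

end

end Thu
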