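import Pool.Agent.W_04c03c_h58t.DB
import Pool.Agent.W_04c03c_h58.AlgF

/-!
# Equivariant cochains are determined by arbitrary values at representatives
-/

namespace Thu

open RCan

section

variable {G Ξ V : Type} [Group G] [MulAction G Ξ] [MulAction G V] {sm : V → V → Prop}
  {cusp : V → Option Ξ} {K : Type} [Field K] {E : Type} [AddCommGroup E] [Module K E]

/-- values of an alternating function at permutations -/
theorem DC_perm {f : List V → E} (hf : Alt f) {l l' : List V} (h : l.Perm l') (h0 : f l' = 0) :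
    f l = 0 := by
  classical
  let _ : LinearOrder V := linearOrderOfSTO (WellOrderingRel (α := V))
  obtain ⟨ε, h1, -, h3⟩ := AltC_perm hf h.symm []
  rw [List.nil_append, List.nil_append] at h3
  rw [h3, h0, smul_zero]

theorem DC_zero (hF : Face G Ξ V sm cusp) (σ : Representation K G E) {n : ℕ} {R : Finset (List V)}
    (hcov : ∀ l : List V, l.Nodup → Rl sm cusp l → l.length = n + 1 →
      ∃ s ∈ R, ∃ g : G, l.Perm (s.map (fun x => g • x)))
    (d : EQE sm cusp σ n) (hd : ∀ s ∈ R, d.1 s = 0) : d = 0 := by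
  apply Subtype.ext
  funext l
  show d.1 l = 0
  by_contra hne
  have hnd : l.Nodup := by
    by_contra h
    exact hne (Alt.not_nodup d.2.1.alt h)
  have hrl := d.2.1.rl l hne
  have hlen := d.2.1.len l hne
  obtain ⟨s, hs, g, hp⟩ := hcov l hnd hrl hlen
  have h0 : d.1 (s.map (fun x => g • x)) = 0 := by
    rw [d.2.2, hd s hs, map_zero]
  exact hne (DC_perm d.2.1.alt hp h0)

open Classical in
/-- averages of the basis elements at the representatives -/
theorem DC_basis {n : ℕ} {R : Finset (List V)} (b : Module.Basis (R × G) K (DSub sm cusp K n))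
    (hrepr : ∀ (f : DSub sm cusp K n) (s : R) (g : G),
      b.repr f (s, g) = f.1 (s.1.map (fun x => g • x))) (σ : Representation K G E) (s s' : R)
    (v : E) : avE σ (b (s, 1)).1 v s'.1 = if s.1 = s'.1 then v else 0 := by
  classical
  have h1 : ∀ h : G, (b (s, 1)).1 (s'.1.map (fun x => h⁻¹ • x))
      = (Finsupp.single (s, (1 : G)) (1 : K)) (s', h⁻¹) := by
    intro h
    rw [← hrepr, b.repr_self]
  unfold avE
  simp_rw [h1]
  by_cases hs : s = s'
  · subst hs
    rw [if_pos rfl, finsum_eq_single _ 1]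
    · rw [inv_one, Finsupp.single_eq_same, one_smul, map_one]
      rfl
    · intro h hh
      rw [Finsupp.single_apply, if_neg, zero_smul]
      intro h2
      apply hh
      have h3 : (1 : G) = h⁻¹ := (Prod.ext_iff.1 h2).2
      rw [← inv_inv h, ← h3, inv_one]
  · rw [if_neg (fun h => hs (Subtype.ext h))]
    have h2 : ∀ h : G, (Finsupp.single (s, (1 : G)) (1 : K)) (s', h⁻¹) • σ h v = 0 := by
      intro h
      rw [Finsupp.single_apply, if_neg, zero_smul]
      intro h3
      exact hs (Prod.ext_iff.1 h3).1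
    simp_rw [h2]
    exact finsum_zero

/-- the sum of the averages with given values -/
noncomputable def DC_sum {n : ℕ} {R : Finset (List V)} (σ : Representation K G E)
    (b : Module.Basis (R × G) K (DSub sm cusp K n)) (u : R → E) : List V → E :=
  ∑ s : R, avE σ (b (s, 1)).1 (u s)

theorem DC_sum_mem (hF : Face G Ξ V sm cusp) {n : ℕ} {R : Finset (List V)}
    (σ : Representation K G E) (b : Module.Basis (R × G) K (DSub sm cusp K n)) (u : R → E) :
    DC_sum σ b u ∈ EQE sm cusp σ n :=
  Submodule.sum_mem _ fun s _ => avE_mem hF σ (b (s, 1)).2 (u s)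

theorem DC_sum_apply {n : ℕ} {R : Finset (List V)}
    (b : Module.Basis (R × G) K (DSub sm cusp K n))
    (hrepr : ∀ (f : DSub sm cusp K n) (s : R) (g : G),
      b.repr f (s, g) = f.1 (s.1.map (fun x => g • x))) (σ : Representation K G E) (u : R → E)
    (s' : R) : DC_sum σ b u s'.1 = u s' := by
  classical
  unfold DC_sum
  rw [Finset.sum_apply, Finset.sum_eq_single s']
  · rw [DC_basis b hrepr, if_pos rfl]
  · intro s _ hs
    rw [DC_basis b hrepr, if_neg (fun h => hs (Subtype.ext h))]
  · intro h
    exact absurd (Finset.mem_univ s') h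

/-- Equivariant cochains are determined by arbitrary values at the representatives, and
`c = ∑ s, avE σ (b (s, 1)) (c s)`.

Proof. Let `b, R` be as in `exists_basis` (`W_04c03c_h58/AlgC.lean`; its conclusions are the hypotheses).
Injective: if `c s = 0` for all `s ∈ R` then `c = 0`: as `EQ_zero_of_reps` (`W_04c03c_h58/AlgF.lean`): a list
`l` which is not relative of length `n + 1` without repeated entries has `c l = 0` (`Alt.not_nodup`), otherwise
`l` is a permutation of `s.map (g • ·)` and `c l = ± σ g (c s)` (`AltC_perm`). Surjective: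
`c = ∑ s, avE σ (b (s, 1)) (u s)` has `c s' = u s'`, because `avE σ (b (s, 1)) v s' =
∑ᶠ g, b.repr (b (s, 1)) (s', g⁻¹) • σ g v` is `v` if `s = s'` and `0` otherwise. -/
theorem evalQ (hF : Face G Ξ V sm cusp) (σ : Representation K G E) (n : ℕ)
    {R : Finset (List V)} (b : Module.Basis (R × G) K (DSub sm cusp K n))
    (hR : ∀ s ∈ R, Rl sm cusp s ∧ s.length = n + 1)
    (hcov : ∀ l : List V, l.Nodup → Rl sm cusp l → l.length = n + 1 →
      ∃ s ∈ R, ∃ g : G, l.Perm (s.map (fun x => g • x)))
    (hrepr : ∀ (f : DSub sm cusp K n) (s : R) (g : G),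
      b.repr f (s, g) = f.1 (s.1.map (fun x => g • x))) :
    ∃ Φ : EQE sm cusp σ n ≃ₗ[K] (R → E), (∀ c s, Φ c s = c.1 s.1) ∧
      ∀ c : EQE sm cusp σ n, c.1 = ∑ s : R, avE σ (b (s, 1)).1 (c.1 s.1) := by
  classical
  let L : EQE sm cusp σ n →ₗ[K] (R → E) :=
    { toFun := fun c s => c.1 s.1
      map_add' := fun _ _ => rfl
      map_smul' := fun _ _ => rfl }
  have hL : ∀ c s, L c s = c.1 s.1 := fun _ _ => rfl
  have hinj : Function.Injective L := by
    rw [← LinearMap.ker_eq_bot, LinearMap.ker_eq_bot']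
    intro c hc
    refine DC_zero hF σ hcov c fun s hs => ?_
    exact congrFun hc ⟨s, hs⟩
  have hsur : Function.Surjective L := by
    intro u
    refine ⟨⟨DC_sum σ b u, DC_sum_mem hF σ b u⟩, ?_⟩
    funext s
    exact DC_sum_apply b hrepr σ u s
  refine ⟨LinearEquiv.ofBijective L ⟨hinj, hsur⟩, fun c s => rfl, fun c => ?_⟩
  have h1 : c = ⟨DC_sum σ b (fun s => c.1 s.1), DC_sum_mem hF σ b _⟩ := by
    apply hinj
    funext s
    exact (DC_sum_apply b hrepr σ (fun s => c.1 s.1) s).symm
  exact congrArg Subtype.val h1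

end

end Thu
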