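import Pool.Agent.W_04c03c_h58t.DA
import Pool.Agent.W_04c03c_h58t.DC

/-!
# The pairing between equivariant maps and equivariant cochains
-/

namespace Thu

open RCan

section

variable {G Ξ V : Type} [Group G] [MulAction G Ξ] [MulAction G V] {sm : V → V → Prop}
  {cusp : V → Option Ξ} {K : Type} [Field K] {E : Type} [AddCommGroup E] [Module K E]

theorem DD_supp (hF : Face G Ξ V sm cusp) (σ : Representation K G E) {n : ℕ}
    (f : DSub sm cusp K n) (v : E) (l : List V) :
    (Function.support fun g : G => f.1 (l.map (fun x => g⁻¹ • x)) • σ g v).Finite := by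
  refine (avE_finite hF f.2 l).subset fun g hg h0 => hg ?_
  show f.1 (l.map (fun x => g⁻¹ • x)) • σ g v = 0
  rw [h0, zero_smul]

theorem DD_add (hF : Face G Ξ V sm cusp) (σ : Representation K G E) {n : ℕ}
    (f f' : DSub sm cusp K n) (v : E) (l : List V) :
    avE σ (f + f').1 v l = avE σ f.1 v l + avE σ f'.1 v l := by
  unfold avE
  rw [← finsum_add_distrib (DD_supp hF σ f v l) (DD_supp hF σ f' v l)]
  refine finsum_congr fun g => ?_
  rw [← add_smul]
  rfl

omit [MulAction G Ξ] in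
theorem DD_smul (σ : Representation K G E) {n : ℕ}
    (a : K) (f : DSub sm cusp K n) (v : E) (l : List V) :
    avE σ (a • f).1 v l = a • avE σ f.1 v l := by
  unfold avE
  rw [smul_finsum]
  refine finsum_congr fun g => ?_
  rw [smul_smul]
  rfl

omit [MulAction G Ξ] in
/-- The average of a basis element. -/
theorem DD_basis (σ : Representation K G E) {n : ℕ}
    {R : Finset (List V)} (b : Module.Basis (R × G) K (DSub sm cusp K n))
    (hrepr : ∀ (f : DSub sm cusp K n) (s : R) (g : G),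
      b.repr f (s, g) = f.1 (s.1.map (fun x => g • x))) (s₀ : R) (g₀ : G) (v : E) (s : R)
    [Decidable (s = s₀)] :
    avE σ (b (s₀, g₀)).1 v s.1 = if s = s₀ then σ g₀⁻¹ v else 0 := by
  unfold avE
  have h1 : ∀ g : G, (b (s₀, g₀)).1 (s.1.map (fun x => g⁻¹ • x)) =
      Finsupp.single (s₀, g₀) (1 : K) (s, g⁻¹) := by
    intro g
    rw [← hrepr, Module.Basis.repr_self]
  simp only [h1]
  rw [finsum_eq_single _ g₀⁻¹]
  · by_cases h : s = s₀
    · rw [if_pos h, h, inv_inv, Finsupp.single_eq_same, one_smul]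
    · rw [if_neg h, Finsupp.single_eq_of_ne (fun e => h (Prod.ext_iff.1 e).1), zero_smul]
  · intro g hg
    rw [Finsupp.single_eq_of_ne, zero_smul]
    intro e
    apply hg
    have h2 := (Prod.ext_iff.1 e).2
    simp only at h2
    rw [← h2, inv_inv]

/-- The pairing as a bilinear map. -/
noncomputable def DD_P (hF : Face G Ξ V sm cusp) (ω : G →* Kˣ) (σ : Representation K G E) (n : ℕ)
    {R : Finset (List V)} (b : Module.Basis (R × G) K (DSub sm cusp K n)) :
    HomG (τD (sm := sm) (cusp := cusp) hF ω n) (dualW ω σ) →ₗ[K] EQE sm cusp σ n →ₗ[K] K :=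
  LinearMap.mk₂ K (fun Ψ c => ∑ s : R, Ψ.1 (b (s, 1)) (c.1 s.1))
    (fun Ψ Ψ' c => by rw [← Finset.sum_add_distrib]; rfl)
    (fun a Ψ c => by rw [smul_eq_mul, Finset.mul_sum]; rfl)
    (fun Ψ c c' => by
      rw [← Finset.sum_add_distrib]
      exact Finset.sum_congr rfl fun s _ => map_add _ _ _)
    (fun a Ψ c => by
      rw [smul_eq_mul, Finset.mul_sum]
      exact Finset.sum_congr rfl fun s _ => map_smul _ _ _)

theorem DD_P_apply (hF : Face G Ξ V sm cusp) (ω : G →* Kˣ) (σ : Representation K G E) (n : ℕ)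
    {R : Finset (List V)} (b : Module.Basis (R × G) K (DSub sm cusp K n))
    (Ψ : HomG (τD (sm := sm) (cusp := cusp) hF ω n) (dualW ω σ)) (c : EQE sm cusp σ n) :
    DD_P hF ω σ n b Ψ c = ∑ s : R, Ψ.1 (b (s, 1)) (c.1 s.1) := rfl

/-- Equivariance at the basis elements. -/
theorem DD_equiv (hF : Face G Ξ V sm cusp) (ω : G →* Kˣ) (σ : Representation K G E) (n : ℕ)
    {R : Finset (List V)} (b : Module.Basis (R × G) K (DSub sm cusp K n))
    (hb : ∀ (g : G) (s : R) (h : G), trD hF K n g (b (s, h)) = b (s, g * h))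
    (Ψ : HomG (τD (sm := sm) (cusp := cusp) hF ω n) (dualW ω σ)) (s : R) (g : G) (v : E) :
    Ψ.1 (b (s, g)) v = Ψ.1 (b (s, 1)) (σ g⁻¹ v) := by
  have h1 := Ψ.2 g (b (s, 1))
  rw [τD_apply, hb, mul_one, map_smul] at h1
  have h2 := congrArg (fun μ : Module.Dual K E => μ v) h1
  simp only [LinearMap.smul_apply, smul_eq_mul] at h2
  rw [dualW_apply] at h2
  exact mul_left_cancel₀ (Units.ne_zero _) h2

theorem DD_formula (hF : Face G Ξ V sm cusp) (ω : G →* Kˣ) (σ : Representation K G E) (n : ℕ)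
    {R : Finset (List V)} (b : Module.Basis (R × G) K (DSub sm cusp K n))
    (hb : ∀ (g : G) (s : R) (h : G), trD hF K n g (b (s, h)) = b (s, g * h))
    (hrepr : ∀ (f : DSub sm cusp K n) (s : R) (g : G),
      b.repr f (s, g) = f.1 (s.1.map (fun x => g • x)))
    (Ψ : HomG (τD (sm := sm) (cusp := cusp) hF ω n) (dualW ω σ)) (f : DSub sm cusp K n) (v : E) :
    DD_P hF ω σ n b Ψ ⟨avE σ f.1 v, avE_mem hF σ f.2 v⟩ = Ψ.1 f v := by
  classical
  let L : DSub sm cusp K n →ₗ[K] K :=
    { toFun := fun f => ∑ s : R, Ψ.1 (b (s, 1)) (avE σ f.1 v s.1)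
      map_add' := fun f f' => by
        rw [← Finset.sum_add_distrib]
        exact Finset.sum_congr rfl fun s _ => by rw [DD_add hF, map_add]
      map_smul' := fun a f => by
        rw [RingHom.id_apply, smul_eq_mul, Finset.mul_sum]
        exact Finset.sum_congr rfl fun s _ => by rw [DD_smul, map_smul, smul_eq_mul] }
  let L' : DSub sm cusp K n →ₗ[K] K :=
    { toFun := fun f => Ψ.1 f v
      map_add' := fun f f' => by rw [map_add]; rfl
      map_smul' := fun a f => by rw [map_smul]; rfl }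
  have h : L = L' := by
    refine b.ext fun p => ?_
    obtain ⟨s₀, g₀⟩ := p
    show ∑ s : R, Ψ.1 (b (s, 1)) (avE σ (b (s₀, g₀)).1 v s.1) = Ψ.1 (b (s₀, g₀)) v
    rw [DD_equiv hF ω σ n b hb Ψ s₀ g₀ v, Finset.sum_eq_single s₀]
    · rw [DD_basis σ b hrepr, if_pos rfl]
    · intro s _ hs
      rw [DD_basis σ b hrepr, if_neg hs, map_zero]
    · intro h0
      exact absurd (Finset.mem_univ _) h0
  exact LinearMap.congr_fun h f

/-- The pairing.

Proof. Let `R, b` be as in `exists_basis` (`W_04c03c_h58/AlgC.lean`), and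
`P Ψ c = ∑ s : R, Ψ (b (s, 1)) (c s)` (`evalH`, `evalQ`: both spaces are `R → Dual K E` and `R → E`, and this is
the standard pairing; if `c s₀ ≠ 0` choose `μ` with `μ (c s₀) ≠ 0` and `Ψ` with `Ψ (b (s₀, 1)) = μ`, `0` at the other
`s`; the same for the other side). The formula: `P Ψ (avE σ f v) = ∑ s, ∑ᶠ g, f (s.map (g⁻¹ • ·)) * Ψ (b (s, 1)) (σ g v)`
(the sum over `g` is finite, `avE_finite`), and `Ψ (b (s, 1)) (σ g v) = Ψ (trD g⁻¹ (b (s, 1))) v = Ψ (b (s, g⁻¹)) v`
(`Ψ (τD g f) = dualW ω σ g (Ψ f)` means `ω g * Ψ (trD g f) v = ω g * Ψ f (σ g⁻¹ v)`), so with `g' = g⁻¹` it is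
`∑ (s, g'), b.repr f (s, g') * Ψ (b (s, g')) v = Ψ f v`. The last claim: `evalQ`. -/
theorem exists_pair (hF : Face G Ξ V sm cusp) (hT : TFree G) (ω : G →* Kˣ)
    (σ : Representation K G E) (n : ℕ) :
    ∃ P : HomG (τD (sm := sm) (cusp := cusp) hF ω n) (dualW ω σ) →ₗ[K] EQE sm cusp σ n →ₗ[K] K,
      (∀ Ψ (f : DSub sm cusp K n) (v : E),
        P Ψ ⟨avE σ f.1 v, avE_mem hF σ f.2 v⟩ = Ψ.1 f v) ∧
      (∀ c, (∀ Ψ, P Ψ c = 0) → c = 0) ∧ (∀ Ψ, (∀ c, P Ψ c = 0) → Ψ = 0) ∧
      Submodule.span K {c : EQE sm cusp σ n |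
        ∃ (f : DSub sm cusp K n) (v : E), c.1 = avE σ f.1 v} = ⊤ := by
  classical
  obtain ⟨R, b, hR, hcov, hb, hrepr⟩ := exists_basis hF hT K n
  obtain ⟨ΦH, hΦH⟩ := evalH hF ω (dualW ω σ) n b hb
  obtain ⟨ΦQ, hΦQ, hsum⟩ := evalQ hF σ n b hR hcov hrepr
  refine ⟨DD_P hF ω σ n b, DD_formula hF ω σ n b hb hrepr, ?_, ?_, ?_⟩
  · intro c hc
    have h1 : ΦQ c = 0 := by
      funext s₀
      rw [hΦQ]
      show c.1 s₀.1 = 0
      rw [← Module.forall_dual_apply_eq_zero_iff K]
      intro μ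
      have h2 := hc (ΦH.symm (Pi.single s₀ μ))
      rw [DD_P_apply, Finset.sum_eq_single s₀] at h2
      · rw [← hΦH, LinearEquiv.apply_symm_apply, Pi.single_eq_same] at h2
        exact h2
      · intro s _ hs
        rw [← hΦH, LinearEquiv.apply_symm_apply, Pi.single_eq_of_ne hs]
        rfl
      · intro h0
        exact absurd (Finset.mem_univ _) h0
    exact (LinearEquiv.map_eq_zero_iff ΦQ).1 h1
  · intro Ψ hΨ
    have h1 : ΦH Ψ = 0 := by
      funext s₀
      refine LinearMap.ext fun v => ?_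
      have h2 := hΨ (ΦQ.symm (Pi.single s₀ v))
      rw [DD_P_apply, Finset.sum_eq_single s₀] at h2
      · rw [← hΦQ, LinearEquiv.apply_symm_apply, Pi.single_eq_same] at h2
        rw [hΦH]
        exact h2
      · intro s _ hs
        rw [← hΦQ, LinearEquiv.apply_symm_apply, Pi.single_eq_of_ne hs, map_zero]
      · intro h0
        exact absurd (Finset.mem_univ _) h0
    exact (LinearEquiv.map_eq_zero_iff ΦH).1 h1
  · rw [eq_top_iff]
    intro c _
    have h1 : c = ∑ s : R, (⟨avE σ (b (s, 1)).1 (c.1 s.1), avE_mem hF σ (b (s, 1)).2 (c.1 s.1)⟩ :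
        EQE sm cusp σ n) := by
      apply Subtype.ext
      rw [hsum c, AddSubmonoidClass.coe_finsetSum]
      refine Finset.sum_congr rfl fun s _ => ?_
      rw [← hsum c]
    rw [h1]
    exact Submodule.sum_mem _ fun s _ => Submodule.subset_span ⟨b (s, 1), c.1 s.1, rfl⟩

/-- The spaces are finite-dimensional, of dimension a multiple of the dimension of `E` which does not
depend on `E`. Proof: `evalH`, `evalQ`, `exists_basis`; `d n` is the cardinality of `R` for the degree `n`. -/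
theorem exists_dims (hF : Face G Ξ V sm cusp) (hT : TFree G) (K : Type) [Field K] (ω : G →* Kˣ) :
    ∃ d : ℕ → ℕ, ∀ (n : ℕ) (E : Type) [AddCommGroup E] [Module K E] [FiniteDimensional K E]
      (σ : Representation K G E),
      FiniteDimensional K (EQE sm cusp σ n) ∧
      FiniteDimensional K (HomG (τD (sm := sm) (cusp := cusp) hF ω n) σ) ∧
      Module.finrank K (EQE sm cusp σ n) = d n * Module.finrank K E ∧
      Module.finrank K (HomG (τD (sm := sm) (cusp := cusp) hF ω n) σ) = d n * Module.finrank K E := by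
  choose R b hR hcov hb hrepr using fun n => exists_basis hF hT K n
  refine ⟨fun n => (R n).card, ?_⟩
  intro n E _ _ _ σ
  obtain ⟨ΦH, hΦH⟩ := evalH hF ω σ n (b n) (hb n)
  obtain ⟨ΦQ, hΦQ, hsum⟩ := evalQ hF σ n (b n) (hR n) (hcov n) (hrepr n)
  have h1 : Module.finrank K (R n → E) = (R n).card * Module.finrank K E := by
    rw [Module.finrank_pi_fintype, Finset.sum_const, Finset.card_univ, Fintype.card_coe,
      smul_eq_mul]
  refine ⟨Module.Finite.equiv ΦQ.symm, Module.Finite.equiv ΦH.symm, ?_, ?_⟩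
  · rw [ΦQ.finrank_eq, h1]
  · rw [ΦH.finrank_eq, h1]

end

end Thu
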