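import Pool.Agent.W_04c03c_h58t.Rep
import Pool.Agent.W_04c03c_h58.AlgD

/-!
# Equivariant relative cochains with values in a representation: definitions

All types are in `Type`. `τD hF ω n` is the representation of `G` on the finitely supported relative
cochains of degree `n` by translations, twisted by the character `ω`. `EQE sm cusp σ n` is the space of
the equivariant relative cochains of degree `n` with values in the representation `σ`.
-/

namespace Thu

open RCan

section

variable {G Ξ V : Type} [Group G] [MulAction G Ξ] [MulAction G V] {sm : V → V → Prop}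
  {cusp : V → Option Ξ} {K : Type} [Field K] {E : Type} [AddCommGroup E] [Module K E]

/-- translations of the finitely supported relative cochains, twisted by `ω` -/
def τD (hF : Face G Ξ V sm cusp) (ω : G →* Kˣ) (n : ℕ) : Representation K G (DSub sm cusp K n) where
  toFun g := (ω g : K) • trD hF K n g
  map_one' := by
    refine LinearMap.ext fun f => ?_
    simp [trD_one]
  map_mul' := by
    intro g h
    refine LinearMap.ext fun f => ?_
    simp [trD_mul, smul_smul, mul_comm]

theorem τD_apply (hF : Face G Ξ V sm cusp) (ω : G →* Kˣ) (n : ℕ) (g : G) (f : DSub sm cusp K n) :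
    τD hF ω n g f = (ω g : K) • trD hF K n g f := rfl

theorem crD_τD (hF : Face G Ξ V sm cusp) (ω : G →* Kˣ) (n : ℕ) (g : G) (f : DSub sm cusp K n) :
    crD hF K n (τD hF ω n g f) = τD hF ω (n + 1) g (crD hF K n f) := by
  rw [τD_apply, τD_apply, map_smul, crD_trD]

/-- equivariant relative cochains with values in a representation -/
def EQE (sm : V → V → Prop) (cusp : V → Option Ξ) (σ : Representation K G E) (n : ℕ) :
    Submodule K (List V → E) where
  carrier := {c | IsR sm cusp E n c ∧ ∀ (g : G) (l : List V),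
    c (l.map (fun x => g • x)) = σ g (c l)}
  zero_mem' := ⟨⟨Alt.zero, fun l hl => absurd rfl hl, fun l hl => absurd rfl hl⟩, by simp⟩
  add_mem' := fun {a b} ha hb => ⟨ha.1.add hb.1, fun g l => by
    rw [Pi.add_apply, Pi.add_apply, ha.2, hb.2, map_add]⟩
  smul_mem' := by
    intro c f hf
    refine ⟨⟨Alt.hom (DistribSMul.toAddMonoidHom E c) hf.1.alt, ?_, ?_⟩, ?_⟩
    · intro l hl
      exact hf.1.len l (fun h => hl (by simp [h]))
    · intro l hl
      exact hf.1.rl l (fun h => hl (by simp [h]))
    · intro g l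
      rw [Pi.smul_apply, Pi.smul_apply, hf.2, map_smul]

omit [MulAction G Ξ] in
theorem mem_EQE {σ : Representation K G E} {n : ℕ} {c : List V → E} :
    c ∈ EQE sm cusp σ n ↔ IsR sm cusp E n c ∧ ∀ (g : G) (l : List V),
      c (l.map (fun x => g • x)) = σ g (c l) := Iff.rfl

theorem cr_mem_EQE (hF : Face G Ξ V sm cusp) {σ : Representation K G E} {n : ℕ} {c : List V → E}
    (hc : c ∈ EQE sm cusp σ n) : cr sm c ∈ EQE sm cusp σ (n + 1) := by
  refine ⟨hc.1.cr, ?_⟩
  intro g l
  unfold cr
  by_cases hl : Sml sm l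
  · rw [if_pos hl, if_pos ((sml_smul hF.smul_sm g l).2 hl), co_map]
    have h1 : (fun l' => c (l'.map (fun x => g • x))) = fun l' => (σ g).toAddMonoidHom (c l') := by
      funext l'
      exact hc.2 g l'
    rw [h1, co_hom]
    rfl
  · rw [if_neg hl, if_neg (fun h1 => hl ((sml_smul hF.smul_sm g l).1 h1)), map_zero]

/-- the coboundary on equivariant cochains -/
noncomputable def crQ (hF : Face G Ξ V sm cusp) (σ : Representation K G E) (n : ℕ) :
    EQE sm cusp σ n →ₗ[K] EQE sm cusp σ (n + 1) where
  toFun c := ⟨cr sm c.1, cr_mem_EQE hF c.2⟩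
  map_add' f g := Subtype.ext (cr_add f.1 g.1)
  map_smul' c f := by
    apply Subtype.ext
    funext l
    show cr sm (c • f.1) l = c • cr sm f.1 l
    unfold cr
    split_ifs
    · exact dl_smul c l f.1
    · simp

theorem crQ_coe (hF : Face G Ξ V sm cusp) (σ : Representation K G E) {n : ℕ}
    (c : EQE sm cusp σ n) : (crQ hF σ n c).1 = cr sm c.1 := rfl

theorem crQ_crQ (hF : Face G Ξ V sm cusp) (σ : Representation K G E) {n : ℕ}
    (c : EQE sm cusp σ n) : crQ hF σ (n + 1) (crQ hF σ n c) = 0 := Subtype.ext (cr_cr c.1)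

/-- composition of equivariant maps with the coboundary -/
noncomputable def preC (hF : Face G Ξ V sm cusp) (ω : G →* Kˣ) (σ : Representation K G E) (n : ℕ) :
    HomG (τD hF ω (n + 1)) σ →ₗ[K] HomG (τD (sm := sm) (cusp := cusp) hF ω n) σ where
  toFun Ψ := ⟨Ψ.1 ∘ₗ crD hF K n, by
    intro g f
    rw [LinearMap.comp_apply, LinearMap.comp_apply, crD_τD]
    exact Ψ.2 g _⟩
  map_add' _ _ := rfl
  map_smul' _ _ := rfl

theorem preC_apply (hF : Face G Ξ V sm cusp) (ω : G →* Kˣ) (σ : Representation K G E) (n : ℕ)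
    (Ψ : HomG (τD hF ω (n + 1)) σ) (f : DSub sm cusp K n) :
    (preC hF ω σ n Ψ).1 f = Ψ.1 (crD hF K n f) := rfl

theorem preC_preC (hF : Face G Ξ V sm cusp) (ω : G →* Kˣ) (σ : Representation K G E) (n : ℕ)
    (Ψ : HomG (τD hF ω (n + 2)) σ) : preC hF ω σ n (preC hF ω σ (n + 1) Ψ) = 0 := by
  apply Subtype.ext
  apply LinearMap.ext
  intro f
  rw [preC_apply, preC_apply, crD_crD, map_zero]
  rfl

/-- The class `z` in degree three: it generates the cohomology, it is not a coboundary, and it is
invariant (up to coboundaries) for the action twisted by `ω`. -/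
structure Ori (hF : Face G Ξ V sm cusp) (ω : G →* Kˣ) (z : DSub sm cusp K 3) : Prop where
  sq : ∀ g, ω g * ω g = 1
  cyc : crD hF K 3 z = 0
  gen : ∀ f : DSub sm cusp K 3, crD hF K 3 f = 0 → ∃ (c : K) (e : DSub sm cusp K 2),
    f = c • z + crD hF K 2 e
  tw : ∀ g : G, ∃ e : DSub sm cusp K 2, crD hF K 2 e = τD hF ω 3 g z - z
  nv : ∀ e : DSub sm cusp K 2, crD hF K 2 e ≠ z

end

end Thu
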