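import Pool.Agent.W_04c03c_h58t.DD

/-!
# The coboundaries of the two complexes have the same ranks
-/

namespace Thu

open RCan

theorem DE_surj {K A B : Type} [Field K] [AddCommGroup A] [Module K A] [AddCommGroup B] [Module K B]
    [FiniteDimensional K A] [FiniteDimensional K B] (P : A →ₗ[K] B →ₗ[K] K)
    (hP1 : ∀ b, (∀ a, P a b = 0) → b = 0) (hP2 : ∀ a, (∀ b, P a b = 0) → a = 0) :
    Function.Surjective P := by
  have hi : Function.Injective P := by
    rw [injective_iff_map_eq_zero]
    intro a ha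
    refine hP2 a (fun b => ?_)
    rw [ha]
    rfl
  have hi' : Function.Injective P.flip := by
    rw [injective_iff_map_eq_zero]
    intro b hb
    refine hP1 b (fun a => ?_)
    rw [← LinearMap.flip_apply, hb]
    rfl
  have h1 : Module.finrank K A ≤ Module.finrank K (Module.Dual K B) :=
    LinearMap.finrank_le_finrank_of_injective hi
  have h2 : Module.finrank K B ≤ Module.finrank K (Module.Dual K A) :=
    LinearMap.finrank_le_finrank_of_injective hi'
  rw [Subspace.dual_finrank_eq] at h1 h2
  have h3 : Module.finrank K A = Module.finrank K (Module.Dual K B) := by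
    rw [Subspace.dual_finrank_eq]
    exact le_antisymm h1 h2
  exact (LinearMap.injective_iff_surjective_of_finrank_eq_finrank h3).1 hi

/-- Two perfect pairings of finite-dimensional spaces and two adjoint maps: equal ranks.

Proof. `f` has the same rank as its transpose, and `g` is identified with the transpose of `f` by the
pairings: the kernel of `g` is the annihilator of the range of `f`: `g b = 0` iff `P a (g b) = 0` for all `a`
(nondegeneracy of `P`) iff `Q (f a) b = 0` for all `a`. So `finrank (ker g) = finrank B - finrank (range f)` (the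
annihilator of a subspace under a perfect pairing; the pairing `Q` is an isomorphism of `A'` with `Dual K B'`:
injective, and `finrank A' ≤ finrank B' ≤ finrank A'` by injectivity of both adjoints), hence
`finrank (range g) = finrank (range f)`. -/
theorem rank_adj {K A A' B B' : Type} [Field K] [AddCommGroup A] [Module K A] [AddCommGroup A']
    [Module K A'] [AddCommGroup B] [Module K B] [AddCommGroup B'] [Module K B']
    [FiniteDimensional K A] [FiniteDimensional K A'] [FiniteDimensional K B]
    [FiniteDimensional K B'] (P : A →ₗ[K] B →ₗ[K] K) (Q : A' →ₗ[K] B' →ₗ[K] K)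
    (hP1 : ∀ b, (∀ a, P a b = 0) → b = 0) (hP2 : ∀ a, (∀ b, P a b = 0) → a = 0)
    (hQ1 : ∀ b, (∀ a, Q a b = 0) → b = 0) (hQ2 : ∀ a, (∀ b, Q a b = 0) → a = 0)
    (f : A →ₗ[K] A') (g : B' →ₗ[K] B) (h : ∀ a b, Q (f a) b = P a (g b)) :
    Module.finrank K (LinearMap.range f) = Module.finrank K (LinearMap.range g) := by
  have hPs : Function.Surjective P := DE_surj P hP1 hP2
  have hQi : Function.Injective Q := by
    rw [injective_iff_map_eq_zero]
    intro a ha
    refine hQ2 a (fun b => ?_)
    rw [ha]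
    rfl
  have hcomp : Q ∘ₗ f = g.dualMap ∘ₗ P := by
    refine LinearMap.ext fun a => LinearMap.ext fun b => ?_
    exact h a b
  have h1 : Module.finrank K (LinearMap.range (Q ∘ₗ f)) = Module.finrank K (LinearMap.range f) := by
    rw [LinearMap.range_comp]
    exact (LinearEquiv.finrank_eq (Submodule.equivMapOfInjective Q hQi (LinearMap.range f))).symm
  have h2 : LinearMap.range (g.dualMap ∘ₗ P) = LinearMap.range g.dualMap :=
    LinearMap.range_comp_of_range_eq_top _ (LinearMap.range_eq_top.2 hPs)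
  rw [← h1, hcomp, h2, LinearMap.finrank_range_dualMap_eq_finrank_range]

section

variable {G Ξ V : Type} [Group G] [MulAction G Ξ] [MulAction G V] {sm : V → V → Prop}
  {cusp : V → Option Ξ} {K : Type} [Field K] {E : Type} [AddCommGroup E] [Module K E]

theorem DE_gen (hF : Face G Ξ V sm cusp) (hT : TFree G) [FiniteDimensional K E] (ω : G →* Kˣ)
    (σ : Representation K G E) (n : ℕ) {E' : Type} [AddCommGroup E'] [Module K E']
    [FiniteDimensional K E'] (σ' : Representation K G E')
    (P : HomG (τD (sm := sm) (cusp := cusp) hF ω (n + 1)) σ' →ₗ[K] EQE sm cusp σ (n + 1) →ₗ[K] K)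
    (Q : HomG (τD (sm := sm) (cusp := cusp) hF ω n) σ' →ₗ[K] EQE sm cusp σ n →ₗ[K] K)
    (hP1 : ∀ c, (∀ Ψ, P Ψ c = 0) → c = 0) (hP2 : ∀ Ψ, (∀ c, P Ψ c = 0) → Ψ = 0)
    (hQ1 : ∀ c, (∀ Ψ, Q Ψ c = 0) → c = 0) (hQ2 : ∀ Ψ, (∀ c, Q Ψ c = 0) → Ψ = 0)
    (h : ∀ Ψ c, Q (preC hF ω σ' n Ψ) c = P Ψ (crQ hF σ n c)) :
    Module.finrank K (LinearMap.range (preC (sm := sm) (cusp := cusp) hF ω σ' n)) =
      Module.finrank K (LinearMap.range (crQ (sm := sm) (cusp := cusp) hF σ n)) := by
  obtain ⟨d, hd⟩ := exists_dims (sm := sm) (cusp := cusp) hF hT K ω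
  have i1 : FiniteDimensional K (EQE sm cusp σ (n + 1)) := (hd (n + 1) E σ).1
  have i2 : FiniteDimensional K (EQE sm cusp σ n) := (hd n E σ).1
  have i3 : FiniteDimensional K (HomG (τD (sm := sm) (cusp := cusp) hF ω (n + 1)) σ') :=
    (hd (n + 1) E' σ').2.1
  have i4 : FiniteDimensional K (HomG (τD (sm := sm) (cusp := cusp) hF ω n) σ') :=
    (hd n E' σ').2.1
  exact rank_adj P Q hP1 hP2 hQ1 hQ2 _ _ h

/-- Proof. `rank_adj` for the pairings of `exists_pair` in the degrees `n + 1` (`P`) and `n` (`Q`),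
`f = preC hF ω (dualW ω σ) n`, `g = crQ hF σ n`. Adjointness `Q (preC Ψ) c = P Ψ (crQ c)`: both sides are linear in
`c`, so by the last property of `exists_pair` we may assume `c = avE σ f v`: the left side is
`(preC Ψ) f v = Ψ (crD f) v`, the right side is `P Ψ (avE σ (crD f) v) = Ψ (crD f) v` by `cr_avE`.
Finite-dimensionality: `exists_dims` (also for `dualW ω σ` on `Module.Dual K E`). -/
theorem rank_dual (hF : Face G Ξ V sm cusp) (hT : TFree G) [FiniteDimensional K E] (ω : G →* Kˣ)
    (σ : Representation K G E) (n : ℕ) :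
    Module.finrank K (LinearMap.range (preC (sm := sm) (cusp := cusp) hF ω (dualW ω σ) n)) =
      Module.finrank K (LinearMap.range (crQ (sm := sm) (cusp := cusp) hF σ n)) := by
  obtain ⟨P, hPf, hP1, hP2, _⟩ := exists_pair (sm := sm) (cusp := cusp) hF hT ω σ (n + 1)
  obtain ⟨Q, hQf, hQ1, hQ2, hQs⟩ := exists_pair (sm := sm) (cusp := cusp) hF hT ω σ n
  refine DE_gen hF hT ω σ n (dualW ω σ) P Q hP1 hP2 hQ1 hQ2 ?_
  intro Ψ c
  have hc : c ∈ Submodule.span K {c : EQE sm cusp σ n |
      ∃ (f : DSub sm cusp K n) (v : E), c.1 = avE σ f.1 v} := by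
    rw [hQs]
    exact Submodule.mem_top
  induction hc using Submodule.span_induction with
  | mem x hx =>
    obtain ⟨f, v, hfv⟩ := hx
    have h1 : x = ⟨avE σ f.1 v, avE_mem hF σ f.2 v⟩ := Subtype.ext hfv
    have h2 : crQ hF σ n x = ⟨avE σ (crD hF K n f).1 v, avE_mem hF σ (crD hF K n f).2 v⟩ := by
      apply Subtype.ext
      rw [crQ_coe, hfv]
      exact cr_avE hF σ f v
    rw [h2, hPf, h1, hQf]
    rfl
  | zero => simp
  | add x y _ _ hx hy => rw [map_add, map_add, map_add, hx, hy]
  | smul a x _ hx => rw [map_smul, map_smul, map_smul, hx]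

end

end Thu
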