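import Pool.Agent.W_04c03c_h58t.DDef

/-!
# Exactness in the degrees at least three
-/

namespace Thu

open RCan

section

variable {G Ξ V : Type} [Group G] [MulAction G Ξ] [MulAction G V] {sm : V → V → Prop}
  {cusp : V → Option Ξ} {K : Type} [Field K] {E : Type} [AddCommGroup E] [Module K E]

/-- An equivariant map which vanishes on the cocycles of degree `n ≥ 3` factors through the coboundary.

Proof. `exists_retr` (`W_04c03c_h58/AlgD.lean`) for `n + 1` gives an equivariant retraction `ρ` of the cochains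
of degree `n + 1` onto the cocycles. Every cocycle of degree `n + 1` is a coboundary (`exists_crD`, `3 ≤ n`), so
`exists_lift` with `P = ρ` gives an equivariant `L` from degree `n + 1` to degree `n` with `crD (L f) = ρ f`.
Put `Ψ' = Ψ ∘ L` (equivariant for `τD`, since `L` commutes with `trD`). For `f` of degree `n`:
`crD (L (crD f)) = ρ (crD f) = crD f`, so `L (crD f) - f` is a cocycle and `Ψ (L (crD f)) = Ψ f`. -/
theorem factor_cr (hF : Face G Ξ V sm cusp) (hT : TFree G) (ω : G →* Kˣ) (σ : Representation K G E)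
    {n : ℕ} (hn : 3 ≤ n) (Ψ : HomG (τD (sm := sm) (cusp := cusp) hF ω n) σ)
    (h : ∀ f : DSub sm cusp K n, crD hF K n f = 0 → Ψ.1 f = 0) :
    ∃ Ψ' : HomG (τD (sm := sm) (cusp := cusp) hF ω (n + 1)) σ, preC hF ω σ n Ψ' = Ψ := by
  obtain ⟨ρ, h1, h2, h3⟩ := exists_retr hF hT K (n + 1) (by omega)
  obtain ⟨L, hL1, hL2⟩ := exists_lift hF hT K n (n + 1) ρ h1
    (fun f => exists_crD hF K (Or.inr hn) (ρ f) (h2 f))
  have hL : ∀ (g : G) (f : DSub sm cusp K (n + 1)), L (τD hF ω (n + 1) g f) =
      τD hF ω n g (L f) := by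
    intro g f
    rw [τD_apply, τD_apply, map_smul, hL1]
  refine ⟨⟨Ψ.1 ∘ₗ L, fun g f => ?_⟩, Subtype.ext (LinearMap.ext fun f => ?_)⟩
  · rw [LinearMap.comp_apply, LinearMap.comp_apply, hL]
    exact Ψ.2 g (L f)
  · rw [preC_apply]
    show Ψ.1 (L (crD hF K n f)) = Ψ.1 f
    have h4 : crD hF K n (L (crD hF K n f) - f) = 0 := by
      rw [map_sub, hL2, h3 _ (crD_crD hF f), sub_self]
    have h5 := h _ h4
    rw [map_sub] at h5
    exact sub_eq_zero.1 h5

/-- Exactness. Proof: a cocycle of degree `n + 1` is a coboundary (`exists_crD`, `3 ≤ n`), so `Ψ` vanishes on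
it; `factor_cr`. -/
theorem preC_exact (hF : Face G Ξ V sm cusp) (hT : TFree G) (ω : G →* Kˣ)
    (σ : Representation K G E) {n : ℕ} (hn : 3 ≤ n)
    (Ψ : HomG (τD (sm := sm) (cusp := cusp) hF ω (n + 1)) σ) (h : preC hF ω σ n Ψ = 0) :
    ∃ Ψ' : HomG (τD (sm := sm) (cusp := cusp) hF ω (n + 2)) σ, preC hF ω σ (n + 1) Ψ' = Ψ := by
  refine factor_cr hF hT ω σ (by omega) Ψ fun f hf => ?_
  obtain ⟨e, he⟩ := exists_crD hF K (Or.inr hn) f hf
  rw [← he, ← preC_apply, h]
  rfl

/-- There are no relative cochains of large degree.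

Proof. Let `F` be as in `hF.fin` and `n ≥ F.ncard`. If `f l ≠ 0` then `l` has length `n + 1`, no repeated entries
(`Alt.not_nodup`) and is relative, so a translate of `l` has entries in `F`: a contradiction
(`List.Nodup.length_le_card` or similar). See also the beginning of the proof of `exists_retr`
(`W_04c03c_h58/AlgD.lean`). -/
theorem exists_top (hF : Face G Ξ V sm cusp) (K : Type) [Field K] :
    ∃ M : ℕ, ∀ n, M ≤ n → ∀ f : DSub sm cusp K n, f = 0 := by
  classical
  obtain ⟨F, hFf, hF'⟩ := hF.fin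
  refine ⟨hFf.toFinset.card, fun n hc f => ?_⟩
  apply Subtype.ext
  funext l
  by_contra hl
  have hl : f.1 l ≠ 0 := hl
  have hnd : l.Nodup := by
    by_contra h
    exact hl (f.2.alt.not_nodup h)
  obtain ⟨g, hg⟩ := hF' l (f.2.rl l hl)
  have h1 : (l.map (fun x => g • x)).Nodup := hnd.map (MulAction.injective g)
  have h2 : (l.map (fun x => g • x)).toFinset ⊆ hFf.toFinset := by
    intro y hy
    rw [List.mem_toFinset, List.mem_map] at hy
    obtain ⟨x, hx, rfl⟩ := hy
    exact hFf.mem_toFinset.2 (hg x hx)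
  have h3 := Finset.card_le_card h2
  rw [List.toFinset_card_of_nodup h1, List.length_map, f.2.len l hl] at h3
  omega

end

end Thu
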