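import Pool.Agent.W_04c03c_h58t.DF
import Pool.Agent.W_04c03c_h58t.DD

/-!
# Degree three
-/

namespace Thu

open RCan

section

variable {G Ξ V : Type} [Group G] [MulAction G Ξ] [MulAction G V] {sm : V → V → Prop}
  {cusp : V → Option Ξ} {K : Type} [Field K] {E : Type} [AddCommGroup E] [Module K E]

/-- A linear map on the cocycles of degree three from its values at `z` and at the coboundaries. -/
theorem DG_exists_lam (hF : Face G Ξ V sm cusp) {ω : G →* Kˣ}
    {z : DSub sm cusp K 3} (hz : Ori hF ω z)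
    (Φ : DSub sm cusp K 2 →ₗ[K] E)
    (hΦ : ∀ e, crD hF K 2 e = 0 → Φ e = 0) (m : E) :
    ∃ lam : LinearMap.ker (crD (sm := sm) (cusp := cusp) hF K 3) →ₗ[K] E,
      ∀ (c : K) (e : DSub sm cusp K 2) (h : c • z + crD hF K 2 e ∈ LinearMap.ker (crD hF K 3)),
        lam ⟨c • z + crD hF K 2 e, h⟩ = c • m + Φ e := by
  have hmem : ∀ (c : K) (e : DSub sm cusp K 2),
      c • z + crD hF K 2 e ∈ LinearMap.ker (crD hF K 3) := by
    intro c e
    rw [LinearMap.mem_ker, map_add, map_smul, hz.cyc, smul_zero, crD_crD, add_zero]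
  let T₀ : (K × DSub sm cusp K 2) →ₗ[K] DSub sm cusp K 3 :=
    (LinearMap.toSpanSingleton K (DSub sm cusp K 3) z) ∘ₗ LinearMap.fst K K (DSub sm cusp K 2) +
      (crD hF K 2) ∘ₗ LinearMap.snd K K (DSub sm cusp K 2)
  have hT₀ : ∀ c e, T₀ (c, e) = c • z + crD hF K 2 e := fun c e => by
    simp [T₀]
  let T : (K × DSub sm cusp K 2) →ₗ[K] LinearMap.ker (crD (sm := sm) (cusp := cusp) hF K 3) :=
    T₀.codRestrict _ (fun p => by
      obtain ⟨c, e⟩ := p
      rw [hT₀]
      exact hmem c e)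
  let S : (K × DSub sm cusp K 2) →ₗ[K] E :=
    (LinearMap.toSpanSingleton K E m) ∘ₗ LinearMap.fst K K (DSub sm cusp K 2) +
      Φ ∘ₗ LinearMap.snd K K (DSub sm cusp K 2)
  have hS : ∀ c e, S (c, e) = c • m + Φ e := fun c e => by
    simp [S]
  have hT : ∀ c e, ((T (c, e) : LinearMap.ker (crD (sm := sm) (cusp := cusp) hF K 3)) :
      DSub sm cusp K 3) = c • z + crD hF K 2 e := fun c e => hT₀ c e
  have hker : ∀ p, T p = 0 → S p = 0 := by
    rintro ⟨c, e⟩ hp
    have h1 : c • z + crD hF K 2 e = 0 := by rw [← hT, hp]; rfl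
    have hc : c = 0 := by
      by_contra hc
      refine hz.nv (-(c⁻¹ • e)) ?_
      rw [map_neg, map_smul]
      have h2 : crD hF K 2 e = -(c • z) := by
        rw [add_comm] at h1
        exact eq_neg_of_add_eq_zero_left h1
      rw [h2, smul_neg, neg_neg, smul_smul, inv_mul_cancel₀ hc, one_smul]
    rw [hc, zero_smul, zero_add] at h1
    rw [hS, hc, hΦ e h1, zero_smul, add_zero]
  have hsur : LinearMap.range T = ⊤ := by
    rw [LinearMap.range_eq_top]
    rintro ⟨f, hf⟩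
    obtain ⟨c, e, h1⟩ := hz.gen f (LinearMap.mem_ker.1 hf)
    exact ⟨(c, e), Subtype.ext (by rw [hT]; exact h1.symm)⟩
  have hfree : Module.Free K (LinearMap.ker (crD (sm := sm) (cusp := cusp) hF K 3)) :=
    Module.Free.of_divisionRing K (LinearMap.ker (crD (sm := sm) (cusp := cusp) hF K 3))
  have hproj : Module.Projective K (LinearMap.ker (crD (sm := sm) (cusp := cusp) hF K 3)) :=
    Module.Projective.of_free
  obtain ⟨g, hg⟩ := T.exists_rightInverse_of_surjective hsur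
  refine ⟨S ∘ₗ g, fun c e h => ?_⟩
  have h1 : (⟨c • z + crD hF K 2 e, h⟩ :
      LinearMap.ker (crD (sm := sm) (cusp := cusp) hF K 3)) = T (c, e) :=
    Subtype.ext (hT c e).symm
  rw [h1, LinearMap.comp_apply]
  have h2 : T (g (T (c, e)) - (c, e)) = 0 := by
    rw [map_sub]
    have h3 : T (g (T (c, e))) = T (c, e) := LinearMap.congr_fun hg (T (c, e))
    rw [h3, sub_self]
  have h4 := hker _ h2
  rw [map_sub, hS] at h4
  exact sub_eq_zero.1 h4

/-- An equivariant map on the cochains of degree three from its values at the class `z` and at the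
coboundaries.

Proof. Let `ρ` be the equivariant retraction of `exists_retr` (`W_04c03c_h58/AlgD.lean`) onto the cocycles of
degree three. Every cocycle is `c • z + crD e` (`hz.gen`); put `λ (c • z + crD e) = c • m + Φ e`: it is well
defined because `c` is unique (`hz.nv`: if `c • z` is a coboundary then `c = 0`) and `Φ e` depends only on `crD e`
(`hΦ`). `λ` is linear on the kernel of `crD`, and equivariant: `λ (τD g (crD e)) = λ (crD (τD g e)) = Φ (τD g e) =
σ g (Φ e)`, and `τD g z = z + crD e'` (`hz.tw`), so `λ (τD g z) = m + Φ e' = σ g m` by `hm`. `Ψ = λ ∘ ρ`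
(`ρ` commutes with `trD`, so with `τD`). -/
theorem exists_three (hF : Face G Ξ V sm cusp) (hT : TFree G) {ω : G →* Kˣ}
    {z : DSub sm cusp K 3} (hz : Ori hF ω z) (σ : Representation K G E)
    (Φ : DSub sm cusp K 2 →ₗ[K] E) (hΦe : ∀ g f, Φ (τD hF ω 2 g f) = σ g (Φ f))
    (hΦ : ∀ e, crD hF K 2 e = 0 → Φ e = 0) (m : E)
    (hm : ∀ (g : G) (e : DSub sm cusp K 2), crD hF K 2 e = τD hF ω 3 g z - z →
      Φ e = σ g m - m) :
    ∃ Ψ : HomG (τD (sm := sm) (cusp := cusp) hF ω 3) σ, Ψ.1 z = m ∧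
      ∀ e, Ψ.1 (crD hF K 2 e) = Φ e := by
  obtain ⟨ρ, h1, h2, h3⟩ := exists_retr hF hT K 3 le_rfl
  obtain ⟨lam, hlam⟩ := DG_exists_lam hF hz Φ hΦ m
  have hmem : ∀ (c : K) (e : DSub sm cusp K 2),
      c • z + crD hF K 2 e ∈ LinearMap.ker (crD hF K 3) := by
    intro c e
    rw [LinearMap.mem_ker, map_add, map_smul, hz.cyc, smul_zero, crD_crD, add_zero]
  let ρ' : DSub sm cusp K 3 →ₗ[K] LinearMap.ker (crD (sm := sm) (cusp := cusp) hF K 3) :=
    ρ.codRestrict _ (fun f => LinearMap.mem_ker.2 (h2 f))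
  have hval : ∀ (f : DSub sm cusp K 3) (c : K) (e : DSub sm cusp K 2),
      ρ f = c • z + crD hF K 2 e → lam (ρ' f) = c • m + Φ e := by
    intro f c e h
    have h4 : ρ' f = ⟨c • z + crD hF K 2 e, hmem c e⟩ := Subtype.ext h
    rw [h4, hlam]
  refine ⟨⟨lam ∘ₗ ρ', fun g f => ?_⟩, ?_, fun e => ?_⟩
  · rw [LinearMap.comp_apply, LinearMap.comp_apply]
    obtain ⟨c, e, hf⟩ := hz.gen (ρ f) (h2 f)
    obtain ⟨e', he'⟩ := hz.tw g
    have h4 : ρ (τD hF ω 3 g f) = τD hF ω 3 g (ρ f) := by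
      rw [τD_apply, τD_apply, map_smul, h1]
    have h5 : ρ (τD hF ω 3 g f) = c • z + crD hF K 2 (c • e' + τD hF ω 2 g e) := by
      rw [h4, hf, map_add, map_smul, map_add, map_smul, he', crD_τD]
      module
    rw [hval _ _ _ h5, hval _ _ _ hf, map_add, map_smul, hΦe, hm g e' he', map_add, map_smul]
    module
  · show lam (ρ' z) = m
    have h4 : ρ z = (1 : K) • z + crD hF K 2 0 := by
      rw [h3 z hz.cyc, one_smul, map_zero, add_zero]
    rw [hval _ _ _ h4, one_smul, map_zero, add_zero]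
  · show lam (ρ' (crD hF K 2 e)) = Φ e
    have h4 : ρ (crD hF K 2 e) = (0 : K) • z + crD hF K 2 e := by
      rw [h3 _ (crD_crD hF e), zero_smul, zero_add]
    rw [hval _ _ _ h4, zero_smul, zero_add]

/-- Proof. The map `Ψ ↦ Ψ z` from the kernel of `preC 2` to the invariants (`Ψ (τD g z) = Ψ z + Ψ (crD e) = Ψ z`,
`hz.tw`) is onto (`exists_three` with `Φ = 0`), and its kernel is the range of `preC 3`: `Ψ` vanishes on all
cocycles by `hz.gen`, use `factor_cr` with `n = 3`; conversely `(preC 3 Ψ') z = Ψ' (crD z) = 0` and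
`preC 2 (preC 3 Ψ') = 0`. Finite-dimensionality: `exists_dims`. Rank-nullity. -/
theorem finrank_three (hF : Face G Ξ V sm cusp) (hT : TFree G) [FiniteDimensional K E]
    {ω : G →* Kˣ} {z : DSub sm cusp K 3} (hz : Ori hF ω z) (σ : Representation K G E) :
    Module.finrank K (LinearMap.ker (preC (sm := sm) (cusp := cusp) hF ω σ 2)) =
      Module.finrank K (LinearMap.range (preC (sm := sm) (cusp := cusp) hF ω σ 3)) +
        Module.finrank K (Inv σ) := by
  obtain ⟨d, hd⟩ := exists_dims (sm := sm) (cusp := cusp) hF hT K ω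
  have hfd : FiniteDimensional K (HomG (τD (sm := sm) (cusp := cusp) hF ω 3) σ) :=
    (hd 3 E σ).2.1
  let Q : Submodule K (HomG (τD (sm := sm) (cusp := cusp) hF ω 3) σ) :=
    LinearMap.ker (preC (sm := sm) (cusp := cusp) hF ω σ 2)
  have hQ : ∀ (Ψ : Q) (e : DSub sm cusp K 2), Ψ.1.1 (crD hF K 2 e) = 0 := by
    intro Ψ e
    have h1 : preC hF ω σ 2 Ψ.1 = 0 := LinearMap.mem_ker.1 Ψ.2
    rw [← preC_apply, h1]
    rfl
  let ev : Q →ₗ[K] Inv σ :=
    { toFun := fun Ψ => ⟨Ψ.1.1 z, fun g => by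
        obtain ⟨e, he⟩ := hz.tw g
        have h1 : τD hF ω 3 g z = z + crD hF K 2 e := by rw [he]; abel
        rw [← Ψ.1.2 g z, h1, map_add, hQ, add_zero]⟩
      map_add' := fun _ _ => rfl
      map_smul' := fun _ _ => rfl }
  have hsur : LinearMap.range ev = ⊤ := by
    rw [LinearMap.range_eq_top]
    rintro ⟨v, hv⟩
    obtain ⟨Ψ, h1, h2⟩ := exists_three hF hT hz σ (0 : DSub sm cusp K 2 →ₗ[K] E)
      (fun g f => by simp) (fun e _ => rfl) v (fun g e _ => by
        have := hv g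
        rw [this, sub_self]
        rfl)
    refine ⟨⟨Ψ, LinearMap.mem_ker.2 (Subtype.ext (LinearMap.ext fun f => ?_))⟩,
      Subtype.ext h1⟩
    rw [preC_apply, h2]
    rfl
  have hker : (LinearMap.ker ev).map Q.subtype =
      LinearMap.range (preC (sm := sm) (cusp := cusp) hF ω σ 3) := by
    apply le_antisymm
    · rintro _ ⟨Ψ, hΨ, rfl⟩
      have hz0 : Ψ.1.1 z = 0 := congrArg Subtype.val (LinearMap.mem_ker.1 hΨ)
      have h1 : ∀ f : DSub sm cusp K 3, crD hF K 3 f = 0 → Ψ.1.1 f = 0 := by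
        intro f hf
        obtain ⟨c, e, h2⟩ := hz.gen f hf
        rw [h2, map_add, map_smul, hz0, smul_zero, hQ, add_zero]
      obtain ⟨Ψ', h2⟩ := factor_cr hF hT ω σ le_rfl Ψ.1 h1
      exact ⟨Ψ', h2⟩
    · rintro _ ⟨Ψ', rfl⟩
      have h1 : preC hF ω σ 3 Ψ' ∈ Q := LinearMap.mem_ker.2 (preC_preC hF ω σ 2 Ψ')
      refine ⟨⟨preC hF ω σ 3 Ψ', h1⟩, LinearMap.mem_ker.2 (Subtype.ext ?_), rfl⟩
      show (preC hF ω σ 3 Ψ').1 z = 0
      rw [preC_apply, hz.cyc, map_zero]
  have h1 := LinearMap.finrank_range_add_finrank_ker (K := K) (V := Q) (V₂ := Inv σ) ev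
  rw [hsur, finrank_top, ← Submodule.finrank_map_subtype_eq Q, hker] at h1
  show Module.finrank K Q = _
  omega

end

end Thu
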