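import Pool.Agent.W_04c03c_h58t.DG
import Pool.Agent.W_04c03c_h58t.DE

/-!
# The Euler characteristic of the relative cochains
-/

namespace Thu

open RCan

section

variable {G Ξ V : Type} [Group G] [MulAction G Ξ] [MulAction G V] {sm : V → V → Prop}
  {cusp : V → Option Ξ} {K : Type} [Field K]

/-- The range of `preC n` in the degrees `n ≥ 3`. -/
theorem DH_zeta_aux (hF : Face G Ξ V sm cusp) (hT : TFree G) {ω : G →* Kˣ} (M : ℕ)
    (hM : ∀ n, M ≤ n → ∀ f : DSub sm cusp K n, f = 0) (d : ℕ → ℕ)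
    (hd : ∀ (n : ℕ) (E : Type) [AddCommGroup E] [Module K E] [FiniteDimensional K E]
      (σ : Representation K G E),
      FiniteDimensional K (EQE sm cusp σ n) ∧
      FiniteDimensional K (HomG (τD (sm := sm) (cusp := cusp) hF ω n) σ) ∧
      Module.finrank K (EQE sm cusp σ n) = d n * Module.finrank K E ∧
      Module.finrank K (HomG (τD (sm := sm) (cusp := cusp) hF ω n) σ) =
        d n * Module.finrank K E) :
    ∀ k n : ℕ, 3 ≤ n → M ≤ n + k → ∃ ζ : ℕ, ∀ (E : Type) [AddCommGroup E] [Module K E]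
      [FiniteDimensional K E] (σ : Representation K G E),
      Module.finrank K (LinearMap.range (preC (sm := sm) (cusp := cusp) hF ω σ n)) =
        ζ * Module.finrank K E := by
  intro k
  induction k with
  | zero =>
    intro n _ hMn
    refine ⟨0, ?_⟩
    intro E _ _ _ σ
    have h1 : preC (sm := sm) (cusp := cusp) hF ω σ n = 0 := by
      apply LinearMap.ext
      intro Ψ
      apply Subtype.ext
      apply LinearMap.ext
      intro f
      rw [hM n hMn f, map_zero, map_zero]
    rw [h1, LinearMap.range_zero, finrank_bot, zero_mul]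
  | succ k ih =>
    intro n h3 hMn
    obtain ⟨ζ, hζ⟩ := ih (n + 1) (by omega) (by omega)
    refine ⟨d (n + 1) - ζ, ?_⟩
    intro E _ _ _ σ
    obtain ⟨-, hfd, -, hfr⟩ := hd (n + 1) E σ
    have h1 := LinearMap.finrank_range_add_finrank_ker
      (preC (sm := sm) (cusp := cusp) hF ω σ n)
    have h2 : LinearMap.ker (preC (sm := sm) (cusp := cusp) hF ω σ n) =
        LinearMap.range (preC (sm := sm) (cusp := cusp) hF ω σ (n + 1)) := by
      apply le_antisymm
      · intro Ψ hΨ
        obtain ⟨Ψ', h⟩ := preC_exact hF hT ω σ h3 Ψ hΨ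
        exact ⟨Ψ', h⟩
      · rintro Ψ ⟨Ψ', rfl⟩
        exact preC_preC hF ω σ n Ψ'
    rw [h2, hζ E σ, hfr] at h1
    rw [Nat.sub_mul]
    omega

/-- Proof. Let `d` be as in `exists_dims`. Claim: for every `n ≥ 3` there is `ζ n` with
`finrank (range (preC n)) = ζ n * finrank E` for all `E, σ`. For `n ≥ M` (`exists_top`) the range is zero. Downward
induction (e.g. induction on `M - n`): for `n ≥ 3` rank-nullity for `preC n` on `HomG (τD (n + 1)) σ` gives
`d (n + 1) * finrank E = finrank (ker (preC n)) + finrank (range (preC n))`, and `ker (preC n) = range (preC (n + 1))`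
(`preC_exact`, `preC_preC`), so `ζ n = d (n + 1) - ζ (n + 1)` (a subtraction of natural numbers which is exact: if
`finrank E ≥ 1`, and if `finrank E = 0` everything is zero; use `E = K` with the trivial representation to see
`ζ (n + 1) ≤ d (n + 1)`). For the statement: `d 3 * finrank E = finrank (ker (preC 2)) + finrank (range (preC 2))` and
`finrank_three`: `ζ = d 3 - ζ 3`. -/
theorem exists_zeta (hF : Face G Ξ V sm cusp) (hT : TFree G) {ω : G →* Kˣ}
    {z : DSub sm cusp K 3} (hz : Ori hF ω z) :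
    ∃ ζ : ℕ, ∀ (E : Type) [AddCommGroup E] [Module K E] [FiniteDimensional K E]
      (σ : Representation K G E),
      Module.finrank K (LinearMap.range (preC (sm := sm) (cusp := cusp) hF ω σ 2)) +
        Module.finrank K (Inv σ) = ζ * Module.finrank K E := by
  obtain ⟨d, hd⟩ := exists_dims (sm := sm) (cusp := cusp) hF hT K ω
  obtain ⟨M, hM⟩ := exists_top hF K
  obtain ⟨ζ, hζ⟩ := DH_zeta_aux hF hT (ω := ω) M hM d hd M 3 (by omega) (by omega)
  refine ⟨d 3 - ζ, ?_⟩
  intro E _ _ _ σ
  obtain ⟨-, hfd, -, hfr⟩ := hd 3 E σ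
  have h1 := LinearMap.finrank_range_add_finrank_ker
    (preC (sm := sm) (cusp := cusp) hF ω σ 2)
  have h2 := finrank_three hF hT hz σ
  rw [h2, hζ E σ, hfr] at h1
  rw [Nat.sub_mul]
  omega

theorem DH_const (hF : Face G Ξ V sm cusp) {A : Type} (F : V → A)
    (h : ∀ x y, sm x y → F x = F y) (x y : V) : F x = F y := by
  obtain ⟨rk, ps, hd⟩ := hF.dis
  have hex : ∀ (n : ℕ) (v : V), rk v ≤ n → ∃ v₀, rk v₀ = 0 ∧ F v = F v₀ := by
    intro n
    induction n with
    | zero =>
      intro v hv
      exact ⟨v, Nat.le_zero.1 hv, rfl⟩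
    | succ n ih =>
      intro v hv
      rcases Nat.eq_zero_or_pos (rk v) with h0 | h0
      · exact ⟨v, h0, rfl⟩
      · obtain ⟨h1, h2⟩ := hd.1 v h0
        obtain ⟨v₀, h3, h4⟩ := ih (ps v) (by omega)
        exact ⟨v₀, h3, (h v (ps v) (h2 v (hF.refl v) le_rfl)).trans h4⟩
  obtain ⟨x₀, h1, h2⟩ := hex _ x le_rfl
  obtain ⟨y₀, h3, h4⟩ := hex _ y le_rfl
  rw [h2, h4]
  exact h _ _ (hd.2 x₀ y₀ h1 h3)

/-- Relative cochains of degree zero with vanishing coboundary are zero, if there is a cusp.

Proof. `c [x] = c [y]` for `sm x y` (`cr sm c [x, y] = c [y] - c [x]`), so `x ↦ c [x]` is constant (`AlgH_const` in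
`W_04c03c_h58/AlgH.lean` for functions with values in a field: copy its proof), and it vanishes at the vertices of
a cusp (`hF.ex`), because `[x]` is contained in a cusp. -/
theorem crQ_zero_inj (hF : Face G Ξ V sm cusp) [Nonempty Ξ] {E : Type} [AddCommGroup E]
    [Module K E] (σ : Representation K G E) :
    Function.Injective (crQ (sm := sm) (cusp := cusp) hF σ 0) := by
  rw [injective_iff_map_eq_zero]
  intro c hc
  have hcr : cr sm c.1 = 0 := congrArg Subtype.val hc
  have hsm : ∀ x y, sm x y → c.1 [x] = c.1 [y] := by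
    intro x y hxy
    have hS : Sml sm [x, y] := by
      intro a ha b hb
      simp only [List.mem_cons, List.not_mem_nil, or_false] at ha hb
      rcases ha with rfl | rfl <;> rcases hb with rfl | rfl
      · exact hF.refl _
      · exact hxy
      · exact hF.symm _ _ hxy
      · exact hF.refl _
    have h1 := congrFun hcr [x, y]
    unfold cr at h1
    rw [if_pos hS, co_apply, dl_cons, dl_cons, dl_nil] at h1
    simp only [Pi.zero_apply, sub_zero] at h1
    exact (sub_eq_zero.1 h1).symm
  obtain ⟨ξ⟩ := (inferInstance : Nonempty Ξ)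
  obtain ⟨v, hv⟩ := hF.ex ξ
  have hv0 : c.1 [v] = 0 := by
    by_contra h
    apply (c.2.1.rl _ h).2
    refine ⟨ξ, fun x hx => ?_⟩
    simp only [List.mem_cons, List.not_mem_nil, or_false] at hx
    rw [hx]
    exact hv
  apply Subtype.ext
  funext l
  show c.1 l = 0
  by_contra h
  have hl := c.2.1.len _ h
  rw [Nat.zero_add, List.length_eq_one_iff] at hl
  obtain ⟨x, rfl⟩ := hl
  apply h
  rw [← hv0]
  exact DH_const hF (fun x => c.1 [x]) hsm x v

/-- The Euler characteristic.

Proof. With `d` from `exists_dims` and `ζ` from `exists_zeta` put `x = d 0 - d 1 + d 2 - ζ`. Let `e = finrank E`,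
`rₙ = finrank (range (crQ n))`. `r₀ = d 0 * e` (`crQ_zero_inj`), `finrank (ker (crQ 1)) = d 1 * e - r₁`,
`finrank (ker (crQ 2)) = d 2 * e - r₂` (rank-nullity), and by `rank_dual` and `exists_zeta` for `dualW ω σ`
(`finrank (Dual K E) = e`) `r₂ + finrank (Inv (dualW ω σ)) = ζ * e`. -/
theorem exists_euler (hF : Face G Ξ V sm cusp) (hT : TFree G) [Nonempty Ξ] {ω : G →* Kˣ}
    {z : DSub sm cusp K 3} (hz : Ori hF ω z) :
    ∃ x : ℤ, ∀ (E : Type) [AddCommGroup E] [Module K E] [FiniteDimensional K E]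
      (σ : Representation K G E),
      (Module.finrank K (LinearMap.ker (crQ (sm := sm) (cusp := cusp) hF σ 2)) : ℤ) -
          Module.finrank K (LinearMap.range (crQ (sm := sm) (cusp := cusp) hF σ 1)) =
        Module.finrank K (LinearMap.ker (crQ (sm := sm) (cusp := cusp) hF σ 1)) -
          Module.finrank K (LinearMap.range (crQ (sm := sm) (cusp := cusp) hF σ 0)) +
        x * Module.finrank K E + Module.finrank K (Inv (dualW ω σ)) := by
  obtain ⟨d, hd⟩ := exists_dims (sm := sm) (cusp := cusp) hF hT K ω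
  obtain ⟨ζ, hζ⟩ := exists_zeta hF hT hz
  refine ⟨(d 0 : ℤ) - d 1 + d 2 - ζ, ?_⟩
  intro E _ _ _ σ
  obtain ⟨hfd0, -, hfr0, -⟩ := hd 0 E σ
  obtain ⟨hfd1, -, hfr1, -⟩ := hd 1 E σ
  obtain ⟨hfd2, -, hfr2, -⟩ := hd 2 E σ
  have h0 := LinearMap.finrank_range_of_inj (crQ_zero_inj (sm := sm) (cusp := cusp) hF σ)
  have h1 := LinearMap.finrank_range_add_finrank_ker (crQ (sm := sm) (cusp := cusp) hF σ 1)
  have h2 := LinearMap.finrank_range_add_finrank_ker (crQ (sm := sm) (cusp := cusp) hF σ 2)
  have h3 := hζ (Module.Dual K E) (dualW ω σ)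
  rw [rank_dual hF hT ω σ 2, Subspace.dual_finrank_eq] at h3
  rw [hfr0] at h0
  rw [hfr1] at h1
  rw [hfr2] at h2
  have h0' : (Module.finrank K (LinearMap.range (crQ (sm := sm) (cusp := cusp) hF σ 0)) : ℤ) =
      d 0 * Module.finrank K E := by exact_mod_cast h0
  have h1' : (Module.finrank K (LinearMap.range (crQ (sm := sm) (cusp := cusp) hF σ 1)) : ℤ) +
      Module.finrank K (LinearMap.ker (crQ (sm := sm) (cusp := cusp) hF σ 1)) =
      d 1 * Module.finrank K E := by exact_mod_cast h1
  have h2' : (Module.finrank K (LinearMap.range (crQ (sm := sm) (cusp := cusp) hF σ 2)) : ℤ) +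
      Module.finrank K (LinearMap.ker (crQ (sm := sm) (cusp := cusp) hF σ 2)) =
      d 2 * Module.finrank K E := by exact_mod_cast h2
  have h3' : (Module.finrank K (LinearMap.range (crQ (sm := sm) (cusp := cusp) hF σ 2)) : ℤ) +
      Module.finrank K (Inv (dualW ω σ)) = ζ * Module.finrank K E := by exact_mod_cast h3
  linear_combination h2' - h1' + h0' - h3'

end

end Thu
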