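import Pool.Agent.W_04c03c_h58t.DDef
import Pool.Agent.W_04c03c_h58.AlgH

/-!
# Relative cocycles of degree one and their potentials
-/

namespace Thu

open RCan MulAction

section

variable {G Ξ V : Type} [Group G] [MulAction G Ξ] [MulAction G V] {sm : V → V → Prop}
  {cusp : V → Option Ξ} {K : Type} [Field K] {E : Type} [AddCommGroup E] [Module K E]

/-- functions on the vertices, equivariant up to constants, which are constant on every cusp -/
def Pot (cusp : V → Option Ξ) (σ : Representation K G E) : Submodule K (V → E) where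
  carrier := {f | (∃ D : G → E, ∀ g x, f (g • x) = D g + σ g (f x)) ∧
    ∀ η x y, cusp x = some η → cusp y = some η → f x = f y}
  zero_mem' := ⟨⟨0, fun g x => by simp⟩, fun _ _ _ _ _ => rfl⟩
  add_mem' := by
    rintro a b ⟨⟨D, hD⟩, ha⟩ ⟨⟨D', hD'⟩, hb⟩
    refine ⟨⟨D + D', fun g x => ?_⟩, fun η x y hx hy => ?_⟩
    · simp only [Pi.add_apply, map_add]
      rw [hD, hD']
      abel
    · simp only [Pi.add_apply]
      rw [ha η x y hx hy, hb η x y hx hy]
  smul_mem' := by
    rintro c a ⟨⟨D, hD⟩, ha⟩
    refine ⟨⟨c • D, fun g x => ?_⟩, fun η x y hx hy => ?_⟩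
    · simp only [Pi.smul_apply, map_smul]
      rw [hD, smul_add]
    · simp only [Pi.smul_apply]
      rw [ha η x y hx hy]

theorem FA_co3 {A : Type} [AddCommGroup A] (f : List V → A) (x y z : V) :
    co f [x, y, z] = f [y, z] - f [x, z] + f [x, y] := by
  rw [co_apply, dl_cons, dl_cons, dl_cons, dl_nil]
  abel

theorem FA_const (hF : Face G Ξ V sm cusp) {A : Type} (F : V → A)
    (h : ∀ x y, sm x y → F x = F y) (x y : V) : F x = F y := by
  obtain ⟨rk, ps, hd⟩ := hF.dis
  have hex : ∀ (n : ℕ) (v : V), rk v ≤ n → ∃ v₀, rk v₀ = 0 ∧ F v = F v₀ := by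
    intro n
    induction n with
    | zero =>
      intro v hv
      exact ⟨v, Nat.le_zero.1 hv, rfl⟩
    | succ n ih =>
      intro v hv
      rcases Nat.eq_zero_or_pos (rk v) with h0 | h0
      · exact ⟨v, h0, rfl⟩
      · obtain ⟨h1, h2⟩ := hd.1 v h0
        obtain ⟨v₀, h3, h4⟩ := ih (ps v) (by omega)
        exact ⟨v₀, h3, (h v (ps v) (h2 v (hF.refl v) le_rfl)).trans h4⟩
  obtain ⟨x₀, h1, h2⟩ := hex _ x le_rfl
  obtain ⟨y₀, h3, h4⟩ := hex _ y le_rfl
  rw [h2, h4]
  exact h _ _ (hd.2 x₀ y₀ h1 h3)

/-- Potentials of cochains: if `c` is an equivariant relative cocycle of degree one there is a function `f`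
with `c [x, y] = f y - f x` for `sm x y`.

Proof. `u x y = c [x, y]` satisfies `u x y + u y z = u x z` on small triples (`cr sm c [x, y, z] = 0`); apply
`simply_connected` with `Γ = Multiplicative E` as in the proof of `bd_exact` (`W_04c03c_h58/AlgH.lean`) to get `f`.
Equivariance up to constants: `x ↦ f (g • x) - σ g (f x)` is locally constant, so constant (connectedness:
`AlgH_const`, `AlgH.lean`, copy for `E`). In a cusp: `c [x, y] = 0` if `x, y` are in a common cusp (`c` is
relative), so `f x = f y` for `sm x y` in the same cusp and for all by `hF.conn`. -/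
theorem exists_pot (hF : Face G Ξ V sm cusp) (σ : Representation K G E) (c : EQE sm cusp σ 1)
    (hc : crQ hF σ 1 c = 0) : ∃ f ∈ Pot cusp σ, ∀ x y, sm x y → c.1 [x, y] = f y - f x := by
  have hc0 : cr sm c.1 = 0 := congrArg Subtype.val hc
  have hsmall : ∀ x y z, sm x y → sm y z → sm x z → Sml sm [x, y, z] := by
    intro x y z h1 h2 h3 a ha b hb
    simp only [List.mem_cons, List.not_mem_nil, or_false] at ha hb
    rcases ha with rfl | rfl | rfl <;> rcases hb with rfl | rfl | rfl
    · exact hF.refl _
    · exact h1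
    · exact h3
    · exact hF.symm _ _ h1
    · exact hF.refl _
    · exact h2
    · exact hF.symm _ _ h3
    · exact hF.symm _ _ h2
    · exact hF.refl _
  have hcoc : ∀ x y z, sm x y → sm y z → sm x z → c.1 [x, y] + c.1 [y, z] = c.1 [x, z] := by
    intro x y z h1 h2 h3
    have h4 := congrFun hc0 [x, y, z]
    rw [cr_of_sml _ (hsmall x y z h1 h2 h3), FA_co3, Pi.zero_apply] at h4
    rw [← sub_eq_zero, ← h4]
    abel
  obtain ⟨rk, ps, hd⟩ := hF.dis
  have hne := hF.ne
  obtain ⟨f', hf'⟩ := simply_connected hF.refl hF.symm hd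
    (fun x y => Multiplicative.ofAdd (c.1 [x, y])) (fun x y z h1 h2 h3 => by
      rw [← ofAdd_add, hcoc x y z h1 h2 h3])
  obtain ⟨f, hfdef⟩ : ∃ f : V → E, ∀ x, f x = Multiplicative.toAdd (f' x) := ⟨_, fun _ => rfl⟩
  have hf : ∀ x y, sm x y → c.1 [x, y] = f y - f x := by
    intro x y h
    have h1 := congrArg Multiplicative.toAdd (hf' x y h)
    rw [toAdd_ofAdd, toAdd_mul, toAdd_inv] at h1
    rw [h1, hfdef, hfdef]
    abel
  have hconst : ∀ (g : G) x y, f (g • x) - σ g (f x) = f (g • y) - σ g (f y) := by
    intro g x y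
    refine FA_const hF (fun x => f (g • x) - σ g (f x)) (fun a b hab => ?_) x y
    have h1 := hf _ _ (hF.smul_sm g a b hab)
    have h2 := c.2.2 g [a, b]
    rw [List.map_cons, List.map_cons, List.map_nil, hf a b hab, h1, map_sub] at h2
    show f (g • a) - σ g (f a) = f (g • b) - σ g (f b)
    rw [sub_eq_sub_iff_add_eq_add] at h2 ⊢
    rw [add_comm, ← h2, add_comm]
  obtain ⟨x₀⟩ := hF.ne
  refine ⟨f, ⟨⟨fun g => f (g • x₀) - σ g (f x₀), fun g x => ?_⟩, ?_⟩, hf⟩
  · show f (g • x) = (f (g • x₀) - σ g (f x₀)) + σ g (f x)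
    rw [← hconst g x x₀]
    abel
  · intro η x y hx hy
    have hpath := hF.conn η x y hx hy
    have hstep : ∀ a b, sm a b → cusp a = some η → cusp b = some η → f a = f b := by
      intro a b hab ha hb
      by_contra hcon
      have h7 : c.1 [a, b] ≠ 0 := by
        rw [hf a b hab]
        exact sub_ne_zero.2 (fun h => hcon h.symm)
      apply (c.2.1.rl _ h7).2
      refine ⟨η, fun v hv => ?_⟩
      simp only [List.mem_cons, List.not_mem_nil, or_false] at hv
      rcases hv with rfl | rfl
      · exact ha
      · exact hb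
    have key : ∀ b, Relation.ReflTransGen (fun a b => sm a b ∧ cusp a = some η ∧ cusp b = some η) x b →
        f x = f b := by
      intro b hb
      induction hb with
      | refl => rfl
      | tail _ h2 ih => exact ih.trans (hstep _ _ h2.1 h2.2.1 h2.2.2)
    exact key y hpath

open Classical in
/-- the cochain of degree one of a function -/
noncomputable def FA_bl (sm : V → V → Prop) (f : V → E) : List V → E
  | [x, y] => if sm x y then f y - f x else 0
  | _ => 0

omit [Module K E] in
theorem FA_bl_pair (f : V → E) {x y : V} (h : sm x y) : FA_bl sm f [x, y] = f y - f x := if_pos h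

theorem FA_bl_not (f : V → E) {x y : V} (h : ¬ sm x y) : FA_bl sm f [x, y] = 0 := if_neg h

theorem FA_bl_len (f : V → E) {l : List V} (h : FA_bl sm f l ≠ 0) : l.length = 2 := by
  match l with
  | [] => exact absurd rfl h
  | [x] => exact absurd rfl h
  | [x, y] => rfl
  | x :: y :: z :: l => exact absurd rfl h

theorem FA_bl_add (f g : V → E) : FA_bl sm (f + g) = FA_bl sm f + FA_bl sm g := by
  funext l
  match l with
  | [] => exact (add_zero _).symm
  | [x] => exact (add_zero _).symm
  | [x, y] =>
    by_cases h : sm x y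
    · rw [Pi.add_apply, FA_bl_pair _ h, FA_bl_pair _ h, FA_bl_pair _ h, Pi.add_apply, Pi.add_apply]
      abel
    · rw [Pi.add_apply, FA_bl_not _ h, FA_bl_not _ h, FA_bl_not _ h, add_zero]
  | x :: y :: z :: l => exact (add_zero _).symm

theorem FA_bl_smul (a : K) (f : V → E) : FA_bl sm (a • f) = a • FA_bl sm f := by
  funext l
  match l with
  | [] => exact (smul_zero _).symm
  | [x] => exact (smul_zero _).symm
  | [x, y] =>
    by_cases h : sm x y
    · rw [Pi.smul_apply, FA_bl_pair _ h, FA_bl_pair _ h, Pi.smul_apply, Pi.smul_apply, smul_sub]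
    · rw [Pi.smul_apply, FA_bl_not _ h, FA_bl_not _ h, smul_zero]
  | x :: y :: z :: l => exact (smul_zero _).symm

theorem FA_bl_alt (hF : Face G Ξ V sm cusp) (f : V → E) : Alt (FA_bl sm f) := by
  have h0 : ∀ l : List V, l.length ≠ 2 → FA_bl sm f l = 0 := by
    intro l hl
    by_contra h
    exact hl (FA_bl_len f h)
  constructor
  · intro l₁ x y l₂
    by_cases hl : l₁ = [] ∧ l₂ = []
    · rw [hl.1, hl.2, List.nil_append, List.nil_append]
      by_cases h : sm x y
      · rw [FA_bl_pair f h, FA_bl_pair f (hF.symm x y h)]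
        abel
      · have h' : ¬ sm y x := fun h1 => h (hF.symm y x h1)
        rw [FA_bl_not f h, FA_bl_not f h', neg_zero]
    · have hlen : (l₁ ++ x :: y :: l₂).length ≠ 2 := by
        intro h1
        apply hl
        simp only [List.length_append, List.length_cons] at h1
        exact ⟨List.length_eq_zero_iff.1 (by omega), List.length_eq_zero_iff.1 (by omega)⟩
      have hlen' : (l₁ ++ y :: x :: l₂).length ≠ 2 := by
        intro h1
        apply hlen
        simp only [List.length_append, List.length_cons] at h1 ⊢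
        exact h1
      rw [h0 _ hlen, h0 _ hlen', neg_zero]
  · intro l₁ x l₂
    by_cases hl : l₁ = [] ∧ l₂ = []
    · rw [hl.1, hl.2, List.nil_append, FA_bl_pair f (hF.refl x), sub_self]
    · apply h0
      intro h1
      apply hl
      simp only [List.length_append, List.length_cons] at h1
      exact ⟨List.length_eq_zero_iff.1 (by omega), List.length_eq_zero_iff.1 (by omega)⟩

theorem FA_bl_mem (hF : Face G Ξ V sm cusp) (σ : Representation K G E) {f : V → E}
    (hf : f ∈ Pot cusp σ) : FA_bl sm f ∈ EQE sm cusp σ 1 := by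
  obtain ⟨⟨D, hD⟩, hcon⟩ := hf
  refine ⟨⟨FA_bl_alt hF f, fun l hl => FA_bl_len f hl, ?_⟩, ?_⟩
  · intro l hl
    match l, FA_bl_len f hl with
    | [x, y], _ =>
      have hxy : sm x y := by
        by_contra h
        exact hl (FA_bl_not f h)
      refine ⟨?_, ?_⟩
      · intro a ha b hb
        simp only [List.mem_cons, List.not_mem_nil, or_false] at ha hb
        rcases ha with rfl | rfl <;> rcases hb with rfl | rfl
        · exact hF.refl _
        · exact hxy
        · exact hF.symm _ _ hxy
        · exact hF.refl _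
      · rintro ⟨η, hη⟩
        apply hl
        rw [FA_bl_pair f hxy, hcon η x y (hη x (by simp)) (hη y (by simp)), sub_self]
  · intro g l
    match l with
    | [] => exact (map_zero _).symm
    | [x] => exact (map_zero _).symm
    | [x, y] =>
      change FA_bl sm f [g • x, g • y] = _
      by_cases h : sm x y
      · rw [FA_bl_pair f h, FA_bl_pair f (hF.smul_sm g x y h), hD, hD, map_sub]
        abel
      · have h' : ¬ sm (g • x) (g • y) := by
          intro h1
          apply h
          have h2 := hF.smul_sm g⁻¹ _ _ h1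
          rwa [inv_smul_smul, inv_smul_smul] at h2
        rw [FA_bl_not f h, FA_bl_not f h', map_zero]
    | x :: y :: z :: l => exact (map_zero _).symm

theorem FA_bl_cr (f : V → E) : cr sm (FA_bl sm f) = 0 := by
  funext l
  unfold cr
  split_ifs with hl
  · by_cases h3 : l.length = 3
    · match l, h3 with
      | [x, y, z], _ =>
        rw [FA_co3]
        have hx : x ∈ [x, y, z] := by simp
        have hy : y ∈ [x, y, z] := by simp
        have hz : z ∈ [x, y, z] := by simp
        rw [FA_bl_pair f (hl y hy z hz), FA_bl_pair f (hl x hx z hz), FA_bl_pair f (hl x hx y hy),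
          Pi.zero_apply]
        abel
    · refine dl_eq_zero l fun l' _ h2 => ?_
      by_contra h4
      have := FA_bl_len f h4
      omega
  · rfl

/-- the cocycle of a potential -/
noncomputable def FA_map (hF : Face G Ξ V sm cusp) (σ : Representation K G E) :
    Pot cusp σ →ₗ[K] LinearMap.ker (crQ (sm := sm) (cusp := cusp) hF σ 1) where
  toFun f := ⟨⟨FA_bl sm f.1, FA_bl_mem hF σ f.2⟩, Subtype.ext (FA_bl_cr f.1)⟩
  map_add' f g := Subtype.ext (Subtype.ext (FA_bl_add f.1 g.1))
  map_smul' a f := Subtype.ext (Subtype.ext (FA_bl_smul a f.1))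

theorem FA_const_mem (σ : Representation K G E) (v : E) : (fun _ => v) ∈ Pot cusp σ :=
  ⟨⟨fun g => v - σ g v, fun g _ => (sub_add_cancel v (σ g v)).symm⟩, fun _ _ _ _ _ => rfl⟩

/-- Proof. Let `c [x, y] = f y - f x` for `f ∈ Pot cusp σ`, `sm x y`, and zero on all other lists: this is an
element of `EQE sm cusp σ 1` (alternating by `hF.symm`, `hF.refl`; relative because `f` is constant on cusps), and
its coboundary vanishes. The linear map from `Pot cusp σ` to `ker (crQ 1)` is onto by `exists_pot` (an element of
`EQE 1` is determined by its values on the small lists `[x, y]`), and its kernel consists of the constant functions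
(`V` is connected and nonempty; constant functions are in `Pot`), so it is isomorphic to `E`. -/
theorem finrank_pot (hF : Face G Ξ V sm cusp) (σ : Representation K G E) [FiniteDimensional K E]
    [FiniteDimensional K (EQE sm cusp σ 1)] :
    FiniteDimensional K (Pot cusp σ) ∧ Module.finrank K (Pot cusp σ) =
      Module.finrank K (LinearMap.ker (crQ (sm := sm) (cusp := cusp) hF σ 1)) +
        Module.finrank K E := by
  obtain ⟨x₀⟩ := hF.ne
  obtain ⟨Φ, hΦ⟩ : ∃ Φ : Pot cusp σ →ₗ[K]
      (LinearMap.ker (crQ (sm := sm) (cusp := cusp) hF σ 1) × E),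
      ∀ f, Φ f = (FA_map hF σ f, f.1 x₀) :=
    ⟨(FA_map hF σ).prod ((LinearMap.proj x₀).comp (Pot cusp σ).subtype), fun f => rfl⟩
  have hinj : Function.Injective Φ := by
    refine (injective_iff_map_eq_zero Φ).2 fun f hf => ?_
    rw [hΦ, Prod.mk_eq_zero] at hf
    have h1 : FA_bl sm f.1 = 0 := congrArg (fun z => z.1.1) hf.1
    apply Subtype.ext
    funext x
    rw [FA_const hF f.1 (fun a b hab => ?_) x x₀]
    · exact hf.2
    · have h2 := congrFun h1 [a, b]
      rw [FA_bl_pair f.1 hab, Pi.zero_apply, sub_eq_zero] at h2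
      exact h2.symm
  have hsurj : Function.Surjective Φ := by
    rintro ⟨⟨c, hc⟩, v⟩
    obtain ⟨f, hf, hcf⟩ := exists_pot hF σ c hc
    refine ⟨⟨f, hf⟩ + ⟨fun _ => v - f x₀, FA_const_mem σ _⟩, ?_⟩
    rw [hΦ]
    refine Prod.ext (Subtype.ext (Subtype.ext ?_)) ?_
    · show FA_bl sm (f + fun _ => v - f x₀) = c.1
      funext l
      by_cases hl : l.length = 2
      · match l, hl with
        | [x, y], _ =>
          by_cases h : sm x y
          · rw [FA_bl_pair _ h, hcf x y h, Pi.add_apply, Pi.add_apply]
            abel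
          · rw [FA_bl_not _ h]
            by_contra h1
            have h2 := (c.2.1.rl _ (fun h3 => h1 h3.symm)).1
            exact h (h2 x (by simp) y (by simp))
      · have h1 : FA_bl sm (f + fun _ => v - f x₀) l = 0 := by
          by_contra h
          exact hl (FA_bl_len _ h)
        have h2 : c.1 l = 0 := by
          by_contra h
          exact hl (c.2.1.len l h)
        rw [h1, h2]
    · show f x₀ + (v - f x₀) = v
      abel
  have e := LinearEquiv.ofBijective Φ ⟨hinj, hsurj⟩
  have hfin : FiniteDimensional K (LinearMap.ker (crQ (sm := sm) (cusp := cusp) hF σ 1)) :=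
    FiniteDimensional.finiteDimensional_submodule _
  have hfree : Module.Free K (LinearMap.ker (crQ (sm := sm) (cusp := cusp) hF σ 1)) := by
    let _ := (LinearMap.ker (crQ (sm := sm) (cusp := cusp) hF σ 1)).addCommGroup
    exact Module.Free.of_divisionRing K _
  refine ⟨Module.Finite.equiv e.symm, ?_⟩
  rw [e.finrank_eq]
  exact Module.finrank_prod

end

end Thu
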