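import Pool.Agent.W_04c03c_h58t.DDef
import Pool.Agent.W_04c03c_h58.AlgI

/-!
# An equivariant map from the vertices to the group, adapted to the cusps
-/

namespace Thu

open RCan MulAction

section

variable {G Ξ V : Type} [Group G] [MulAction G Ξ] [MulAction G V] {sm : V → V → Prop}
  {cusp : V → Option Ξ}

/-- Representatives `ξ i` of the cusps modulo `G`. -/
structure Reps (G : Type) {Ξ : Type} [Group G] [MulAction G Ξ] {κ : Type} (ξ : κ → Ξ) : Prop where
  ex : ∀ η : Ξ, ∃ (i : κ) (g : G), η = g • ξ i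
  ne : ∀ (i j : κ) (g : G), g • ξ i = ξ j → i = j

/-- Proof. Choose a representative `r` of every orbit of `G` on `V` such that `cusp r` is `none` or `some (ξ i)` for
some `i` (if `cusp x = some η`, `η = g • ξ i` by `hξ.ex`, take `g⁻¹ • x`; `hF.cusp_smul`). By `hF.free` every `x` is
`γ x • r` for a unique `γ x` (`r` the representative of its orbit), and `γ (g • x) = g * γ x`. If
`cusp x = some (g • ξ i)` then `cusp r = some (γ x)⁻¹ • g • ξ i`, which is some `ξ j`; `hξ.ne` gives `j = i`, so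
`γ x • ξ i = g • ξ i`. (`AlgI_sec` in `W_04c03c_h58/AlgI.lean` is the construction without the condition; one
can also apply it and correct: with `γ₀` from `AlgI_sec` choose for each orbit an element `t ∈ G` and put
`γ x = γ₀ x * t`, `t` depending on the orbit of `x` only.) -/
theorem exists_gamma (hF : Face G Ξ V sm cusp) {κ : Type} {ξ : κ → Ξ} (hξ : Reps G ξ) :
    ∃ γ : V → G, (∀ (g : G) (x : V), γ (g • x) = g * γ x) ∧
      ∀ (x : V) (i : κ) (g : G), cusp x = some (g • ξ i) → γ x • ξ i = g • ξ i := by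
  classical
  obtain ⟨γ₀, h0⟩ := AlgI_sec (H := G) (W := V) (fun h x hx => hF.free h x hx)
  have ht : ∀ y : V, ∃ t : G, ∀ η, cusp y = some η → ∃ j, η = t • ξ j := by
    intro y
    cases hy : cusp y with
    | none => exact ⟨1, fun η h => by simp at h⟩
    | some η =>
      obtain ⟨j, g, hj⟩ := hξ.ex η
      exact ⟨g, fun η' h => ⟨j, by rw [← Option.some.inj h]; exact hj⟩⟩
  choose t ht using ht
  refine ⟨fun x => γ₀ x * t ((γ₀ x)⁻¹ • x), ?_, ?_⟩
  · intro g x
    show γ₀ (g • x) * t ((γ₀ (g • x))⁻¹ • g • x) = g * (γ₀ x * t ((γ₀ x)⁻¹ • x))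
    have h1 : (γ₀ (g • x))⁻¹ • g • x = (γ₀ x)⁻¹ • x := by
      rw [h0, mul_inv_rev, mul_smul, inv_smul_smul]
    rw [h1, h0, mul_assoc]
  · intro x i g hx
    have h1 : cusp ((γ₀ x)⁻¹ • x) = some ((γ₀ x)⁻¹ • g • ξ i) := by
      rw [hF.cusp_smul, hx]
      rfl
    obtain ⟨j, hj⟩ := ht _ _ h1
    have h2 : i = j := hξ.ne i j ((t ((γ₀ x)⁻¹ • x))⁻¹ * ((γ₀ x)⁻¹ * g)) (by
      rw [mul_smul, mul_smul, hj, inv_smul_smul])
    show (γ₀ x * t ((γ₀ x)⁻¹ • x)) • ξ i = g • ξ i
    rw [mul_smul]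
    subst h2
    rw [← hj, smul_inv_smul]

end

end Thu
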