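import Pool.Agent.W_04c03c_h58t.FA
import Pool.Agent.W_04c03c_h58t.GA

/-!
# Potentials and crossed homomorphisms
-/

namespace Thu

open RCan MulAction

section

variable {G Ξ V : Type} [Group G] [MulAction G Ξ] [MulAction G V] {sm : V → V → Prop}
  {cusp : V → Option Ξ} {K : Type} [Field K] {E : Type} [AddCommGroup E] [Module K E]

/-- the cochain of degree zero of a function -/
def FBc (f : V → E) : List V → E
  | [x] => f x
  | _ => 0

omit [Group G] [MulAction G Ξ] [MulAction G V] in
theorem FBc_two (f : V → E) (l₁ : List V) (x y : V) (l₂ : List V) :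
    FBc f (l₁ ++ x :: y :: l₂) = 0 := by
  rcases l₁ with _ | ⟨a, _ | ⟨b, l₁⟩⟩ <;> rfl

theorem FBc_mem (hF : Face G Ξ V sm cusp) (σ : Representation K G E) {f : V → E}
    (h1 : ∀ (g : G) (x : V), f (g • x) = σ g (f x))
    (h2 : ∀ x η, cusp x = some η → f x = 0) : FBc f ∈ EQE sm cusp σ 0 := by
  refine ⟨⟨⟨?_, ?_⟩, ?_, ?_⟩, ?_⟩
  · intro l₁ x y l₂
    rw [FBc_two, FBc_two, neg_zero]
  · intro l₁ x l₂
    exact FBc_two f l₁ x x l₂
  · intro l hl
    rcases l with _ | ⟨a, _ | ⟨b, l⟩⟩
    · exact absurd rfl hl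
    · rfl
    · exact absurd rfl hl
  · intro l hl
    rcases l with _ | ⟨a, _ | ⟨b, l⟩⟩
    · exact absurd rfl hl
    · refine ⟨?_, ?_⟩
      · intro x hx y hy
        rw [List.mem_singleton.1 hx, List.mem_singleton.1 hy]
        exact hF.refl a
      · rintro ⟨η, hη⟩
        exact hl (h2 a η (hη a (List.mem_singleton.2 rfl)))
    · exact absurd rfl hl
  · intro g l
    rcases l with _ | ⟨a, _ | ⟨b, l⟩⟩
    · exact (map_zero (σ g)).symm
    · exact h1 g a
    · exact (map_zero (σ g)).symm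

/-- the function of a cochain of degree zero -/
def FBpsi (sm : V → V → Prop) (cusp : V → Option Ξ) (σ : Representation K G E) :
    EQE sm cusp σ 0 →ₗ[K] Pot cusp σ where
  toFun c := ⟨fun y => c.1 [y], by
    refine ⟨⟨0, fun g x => ?_⟩, ?_⟩
    · rw [Pi.zero_apply, zero_add]
      exact c.2.2 g [x]
    · intro η x y hx hy
      have h0 : ∀ z, cusp z = some η → c.1 [z] = 0 := by
        intro z hz
        by_contra h
        exact (c.2.1.rl [z] h).2 ⟨η, fun t ht => by rw [List.mem_singleton.1 ht]; exact hz⟩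
      show c.1 [x] = c.1 [y]
      rw [h0 x hx, h0 y hy]⟩
  map_add' _ _ := rfl
  map_smul' _ _ := rfl

theorem FBpsi_inj (σ : Representation K G E) : Function.Injective (FBpsi sm cusp σ) := by
  intro c c' h
  apply Subtype.ext
  funext l
  have h1 : ∀ y, c.1 [y] = c'.1 [y] := fun y => congrFun (congrArg Subtype.val h) y
  rcases l with _ | ⟨a, _ | ⟨b, l⟩⟩
  · have h2 : ∀ d : EQE sm cusp σ 0, d.1 [] = 0 := by
      intro d
      by_contra h
      have := d.2.1.len [] h
      simp at this
    rw [h2, h2]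
  · exact h1 a
  · have h2 : ∀ d : EQE sm cusp σ 0, d.1 (a :: b :: l) = 0 := by
      intro d
      by_contra h
      have := d.2.1.len _ h
      simp at this
    rw [h2, h2]

theorem FB_D {σ : Representation K G E} {f : V → E} (hf : f ∈ Pot cusp σ) (o : V) (g : G) (x : V) :
    f (g • x) = (f (g • o) - σ g (f o)) + σ g (f x) := by
  obtain ⟨⟨D, hD⟩, -⟩ := hf
  rw [hD g x, hD g o]
  abel

/-- the crossed homomorphism and the values on the cusps of a potential -/
def FBphi (hF : Face G Ξ V sm cusp) {κ : Type} (ξ : κ → Ξ) (σ : Representation K G E) (o : V)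
    (x : κ → V) (hx : ∀ i, cusp (x i) = some (ξ i)) :
    Pot cusp σ →ₗ[K] Krel σ (fun i => stabilizer G (ξ i)) where
  toFun f := ⟨(fun g => f.1 (g • o) - σ g (f.1 o), fun i => f.1 (x i)), by
    refine ⟨fun g h => ?_, fun i p hp => ?_⟩
    · show f.1 ((g * h) • o) - σ (g * h) (f.1 o) =
        f.1 (g • o) - σ g (f.1 o) + σ g (f.1 (h • o) - σ h (f.1 o))
      rw [mul_smul, FB_D f.2 o g (h • o), map_mul, Module.End.mul_apply, map_sub]
      abel
    · show f.1 (p • o) - σ p (f.1 o) = f.1 (x i) - σ p (f.1 (x i))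
      have h1 : f.1 (p • x i) = f.1 (x i) := by
        apply f.2.2 (ξ i) _ _ _ (hx i)
        rw [hF.cusp_smul, hx i, Option.map_some]
        exact congrArg some hp
      have h2 := FB_D f.2 o p (x i)
      rw [h1] at h2
      rw [eq_sub_iff_add_eq]
      exact h2.symm⟩
  map_add' f f' := by
    apply Subtype.ext
    apply Prod.ext
    · funext g
      show (f.1 (g • o) + f'.1 (g • o)) - σ g (f.1 o + f'.1 o) =
        (f.1 (g • o) - σ g (f.1 o)) + (f'.1 (g • o) - σ g (f'.1 o))
      rw [map_add]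
      abel
    · rfl
  map_smul' c f := by
    apply Subtype.ext
    apply Prod.ext
    · funext g
      show c • f.1 (g • o) - σ g (c • f.1 o) = c • (f.1 (g • o) - σ g (f.1 o))
      rw [map_smul, smul_sub]
    · rfl

theorem FBphi_surj (hF : Face G Ξ V sm cusp) {κ : Type} {ξ : κ → Ξ} (hξ : Reps G ξ)
    (σ : Representation K G E) (o : V)
    (x : κ → V) (hx : ∀ i, cusp (x i) = some (ξ i)) :
    Function.Surjective (FBphi hF ξ σ o x hx) := by
  classical
  obtain ⟨γ, hγ, hγc⟩ := exists_gamma hF hξ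
  rintro ⟨⟨D, v⟩, hD, hv⟩
  change ∀ g h, D (g * h) = D g + σ g (D h) at hD
  change ∀ i, ∀ p ∈ stabilizer G (ξ i), D p = v i - σ p (v i) at hv
  obtain ⟨w, hw, hw0⟩ : ∃ w : V → E, (∀ y i (g : G), cusp y = some (g • ξ i) → w y = v i) ∧
      ∀ y, cusp y = none → w y = 0 := by
    refine ⟨fun y => if h : ∃ p : κ × G, cusp y = some (p.2 • ξ p.1) then v h.choose.1 else 0,
      ?_, ?_⟩
    · intro y i g hy
      have h : ∃ p : κ × G, cusp y = some (p.2 • ξ p.1) := ⟨(i, g), hy⟩
      beta_reduce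
      rw [dif_pos h]
      have h1 := Option.some.inj (hy.symm.trans h.choose_spec)
      have h2 : i = h.choose.1 := by
        apply hξ.ne i _ (h.choose.2⁻¹ * g)
        rw [mul_smul, h1, inv_smul_smul]
      rw [← h2]
    · intro y hy
      beta_reduce
      rw [dif_neg]
      rintro ⟨p, hp⟩
      rw [hy] at hp
      exact absurd hp (by simp)
  have hwg : ∀ (g : G) (y : V), w (g • y) = w y := by
    intro g y
    rcases hc : cusp y with _ | η
    · rw [hw0 y hc, hw0 (g • y) (by rw [hF.cusp_smul, hc]; rfl)]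
    · obtain ⟨i, h, rfl⟩ := hξ.ex η
      rw [hw y i h hc, hw (g • y) i (g * h) (by rw [hF.cusp_smul, hc, Option.map_some, mul_smul])]
  have hfg : ∀ (g : G) (y : V), D (γ (g • y)) + σ (γ (g • y)) (w (g • y)) =
      D g + σ g (D (γ y) + σ (γ y) (w y)) := by
    intro g y
    rw [hγ, hwg, hD, map_mul, Module.End.mul_apply, map_add]
    abel
  have hfc : ∀ (y : V) (i : κ) (g : G), cusp y = some (g • ξ i) →
      D (γ y) + σ (γ y) (w y) = D g + σ g (v i) := by
    intro y i g hy
    rw [hw y i g hy]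
    have h1 := hγc y i g hy
    have h2 : g⁻¹ * γ y ∈ stabilizer G (ξ i) := by
      rw [mem_stabilizer_iff, mul_smul, h1, inv_smul_smul]
    have h3 : γ y = g * (g⁻¹ * γ y) := by rw [mul_inv_cancel_left]
    obtain ⟨p, hp⟩ : ∃ p, p = g⁻¹ * γ y := ⟨_, rfl⟩
    rw [← hp] at h2 h3
    rw [h3, hD, hv i p h2, map_mul, Module.End.mul_apply, map_sub]
    abel
  have hD1 : D 1 = 0 := by
    have h := hD 1 1
    rw [mul_one, map_one, Module.End.one_apply] at h
    exact left_eq_add.1 h
  refine ⟨⟨fun y => D (γ y) + σ (γ y) (w y), ⟨⟨D, hfg⟩, ?_⟩⟩, ?_⟩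
  · intro η y z hy hz
    obtain ⟨i, g, rfl⟩ := hξ.ex η
    show D (γ y) + σ (γ y) (w y) = D (γ z) + σ (γ z) (w z)
    rw [hfc y i g hy, hfc z i g hz]
  · apply Subtype.ext
    apply Prod.ext
    · funext g
      show (D (γ (g • o)) + σ (γ (g • o)) (w (g • o))) - σ g (D (γ o) + σ (γ o) (w o)) = D g
      rw [hfg]
      abel
    · funext i
      show D (γ (x i)) + σ (γ (x i)) (w (x i)) = v i
      rw [hfc (x i) i 1 (by rw [one_smul]; exact hx i), hD1, map_one, Module.End.one_apply,
        zero_add]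

theorem FB_ker (hF : Face G Ξ V sm cusp) {κ : Type} {ξ : κ → Ξ} (hξ : Reps G ξ)
    (σ : Representation K G E) (o : V)
    (x : κ → V) (hx : ∀ i, cusp (x i) = some (ξ i)) :
    LinearMap.range (FBpsi sm cusp σ) = LinearMap.ker (FBphi hF ξ σ o x hx) := by
  apply le_antisymm
  · rintro _ ⟨c, rfl⟩
    rw [LinearMap.mem_ker]
    apply Subtype.ext
    apply Prod.ext
    · funext g
      show c.1 [g • o] - σ g (c.1 [o]) = 0
      rw [sub_eq_zero]
      exact c.2.2 g [o]
    · funext i
      show c.1 [x i] = 0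
      by_contra h
      exact (c.2.1.rl [x i] h).2 ⟨ξ i, fun t ht => by rw [List.mem_singleton.1 ht]; exact hx i⟩
  · intro f hf
    rw [LinearMap.mem_ker] at hf
    have h1 : ∀ g : G, f.1 (g • o) - σ g (f.1 o) = 0 := fun g =>
      congrFun (congrArg Prod.fst (congrArg Subtype.val hf)) g
    have h2 : ∀ i, f.1 (x i) = 0 := fun i =>
      congrFun (congrArg Prod.snd (congrArg Subtype.val hf)) i
    have h3 : ∀ (g : G) (y : V), f.1 (g • y) = σ g (f.1 y) := by
      intro g y
      rw [FB_D f.2 o g y, h1, zero_add]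
    have h4 : ∀ y η, cusp y = some η → f.1 y = 0 := by
      intro y η hy
      obtain ⟨i, g, rfl⟩ := hξ.ex η
      have h5 : cusp (g • x i) = some (g • ξ i) := by
        rw [hF.cusp_smul, hx i, Option.map_some]
      rw [f.2.2 _ _ _ hy h5, h3, h2, map_zero]
    exact ⟨⟨FBc f.1, FBc_mem hF σ h3 h4⟩, Subtype.ext (funext fun y => rfl)⟩

/-- Proof. Choose `x i : V` with `cusp (x i) = some (ξ i)` (`hF.ex`), and a base vertex `o` (`hF.ne`). For
`f ∈ Pot cusp σ` the function `D` is determined by `f`: `D g = f (g • o) - σ g (f o)`. The linear map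
`f ↦ (D, fun i => f (x i))` goes to `Krel`: `D (g * h) = D g + σ g (D h)` (evaluate at `o`, `h • o`), and for `p` in the
stabilizer of `ξ i` the vertices `x i` and `p • x i` are in the cusp `ξ i`, so `f (x i) = D p + σ p (f (x i))`. It is
onto: let `γ` be as in `exists_gamma`, `w x = v i` if `cusp x = some (g • ξ i)` for some `g`, and `0` if
`cusp x = none` (`i` is unique by `hξ.ne`; `w (g • x) = w x`), and `f x = D (γ x) + σ (γ x) (w x)`. Then
`f (g • x) = D g + σ g (f x)`, and if `cusp x = some (g • ξ i)` then `γ x = g * p` with `p` in the stabilizer of `ξ i`,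
so `f x = D g + σ g (D p + σ p (v i)) = D g + σ g (v i)` is constant on the cusp `g • ξ i`; `D 1 = 0`, so the
image of `f` is `(D, v)`. The kernel: `D = 0` and `f` vanishes on the cusps `ξ i`, so on all cusps (`hξ.ex`), i.e.
`l ↦ f x` if `l = [x]`, `0` otherwise, is in `EQE sm cusp σ 0` (a list `[x]` is relative iff `cusp x = none`;
`hF.refl`), which is isomorphic to the range of `crQ 0` (`hinj`). -/
theorem finrank_krel (hF : Face G Ξ V sm cusp) {κ : Type} [Finite κ] {ξ : κ → Ξ}
    (hξ : Reps G ξ) (σ : Representation K G E) [FiniteDimensional K (Pot cusp σ)]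
    (hinj : Function.Injective (crQ (sm := sm) (cusp := cusp) hF σ 0)) :
    FiniteDimensional K (Krel σ (fun i => stabilizer G (ξ i))) ∧
      Module.finrank K (Pot cusp σ) =
        Module.finrank K (Krel σ (fun i => stabilizer G (ξ i))) +
          Module.finrank K (LinearMap.range (crQ (sm := sm) (cusp := cusp) hF σ 0)) := by
  obtain ⟨o⟩ := hF.ne
  choose x hx using fun i => hF.ex (ξ i)
  have hs := FBphi_surj hF hξ σ o x hx
  have hk := FB_ker hF hξ σ o x hx
  refine ⟨Module.Finite.of_surjective _ hs, ?_⟩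
  have h1 := LinearMap.finrank_range_add_finrank_ker (FBphi hF ξ σ o x hx)
  rw [LinearMap.range_eq_top.2 hs, finrank_top, ← hk,
    LinearMap.finrank_range_of_inj (FBpsi_inj (sm := sm) (cusp := cusp) σ)] at h1
  rw [LinearMap.finrank_range_of_inj hinj]
  exact h1.symm

end

end Thu
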