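import Pool.Agent.W_04c03c_h58t.GA
import Pool.Agent.W_04c03c_h62s.SDefs
import Pool.Agent.W_04c03c_h58.WfA

/-!
# Crossed homomorphisms with values in characters which vanish on the cusps; the data of the cusps
-/

namespace Thu

open RCan MulAction

section

variable {K G κ : Type} [Field K] [Group G]

/-- crossed homomorphisms which vanish on the subgroups `P i` -/
def XRel (χ : G →* Kˣ) (P : κ → Subgroup G) : Submodule K (G → K) where
  carrier := {D | D ∈ Q62.XHom χ ∧ ∀ i, ∀ p ∈ P i, D p = 0}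
  zero_mem' := ⟨(Q62.XHom χ).zero_mem, fun _ _ _ => rfl⟩
  add_mem' := by
    rintro a b ⟨ha, ha'⟩ ⟨hb, hb'⟩
    exact ⟨(Q62.XHom χ).add_mem ha hb, fun i p hp => by
      rw [Pi.add_apply, ha' i p hp, hb' i p hp, add_zero]⟩
  smul_mem' := by
    rintro c a ⟨ha, ha'⟩
    exact ⟨(Q62.XHom χ).smul_mem c ha, fun i p hp => by
      rw [Pi.smul_apply, ha' i p hp, smul_zero]⟩

/-- The subgroups `P i` are free abelian of rank two with basis `x i`, `y i`. -/
structure Tori (P : κ → Subgroup G) (x y : κ → G) : Prop where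
  gen : ∀ i, P i = Subgroup.closure {x i, y i}
  comm : ∀ i, x i * y i = y i * x i
  ind : ∀ (i : κ) (m n : ℤ), x i ^ m * y i ^ n = 1 → m = 0 ∧ n = 0

end

/-- Relative cochains with finite support: cocycles of degree one are coboundaries. -/
def H1Z {Ξ V : Type} (sm : V → V → Prop) (cusp : V → Option Ξ) (K : Type) [Field K] : Prop :=
  ∀ f : List V → K, IsD sm cusp K 1 f → cr sm f = 0 → ∃ e, IsD sm cusp K 0 e ∧ cr sm e = f

section

variable {N Ξ V : Type} [Group N] [MulAction N Ξ] [MulAction N V] {sm : V → V → Prop}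
  {cusp : V → Option Ξ}

/-- the weaker conditions hold for the group itself -/
theorem face_toW (hF : Face N Ξ V sm cusp) : WFace N Ξ V sm cusp := by
  have W := hF.toW ⊤
  refine ⟨hF.refl, hF.symm, hF.smul_sm, hF.cusp_smul, hF.ex, hF.free, hF.conn, hF.dis, hF.ne, W.lf,
    W.bdd, W.h2, W.hn, ?_⟩
  obtain ⟨z, h1, h2, h3, h4⟩ := W.h3
  exact ⟨z, h1, h2, h3, fun g => h4 ⟨g, Subgroup.mem_top g⟩⟩

/-- every cusp is full for the group itself -/
theorem face_full (hF : Face N Ξ V sm cusp) (ξ : Ξ) : WFull N sm cusp ξ := by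
  obtain ⟨F, hFf, h⟩ := hF.full ⊤ ξ (by
    have h1 : (⊤ : Subgroup N).subgroupOf (stabilizer N ξ) = ⊤ := by
      ext g
      simp [Subgroup.mem_subgroupOf]
    rw [h1, Subgroup.index_top]
    exact one_ne_zero)
  refine ⟨F, hFf, fun l hl hx => ?_⟩
  obtain ⟨g, hg, hg'⟩ := h l hl hx
  exact ⟨(g : N), hg, hg'⟩

end

end Thu
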