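import Pool.Agent.W_04c03c_h62q.QOd
import Pool.Agent.W_04c03c_h58.AlgJ1
import Pool.Agent.W_04c03c_h62.BasisZ2
import Pool.Agent.W_04c03c_h58t.XDef

/-!
# The class in degree three and a torus cusp (as `W_04c03c_h62q/QOe1.lean`)
-/

namespace Thu

open RCan Q62 MulAction

variable {Γ Ξ V : Type} [Group Γ] [MulAction Γ Ξ] [MulAction Γ V] {sm : V → V → Prop}
  {cusp : V → Option Ξ}

/-- The group elements which move the class `z` by a coboundary form a subgroup. -/
theorem GB_mem {N Ξ V : Type} [Group N] [MulAction N Ξ] [MulAction N V] {sm : V → V → Prop}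
    {cusp : V → Option Ξ} (hF : WFace N Ξ V sm cusp) (k : Type) [Field k] {n : ℕ}
    (z : DSub sm cusp k (n + 1)) {x y : N}
    (hgen : Subgroup.closure {x, y} = ⊤)
    (hx : ∃ e, crW hF k n e = trW hF k (n + 1) x z - z)
    (hy : ∃ e, crW hF k n e = trW hF k (n + 1) y z - z) (g : N) :
    ∃ e, crW hF k n e = trW hF k (n + 1) g z - z := by
  have hg : g ∈ Subgroup.closure {x, y} := by
    rw [hgen]
    exact Subgroup.mem_top g
  induction hg using Subgroup.closure_induction with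
  | mem g hg =>
    rcases hg with rfl | hg
    · exact hx
    · have hg' : g = y := hg
      rw [hg']
      exact hy
  | one => exact ⟨0, by rw [map_zero, trW_one, sub_self]⟩
  | mul g h _ _ hg hh =>
    obtain ⟨e, he⟩ := hg
    obtain ⟨e', he'⟩ := hh
    refine ⟨trW hF k n g e' + e, ?_⟩
    rw [map_add, crW_trW, he, he', map_sub, trW_mul]
    abel
  | inv g _ hg =>
    obtain ⟨e, he⟩ := hg
    refine ⟨-(trW hF k n g⁻¹ e), ?_⟩
    rw [map_neg, crW_trW, he, map_sub, ← trW_mul, inv_mul_cancel, trW_one]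
    abel

theorem GB_tfree {H : Type} [Group H] (h : Nonempty (H ≃* Multiplicative (ℤ × ℤ))) : TFree H := by
  obtain ⟨e⟩ := h
  intro g n hn hg
  have h1 : (e g) ^ n = 1 := by
    rw [← map_pow, hg, map_one]
  have h2 : n • (e g).toAdd = 0 := by
    rw [← toAdd_pow, h1, toAdd_one]
  have h3 : (e g).toAdd = 0 := by
    rcases smul_eq_zero.1 h2 with h | h
    · omega
    · exact h
  have h4 : e g = 1 := h3
  rw [← map_one e] at h4
  exact e.injective h4

/-- If the cusp `ξ` is full and its stabilizer is isomorphic to `ℤ²` then the class `z` is not a coboundary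
over `k` and the stabilizer acts trivially on it. -/
theorem GB_torus (hF : WFace Γ Ξ V sm cusp) (k : Type) [Field k] {ξ η : Ξ}
    (hne : η ≠ ξ) (hfull : WFull Γ sm cusp ξ)
    (htor : Nonempty (stabilizer Γ ξ ≃* Multiplicative (ℤ × ℤ)))
    (h1 : H1Z sm cusp k)
    {z : List V → ℤ} (hz : IsD sm cusp ℤ 3 z)
    (zg : ∀ f : List V → k, IsD sm cusp k 3 f → cr sm f = 0 →
      ∃ (c : k) (e : List V → k), IsD sm cusp k 2 e ∧ (fun l => f l - c * (z l : k)) = cr sm e) :
    (¬ ∃ e : List V → k, IsD sm cusp k 2 e ∧ cr sm e = fun l => (z l : k)) ∧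
    ∀ g ∈ stabilizer Γ ξ, ∃ e : List V → k, IsD sm cusp k 2 e ∧
      cr sm e = fun l => (z (l.map (fun x => g⁻¹ • x)) : k) - (z l : k) := by
  obtain ⟨x, y, hxy, hgen, hind⟩ := exists_basis_of_Z2 htor
  have hcl : Subgroup.closure {x, y} = ⊤ := by
    rw [eq_top_iff]
    intro g _
    obtain ⟨a, b, rfl⟩ := hgen g
    have hx : x ∈ Subgroup.closure {x, y} := Subgroup.subset_closure (by simp)
    have hy : y ∈ Subgroup.closure {x, y} := Subgroup.subset_closure (by simp)
    exact mul_mem (zpow_mem hx a) (zpow_mem hy b)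
  have hK : WFace (stabilizer Γ ξ) Ξ V sm cusp := hF.sub (stabilizer Γ ξ)
  have hTK : TFree (stabilizer Γ ξ) := GB_tfree htor
  obtain ⟨z', hz'⟩ : ∃ z' : DSub sm cusp k 3, z' = ⟨fun l => ((z l : ℤ) : k), AlgJ1_cast hz⟩ :=
    ⟨_, rfl⟩
  have hz1 : z'.1 = fun l => ((z l : ℤ) : k) := by rw [hz']
  have hzg : ∀ f : DSub sm cusp k 3, crW hK k 3 f = 0 → ∃ (c : k) (e : DSub sm cusp k 2),
      f = c • z' + crW hK k 2 e := by
    intro f hf
    have hf0 : cr sm f.1 = 0 := congrArg Subtype.val hf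
    obtain ⟨c, e, he, h⟩ := zg f.1 f.2 hf0
    refine ⟨c, ⟨e, he⟩, ?_⟩
    apply Subtype.ext
    funext l
    have h1 := congrFun h l
    change f.1 l = c * (z'.1 l) + cr sm e l
    rw [hz1, ← h1]
    ring
  obtain ⟨h3, h4, h5⟩ := orient hK hTK hxy hcl hind hne hfull.stab (fun g => g.2) h1 z' hzg
  refine ⟨?_, ?_⟩
  · rintro ⟨e, he, h⟩
    refine h3 ⟨⟨e, he⟩, ?_⟩
    apply Subtype.ext
    rw [crW_coe, hz1]
    exact h
  · intro g hg
    obtain ⟨e, he⟩ := GB_mem hK k z' hcl h4 h5 ⟨g, hg⟩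
    refine ⟨e.1, e.2, ?_⟩
    have h6 : cr sm e.1 = (trW hK k 3 ⟨g, hg⟩ z' - z').1 := congrArg Subtype.val he
    rw [h6]
    funext l
    change z'.1 (l.map (fun x => (⟨g, hg⟩ : stabilizer Γ ξ)⁻¹ • x)) - z'.1 l = _
    rw [hz1]
    rfl

end Thu
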