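import Pool.Agent.W_04c03c_h58.WfE
import Pool.Agent.W_04c03c_h58.AlgJ1
import Pool.Agent.W_04c03c_h58.AlgK

/-!
# The orientation character (as `W_04c03c_h62q/QOe2a.lean`)
-/

namespace Thu

open RCan MulAction

variable {Γ Ξ V : Type} [Group Γ] [MulAction Γ Ξ] [MulAction Γ V] {sm : V → V → Prop}
  {cusp : V → Option Ξ}

theorem GC_smulD {n : ℕ} (c : ℚ) {f : List V → ℚ} (hf : IsD sm cusp ℚ n f) :
    IsD sm cusp ℚ n (c • f) := by
  have hne : ∀ l, (c • f) l ≠ 0 → f l ≠ 0 := by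
    intro l hl h0
    apply hl
    simp [h0]
  refine ⟨?_, fun l hl => hf.len l (hne l hl), fun l hl => hf.rl l (hne l hl),
    hf.fin.subset fun l hl => hne l hl⟩
  exact Alt.hom (AddMonoidHom.mulLeft c) hf.alt

theorem GC_smul {c : ℚ} {f : List V → ℚ} (h : ∃ e : List V → ℚ, IsD sm cusp ℚ 2 e ∧ cr sm e = f) :
    ∃ e : List V → ℚ, IsD sm cusp ℚ 2 e ∧ cr sm e = c • f := by
  obtain ⟨e, he, rfl⟩ := h
  exact ⟨c • e, GC_smulD c he, AlgK_cr_smul c e⟩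

theorem GC_add {f f' : List V → ℚ} (h : ∃ e : List V → ℚ, IsD sm cusp ℚ 2 e ∧ cr sm e = f)
    (h' : ∃ e : List V → ℚ, IsD sm cusp ℚ 2 e ∧ cr sm e = f') :
    ∃ e : List V → ℚ, IsD sm cusp ℚ 2 e ∧ cr sm e = f + f' := by
  obtain ⟨e, he, rfl⟩ := h
  obtain ⟨e', he', rfl⟩ := h'
  exact ⟨e + e', he.add he', cr_add e e'⟩

theorem GC_tr (hF : WFace Γ Ξ V sm cusp) (g : Γ) {f : List V → ℚ}
    (h : ∃ e : List V → ℚ, IsD sm cusp ℚ 2 e ∧ cr sm e = f) :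
    ∃ e : List V → ℚ, IsD sm cusp ℚ 2 e ∧ cr sm e = tr g f := by
  obtain ⟨e, he, rfl⟩ := h
  exact ⟨tr g e, he.tr hF.smul_sm hF.cusp_smul g, cr_tr hF.smul_sm g e⟩

/-- The integral eigenvalues form a character with values `±1`. -/
theorem GC_eps (hF : WFace Γ Ξ V sm cusp) {z : List V → ℤ}
    (hnz : ¬ ∃ e : List V → ℚ, IsD sm cusp ℚ 2 e ∧ cr sm e = fun l => (z l : ℚ))
    (hm : ∀ g : Γ, ∃ (m : ℤ) (e : List V → ℤ), IsD sm cusp ℤ 2 e ∧
      (fun l => z (l.map (fun x => g⁻¹ • x)) - m * z l) = cr sm e) :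
    ∃ ε : Γ →* ℤˣ, ∀ g : Γ, ∃ e : List V → ℤ, IsD sm cusp ℤ 2 e ∧
      (fun l => z (l.map (fun x => g⁻¹ • x)) - ((ε g : ℤˣ) : ℤ) * z l) = cr sm e := by
  choose m e he hme using hm
  obtain ⟨zq, hzq⟩ : ∃ zq : List V → ℚ, zq = fun l => (z l : ℚ) := ⟨_, rfl⟩
  -- uniqueness
  have huniq : ∀ c : ℚ, (∃ e : List V → ℚ, IsD sm cusp ℚ 2 e ∧ cr sm e = c • zq) → c = 0 := by
    intro c hc
    by_contra hc0
    apply hnz
    have := GC_smul (c := c⁻¹) hc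
    rwa [smul_smul, inv_mul_cancel₀ hc0, one_smul, hzq] at this
  have hcob : ∀ g : Γ, ∃ e : List V → ℚ, IsD sm cusp ℚ 2 e ∧ cr sm e = tr g zq + (-(m g : ℚ)) • zq := by
    intro g
    refine ⟨fun l => ((e g l : ℤ) : ℚ), AlgJ1_cast (he g), ?_⟩
    rw [AlgJ1_cr_cast, ← hme g, hzq]
    funext l
    simp only [tr_apply, Pi.add_apply, Pi.smul_apply, smul_eq_mul]
    push_cast
    ring
  have hmul : ∀ g h : Γ, m (g * h) = m g * m h := by
    intro g h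
    have h1 := hcob (g * h)
    have h2 := GC_tr hF g (hcob h)
    have h3 := GC_smul (c := (m h : ℚ)) (hcob g)
    have h4 := GC_add h2 h3
    have h5 := GC_add h1 (GC_smul (c := -1) h4)
    have h6 : tr (g * h) zq + -(m (g * h) : ℚ) • zq +
        (-1 : ℚ) • (tr g (tr h zq + -(m h : ℚ) • zq) + (m h : ℚ) • (tr g zq + -(m g : ℚ) • zq)) =
        ((m g : ℚ) * (m h : ℚ) - (m (g * h) : ℚ)) • zq := by
      rw [tr_mul]
      funext l
      simp only [tr_apply, Pi.add_apply, Pi.smul_apply, smul_eq_mul]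
      ring
    rw [h6] at h5
    have h7 := huniq _ h5
    have h8 : (m g : ℚ) * (m h : ℚ) = (m (g * h) : ℚ) := by linarith
    have h9 : ((m g * m h : ℤ) : ℚ) = ((m (g * h) : ℤ) : ℚ) := by
      push_cast
      exact h8
    exact (Int.cast_injective h9).symm
  have hone : m 1 = 1 := by
    have h1 := hcob 1
    rw [tr_one] at h1
    have h2 : zq + -(m 1 : ℚ) • zq = (1 - (m 1 : ℚ)) • zq := by
      rw [sub_smul, one_smul, neg_smul, sub_eq_add_neg]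
    rw [h2] at h1
    have h3 := huniq _ h1
    have h4 : ((m 1 : ℤ) : ℚ) = ((1 : ℤ) : ℚ) := by
      push_cast
      linarith
    exact Int.cast_injective h4
  let M : Γ →* ℤ := ⟨⟨m, hone⟩, hmul⟩
  refine ⟨M.toHomUnits, fun g => ⟨e g, he g, ?_⟩⟩
  rw [← hme g]
  rfl

end Thu
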