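import Pool.Agent.W_04c03c_h58t.GB
import Pool.Agent.W_04c03c_h58t.GC

/-!
# The orientation character and the orientation data over all fields
-/

namespace Thu

open RCan Q62 MulAction

/-- a sign character with values in a field -/
noncomputable def sgU {G : Type} [Group G] (ε : G →* ℤˣ) (K : Type) [Field K] : G →* Kˣ :=
  (Units.map (Int.castRingHom K).toMonoidHom).comp ε

theorem sgU_apply {G : Type} [Group G] (ε : G →* ℤˣ) (K : Type) [Field K] (g : G) :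
    ((sgU ε K g : Kˣ) : K) = (((ε g : ℤˣ) : ℤ) : K) := rfl

theorem sgU_sq {G : Type} [Group G] (ε : G →* ℤˣ) (K : Type) [Field K] (g : G) :
    sgU ε K g * sgU ε K g = 1 := by
  apply Units.ext
  rw [Units.val_mul, sgU_apply]
  rcases Int.units_eq_one_or (ε g) with h | h <;> simp [h]

variable {Γ Ξ V : Type} [Group Γ] [MulAction Γ Ξ] [MulAction Γ V] {sm : V → V → Prop}
  {cusp : V → Option Ξ}

/-- the orientation data -/
theorem exists_ori (hF : Face Γ Ξ V sm cusp) (h1 : ∀ (K : Type) [Field K], H1Z sm cusp K)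
    {ξ₀ : Ξ} (two : ∀ ξ : Ξ, ∃ η, η ≠ ξ)
    (htor : ∀ ξ : Ξ, Nonempty (stabilizer Γ ξ ≃* Multiplicative (ℤ × ℤ))) :
    ∃ ε : Γ →* ℤˣ, (∀ ξ : Ξ, ∀ g ∈ stabilizer Γ ξ, ε g = 1) ∧
      ∀ (K : Type) [Field K], ∃ z : DSub sm cusp K 3, Ori hF (sgU ε K) z := by
  have hW := face_toW hF
  obtain ⟨z, zD, zc, zg, ze⟩ := hW.h3
  have htr : ∀ (K : Type) [Field K] (ξ : Ξ),
      (¬ ∃ e : List V → K, IsD sm cusp K 2 e ∧ cr sm e = fun l => (z l : K)) ∧
      ∀ g ∈ stabilizer Γ ξ, ∃ e : List V → K, IsD sm cusp K 2 e ∧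
        cr sm e = fun l => (z (l.map (fun x => g⁻¹ • x)) : K) - (z l : K) := by
    intro K _ ξ
    obtain ⟨η, hη⟩ := two ξ
    exact GB_torus hW K hη (face_full hF ξ) (htor ξ) (h1 K) zD (zg K)
  obtain ⟨ε, hε⟩ := GC_eps hW (htr ℚ ξ₀).1 ze
  refine ⟨ε, ?_, ?_⟩
  · intro ξ g hg
    obtain ⟨hno, hact⟩ := htr ℚ ξ
    rcases Int.units_eq_one_or (ε g) with h1 | h1
    · exact h1
    exfalso
    obtain ⟨e₁, he₁, h₁⟩ := hact g hg
    obtain ⟨e₂, he₂, h₂⟩ := hε g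
    have hE : IsD sm cusp ℚ 2 (fun l => ((e₂ l : ℤ) : ℚ)) := AlgJ1_cast he₂
    have hcE : cr sm (fun l => ((e₂ l : ℤ) : ℚ)) = fun l =>
        (z (l.map (fun x => g⁻¹ • x)) : ℚ) + (z l : ℚ) := by
      rw [AlgJ1_cr_cast, ← h₂]
      funext l
      rw [h1]
      push_cast
      simp
    obtain ⟨e₃, he₃, h₃⟩ := GC_smul (c := (1 / 2 : ℚ)) (GC_add ⟨_, hE, rfl⟩
      (GC_smul (c := (-1 : ℚ)) ⟨e₁, he₁, rfl⟩))
    refine hno ⟨e₃, he₃, ?_⟩
    rw [h₃, hcE, h₁]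
    funext l
    change (1 / 2 : ℚ) * (((z (l.map (fun x => g⁻¹ • x)) : ℚ) + (z l : ℚ)) + (-1) *
      ((z (l.map (fun x => g⁻¹ • x)) : ℚ) - (z l : ℚ))) = (z l : ℚ)
    ring
  · intro K _
    refine ⟨⟨fun l => ((z l : ℤ) : K), AlgJ1_cast zD⟩, sgU_sq ε K, ?_, ?_, ?_, ?_⟩
    · apply Subtype.ext
      show cr sm (fun l => ((z l : ℤ) : K)) = 0
      rw [AlgJ1_cr_cast, zc]
      funext l
      simp
    · intro f hf
      have hf0 : cr sm f.1 = 0 := congrArg Subtype.val hf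
      obtain ⟨c, e, he, h⟩ := zg K f.1 f.2 hf0
      refine ⟨c, ⟨e, he⟩, ?_⟩
      apply Subtype.ext
      funext l
      have h1 := congrFun h l
      change f.1 l = c * ((z l : ℤ) : K) + cr sm e l
      rw [← h1]
      ring
    · intro g
      obtain ⟨e, he, h⟩ := hε g
      obtain ⟨s, hs⟩ : ∃ s : K, s = (((ε g : ℤˣ) : ℤ) : K) := ⟨_, rfl⟩
      have hss : s * s = 1 := by
        rw [hs]
        rcases Int.units_eq_one_or (ε g) with h | h <;> simp [h]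
      refine ⟨s • ⟨fun l => ((e l : ℤ) : K), AlgJ1_cast he⟩, ?_⟩
      rw [map_smul]
      apply Subtype.ext
      funext l
      change s * cr sm (fun l => ((e l : ℤ) : K)) l =
        (sgU ε K g : K) * ((z (l.map (fun x => g⁻¹ • x)) : ℤ) : K) - ((z l : ℤ) : K)
      rw [AlgJ1_cr_cast, ← h, sgU_apply, ← hs]
      push_cast
      rw [← hs]
      linear_combination (-((z l : ℤ) : K)) * hss
    · intro e he
      exact (htr K ξ₀).1 ⟨e.1, e.2, congrArg Subtype.val he⟩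

end Thu
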