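import Pool.Agent.W_04c03c_h58t.GD
import Pool.Agent.W_04c03c_h58.WfH1b
import Pool.Agent.W_04c03c_h58.HoA
import Pool.Agent.W_04c03c_h58.HoD
import Pool.Agent.W_04c03c_h58.HoE

/-!
# The geometric data of a torsion-free group with a sphere at infinity
-/

namespace Thu

open RCan Q62 MulAction
open scoped Pointwise

theorem GE_conj_one {G : Type} [Group G] (H : Subgroup G) :
    H = H.map (MulAut.conj (1 : G)).toMonoidHom := by
  ext g
  rw [Subgroup.mem_map]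
  constructor
  · intro hg
    exact ⟨g, hg, by simp⟩
  · rintro ⟨g', hg', rfl⟩
    simpa using hg'

theorem GE_stab_smul {G Ξ : Type} [Group G] [MulAction G Ξ] (g : G) (ξ : Ξ) :
    stabilizer G (g • ξ) = (stabilizer G ξ).map (MulAut.conj g).toMonoidHom :=
  stabilizer_smul_eq_stabilizer_map_conj g ξ

theorem GE_eq_bot {G : Type} [Group G] (hT : TFree G) (K : Subgroup G)
    (hK : (K : Set G).Finite) : K = ⊥ := by
  rw [eq_bot_iff]
  intro g hg
  have hf : Finite K := hK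
  obtain ⟨n, hn, h⟩ := isOfFinOrder_iff_pow_eq_one.1 (isOfFinOrder_of_finite (⟨g, hg⟩ : K))
  rw [Subgroup.mem_bot]
  exact hT g n hn (congrArg Subtype.val h)

/-- the geometric data -/
theorem q1_geo {G : Type} [Group G] (hT : TFree G) {k : ℕ} (i₀ : Fin k) (H : Fin k → Subgroup G)
    (hH : ∀ i, Nonempty (H i ≃* Multiplicative (ℤ × ℤ)))
    (hne : ∀ (i j : Fin k) (g : G), H j = (H i).map (MulAut.conj g).toMonoidHom → i = j)
    (hS : SphereRelHyp G H) :
    ∃ (Ξ V : Type) (_ : MulAction G Ξ) (_ : MulAction G V) (sm : V → V → Prop)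
      (cusp : V → Option Ξ) (hF : Face G Ξ V sm cusp) (ξ : Fin k → Ξ) (ε : G →* ℤˣ),
      Reps G ξ ∧ (∀ i, stabilizer G (ξ i) = H i) ∧ (∀ i, ∃ η, η ≠ ξ i) ∧
      (∀ (K : Type) [Field K], H1Z sm cusp K) ∧ (∀ i j, i ≠ j → H i ⊓ H j = ⊥) ∧
      (∀ i, ∀ g ∈ H i, ε g = 1) ∧
      ∀ (K : Type) [Field K], ∃ z : DSub sm cusp K 3, Ori hF (sgU ε K) z := by
  obtain ⟨X, _, _, _, 𝓗, h1, h2, hC, h4, ⟨e⟩⟩ := hS
  obtain ⟨δ, hδ⟩ := exists_hyp4 h2
  letI : MulAction G 𝓗 := cuspAct hC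
  have hst : ∀ B : 𝓗, stabilizer G B = stabilizer G B.1 := by
    intro B
    ext g
    exact mem_stab_cusp hC B g
  have hunc : Uncountable (Bdry X) := by
    haveI : Uncountable S2 := uncountable_sphere
    exact e.toEquiv.symm.injective.uncountable
  obtain ⟨o, ho⟩ := RCan.exists_base hδ h1 hC inferInstance
  have two : ∀ B : 𝓗, ∃ B' : 𝓗, B' ≠ B := by
    intro B
    have hinf := infinite_orbit hδ h1 hC ho hunc B.2
    obtain ⟨B', ⟨g, hg⟩, hne⟩ := hinf.exists_notMem_finset {B.1}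
    refine ⟨⟨B', hg ▸ hC.inv g B.1 B.2⟩, fun h => hne ?_⟩
    rw [Finset.mem_singleton]
    exact congrArg Subtype.val h
  obtain ⟨V, _, sm, cusp, hF, hH1, -⟩ := exists_face1 h1 h2 hC e
  -- the representatives
  have hrep : ∀ i, ∃ B : 𝓗, stabilizer G B = H i := by
    intro i
    obtain ⟨B, hB, hBi⟩ := (h4 (H i)).2 ⟨i, 1, GE_conj_one _⟩
    exact ⟨⟨B, hB⟩, (hst ⟨B, hB⟩).trans hBi⟩
  choose ξ hξ using hrep
  have hper : ∀ B : 𝓗, ∃ (i : Fin k) (g : G), stabilizer G B = stabilizer G (g • ξ i) := by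
    intro B
    obtain ⟨i, g, hK⟩ := (h4 _).1 ⟨B.1, B.2, (hst B).symm⟩
    refine ⟨i, g, ?_⟩
    rw [hK, GE_stab_smul, hξ]
  have htor : ∀ B : 𝓗, Nonempty (stabilizer G B ≃* Multiplicative (ℤ × ℤ)) := by
    intro B
    obtain ⟨i, g, hK⟩ := hper B
    obtain ⟨e⟩ := hH i
    rw [hK, GE_stab_smul, hξ]
    exact ⟨((H i).equivMapOfInjective _ (MulAut.conj g).injective).symm.trans e⟩
  have hbot : ∀ B B' : 𝓗, B ≠ B' → stabilizer G B ⊓ stabilizer G B' = ⊥ := by
    intro B B' hne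
    refine GE_eq_bot hT _ ?_
    refine (finite_stab_two hδ h1 hC B.2 B'.2 (fun h => hne (Subtype.ext h))).subset ?_
    rintro g ⟨hg, hg'⟩
    exact ⟨congrArg Subtype.val hg, congrArg Subtype.val hg'⟩
  have hinj : ∀ B B' : 𝓗, stabilizer G B = stabilizer G B' → B = B' := by
    intro B B' hs
    by_contra hne
    have h5 := hbot B B' hne
    rw [← hs, inf_idem] at h5
    obtain ⟨x, y, -, -, hxy⟩ := exists_basis_of_Z2 (htor B)
    have hx : x = 1 := by
      apply Subtype.ext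
      exact Subgroup.mem_bot.1 (h5.le x.2)
    have h6 := (hxy 1 0 (by rw [hx, one_zpow, zpow_zero, one_mul])).1
    exact one_ne_zero h6
  obtain ⟨ε, hε, hori⟩ := exists_ori hF (fun K _ => hH1 K) (ξ₀ := ξ i₀) two htor
  refine ⟨𝓗, V, cuspAct hC, inferInstance, sm, cusp, hF, ξ, ε, ⟨?_, ?_⟩, hξ, fun i => two (ξ i),
    fun K _ => hH1 K, ?_, ?_, hori⟩
  · intro B
    obtain ⟨i, g, hK⟩ := hper B
    exact ⟨i, g, hinj _ _ hK⟩
  · intro i j g h
    refine hne i j g ?_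
    rw [← hξ j, ← h, GE_stab_smul, hξ]
  · intro i j hij
    rw [← hξ i, ← hξ j]
    refine hbot _ _ fun h => hij ?_
    refine hne i j 1 ?_
    rw [← hξ j, ← h, ← hξ i]
    exact GE_conj_one _
  · intro i g hg
    rw [← hξ i] at hg
    exact hε (ξ i) g hg

end Thu
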