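import Mathlib

/-!
# Representations: equivariant maps, invariants, the twisted dual
-/

namespace Thu

section

variable {K G M N E : Type} [Field K] [Group G] [AddCommGroup M] [Module K M] [AddCommGroup N]
  [Module K N] [AddCommGroup E] [Module K E]

/-- equivariant linear maps -/
def HomG (τ : Representation K G M) (σ : Representation K G E) : Submodule K (M →ₗ[K] E) where
  carrier := {Ψ | ∀ g m, Ψ (τ g m) = σ g (Ψ m)}
  zero_mem' := by intro g m; simp
  add_mem' := by
    intro a b ha hb g m
    simp only [LinearMap.add_apply, map_add]
    rw [ha, hb]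
  smul_mem' := by
    intro c a ha g m
    simp only [LinearMap.smul_apply, map_smul]
    rw [ha]

/-- invariant vectors -/
def Inv (σ : Representation K G E) : Submodule K E where
  carrier := {v | ∀ g, σ g v = v}
  zero_mem' := by intro g; simp
  add_mem' := by
    intro a b ha hb g
    rw [map_add, ha, hb]
  smul_mem' := by
    intro c a ha g
    rw [map_smul, ha]

/-- the dual representation, twisted by the character `ω` -/
def dualW (ω : G →* Kˣ) (σ : Representation K G E) : Representation K G (Module.Dual K E) where
  toFun g :=
    { toFun := fun μ => (ω g : K) • (μ ∘ₗ σ g⁻¹)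
      map_add' := by intro a b; ext v; simp [mul_add]
      map_smul' := by intro c a; ext v; simp [mul_left_comm] }
  map_one' := by ext μ v; simp
  map_mul' := by
    intro g h
    ext μ v
    simp [mul_inv_rev]
    ring

theorem dualW_apply (ω : G →* Kˣ) (σ : Representation K G E) (g : G) (μ : Module.Dual K E) (v : E) :
    dualW ω σ g μ v = (ω g : K) * μ (σ g⁻¹ v) := rfl

/-- the one-dimensional representation of a character -/
def charRep (χ : G →* Kˣ) : Representation K G K where
  toFun g := (χ g : K) • LinearMap.id
  map_one' := by ext; simp
  map_mul' := by intro g h; ext; simp [mul_comm]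

theorem charRep_apply (χ : G →* Kˣ) (g : G) (v : K) : charRep χ g v = (χ g : K) * v := rfl

/-- crossed homomorphisms with values in a representation, principal on given subgroups `P i` with
given vectors -/
def Krel {κ : Type} (σ : Representation K G E) (P : κ → Subgroup G) :
    Submodule K ((G → E) × (κ → E)) where
  carrier := {D | (∀ g h, D.1 (g * h) = D.1 g + σ g (D.1 h)) ∧
    ∀ i, ∀ p ∈ P i, D.1 p = D.2 i - σ p (D.2 i)}
  zero_mem' := by
    refine ⟨fun g h => by simp, fun i p _ => by simp⟩
  add_mem' := by
    intro a b ha hb
    refine ⟨fun g h => ?_, fun i p hp => ?_⟩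
    · simp only [Prod.fst_add, Pi.add_apply, map_add]
      rw [ha.1, hb.1]
      abel
    · simp only [Prod.fst_add, Prod.snd_add, Pi.add_apply, map_add]
      rw [ha.2 i p hp, hb.2 i p hp]
      abel
  smul_mem' := by
    intro c a ha
    refine ⟨fun g h => ?_, fun i p hp => ?_⟩
    · simp only [Prod.smul_fst, Pi.smul_apply, map_smul]
      rw [ha.1, smul_add]
    · simp only [Prod.smul_fst, Prod.smul_snd, Pi.smul_apply, map_smul]
      rw [ha.2 i p hp, smul_sub]

end

end Thu
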