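import Pool.Agent.W_04c03c_h58t.UDef
import Pool.Agent.W_04c03c_h58.AlgA

/-!
# A section adapted to the peripheral subgroups
-/

namespace Thu

open RCan

section

variable {K G E ι κ : Type} [Field K] [Group G] [AddCommGroup E] [Module K E]

/-- Preimages adapted to the peripheral subgroups. -/
theorem UA_pre {x : ι → G} {a b : κ → ι} {P : κ → Subgroup G} (hP : Per x a b P) :
    ∃ c : G → FreeGroup ι, (∀ g, FreeGroup.lift x (c g) = g) ∧ ∀ (i : κ), ∀ g ∈ P i,
      c g ∈ Subgroup.closure {FreeGroup.of (a i), FreeGroup.of (b i)} := by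
  classical
  have hsurj : ∀ g : G, ∃ f, FreeGroup.lift x f = g := by
    intro g
    have h1 : g ∈ (FreeGroup.lift x).range := by
      rw [FreeGroup.range_lift_eq_closure, hP.top]
      trivial
    exact h1
  have hPi : ∀ i, ∀ g ∈ P i, ∃ f ∈ Subgroup.closure {FreeGroup.of (a i), FreeGroup.of (b i)},
      FreeGroup.lift x f = g := by
    intro i g hg
    have h1 : (Subgroup.closure {FreeGroup.of (a i), FreeGroup.of (b i)}).map
        (FreeGroup.lift x) = P i := by
      rw [MonoidHom.map_closure, Set.image_pair, FreeGroup.lift_apply_of,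
        FreeGroup.lift_apply_of, hP.gen i]
    rw [← h1] at hg
    exact hg
  have key : ∀ g : G, ∃ f, FreeGroup.lift x f = g ∧ ∀ i, g ∈ P i →
      f ∈ Subgroup.closure {FreeGroup.of (a i), FreeGroup.of (b i)} := by
    intro g
    by_cases h1 : g = 1
    · exact ⟨1, by rw [map_one, h1], fun i _ => one_mem _⟩
    · by_cases h2 : ∃ i, g ∈ P i
      · obtain ⟨i, hi⟩ := h2
        obtain ⟨f, hf, hfg⟩ := hPi i g hi
        refine ⟨f, hfg, fun j hj => ?_⟩
        by_cases hij : i = j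
        · rw [← hij]
          exact hf
        · exfalso
          have h3 : g ∈ P i ⊓ P j := ⟨hi, hj⟩
          rw [hP.dis i j hij] at h3
          exact h1 (Subgroup.mem_bot.1 h3)
      · obtain ⟨f, hf⟩ := hsurj g
        exact ⟨f, hf, fun i hi => absurd ⟨i, hi⟩ h2⟩
  choose c hc hc' using key
  exact ⟨c, hc, fun i g hg => hc' g i hg⟩

/-- Proof. `FreeGroup.lift x` is onto (`hP.top`), and maps the subgroup `F i` generated by `of (a i)`, `of (b i)`
onto `P i` (`hP.gen`). Choose one element of every pair `{g, g⁻¹}`, `g ≠ 1` (`g ≠ g⁻¹` because `G` is torsion-free;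
for example with a linear order on `G` chosen at will: `g` is chosen if `g < g⁻¹`), choose `s g` with
`FreeGroup.lift x (s g) = g`, in `F i` if `g ∈ P i` (`i` is unique for `g ≠ 1` by `hP.dis`), and put
`s g⁻¹ = (s g)⁻¹`, `s 1 = 1`. -/
theorem exists_sec (hT : TFree G) {x : ι → G} {a b : κ → ι} {P : κ → Subgroup G}
    (hP : Per x a b P) :
    ∃ s : G → FreeGroup ι, (∀ g, FreeGroup.lift x (s g) = g) ∧ (∀ g, s g⁻¹ = (s g)⁻¹) ∧
      s 1 = 1 ∧ ∀ (i : κ), ∀ g ∈ P i,
        s g ∈ Subgroup.closure {FreeGroup.of (a i), FreeGroup.of (b i)} := by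
  classical
  obtain ⟨c, hc, hc'⟩ := UA_pre hP
  letI : LinearOrder G := linearOrderOfSTO (WellOrderingRel (α := G))
  have hne : ∀ g : G, g ≠ 1 → g ≠ g⁻¹ := by
    intro g hg h
    apply hg
    refine hT g 2 (by norm_num) ?_
    rw [pow_two]
    nth_rewrite 2 [h]
    exact mul_inv_cancel g
  refine ⟨fun g => if g < g⁻¹ then c g else if g⁻¹ < g then (c g⁻¹)⁻¹ else 1, ?_, ?_, ?_, ?_⟩
  · intro g
    show FreeGroup.lift x (if g < g⁻¹ then c g else if g⁻¹ < g then (c g⁻¹)⁻¹ else 1) = g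
    split_ifs with h1 h2
    · exact hc g
    · rw [map_inv, hc, inv_inv]
    · rw [map_one]
      by_contra h3
      rcases lt_or_gt_of_ne (hne g (fun h => h3 h.symm)) with h4 | h4
      · exact h1 h4
      · exact h2 h4
  · intro g
    show (if g⁻¹ < g⁻¹⁻¹ then c g⁻¹ else if g⁻¹⁻¹ < g⁻¹ then (c g⁻¹⁻¹)⁻¹ else 1) =
      (if g < g⁻¹ then c g else if g⁻¹ < g then (c g⁻¹)⁻¹ else 1)⁻¹
    rw [inv_inv]
    by_cases h1 : g < g⁻¹
    · rw [if_pos h1, if_neg (not_lt_of_gt h1), if_pos h1]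
    · by_cases h2 : g⁻¹ < g
      · rw [if_pos h2, if_neg h1, if_pos h2, inv_inv]
      · rw [if_neg h2, if_neg h1, if_neg h1, if_neg h2, inv_one]
  · show (if (1 : G) < 1⁻¹ then c 1 else if (1 : G)⁻¹ < 1 then (c 1⁻¹)⁻¹ else 1) = 1
    rw [inv_one, if_neg (lt_irrefl _), if_neg (lt_irrefl _)]
  · intro i g hg
    show (if g < g⁻¹ then c g else if g⁻¹ < g then (c g⁻¹)⁻¹ else 1) ∈ _
    split_ifs
    · exact hc' i g hg
    · exact inv_mem (hc' i g⁻¹ (inv_mem hg))
    · exact one_mem _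

/-- The elements of the kernel where `θ` vanishes. -/
def UA_N {σ : Representation K G E} {x : ι → G} {a b : κ → ι}
    {θ : (FreeGroup.lift x).ker → E} (hθ : θ ∈ Th σ x a b) : Subgroup (FreeGroup ι) where
  carrier := {f | ∃ h : f ∈ (FreeGroup.lift x).ker, θ ⟨f, h⟩ = 0}
  mul_mem' := by
    rintro f g ⟨h1, h2⟩ ⟨h3, h4⟩
    refine ⟨mul_mem h1 h3, ?_⟩
    have h5 := hθ.1 ⟨f, h1⟩ ⟨g, h3⟩
    rw [h2, h4, add_zero] at h5
    exact h5
  one_mem' := by
    refine ⟨one_mem _, ?_⟩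
    have h := hθ.1 1 1
    rw [mul_one] at h
    refine add_left_cancel (a := θ 1) ?_
    rw [add_zero]
    exact h.symm
  inv_mem' := by
    rintro f ⟨h1, h2⟩
    refine ⟨inv_mem h1, ?_⟩
    have h0 : θ 1 = 0 := by
      have h := hθ.1 1 1
      rw [mul_one] at h
      refine add_left_cancel (a := θ 1) ?_
      rw [add_zero]
      exact h.symm
    have h5 := hθ.1 ⟨f, h1⟩ ⟨f, h1⟩⁻¹
    rw [mul_inv_cancel, h0, h2, zero_add] at h5
    exact h5.symm

theorem UA_mem {σ : Representation K G E} {x : ι → G} {a b : κ → ι}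
    {θ : (FreeGroup.lift x).ker → E} (hθ : θ ∈ Th σ x a b) (f : FreeGroup ι) :
    f ∈ UA_N hθ ↔ ∃ h : f ∈ (FreeGroup.lift x).ker, θ ⟨f, h⟩ = 0 := Iff.rfl

theorem UA_normal {σ : Representation K G E} {x : ι → G} {a b : κ → ι}
    {θ : (FreeGroup.lift x).ker → E} (hθ : θ ∈ Th σ x a b) : (UA_N hθ).Normal := by
  refine ⟨fun n hn g => ?_⟩
  rw [UA_mem] at hn ⊢
  obtain ⟨h1, h2⟩ := hn
  have h3 : g * n * g⁻¹ ∈ (FreeGroup.lift x).ker := by
    rw [MonoidHom.mem_ker] at h1 ⊢
    rw [map_mul, map_mul, h1, mul_one, map_inv, mul_inv_cancel]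
  refine ⟨h3, ?_⟩
  have h4 := hθ.2.1 g ⟨n, h1⟩ ⟨g * n * g⁻¹, h3⟩ rfl
  rw [h4, h2, map_zero]

/-- In a group the subgroup generated by two commuting elements consists of the products of their
powers. -/
theorem UA_pair {Q : Type} [Group Q] {A B : Q} (hAB : Commute A B) {f : Q}
    (hf : f ∈ Subgroup.closure {A, B}) : ∃ m n : ℤ, f = A ^ m * B ^ n := by
  induction hf using Subgroup.closure_induction with
  | mem y hy =>
    rcases hy with rfl | hy
    · exact ⟨1, 0, by simp⟩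
    · rw [Set.mem_singleton_iff] at hy
      rw [hy]
      exact ⟨0, 1, by simp⟩
  | one => exact ⟨0, 0, by simp⟩
  | mul y z _ _ hy hz =>
    obtain ⟨m, n, rfl⟩ := hy
    obtain ⟨m', n', rfl⟩ := hz
    refine ⟨m + m', n + n', ?_⟩
    rw [zpow_add, zpow_add]
    have h1 : B ^ n * A ^ m' = A ^ m' * B ^ n := ((hAB.zpow_zpow m' n).eq).symm
    calc A ^ m * B ^ n * (A ^ m' * B ^ n') = A ^ m * (B ^ n * A ^ m') * B ^ n' := by group
      _ = A ^ m * A ^ m' * (B ^ n * B ^ n') := by rw [h1]; group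
  | inv y _ hy =>
    obtain ⟨m, n, rfl⟩ := hy
    refine ⟨-m, -n, ?_⟩
    rw [mul_inv_rev, zpow_neg, zpow_neg]
    exact ((hAB.zpow_zpow m n).inv_inv.eq).symm

/-- `θ` vanishes on the relations in the generators `a i, b i`.

Proof. Let `A = of (a i)`, `B = of (b i)`, `F` the subgroup generated by them, and `M` the set of the `f ∈ F` with
`FreeGroup.lift x f = 1` and `θ f = 0`: a subgroup, normalized by `F` (second property of `Th`), which contains
`⁅A, B⁆` (it is in the kernel by `hP.comm`; third property). So modulo `M` the elements `A, B` commute, and every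
element of `F` is `A ^ m * B ^ n * r` with `r ∈ M` (closure induction). If it is in the kernel then
`x (a i) ^ m * x (b i) ^ n = 1`, so `m = n = 0` by `hP.ind`. -/
theorem th_loc {σ : Representation K G E} {x : ι → G} {a b : κ → ι} {P : κ → Subgroup G}
    (hP : Per x a b P) {θ : (FreeGroup.lift x).ker → E} (hθ : θ ∈ Th σ x a b) (i : κ)
    (r : (FreeGroup.lift x).ker)
    (hr : (r : FreeGroup ι) ∈ Subgroup.closure {FreeGroup.of (a i), FreeGroup.of (b i)}) :
    θ r = 0 := by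
  have hN := UA_normal hθ
  have hcomm : (FreeGroup.of (a i) * FreeGroup.of (b i) * (FreeGroup.of (a i))⁻¹ *
      (FreeGroup.of (b i))⁻¹ : FreeGroup ι) ∈ UA_N hθ := by
    have h1 : (FreeGroup.of (a i) * FreeGroup.of (b i) * (FreeGroup.of (a i))⁻¹ *
        (FreeGroup.of (b i))⁻¹ : FreeGroup ι) ∈ (FreeGroup.lift x).ker := by
      rw [MonoidHom.mem_ker, map_mul, map_mul, map_mul, map_inv, map_inv,
        FreeGroup.lift_apply_of, FreeGroup.lift_apply_of, hP.comm i]
      group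
    exact ⟨h1, hθ.2.2 i ⟨_, h1⟩ rfl⟩
  let q : FreeGroup ι →* FreeGroup ι ⧸ UA_N hθ := QuotientGroup.mk' (UA_N hθ)
  have hq : Commute (q (FreeGroup.of (a i))) (q (FreeGroup.of (b i))) := by
    have h2 : q (FreeGroup.of (a i) * FreeGroup.of (b i) * (FreeGroup.of (a i))⁻¹ *
        (FreeGroup.of (b i))⁻¹) = 1 := (QuotientGroup.eq_one_iff _).2 hcomm
    rw [map_mul, map_mul, map_mul, map_inv, map_inv] at h2
    have h3 := mul_inv_eq_one.1 h2
    exact mul_inv_eq_iff_eq_mul.1 h3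
  have hmem : q r ∈ Subgroup.closure {q (FreeGroup.of (a i)), q (FreeGroup.of (b i))} := by
    have h4 : q r ∈ (Subgroup.closure {FreeGroup.of (a i), FreeGroup.of (b i)}).map q :=
      ⟨r, hr, rfl⟩
    rw [MonoidHom.map_closure, Set.image_pair] at h4
    exact h4
  obtain ⟨m, n, hmn⟩ := UA_pair hq hmem
  have h5 : (FreeGroup.of (a i) ^ m * FreeGroup.of (b i) ^ n)⁻¹ * (r : FreeGroup ι) ∈
      UA_N hθ := by
    have h6 : q ((FreeGroup.of (a i) ^ m * FreeGroup.of (b i) ^ n)⁻¹ * (r : FreeGroup ι)) = 1 := by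
      rw [map_mul, map_inv, map_mul, map_zpow, map_zpow, hmn, inv_mul_cancel]
    exact (QuotientGroup.eq_one_iff _).1 h6
  obtain ⟨h7, h8⟩ := (UA_mem hθ _).1 h5
  have h9 : x (a i) ^ m * x (b i) ^ n = 1 := by
    rw [MonoidHom.mem_ker, map_mul, map_inv, map_mul, map_zpow, map_zpow,
      FreeGroup.lift_apply_of, FreeGroup.lift_apply_of, MonoidHom.mem_ker.1 r.2, mul_one,
      inv_eq_one] at h7
    exact h7
  obtain ⟨rfl, rfl⟩ := hP.ind i m n h9
  rw [zpow_zero, zpow_zero, mul_one, inv_one, one_mul] at h5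
  obtain ⟨h10, h11⟩ := (UA_mem hθ _).1 h5
  exact h11

end

end Thu
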