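import Pool.Agent.W_04c03c_h58t.UA

/-!
# The homogeneous cocycle of an equivariant homomorphism on the relation module
-/

namespace Thu

open RCan

section

variable {K G E ι κ : Type} [Field K] [Group G] [AddCommGroup E] [Module K E]

/-- invariance of `ext0` under conjugation -/
theorem UB_conj {σ : Representation K G E} {x : ι → G} {a b : κ → ι}
    {θ : (FreeGroup.lift x).ker → E} (hθ : θ ∈ Th σ x a b) (f r : FreeGroup ι) :
    ext0 θ (f * r * f⁻¹) = σ (FreeGroup.lift x f) (ext0 θ r) := by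
  unfold ext0
  by_cases h : r ∈ (FreeGroup.lift x).ker
  · have h' : f * r * f⁻¹ ∈ (FreeGroup.lift x).ker := by
      rw [MonoidHom.mem_ker] at h ⊢
      rw [map_mul, map_mul, h, map_inv, mul_one, mul_inv_cancel]
    rw [dif_pos h, dif_pos h']
    exact hθ.2.1 f ⟨r, h⟩ ⟨f * r * f⁻¹, h'⟩ rfl
  · have h' : f * r * f⁻¹ ∉ (FreeGroup.lift x).ker := by
      intro h'
      apply h
      rw [MonoidHom.mem_ker] at h' ⊢
      rw [map_mul, map_mul, map_inv] at h'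
      have := mul_inv_eq_one.1 h'
      exact mul_eq_left.1 this
    rw [dif_neg h, dif_neg h', map_zero]

theorem UB_mul {σ : Representation K G E} {x : ι → G} {a b : κ → ι}
    {θ : (FreeGroup.lift x).ker → E} (hθ : θ ∈ Th σ x a b) {f r : FreeGroup ι}
    (hf : FreeGroup.lift x f = 1) (hr : FreeGroup.lift x r = 1) :
    ext0 θ (f * r) = ext0 θ f + ext0 θ r := by
  have h1 := ext0_eq θ ⟨f, MonoidHom.mem_ker.2 hf⟩
  have h2 := ext0_eq θ ⟨r, MonoidHom.mem_ker.2 hr⟩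
  have h3 := ext0_eq θ (⟨f, MonoidHom.mem_ker.2 hf⟩ * ⟨r, MonoidHom.mem_ker.2 hr⟩)
  rw [hθ.1, ← h1, ← h2] at h3
  exact h3

theorem UB_1 {σ : Representation K G E} {x : ι → G} {a b : κ → ι}
    {θ : (FreeGroup.lift x).ker → E} (hθ : θ ∈ Th σ x a b) : ext0 θ (1 : FreeGroup ι) = 0 := by
  have h := UB_mul hθ (f := 1) (r := 1) (map_one _) (map_one _)
  rw [mul_one] at h
  exact left_eq_add.1 h

theorem UB_inv {σ : Representation K G E} {x : ι → G} {a b : κ → ι}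
    {θ : (FreeGroup.lift x).ker → E} (hθ : θ ∈ Th σ x a b) {f : FreeGroup ι}
    (hf : FreeGroup.lift x f = 1) : ext0 θ f⁻¹ = - ext0 θ f := by
  have h := UB_mul hθ (f := f) (r := f⁻¹) hf (by rw [map_inv, hf, inv_one])
  rw [mul_inv_cancel, UB_1 hθ] at h
  rw [eq_neg_iff_add_eq_zero, add_comm]
  exact h.symm

theorem UB_sw {G : Type} [Group G] {ι : Type} {s : G → FreeGroup ι}
    (hs' : ∀ g, s g⁻¹ = (s g)⁻¹) (g h : G) :
    s (h⁻¹ * g) = (s (g⁻¹ * h))⁻¹ := by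
  rw [← hs', mul_inv_rev, inv_inv]

/-- a cochain value seen from another base point -/
theorem UB_shift {σ : Representation K G E} {x : ι → G} {a b : κ → ι} {s : G → FreeGroup ι}
    (hs : ∀ g, FreeGroup.lift x (s g) = g)
    {θ : (FreeGroup.lift x).ker → E} (hθ : θ ∈ Th σ x a b) (g h : G) (r : FreeGroup ι) :
    σ h (ext0 θ r) = σ g (ext0 θ (s (g⁻¹ * h) * r * (s (g⁻¹ * h))⁻¹)) := by
  rw [UB_conj hθ, hs, ← Module.End.mul_apply, ← map_mul, mul_inv_cancel_left]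

/-- Invariance under translations. (Definition; `(g * k)⁻¹ * (g * h) = k⁻¹ * h`, `σ (g * k) = σ g ∘ σ k`.) -/
theorem cb_smul (σ : Representation K G E) {x : ι → G} (s : G → FreeGroup ι)
    (θ : (FreeGroup.lift x).ker → E) (g h k l : G) :
    cb σ s θ (g * h) (g * k) (g * l) = σ g (cb σ s θ h k l) := by
  unfold cb
  have e : ∀ u v : G, (g * u)⁻¹ * (g * v) = u⁻¹ * v := by
    intro u v
    group
  rw [e, e, e, map_mul, Module.End.mul_apply]

/-- The argument of `θ` is in the kernel, so `ext0` can be replaced by `θ`.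

Cocycle identity. Write `u_{gh} = s (g⁻¹ * h)`; `u_{hg} = u_{gh}⁻¹`. By additivity
`cb g h k + cb g k l = σ g (θ (u_{gh} u_{hk} u_{kl} u_{gl}⁻¹))`, and by the second property of `Th`,
`cb h k l = σ h (θ (u_{hk} u_{kl} u_{hl}⁻¹)) = σ g (θ (u_{gh} (u_{hk} u_{kl} u_{hl}⁻¹) u_{gh}⁻¹))` (as
`FreeGroup.lift x u_{gh} = g⁻¹ * h`), so `cb h k l + cb g h l = σ g (θ (u_{gh} u_{hk} u_{kl} u_{gl}⁻¹))` too. -/
theorem cb_cocycle {σ : Representation K G E} {x : ι → G} {a b : κ → ι} {s : G → FreeGroup ι}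
    (hs : ∀ g, FreeGroup.lift x (s g) = g) (hs' : ∀ g, s g⁻¹ = (s g)⁻¹)
    {θ : (FreeGroup.lift x).ker → E} (hθ : θ ∈ Th σ x a b) (g h k l : G) :
    cb σ s θ h k l - cb σ s θ g k l + cb σ s θ g h l - cb σ s θ g h k = 0 := by
  have h1 : cb σ s θ h k l = σ g (ext0 θ (s (g⁻¹ * h) *
      (s (h⁻¹ * k) * s (k⁻¹ * l) * s (l⁻¹ * h)) * (s (g⁻¹ * h))⁻¹)) := by
    unfold cb
    exact UB_shift hs hθ g h _
  have e1 : ext0 θ (s (g⁻¹ * h) * (s (h⁻¹ * k) * s (k⁻¹ * l) * s (l⁻¹ * h)) *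
        (s (g⁻¹ * h))⁻¹) + ext0 θ (s (g⁻¹ * h) * s (h⁻¹ * l) * s (l⁻¹ * g)) =
      ext0 θ (s (g⁻¹ * h) * s (h⁻¹ * k) * s (k⁻¹ * g)) +
        ext0 θ (s (g⁻¹ * k) * s (k⁻¹ * l) * s (l⁻¹ * g)) := by
    rw [← UB_mul hθ, ← UB_mul hθ]
    · rw [UB_sw hs' h l, UB_sw hs' g k]
      congr 1
      group
    all_goals
      simp only [map_mul, map_inv, hs]
      group
  rw [h1]
  unfold cb
  have e2 := congrArg (σ g) e1
  rw [map_add, map_add] at e2
  rw [sub_add_eq_add_sub, e2]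
  abel

/-- The cochain is alternating, part 1. `cb h g k = σ h (θ (u_{hg} u_{gk} u_{kh}))
= σ g (θ (u_{gh} (u_{hg} u_{gk} u_{kh}) u_{gh}⁻¹)) = σ g (θ (u_{gk} u_{kh} u_{hg}))
= σ g (θ ((u_{gh} u_{hk} u_{kg})⁻¹))`, and `θ r⁻¹ = - θ r`. -/
theorem cb_swap {σ : Representation K G E} {x : ι → G} {a b : κ → ι} {s : G → FreeGroup ι}
    (hs : ∀ g, FreeGroup.lift x (s g) = g) (hs' : ∀ g, s g⁻¹ = (s g)⁻¹)
    {θ : (FreeGroup.lift x).ker → E} (hθ : θ ∈ Th σ x a b) (g h k : G) :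
    cb σ s θ h g k = - cb σ s θ g h k := by
  have h1 : cb σ s θ h g k = σ g (ext0 θ (s (g⁻¹ * h) *
      (s (h⁻¹ * g) * s (g⁻¹ * k) * s (k⁻¹ * h)) * (s (g⁻¹ * h))⁻¹)) := by
    unfold cb
    exact UB_shift hs hθ g h _
  rw [h1]
  unfold cb
  rw [← map_neg, ← UB_inv hθ]
  · rw [UB_sw hs' g h, UB_sw hs' k g, UB_sw hs' h k]
    congr 2
    group
  · simp only [map_mul, hs]
    group

/-- The cochain is alternating, part 2: `u_{gk} u_{kh} u_{hg} = (u_{gh} u_{hk} u_{kg})⁻¹`. -/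
theorem cb_swap' {σ : Representation K G E} {x : ι → G} {a b : κ → ι} {s : G → FreeGroup ι}
    (hs : ∀ g, FreeGroup.lift x (s g) = g) (hs' : ∀ g, s g⁻¹ = (s g)⁻¹)
    {θ : (FreeGroup.lift x).ker → E} (hθ : θ ∈ Th σ x a b) (g h k : G) :
    cb σ s θ g k h = - cb σ s θ g h k := by
  unfold cb
  rw [← map_neg, ← UB_inv hθ]
  · rw [UB_sw hs' g h, UB_sw hs' k g, UB_sw hs' h k]
    congr 2
    group
  · simp only [map_mul, hs]
    group

/-- The cochain is alternating, part 3: it vanishes if two neighbouring arguments are equal (`s 1 = 1`,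
`u_{gh} u_{hg} = 1`, `θ 1 = 0`). -/
theorem cb_same {σ : Representation K G E} {x : ι → G} {a b : κ → ι} {s : G → FreeGroup ι}
    (hs' : ∀ g, s g⁻¹ = (s g)⁻¹) (hs1 : s 1 = 1)
    {θ : (FreeGroup.lift x).ker → E} (hθ : θ ∈ Th σ x a b) (g h : G) :
    cb σ s θ g g h = 0 ∧ cb σ s θ g h h = 0 := by
  unfold cb
  constructor
  · rw [inv_mul_cancel, hs1, one_mul, UB_sw hs' g h, mul_inv_cancel, UB_1 hθ, map_zero]
  · rw [inv_mul_cancel, hs1, mul_one, UB_sw hs' g h, mul_inv_cancel, UB_1 hθ, map_zero]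

/-- If `g⁻¹ * h` and `g⁻¹ * k` are in `P i` then the value is zero: all three factors `s (g⁻¹ * h)`,
`s (h⁻¹ * k)`, `s (k⁻¹ * g)` are in the subgroup generated by `of (a i), of (b i)`; `th_loc`. -/
theorem cb_per {σ : Representation K G E} {x : ι → G} {a b : κ → ι} {P : κ → Subgroup G}
    (hP : Per x a b P) {s : G → FreeGroup ι} (hs : ∀ g, FreeGroup.lift x (s g) = g)
    (hsP : ∀ (i : κ), ∀ g ∈ P i,
      s g ∈ Subgroup.closure {FreeGroup.of (a i), FreeGroup.of (b i)})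
    {θ : (FreeGroup.lift x).ker → E} (hθ : θ ∈ Th σ x a b) (i : κ) (g h k : G)
    (hh : g⁻¹ * h ∈ P i) (hk : g⁻¹ * k ∈ P i) : cb σ s θ g h k = 0 := by
  unfold cb
  have h1 : h⁻¹ * k ∈ P i := by
    have := (P i).mul_mem ((P i).inv_mem hh) hk
    rwa [mul_inv_rev, inv_inv, mul_assoc, mul_inv_cancel_left] at this
  have h2 : k⁻¹ * g ∈ P i := by
    have := (P i).inv_mem hk
    rwa [mul_inv_rev, inv_inv] at this
  have hr : s (g⁻¹ * h) * s (h⁻¹ * k) * s (k⁻¹ * g) ∈ (FreeGroup.lift x).ker := by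
    rw [MonoidHom.mem_ker]
    simp only [map_mul, hs]
    group
  have := th_loc hP hθ i ⟨_, hr⟩
    (mul_mem (mul_mem (hsP i _ hh) (hsP i _ h1)) (hsP i _ h2))
  have h3 := ext0_eq θ ⟨_, hr⟩
  rw [this] at h3
  rw [h3, map_zero]

/-- Additivity: `cb 1 g (g * h) = θ (s g * s h * (s (g * h))⁻¹)` (definition, `σ 1 = 1`). -/
theorem cb_one (σ : Representation K G E) {x : ι → G} {s : G → FreeGroup ι}
    (hs' : ∀ g, s g⁻¹ = (s g)⁻¹) (θ : (FreeGroup.lift x).ker → E) (g h : G) :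
    cb σ s θ 1 g (g * h) = ext0 θ (s g * s h * (s (g * h))⁻¹) := by
  unfold cb
  rw [map_one, Module.End.one_apply, inv_one, one_mul, inv_mul_cancel_left, mul_one, hs']

end

end Thu
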