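import Pool.Agent.W_04c03c_h58t.UB
import Pool.Agent.W_04c03c_h58t.DDef

/-!
# The relative cochain of an equivariant homomorphism on the relation module
-/

namespace Thu

open RCan MulAction

section

variable {G Ξ V : Type} [Group G] [MulAction G Ξ] [MulAction G V] {sm : V → V → Prop}
  {cusp : V → Option Ξ} {K : Type} [Field K] {E : Type} [AddCommGroup E] [Module K E]
  {ι κ : Type}

theorem UC_ext0_add {x : ι → G} (θ θ' : (FreeGroup.lift x).ker → E) (f : FreeGroup ι) :
    ext0 (θ + θ') f = ext0 θ f + ext0 θ' f := by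
  unfold ext0
  split_ifs
  · rfl
  · rw [add_zero]

theorem UC_ext0_smul {x : ι → G} (c : K) (θ : (FreeGroup.lift x).ker → E) (f : FreeGroup ι) :
    ext0 (c • θ) f = c • ext0 θ f := by
  unfold ext0
  split_ifs
  · rfl
  · rw [smul_zero]

/-- the value on lists of length three -/
noncomputable def UC_v (σ : Representation K G E) {x : ι → G} (s : G → FreeGroup ι) (γ : V → G)
    (θ : (FreeGroup.lift x).ker → E) : List V → E
  | [v, w, t] => cb σ s θ (γ v) (γ w) (γ t)
  | _ => 0

omit [MulAction G V] in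
theorem UC_v_three (σ : Representation K G E) {x : ι → G} (s : G → FreeGroup ι) (γ : V → G)
    (θ : (FreeGroup.lift x).ker → E) (v w t : V) :
    UC_v σ s γ θ [v, w, t] = cb σ s θ (γ v) (γ w) (γ t) := rfl

omit [MulAction G V] in
theorem UC_v_len (σ : Representation K G E) {x : ι → G} (s : G → FreeGroup ι) (γ : V → G)
    (θ : (FreeGroup.lift x).ker → E) (l : List V) (h : l.length ≠ 3) : UC_v σ s γ θ l = 0 := by
  match l with
  | [] => rfl
  | [_] => rfl
  | [_, _] => rfl
  | [_, _, _] => exact absurd rfl h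
  | _ :: _ :: _ :: _ :: _ => rfl

theorem UC_list (l : List V) (h : l.length = 3) : ∃ v w t, l = [v, w, t] :=
  List.length_eq_three.1 h

theorem UC_v_add (σ : Representation K G E) {x : ι → G} (s : G → FreeGroup ι) (γ : V → G)
    (θ θ' : (FreeGroup.lift x).ker → E) (l : List V) :
    UC_v σ s γ (θ + θ') l = UC_v σ s γ θ l + UC_v σ s γ θ' l := by
  by_cases h : l.length = 3
  · obtain ⟨v, w, t, rfl⟩ := UC_list l h
    simp only [UC_v_three, cb, UC_ext0_add, map_add]
  · rw [UC_v_len _ _ _ _ _ h, UC_v_len _ _ _ _ _ h, UC_v_len _ _ _ _ _ h, add_zero]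

theorem UC_v_smul (σ : Representation K G E) {x : ι → G} (s : G → FreeGroup ι) (γ : V → G)
    (c : K) (θ : (FreeGroup.lift x).ker → E) (l : List V) :
    UC_v σ s γ (c • θ) l = c • UC_v σ s γ θ l := by
  by_cases h : l.length = 3
  · obtain ⟨v, w, t, rfl⟩ := UC_list l h
    simp only [UC_v_three, cb, UC_ext0_smul, map_smul]
  · rw [UC_v_len _ _ _ _ _ h, UC_v_len _ _ _ _ _ h, smul_zero]

theorem UC_alt {σ : Representation K G E} {x : ι → G} {a b : κ → ι} {s : G → FreeGroup ι}
    (hs : ∀ g, FreeGroup.lift x (s g) = g) (hs' : ∀ g, s g⁻¹ = (s g)⁻¹) (hs1 : s 1 = 1)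
    (γ : V → G) {θ : (FreeGroup.lift x).ker → E} (hθ : θ ∈ Th σ x a b) :
    Alt (UC_v σ s γ θ) := by
  refine ⟨?_, ?_⟩
  · intro l₁ y z l₂
    by_cases h : l₁.length + l₂.length = 1
    · rcases l₁ with _ | ⟨v, l₁⟩
      · obtain ⟨t, rfl⟩ := List.length_eq_one_iff.1 (by simpa using h)
        exact cb_swap hs hs' hθ _ _ _
      · have h1 : l₁.length = 0 ∧ l₂.length = 0 := by
          simp only [List.length_cons] at h
          omega
        rw [List.length_eq_zero_iff, List.length_eq_zero_iff] at h1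
        obtain ⟨rfl, rfl⟩ := h1
        exact cb_swap' hs hs' hθ _ _ _
    · rw [UC_v_len _ _ _ _ _ (by simp; omega), UC_v_len _ _ _ _ _ (by simp; omega), neg_zero]
  · intro l₁ y l₂
    by_cases h : l₁.length + l₂.length = 1
    · rcases l₁ with _ | ⟨v, l₁⟩
      · obtain ⟨t, rfl⟩ := List.length_eq_one_iff.1 (by simpa using h)
        exact (cb_same hs' hs1 hθ _ _).1
      · have h1 : l₁.length = 0 ∧ l₂.length = 0 := by
          simp only [List.length_cons] at h
          omega
        rw [List.length_eq_zero_iff, List.length_eq_zero_iff] at h1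
        obtain ⟨rfl, rfl⟩ := h1
        exact (cb_same hs' hs1 hθ _ _).2
    · rw [UC_v_len _ _ _ _ _ (by simp; omega)]

open Classical in
/-- the cochain -/
noncomputable def UC_c (sm : V → V → Prop) (σ : Representation K G E) {x : ι → G}
    (s : G → FreeGroup ι) (γ : V → G) (θ : (FreeGroup.lift x).ker → E) (l : List V) : E :=
  if Sml sm l then UC_v σ s γ θ l else 0

omit [MulAction G V] in
theorem UC_c_of {σ : Representation K G E} {x : ι → G} {s : G → FreeGroup ι} {γ : V → G}
    {θ : (FreeGroup.lift x).ker → E} {l : List V} (h : Sml sm l) :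
    UC_c sm σ s γ θ l = UC_v σ s γ θ l := if_pos h

omit [MulAction G V] in
theorem UC_c_not {σ : Representation K G E} {x : ι → G} {s : G → FreeGroup ι} {γ : V → G}
    {θ : (FreeGroup.lift x).ker → E} {l : List V} (h : ¬ Sml sm l) :
    UC_c sm σ s γ θ l = 0 := if_neg h

theorem UC_c_len {σ : Representation K G E} {x : ι → G} {s : G → FreeGroup ι} {γ : V → G}
    {θ : (FreeGroup.lift x).ker → E} {l : List V} (h : l.length ≠ 3) :
    UC_c sm σ s γ θ l = 0 := by
  unfold UC_c
  rw [UC_v_len _ _ _ _ _ h]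
  split_ifs <;> rfl

theorem UC_mem (hF : Face G Ξ V sm cusp) {ξ : κ → Ξ}
    (hex : ∀ η : Ξ, ∃ (i : κ) (g : G), η = g • ξ i)
    {γ : V → G} (hγ : ∀ (g : G) (v : V), γ (g • v) = g * γ v)
    (hγ' : ∀ (v : V) (i : κ) (g : G), cusp v = some (g • ξ i) → γ v • ξ i = g • ξ i)
    (σ : Representation K G E) {x : ι → G} {a b : κ → ι}
    (hP : Per x a b fun i => stabilizer G (ξ i)) {s : G → FreeGroup ι}
    (hs : ∀ g, FreeGroup.lift x (s g) = g) (hs' : ∀ g, s g⁻¹ = (s g)⁻¹) (hs1 : s 1 = 1)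
    (hsP : ∀ (i : κ), ∀ g ∈ stabilizer G (ξ i),
      s g ∈ Subgroup.closure {FreeGroup.of (a i), FreeGroup.of (b i)})
    {θ : (FreeGroup.lift x).ker → E} (hθ : θ ∈ Th σ x a b) :
    UC_c sm σ s γ θ ∈ EQE sm cusp σ 2 := by
  classical
  refine ⟨⟨?_, ?_, ?_⟩, ?_⟩
  · have h1 := Alt.ite (A := E) (fun l => Sml sm l) (fun l l' h h' =>
      ⟨fun hl y hy z hz => hl y (h' hy) z (h' hz), fun hl y hy z hz => hl y (h hy) z (h hz)⟩)
      (UC_alt hs hs' hs1 γ hθ)
    have h2 : (fun l => if Sml sm l then UC_v σ s γ θ l else 0) = UC_c sm σ s γ θ := by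
      funext l
      unfold UC_c
      congr
    rw [← h2]
    exact h1
  · intro l hl
    by_contra hcon
    exact hl (UC_c_len (by simpa using hcon))
  · intro l hl
    have hlen : l.length = 3 := by
      by_contra hcon
      exact hl (UC_c_len hcon)
    have hsml : Sml sm l := by
      by_contra hcon
      exact hl (UC_c_not hcon)
    refine ⟨hsml, ?_⟩
    rintro ⟨η, hη⟩
    apply hl
    obtain ⟨v, w, t, rfl⟩ := UC_list l hlen
    rw [UC_c_of hsml, UC_v_three]
    obtain ⟨i, g, rfl⟩ := hex η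
    have e1 := hγ' v i g (hη v (by simp))
    have e2 := hγ' w i g (hη w (by simp))
    have e3 := hγ' t i g (hη t (by simp))
    refine cb_per hP hs hsP hθ i _ _ _ ?_ ?_
    · rw [mem_stabilizer_iff, mul_smul, e2, ← e1, inv_smul_smul]
    · rw [mem_stabilizer_iff, mul_smul, e3, ← e1, inv_smul_smul]
  · intro g l
    by_cases hl : Sml sm l
    · rw [UC_c_of hl, UC_c_of ((sml_smul hF.smul_sm g l).2 hl)]
      by_cases h : l.length = 3
      · obtain ⟨v, w, t, rfl⟩ := UC_list l h
        rw [UC_v_three]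
        change UC_v σ s γ θ [g • v, g • w, g • t] = _
        rw [UC_v_three, hγ, hγ, hγ, cb_smul]
      · rw [UC_v_len _ _ _ _ _ h, UC_v_len _ _ _ _ _ (by simpa using h), map_zero]
    · rw [UC_c_not hl, UC_c_not (fun h => hl ((sml_smul hF.smul_sm g l).1 h)), map_zero]

theorem UC_cr {σ : Representation K G E} {x : ι → G} {a b : κ → ι} {s : G → FreeGroup ι}
    (hs : ∀ g, FreeGroup.lift x (s g) = g) (hs' : ∀ g, s g⁻¹ = (s g)⁻¹)
    (γ : V → G) {θ : (FreeGroup.lift x).ker → E} (hθ : θ ∈ Th σ x a b) :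
    cr sm (UC_c sm σ s γ θ) = 0 := by
  funext l
  unfold cr
  split_ifs with hl
  · rw [co_apply]
    by_cases h : l.length = 4
    · obtain ⟨v, w, t, u, rfl⟩ : ∃ v w t u, l = [v, w, t, u] := by
        rcases l with _ | ⟨v, l⟩
        · simp at h
        · obtain ⟨w, t, u, rfl⟩ := UC_list l (by simpa using h)
          exact ⟨v, w, t, u, rfl⟩
      have hsub : ∀ l' : List V, l' ⊆ [v, w, t, u] → Sml sm l' := fun l' h' y hy z hz =>
        hl y (h' hy) z (h' hz)
      simp only [dl_cons, dl_nil]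
      rw [UC_c_of (hsub [w, t, u] (by simp)), UC_c_of (hsub [v, t, u] (by simp)),
        UC_c_of (hsub [v, w, u] (by simp)), UC_c_of (hsub [v, w, t] (by simp)),
        UC_v_three, UC_v_three, UC_v_three, UC_v_three]
      have h1 := cb_cocycle hs hs' hθ (γ v) (γ w) (γ t) (γ u)
      rw [Pi.zero_apply]
      refine Eq.trans ?_ h1
      abel
    · refine dl_eq_zero l fun l' _ h2 => UC_c_len ?_
      omega
  · rfl

/-- The cochain `[v, w, t] ↦ cb σ s θ (γ v) (γ w) (γ t)` (on small lists) is an equivariant relative cocycle,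
linear in `θ`.

Proof. Define `C θ l` to be this value if `l = [v, w, t]` is small, `0` otherwise. Linear in `θ`: `cb` is linear
in `θ`. Alternating: lists of length three; `cb_swap`, `cb_swap'`, `cb_same` (smallness depends only on the set of
entries, `hF.symm`, `hF.refl`). Relative: if `v, w, t` are in a common cusp `η = g • ξ i` (`hξ.ex`) then
`γ v • ξ i = γ w • ξ i = γ t • ξ i` (`hγ'`), so `(γ v)⁻¹ * γ w` and `(γ v)⁻¹ * γ t` are in the stabilizer of `ξ i`,
and `cb_per` gives zero. Equivariant: `cb_smul`, `hγ`, `hF.smul_sm`. `crQ (C θ) = 0`: on a small list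
`[v, w, t, u]` (other lengths: zero by `dl_eq_zero`) it is `cb_cocycle`. -/
theorem exists_C (hF : Face G Ξ V sm cusp) {ξ : κ → Ξ} (hex : ∀ η : Ξ, ∃ (i : κ) (g : G), η = g • ξ i)
    {γ : V → G} (hγ : ∀ (g : G) (v : V), γ (g • v) = g * γ v)
    (hγ' : ∀ (v : V) (i : κ) (g : G), cusp v = some (g • ξ i) → γ v • ξ i = g • ξ i)
    (σ : Representation K G E) {x : ι → G} {a b : κ → ι}
    (hP : Per x a b fun i => stabilizer G (ξ i)) {s : G → FreeGroup ι}
    (hs : ∀ g, FreeGroup.lift x (s g) = g) (hs' : ∀ g, s g⁻¹ = (s g)⁻¹) (hs1 : s 1 = 1)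
    (hsP : ∀ (i : κ), ∀ g ∈ stabilizer G (ξ i),
      s g ∈ Subgroup.closure {FreeGroup.of (a i), FreeGroup.of (b i)}) :
    ∃ C : Th σ x a b →ₗ[K] EQE sm cusp σ 2, (∀ θ, crQ hF σ 2 (C θ) = 0) ∧
      ∀ θ v w t, sm v w → sm w t → sm v t →
        (C θ).1 [v, w, t] = cb σ s θ.1 (γ v) (γ w) (γ t) := by
  refine ⟨{
    toFun := fun θ => ⟨UC_c sm σ s γ θ.1, UC_mem hF hex hγ hγ' σ hP hs hs' hs1 hsP θ.2⟩
    map_add' := ?_
    map_smul' := ?_ }, ?_, ?_⟩
  · intro θ θ'
    apply Subtype.ext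
    funext l
    change UC_c sm σ s γ (θ.1 + θ'.1) l = UC_c sm σ s γ θ.1 l + UC_c sm σ s γ θ'.1 l
    by_cases h : Sml sm l
    · rw [UC_c_of h, UC_c_of h, UC_c_of h, UC_v_add]
    · rw [UC_c_not h, UC_c_not h, UC_c_not h, add_zero]
  · intro c θ
    apply Subtype.ext
    funext l
    change UC_c sm σ s γ (c • θ.1) l = c • UC_c sm σ s γ θ.1 l
    by_cases h : Sml sm l
    · rw [UC_c_of h, UC_c_of h, UC_v_smul]
    · rw [UC_c_not h, UC_c_not h, smul_zero]
  · intro θ
    exact Subtype.ext (UC_cr hs hs' γ θ.2)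
  · intro θ v w t h1 h2 h3
    have hsml : Sml sm [v, w, t] := by
      intro y hy z hz
      simp only [List.mem_cons, List.not_mem_nil, or_false] at hy hz
      rcases hy with rfl | rfl | rfl <;> rcases hz with rfl | rfl | rfl <;>
        first
          | exact hF.refl _
          | assumption
          | exact hF.symm _ _ (by assumption)
    exact UC_c_of hsml

end

end Thu
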