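import Pool.Agent.W_04c03c_h58t.UC
import Pool.Agent.W_04c03c_h58.SimCon

/-!
# If the class vanishes then the homomorphism comes from a derivation
-/

namespace Thu

open RCan MulAction

section

variable {G Ξ V : Type} [Group G] [MulAction G Ξ] [MulAction G V] {sm : V → V → Prop}
  {cusp : V → Option Ξ} {K : Type} [Field K] {E : Type} [AddCommGroup E] [Module K E]
  {ι κ : Type}

omit [MulAction G V] [MulAction G Ξ] in
theorem UD_co3 (f : List V → E) (x y z : V) :
    co f [x, y, z] = f [y, z] - f [x, z] + f [x, y] := by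
  rw [co_apply, dl_cons, dl_cons, dl_cons, dl_nil]
  abel

theorem UD_const (hF : Face G Ξ V sm cusp) {A : Type} (F : V → A)
    (h : ∀ x y, sm x y → F x = F y) (x y : V) : F x = F y := by
  obtain ⟨rk, ps, hd⟩ := hF.dis
  have hex : ∀ (n : ℕ) (v : V), rk v ≤ n → ∃ v₀, rk v₀ = 0 ∧ F v = F v₀ := by
    intro n
    induction n with
    | zero =>
      intro v hv
      exact ⟨v, Nat.le_zero.1 hv, rfl⟩
    | succ n ih =>
      intro v hv
      rcases Nat.eq_zero_or_pos (rk v) with h0 | h0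
      · exact ⟨v, h0, rfl⟩
      · obtain ⟨h1, h2⟩ := hd.1 v h0
        obtain ⟨v₀, h3, h4⟩ := ih (ps v) (by omega)
        exact ⟨v₀, h3, (h v (ps v) (h2 v (hF.refl v) le_rfl)).trans h4⟩
  obtain ⟨x₀, h1, h2⟩ := hex _ x le_rfl
  obtain ⟨y₀, h3, h4⟩ := hex _ y le_rfl
  rw [h2, h4]
  exact h _ _ (hd.2 x₀ y₀ h1 h3)

/-- A potential.

Proof. Put `cc v w t = cb σ s θ (γ v) (γ w) (γ t)` for all vertices. `cb_cocycle` for `o, v, w, t` gives
`cc o w t - cc o v t + cc o v w = cc v w t`. On small triples `e [w, t] - e [v, t] + e [v, w] = cc v w t` (`he`), so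
`u v w = e [v, w] - cc o v w` satisfies `u v w + u w t = u v t` on small triples. `simply_connected`
(`W_04c03c_h58/SimCon.lean`) with `Γ = Multiplicative E` (`hF.dis`, `hF.ne`) gives `η` with
`u v w = η w - η v` for `sm v w` (compare the proof of `bd_exact` in `W_04c03c_h58/AlgH.lean`).
For `g : G` the function `φ v = η (g • v) - σ g (η v) + cc o (g • o) (g • v)` satisfies, for `sm v w`,
`φ w - φ v = - cc o (g • v) (g • w) + σ g (cc o v w) + cc o (g • o) (g • w) - cc o (g • o) (g • v)` (`e` is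
equivariant), and `σ g (cc o v w) = cc (g • o) (g • v) (g • w)` (`cb_smul`), so it is zero by the cocycle identity for
`o, g • o, g • v, g • w`. So `φ` is constant (`V` is connected: `AlgH_const` in `AlgH.lean`, copy for `E`), `= C g`. -/
theorem exists_eta (hF : Face G Ξ V sm cusp)
    {γ : V → G} (hγ : ∀ (g : G) (v : V), γ (g • v) = g * γ v)
    (σ : Representation K G E) {x : ι → G} {a b : κ → ι} {s : G → FreeGroup ι}
    (hs : ∀ g, FreeGroup.lift x (s g) = g) (hs' : ∀ g, s g⁻¹ = (s g)⁻¹)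
    {θ : (FreeGroup.lift x).ker → E} (hθ : θ ∈ Th σ x a b) (e : EQE sm cusp σ 1)
    (he : ∀ v w t, sm v w → sm w t → sm v t →
      (crQ hF σ 1 e).1 [v, w, t] = cb σ s θ (γ v) (γ w) (γ t)) (o : V) :
    ∃ (η : V → E) (C : G → E),
      (∀ v w, sm v w → e.1 [v, w] - cb σ s θ (γ o) (γ v) (γ w) = η w - η v) ∧
      ∀ g v, η (g • v) = σ g (η v) - cb σ s θ (γ o) (γ (g • o)) (γ (g • v)) + C g := by
  have hsmall : ∀ x y z, sm x y → sm y z → sm x z → Sml sm [x, y, z] := by
    intro x y z h1 h2 h3 a ha b hb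
    simp only [List.mem_cons, List.not_mem_nil, or_false] at ha hb
    rcases ha with rfl | rfl | rfl <;> rcases hb with rfl | rfl | rfl
    · exact hF.refl _
    · exact h1
    · exact h3
    · exact hF.symm _ _ h1
    · exact hF.refl _
    · exact h2
    · exact hF.symm _ _ h3
    · exact hF.symm _ _ h2
    · exact hF.refl _
  have hcc : ∀ v w t u : V, cb σ s θ (γ w) (γ t) (γ u) - cb σ s θ (γ v) (γ t) (γ u) +
      cb σ s θ (γ v) (γ w) (γ u) - cb σ s θ (γ v) (γ w) (γ t) = 0 := fun v w t u =>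
    cb_cocycle hs hs' hθ _ _ _ _
  obtain ⟨u, hu⟩ : ∃ u : V → V → E, ∀ v w, u v w = e.1 [v, w] - cb σ s θ (γ o) (γ v) (γ w) :=
    ⟨_, fun _ _ => rfl⟩
  have hcoc : ∀ x y z, sm x y → sm y z → sm x z → u x y + u y z = u x z := by
    intro x y z h1 h2 h3
    have h4 := he x y z h1 h2 h3
    rw [crQ_coe, cr_of_sml _ (hsmall x y z h1 h2 h3), UD_co3] at h4
    have h5 := hcc o x y z
    rw [hu, hu, hu]
    have h6 : (e.1 [x, y] - cb σ s θ (γ o) (γ x) (γ y)) +
        (e.1 [y, z] - cb σ s θ (γ o) (γ y) (γ z)) - (e.1 [x, z] - cb σ s θ (γ o) (γ x) (γ z)) =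
        (e.1 [y, z] - e.1 [x, z] + e.1 [x, y]) - cb σ s θ (γ o) (γ x) (γ y) -
          cb σ s θ (γ o) (γ y) (γ z) + cb σ s θ (γ o) (γ x) (γ z) := by abel
    rw [← sub_eq_zero, h6, h4, ← h5]
    abel
  obtain ⟨rk, ps, hd⟩ := hF.dis
  haveI := hF.ne
  obtain ⟨f', hf'⟩ := simply_connected hF.refl hF.symm hd
    (fun x y => Multiplicative.ofAdd (u x y)) (fun x y z h1 h2 h3 => by
      rw [← ofAdd_add, hcoc x y z h1 h2 h3])
  obtain ⟨η, hη'⟩ : ∃ η : V → E, ∀ x, η x = Multiplicative.toAdd (f' x) := ⟨_, fun _ => rfl⟩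
  have hη : ∀ x y, sm x y → u x y = η y - η x := by
    intro x y h
    have h1 := congrArg Multiplicative.toAdd (hf' x y h)
    rw [toAdd_ofAdd, toAdd_mul, toAdd_inv] at h1
    rw [h1, hη', hη']
    abel
  have hconst : ∀ (g : G) (v w : V),
      η (g • v) - σ g (η v) + cb σ s θ (γ o) (γ (g • o)) (γ (g • v)) =
      η (g • w) - σ g (η w) + cb σ s θ (γ o) (γ (g • o)) (γ (g • w)) := by
    intro g v w
    refine UD_const hF (fun v => η (g • v) - σ g (η v) +
      cb σ s θ (γ o) (γ (g • o)) (γ (g • v))) (fun a b hab => ?_) v w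
    have h1 := hη _ _ (hF.smul_sm g a b hab)
    have h2 := congrArg (fun z => σ g z) (hη a b hab)
    simp only [hu, map_sub] at h1 h2
    have h3 := e.2.2 g [a, b]
    rw [List.map_cons, List.map_cons, List.map_nil] at h3
    have h4 : σ g (cb σ s θ (γ o) (γ a) (γ b)) =
        cb σ s θ (γ (g • o)) (γ (g • a)) (γ (g • b)) := by
      rw [hγ, hγ, hγ, cb_smul]
    rw [h4] at h2
    rw [h3] at h1
    have h5 := hcc o (g • o) (g • a) (g • b)
    have h6 : σ g (e.1 [a, b]) = η (g • b) - η (g • a) +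
        cb σ s θ (γ o) (γ (g • a)) (γ (g • b)) := by
      rw [← h1]
      abel
    rw [h6] at h2
    have h7 : η (g • b) = σ g (η b) - σ g (η a) +
        cb σ s θ (γ (g • o)) (γ (g • a)) (γ (g • b)) + η (g • a) -
        cb σ s θ (γ o) (γ (g • a)) (γ (g • b)) := by
      rw [← h2]
      abel
    have h8 : cb σ s θ (γ (g • o)) (γ (g • a)) (γ (g • b)) =
        cb σ s θ (γ o) (γ (g • a)) (γ (g • b)) - cb σ s θ (γ o) (γ (g • o)) (γ (g • b)) +
        cb σ s θ (γ o) (γ (g • o)) (γ (g • a)) := by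
      rw [← sub_eq_zero, ← h5]
      abel
    beta_reduce
    rw [h7, h8]
    abel
  refine ⟨η, fun g => η (g • o) - σ g (η o) + cb σ s θ (γ o) (γ (g • o)) (γ (g • o)), ?_, ?_⟩
  · intro v w h
    rw [← hη v w h, hu]
  · intro g v
    have h1 := hconst g v o
    beta_reduce
    rw [← h1]
    abel

/-- Proof. Let `o` be a vertex with `γ o = 1` (`o = (γ v)⁻¹ • v` for any `v`; `hF.ne`) and `η, C` as in
`exists_eta`. (1) `C (g * h) = C g + σ g (C h) - cb 1 g (g * h)`: evaluate the second property at `h • v` and at `v`,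
use `cb_smul` and `cb_cocycle` for `1, g, g * h, g * h * γ v`. So by `cb_one`
`C (g * h) = C g + σ g (C h) - θ (s g * s h * (s (g * h))⁻¹)`, in particular `C 1 = 0` (`θ 1 = 0`).
(2) `D f = ext0 θ (f * (s (π f))⁻¹) + C (π f)`, `π = FreeGroup.lift x`, is a derivation:
`f * f' * (s (g h))⁻¹ = (f * (s g)⁻¹) * (s g * (f' * (s h)⁻¹) * (s g)⁻¹) * (s g * s h * (s (g * h))⁻¹)` with
`g = π f`, `h = π f'`; additivity and the second property of `Th`. (3) `D r = θ r` for `r` in the kernel
(`s 1 = 1`). (4) Let `i : κ` and `y` a vertex with `cusp y = some (ξ i)` (`hF.ex`). For vertices `v, w` of the cusp `ξ i` the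
elements `γ v, γ w` fix `ξ i` (`hγ'` with `g = 1`), so `cb 1 (γ v) (γ w) = 0` (`cb_per`), and if `sm v w` then
`e [v, w] = 0` (`e` is relative), so `η w = η v`; by `hF.conn` (induction on the path) `η` is constant on the cusp
`ξ i`. For `p` in the stabilizer of `ξ i`: `η (p • y) = η y`, and the second property of `exists_eta` gives
`η (p • y) = σ p (η y) - cb 1 p (p * γ y) + C p = σ p (η y) + C p` (`cb_per`), so `C p = η y - σ p (η y)`. Put `v i = η y`. For `f = of (a i)`:
`f * (s (x (a i)))⁻¹` is in the kernel and in the subgroup generated by `of (a i), of (b i)` (`hsP`, `hP.gen`), so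
`th_loc` gives `D f = C (x (a i))`. The same for `b i`. -/
theorem exists_D (hF : Face G Ξ V sm cusp) {ξ : κ → Ξ}
    {γ : V → G} (hγ : ∀ (g : G) (v : V), γ (g • v) = g * γ v)
    (hγ' : ∀ (v : V) (i : κ) (g : G), cusp v = some (g • ξ i) → γ v • ξ i = g • ξ i)
    (σ : Representation K G E) {x : ι → G} {a b : κ → ι}
    (hP : Per x a b fun i => stabilizer G (ξ i)) {s : G → FreeGroup ι}
    (hs : ∀ g, FreeGroup.lift x (s g) = g) (hs' : ∀ g, s g⁻¹ = (s g)⁻¹) (hs1 : s 1 = 1)
    (hsP : ∀ (i : κ), ∀ g ∈ stabilizer G (ξ i),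
      s g ∈ Subgroup.closure {FreeGroup.of (a i), FreeGroup.of (b i)})
    {θ : (FreeGroup.lift x).ker → E} (hθ : θ ∈ Th σ x a b) (e : EQE sm cusp σ 1)
    (he : ∀ v w t, sm v w → sm w t → sm v t →
      (crQ hF σ 1 e).1 [v, w, t] = cb σ s θ (γ v) (γ w) (γ t)) :
    ∃ (D : FreeGroup ι → E) (v : κ → E),
      (∀ f f', D (f * f') = D f + σ (FreeGroup.lift x f) (D f')) ∧
      (∀ r : (FreeGroup.lift x).ker, D r = θ r) ∧
      ∀ i, D (FreeGroup.of (a i)) = v i - σ (x (a i)) (v i) ∧
        D (FreeGroup.of (b i)) = v i - σ (x (b i)) (v i) := by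
  -- the base vertex
  obtain ⟨o, ho⟩ : ∃ o : V, γ o = 1 := by
    obtain ⟨v⟩ := hF.ne
    exact ⟨(γ v)⁻¹ • v, by rw [hγ, inv_mul_cancel]⟩
  obtain ⟨η, C, hη, hC⟩ := exists_eta hF hγ σ hs hs' hθ e he o
  rw [ho] at hη hC
  have hgo : ∀ g : G, γ (g • o) = g := fun g => by rw [hγ, ho, mul_one]
  -- the cocycle property
  have hC1 : ∀ g h : G, C (g * h) = C g + σ g (C h) - ext0 θ (s g * s h * (s (g * h))⁻¹) := by
    intro g h
    have h1 := hC (g * h) o
    have h2 := hC g (h • o)
    have h3 := hC h o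
    rw [mul_smul] at h1
    rw [h3] at h2
    rw [h1, hgo] at h2
    have e1 : γ (g • o) = g := hgo g
    have e2 : γ (g • h • o) = g * h := by rw [hγ, hgo]
    have e3 : γ (g • h • o) = g * h := e2
    simp only [hgo, e2] at h2
    have h4 : γ ((g * h) • o) = g * h := hgo _
    have h5 : σ g (cb σ s θ 1 h h) = cb σ s θ g (g * h) (g * h) := by
      rw [← cb_smul, mul_one]
    have h6 := cb_cocycle hs hs' hθ 1 g (g * h) (g * h)
    rw [← cb_one σ hs' θ g h]
    simp only [map_add, map_sub, h5, map_mul, Module.End.mul_apply] at h2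
    have h7 : C (g * h) = C g + σ g (C h) - cb σ s θ 1 g (g * h) -
        (cb σ s θ g (g * h) (g * h) - cb σ s θ 1 (g * h) (g * h) + cb σ s θ 1 g (g * h) -
          cb σ s θ 1 g (g * h)) := by
      have h8 : C (g * h) = (σ g (σ h (η o)) - cb σ s θ 1 (g * h) (g * h) + C (g * h)) -
          σ g (σ h (η o)) + cb σ s θ 1 (g * h) (g * h) := by abel
      rw [h8, h2]
      abel
    rw [h6, sub_zero] at h7
    exact h7
  have hC0 : C 1 = 0 := by
    have h1 := hC1 1 1
    simp only [one_mul, hs1, inv_one, UB_1 hθ, sub_zero, map_one, Module.End.one_apply] at h1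
    exact left_eq_add.1 h1
  -- the derivation
  obtain ⟨D, hD⟩ : ∃ D : FreeGroup ι → E, ∀ f, D f =
      ext0 θ (f * (s (FreeGroup.lift x f))⁻¹) + C (FreeGroup.lift x f) := ⟨_, fun _ => rfl⟩
  have hk : ∀ f : FreeGroup ι, FreeGroup.lift x (f * (s (FreeGroup.lift x f))⁻¹) = 1 := by
    intro f
    rw [map_mul, map_inv, hs, mul_inv_cancel]
  -- the cusps
  have hcusp : ∀ (i : κ) (v : V), cusp v = some (ξ i) → γ v ∈ stabilizer G (ξ i) := by
    intro i v hv
    have h1 := hγ' v i 1 (by rw [one_smul]; exact hv)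
    rw [one_smul] at h1
    exact mem_stabilizer_iff.2 h1
  choose y hy using fun i : κ => hF.ex (ξ i)
  have hstep : ∀ (i : κ) (v w : V), sm v w → cusp v = some (ξ i) → cusp w = some (ξ i) →
      η w = η v := by
    intro i v w hvw hv hw
    have h1 := hη v w hvw
    have h2 : e.1 [v, w] = 0 := by
      by_contra h3
      apply (e.2.1.rl _ h3).2
      refine ⟨ξ i, fun z hz => ?_⟩
      simp only [List.mem_cons, List.not_mem_nil, or_false] at hz
      rcases hz with rfl | rfl
      · exact hv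
      · exact hw
    have h3 : cb σ s θ 1 (γ v) (γ w) = 0 := by
      refine cb_per hP hs hsP hθ i _ _ _ ?_ ?_
      · rw [inv_one, one_mul]
        exact hcusp i v hv
      · rw [inv_one, one_mul]
        exact hcusp i w hw
    rw [h2, h3, sub_zero] at h1
    exact (sub_eq_zero.1 h1.symm)
  have hpath : ∀ (i : κ) (w : V), cusp w = some (ξ i) → η w = η (y i) := by
    intro i w hw
    have h1 := hF.conn (ξ i) (y i) w (hy i) hw
    have key : ∀ b, Relation.ReflTransGen
        (fun a b => sm a b ∧ cusp a = some (ξ i) ∧ cusp b = some (ξ i)) (y i) b →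
        η b = η (y i) := by
      intro b hb
      induction hb with
      | refl => rfl
      | tail _ h2 ih => rw [hstep i _ _ h2.1 h2.2.1 h2.2.2, ih]
    exact key w h1
  have hCp : ∀ (i : κ) (g : G), g ∈ stabilizer G (ξ i) → C g = η (y i) - σ g (η (y i)) := by
    intro i g hg
    have h1 : cusp (g • y i) = some (ξ i) := by
      rw [hF.cusp_smul, hy i, Option.map_some, mem_stabilizer_iff.1 hg]
    have h2 := hC g (y i)
    rw [hpath i _ h1, hgo, hγ] at h2
    have h3 : cb σ s θ 1 g (g * γ (y i)) = 0 := by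
      refine cb_per hP hs hsP hθ i _ _ _ ?_ ?_
      · rw [inv_one, one_mul]
        exact hg
      · rw [inv_one, one_mul]
        exact (stabilizer G (ξ i)).mul_mem hg (hcusp i _ (hy i))
    rw [h3, sub_zero] at h2
    exact (sub_eq_of_eq_add' h2).symm
  have hgen : ∀ (i : κ) (j : ι), (FreeGroup.of j : FreeGroup ι) ∈
      Subgroup.closure {FreeGroup.of (a i), FreeGroup.of (b i)} → x j ∈ stabilizer G (ξ i) →
      D (FreeGroup.of j) = η (y i) - σ (x j) (η (y i)) := by
    intro i j hj hxj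
    have hl : FreeGroup.lift x (FreeGroup.of j) = x j := FreeGroup.lift_apply_of
    rw [hD, hl, hCp i _ hxj]
    have h1 : FreeGroup.lift x (FreeGroup.of j * (s (x j))⁻¹) = 1 := by
      have := hk (FreeGroup.of j)
      rwa [hl] at this
    have h2 := th_loc hP hθ i ⟨FreeGroup.of j * (s (x j))⁻¹, MonoidHom.mem_ker.2 h1⟩
      ((Subgroup.closure _).mul_mem hj ((Subgroup.closure _).inv_mem (hsP i _ hxj)))
    have h3 : ext0 θ (FreeGroup.of j * (s (x j))⁻¹) = 0 :=
      (ext0_eq θ ⟨FreeGroup.of j * (s (x j))⁻¹, MonoidHom.mem_ker.2 h1⟩).trans h2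
    rw [h3, zero_add]
  refine ⟨D, fun i => η (y i), ?_, ?_, ?_⟩
  · intro f f'
    have h1 : ext0 θ (f * f' * (s (FreeGroup.lift x (f * f')))⁻¹) =
        ext0 θ (f * (s (FreeGroup.lift x f))⁻¹) +
        (σ (FreeGroup.lift x f) (ext0 θ (f' * (s (FreeGroup.lift x f'))⁻¹)) +
        ext0 θ (s (FreeGroup.lift x f) * s (FreeGroup.lift x f') *
          (s (FreeGroup.lift x f * FreeGroup.lift x f'))⁻¹)) := by
      have e1 : f * f' * (s (FreeGroup.lift x (f * f')))⁻¹ =
          (f * (s (FreeGroup.lift x f))⁻¹) *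
          ((s (FreeGroup.lift x f) * (f' * (s (FreeGroup.lift x f'))⁻¹) *
            (s (FreeGroup.lift x f))⁻¹) *
          (s (FreeGroup.lift x f) * s (FreeGroup.lift x f') *
            (s (FreeGroup.lift x f * FreeGroup.lift x f'))⁻¹)) := by
        rw [map_mul]
        group
      have e2 : FreeGroup.lift x (s (FreeGroup.lift x f) * (f' * (s (FreeGroup.lift x f'))⁻¹) *
            (s (FreeGroup.lift x f))⁻¹) = 1 := by
        rw [map_mul, map_mul, hk, map_inv, mul_one, mul_inv_cancel]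
      have e3 : FreeGroup.lift x (s (FreeGroup.lift x f) * s (FreeGroup.lift x f') *
            (s (FreeGroup.lift x f * FreeGroup.lift x f'))⁻¹) = 1 := by
        rw [map_mul, map_mul, hs, hs, map_inv, hs, mul_inv_cancel]
      rw [e1, UB_mul hθ (hk f) (by rw [map_mul, e2, e3, one_mul]), UB_mul hθ e2 e3, UB_conj hθ, hs]
    rw [hD, hD, hD, h1, map_mul, hC1, map_add]
    abel
  · intro r
    have h1 : FreeGroup.lift x (r : FreeGroup ι) = 1 := MonoidHom.mem_ker.1 r.2
    rw [hD, h1, hs1, inv_one, mul_one, hC0, add_zero, ext0_eq]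
  · intro i
    constructor
    · refine hgen i (a i) (Subgroup.subset_closure (by simp)) ?_
      rw [hP.gen i]
      exact Subgroup.subset_closure (by simp)
    · refine hgen i (b i) (Subgroup.subset_closure (by simp)) ?_
      rw [hP.gen i]
      exact Subgroup.subset_closure (by simp)

end

end Thu
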