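import Pool.Agent.W_04c03c_h58t.Rep

/-!
# The relation module: definitions

`x : ι → G` are generators of `G`, and `x (a i), x (b i)` are bases of the subgroups `P i ≅ ℤ²`.
-/

namespace Thu

section

variable {K G E ι κ : Type} [Field K] [Group G] [AddCommGroup E] [Module K E]

/-- Equivariant homomorphisms from the relation module to `E` which vanish at the commutators of the
generators `a i`, `b i`. -/
def Th (σ : Representation K G E) (x : ι → G) (a b : κ → ι) :
    Submodule K ((FreeGroup.lift x).ker → E) where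
  carrier := {θ | (∀ r s, θ (r * s) = θ r + θ s) ∧
    (∀ (f : FreeGroup ι) (r r' : (FreeGroup.lift x).ker), (r' : FreeGroup ι) = f * r * f⁻¹ →
      θ r' = σ (FreeGroup.lift x f) (θ r)) ∧
    ∀ (i : κ) (r : (FreeGroup.lift x).ker),
      (r : FreeGroup ι) = FreeGroup.of (a i) * FreeGroup.of (b i) * (FreeGroup.of (a i))⁻¹ *
        (FreeGroup.of (b i))⁻¹ → θ r = 0}
  zero_mem' := ⟨fun r s => by simp, fun f r r' _ => by simp, fun i r _ => rfl⟩
  add_mem' := by
    intro θ θ' h h'
    refine ⟨fun r s => ?_, fun f r r' hr => ?_, fun i r hr => ?_⟩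
    · simp only [Pi.add_apply]
      rw [h.1, h'.1]
      abel
    · simp only [Pi.add_apply, map_add]
      rw [h.2.1 f r r' hr, h'.2.1 f r r' hr]
    · simp only [Pi.add_apply]
      rw [h.2.2 i r hr, h'.2.2 i r hr, add_zero]
  smul_mem' := by
    intro c θ h
    refine ⟨fun r s => ?_, fun f r r' hr => ?_, fun i r hr => ?_⟩
    · simp only [Pi.smul_apply]
      rw [h.1, smul_add]
    · simp only [Pi.smul_apply, map_smul]
      rw [h.2.1 f r r' hr]
    · simp only [Pi.smul_apply]
      rw [h.2.2 i r hr, smul_zero]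

/-- The generators `x (a i)`, `x (b i)` are bases of the subgroups `P i`. -/
structure Per (x : ι → G) (a b : κ → ι) (P : κ → Subgroup G) : Prop where
  top : Subgroup.closure (Set.range x) = ⊤
  gen : ∀ i, P i = Subgroup.closure {x (a i), x (b i)}
  comm : ∀ i, x (a i) * x (b i) = x (b i) * x (a i)
  ind : ∀ (i : κ) (m n : ℤ), x (a i) ^ m * x (b i) ^ n = 1 → m = 0 ∧ n = 0
  dis : ∀ i j, i ≠ j → P i ⊓ P j = ⊥
  inj : Function.Injective (Sum.elim a b)

open Classical in
/-- the extension of `θ` by zero to the free group -/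
noncomputable def ext0 {x : ι → G} (θ : (FreeGroup.lift x).ker → E) (f : FreeGroup ι) : E :=
  if h : f ∈ (FreeGroup.lift x).ker then θ ⟨f, h⟩ else 0

theorem ext0_eq {x : ι → G} (θ : (FreeGroup.lift x).ker → E) (r : (FreeGroup.lift x).ker) :
    ext0 θ r = θ r := by
  unfold ext0
  rw [dif_pos r.2]

/-- the value of the cochain of `θ` on a triple of elements of `G` (the values of `γ` at three
vertices), `s` being a section -/
noncomputable def cb (σ : Representation K G E) {x : ι → G} (s : G → FreeGroup ι)
    (θ : (FreeGroup.lift x).ker → E) (g h k : G) : E :=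
  σ g (ext0 θ (s (g⁻¹ * h) * s (h⁻¹ * k) * s (k⁻¹ * g)))

end

end Thu
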