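import Pool.Agent.W_04c03c_h58t.UDef

/-!
# Derivations of the free group
-/

namespace Thu

section

variable {K G E ι κ : Type} [Field K] [Group G] [AddCommGroup E] [Module K E]

theorem UE_der_one {σ : Representation K G E} {x : ι → G} {D : FreeGroup ι → E}
    (h : ∀ f f', D (f * f') = D f + σ (FreeGroup.lift x f) (D f')) : D 1 = 0 := by
  have h1 := h 1 1
  rw [mul_one, map_one, map_one] at h1
  have h2 : D 1 + 0 = D 1 + D 1 := by
    rw [add_zero]
    exact h1
  exact (add_left_cancel h2).symm

theorem UE_der_inv {σ : Representation K G E} {x : ι → G} {D : FreeGroup ι → E}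
    (h : ∀ f f', D (f * f') = D f + σ (FreeGroup.lift x f) (D f')) (f : FreeGroup ι) :
    D f + σ (FreeGroup.lift x f) (D f⁻¹) = 0 := by
  rw [← h, mul_inv_cancel, UE_der_one h]

theorem UE_rep_inv {σ : Representation K G E} (g : G) (v : E) : σ g⁻¹ (σ g v) = v := by
  rw [← Module.End.mul_apply, ← map_mul, inv_mul_cancel, map_one]
  rfl

theorem UE_der_unique {σ : Representation K G E} {x : ι → G} {D D' : FreeGroup ι → E}
    (h : ∀ f f', D (f * f') = D f + σ (FreeGroup.lift x f) (D f'))
    (h' : ∀ f f', D' (f * f') = D' f + σ (FreeGroup.lift x f) (D' f'))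
    (hg : ∀ l, D (FreeGroup.of l) = D' (FreeGroup.of l)) : D = D' := by
  funext f
  induction f using FreeGroup.induction_on with
  | C1 => rw [UE_der_one h, UE_der_one h']
  | of l => exact hg l
  | inv_of l hl =>
    have h1 := UE_der_inv h (FreeGroup.of l)
    have h2 := UE_der_inv h' (FreeGroup.of l)
    rw [hg l] at h1
    have h3 : σ (FreeGroup.lift x (FreeGroup.of l)) (D (FreeGroup.of l)⁻¹) =
        σ (FreeGroup.lift x (FreeGroup.of l)) (D' (FreeGroup.of l)⁻¹) := by
      rw [← h2] at h1
      exact add_left_cancel h1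
    have h4 := congrArg (σ (FreeGroup.lift x (FreeGroup.of l))⁻¹) h3
    rw [UE_rep_inv, UE_rep_inv] at h4
    exact h4
  | mul f f' hf hf' => rw [h, h', hf, hf']

/-- the affine map -/
def UE_aff (σ : Representation K G E) (g : G) (v : E) : Equiv.Perm E where
  toFun u := v + σ g u
  invFun u := σ g⁻¹ (u - v)
  left_inv u := by
    simp only [add_sub_cancel_left]
    exact UE_rep_inv g u
  right_inv u := by
    have h : σ g (σ g⁻¹ (u - v)) = u - v := by
      rw [← Module.End.mul_apply, ← map_mul, mul_inv_cancel, map_one]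
      rfl
    simp only [h]
    abel

/-- the action -/
def UE_act (σ : Representation K G E) (x : ι → G) (y : ι → E) : FreeGroup ι →* Equiv.Perm E :=
  FreeGroup.lift fun l => UE_aff σ (x l) (y l)

theorem UE_act_apply (σ : Representation K G E) (x : ι → G) (y : ι → E) (f : FreeGroup ι) :
    ∀ v, UE_act σ x y f v = UE_act σ x y f 0 + σ (FreeGroup.lift x f) v := by
  induction f using FreeGroup.induction_on with
  | C1 =>
    intro v
    rw [map_one, map_one, map_one]
    simp
  | of l =>
    intro v
    unfold UE_act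
    rw [FreeGroup.lift_apply_of, FreeGroup.lift_apply_of]
    change y l + σ (x l) v = y l + σ (x l) 0 + σ (x l) v
    rw [map_zero, add_zero]
  | inv_of l hl =>
    intro v
    have h1 : ∀ w, UE_act σ x y (FreeGroup.of l) (UE_act σ x y (FreeGroup.of l)⁻¹ w) = w := by
      intro w
      rw [← Equiv.Perm.mul_apply, ← map_mul, mul_inv_cancel, map_one]
      rfl
    have h2 := h1 v
    have h3 := h1 0
    rw [hl] at h2 h3
    have h4 : σ (FreeGroup.lift x (FreeGroup.of l)) (UE_act σ x y (FreeGroup.of l)⁻¹ v) =
        v + σ (FreeGroup.lift x (FreeGroup.of l)) (UE_act σ x y (FreeGroup.of l)⁻¹ 0) := by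
      have h5 := congrArg (fun w => w - UE_act σ x y (FreeGroup.of l) 0) h2
      have h6 := congrArg (fun w => w - UE_act σ x y (FreeGroup.of l) 0) h3
      simp only [add_sub_cancel_left] at h5 h6
      rw [h5, h6]
      abel
    have h7 := congrArg (σ (FreeGroup.lift x (FreeGroup.of l))⁻¹) h4
    rw [map_add, UE_rep_inv, UE_rep_inv] at h7
    have h8 : FreeGroup.lift x (FreeGroup.of l)⁻¹ = (FreeGroup.lift x (FreeGroup.of l))⁻¹ :=
      map_inv _ _
    rw [h7, h8, add_comm]
  | mul f f' hf hf' =>
    intro v
    rw [map_mul, Equiv.Perm.mul_apply, Equiv.Perm.mul_apply, hf', hf, hf (UE_act σ x y f' 0),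
      map_add, map_mul, map_mul, add_assoc]
    rfl

/-- A derivation of the free group with given values at the generators.

Proof. The homomorphism from `FreeGroup ι` to the semidirect product `Multiplicative E ⋊ G` given by
`of l ↦ (y l, x l)`; or the group `E × G` realized as permutations of `E × G`,
`(v, g) ↦ ((u, h) ↦ (v + σ g u, g * h))`: lift `l ↦ ` this permutation, and `D f` = the first component of the image of
`(0, 1)`. Linearity in `y` follows from uniqueness: a derivation which vanishes at the generators vanishes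
(`FreeGroup.induction_on`; `D f⁻¹ = - σ (π f)⁻¹ (D f)`). -/
theorem exists_der (σ : Representation K G E) (x : ι → G) :
    ∃ D : (ι → E) →ₗ[K] (FreeGroup ι → E),
      (∀ y f f', D y (f * f') = D y f + σ (FreeGroup.lift x f) (D y f')) ∧
      (∀ y l, D y (FreeGroup.of l) = y l) ∧
      ∀ D' : FreeGroup ι → E, (∀ f f', D' (f * f') = D' f + σ (FreeGroup.lift x f) (D' f')) →
        D (fun l => D' (FreeGroup.of l)) = D' := by
  have hd : ∀ y f f', UE_act σ x y (f * f') 0 = UE_act σ x y f 0 +
      σ (FreeGroup.lift x f) (UE_act σ x y f' 0) := by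
    intro y f f'
    rw [map_mul, Equiv.Perm.mul_apply, UE_act_apply]
  have ho : ∀ y l, UE_act σ x y (FreeGroup.of l) 0 = y l := by
    intro y l
    unfold UE_act
    rw [FreeGroup.lift_apply_of]
    change y l + σ (x l) 0 = y l
    rw [map_zero, add_zero]
  refine ⟨{ toFun := fun y f => UE_act σ x y f 0, map_add' := ?_, map_smul' := ?_ }, hd, ho, ?_⟩
  · intro y y'
    refine UE_der_unique (σ := σ) (x := x) (hd _) ?_ ?_
    · intro f f'
      simp only [Pi.add_apply]
      rw [hd, hd, map_add]
      abel
    · intro l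
      simp only [Pi.add_apply]
      rw [ho, ho, ho, Pi.add_apply]
  · intro c y
    refine UE_der_unique (σ := σ) (x := x) (hd _) ?_ ?_
    · intro f f'
      simp only [Pi.smul_apply, RingHom.id_apply]
      rw [hd, map_smul, smul_add]
    · intro l
      simp only [Pi.smul_apply, RingHom.id_apply]
      rw [ho, ho, Pi.smul_apply]
  · intro D' h'
    refine UE_der_unique (σ := σ) (x := x) (hd _) h' ?_
    intro l
    exact ho _ l

/-- derivations (given by their values at the generators) which are principal at the generators `a i, b i`,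
together with the vectors -/
def DRel (σ : Representation K G E) (x : ι → G) (a b : κ → ι) : Submodule K ((ι → E) × (κ → E)) where
  carrier := {y | ∀ i, y.1 (a i) = y.2 i - σ (x (a i)) (y.2 i) ∧
    y.1 (b i) = y.2 i - σ (x (b i)) (y.2 i)}
  zero_mem' := by intro i; simp
  add_mem' := by
    intro y y' h h' i
    simp only [Prod.fst_add, Prod.snd_add, Pi.add_apply, map_add]
    rw [(h i).1, (h' i).1, (h i).2, (h' i).2]
    constructor <;> abel
  smul_mem' := by
    intro c y h i
    simp only [Prod.smul_fst, Prod.smul_snd, Pi.smul_apply, map_smul]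
    rw [(h i).1, (h i).2, smul_sub, smul_sub]
    exact ⟨rfl, rfl⟩

/-- Proof. The map `y ↦ (y.2, the restriction of y.1 to the generators which are not a value of a or b)` is an
isomorphism with `(κ → E) × ({l // l ∉ range (Sum.elim a b)} → E)`, and this set of generators has
`card ι - 2 * card κ` elements (`hinj`). -/
theorem finrank_drel [Fintype ι] [Fintype κ] [FiniteDimensional K E] (σ : Representation K G E)
    (x : ι → G) {a b : κ → ι} (hinj : Function.Injective (Sum.elim a b)) :
    FiniteDimensional K (DRel σ x a b) ∧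
    Module.finrank K (DRel σ x a b) + Fintype.card κ * Module.finrank K E =
      Fintype.card ι * Module.finrank K E := by
  classical
  set e : κ ⊕ κ → ι := Sum.elim a b with he
  have ha : ∀ i, e (Sum.inl i) = a i := fun i => rfl
  have hb : ∀ i, e (Sum.inr i) = b i := fun i => rfl
  let S : Type := {l : ι // ¬ l ∈ Set.range e}
  let Φ : DRel σ x a b →ₗ[K] (κ → E) × (S → E) :=
    { toFun := fun y => (y.1.2, fun l => y.1.1 l.1)
      map_add' := fun y y' => rfl
      map_smul' := fun c y => rfl }
  have hΦ : Function.Bijective Φ := by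
    constructor
    · intro y y' h
      have h1 : y.1.2 = y'.1.2 := congrArg Prod.fst h
      have h2 : ∀ l : S, y.1.1 l.1 = y'.1.1 l.1 := fun l => congrFun (congrArg Prod.snd h) l
      refine Subtype.ext (Prod.ext ?_ h1)
      funext l
      by_cases hl : l ∈ Set.range e
      · obtain ⟨k, rfl⟩ := hl
        rcases k with i | i
        · rw [ha, (y.2 i).1, (y'.2 i).1, h1]
        · rw [hb, (y.2 i).2, (y'.2 i).2, h1]
      · exact h2 ⟨l, hl⟩
    · rintro ⟨v, z⟩
      let w : κ ⊕ κ → E := Sum.elim (fun i => v i - σ (x (a i)) (v i))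
        (fun i => v i - σ (x (b i)) (v i))
      let z' : ι → E := fun l => if h : ¬ l ∈ Set.range e then z ⟨l, h⟩ else 0
      let y1 : ι → E := Function.extend e w z'
      have hy : (y1, v) ∈ DRel σ x a b := by
        intro i
        refine ⟨?_, ?_⟩
        · change Function.extend e w z' (a i) = _
          rw [← ha, hinj.extend_apply]
          rfl
        · change Function.extend e w z' (b i) = _
          rw [← hb, hinj.extend_apply]
          rfl
      refine ⟨⟨(y1, v), hy⟩, ?_⟩
      refine Prod.ext rfl ?_
      funext l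
      change Function.extend e w z' l.1 = z l
      rw [Function.extend_apply' _ _ _ (fun ⟨k, hk⟩ => l.2 ⟨k, hk⟩)]
      change (if h : ¬ l.1 ∈ Set.range e then z ⟨l.1, h⟩ else 0) = z l
      rw [dif_pos l.2]
  let Ψ := LinearEquiv.ofBijective Φ hΦ
  have hfin : FiniteDimensional K (DRel σ x a b) := Module.Finite.equiv Ψ.symm
  refine ⟨hfin, ?_⟩
  have hcard : Fintype.card S + Fintype.card κ + Fintype.card κ = Fintype.card ι := by
    have h1 := Fintype.card_congr (Equiv.sumCompl fun l : ι => l ∈ Set.range e)
    rw [Fintype.card_sum] at h1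
    have h2 := Fintype.card_congr (Equiv.ofInjective e hinj)
    rw [Fintype.card_sum] at h2
    have h3 : Fintype.card {l : ι // l ∈ Set.range e} = Fintype.card (Set.range e) := rfl
    have h4 : Fintype.card S = Fintype.card {l : ι // ¬ l ∈ Set.range e} := rfl
    omega
  rw [Ψ.finrank_eq, Module.finrank_prod, Module.finrank_pi_fintype, Module.finrank_pi_fintype,
    Finset.sum_const, Finset.sum_const, Finset.card_univ, Finset.card_univ, smul_eq_mul,
    smul_eq_mul, ← hcard]
  ring

/-- The restriction to the relations.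

Proof. Let `D` be as in `exists_der`. For `y ∈ DRel` the restriction of `D y.1` to the kernel is in `Th`: additive
(`σ 1 = 1`), equivariant (`D (f * r * f⁻¹) = D f + σ (π f) (D r) - σ (π r) (D f)`-type computation:
`D (f * r * f⁻¹) = D f + σ (π f) (D r) + σ (π f * π r) (D f⁻¹)`, `π r = 1`, `D f⁻¹ = - σ (π f)⁻¹ (D f)`), and at
`⁅A, B⁆`, `A = of (a i)`, `B = of (b i)`: on the subgroup generated by `A, B` the derivation `D y.1` agrees with
`f ↦ v - σ (π f) v`, `v = y.2 i`, so its value at an element of the kernel is zero. The kernel of the resulting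
linear map `ρ` is isomorphic to `Krel`: if `D y.1` vanishes on the relations it induces a map `G → E`
(`FreeGroup.lift x` is onto by `hP.top`; `D (f * r) = D f` for `r` in the kernel), a crossed homomorphism,
`g ↦ v i - σ g (v i)` on `P i` (`hP.gen`, closure induction); conversely an element `(D, v)` of `Krel` gives
`y = (D ∘ x, v)`. -/
theorem exists_rho [Finite ι] [Finite κ] [FiniteDimensional K E] (σ : Representation K G E)
    {x : ι → G} {a b : κ → ι} {P : κ → Subgroup G} (hP : Per x a b P) :
    ∃ ρ : DRel σ x a b →ₗ[K] Th σ x a b,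
      (∀ (D : FreeGroup ι → E) (y : DRel σ x a b),
        (∀ f f', D (f * f') = D f + σ (FreeGroup.lift x f) (D f')) →
        (∀ l, D (FreeGroup.of l) = y.1.1 l) → ∀ r : (FreeGroup.lift x).ker, (ρ y).1 r = D r) ∧
      Nonempty (LinearMap.ker ρ ≃ₗ[K] Krel σ P) := by
  obtain ⟨D, hd, ho, hu⟩ := exists_der (K := K) (E := E) σ x
  have hker : ∀ r : (FreeGroup.lift x).ker, FreeGroup.lift x (r : FreeGroup ι) = 1 := fun r =>
    MonoidHom.mem_ker.1 r.2
  have hmem : ∀ y : DRel σ x a b, (fun r : (FreeGroup.lift x).ker => D y.1.1 (r : FreeGroup ι)) ∈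
      Th σ x a b := by
    intro y
    refine ⟨fun r s => ?_, fun f r r' hr => ?_, fun i r hr => ?_⟩
    · change D y.1.1 ((r : FreeGroup ι) * s) = _
      rw [hd, hker, map_one]
      rfl
    · change D y.1.1 (r' : FreeGroup ι) = _
      rw [hr, mul_assoc, hd, hd, hker, map_one, map_add]
      have h1 := UE_der_inv (hd y.1.1) f
      change D y.1.1 f + (σ (FreeGroup.lift x f) (D y.1.1 r) +
        σ (FreeGroup.lift x f) (D y.1.1 f⁻¹)) = _
      rw [add_comm (σ (FreeGroup.lift x f) (D y.1.1 r)), ← add_assoc, h1, zero_add]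
    · change D y.1.1 (r : FreeGroup ι) = 0
      set v := y.1.2 i with hv
      -- the corrected derivation
      set δ : FreeGroup ι → E := fun f => D y.1.1 f - (v - σ (FreeGroup.lift x f) v) with hδ
      have hδd : ∀ f f', δ (f * f') = δ f + σ (FreeGroup.lift x f) (δ f') := by
        intro f f'
        simp only [hδ]
        rw [hd, map_mul, map_mul, map_sub, map_sub]
        change D y.1.1 f + σ (FreeGroup.lift x f) (D y.1.1 f') -
          (v - σ (FreeGroup.lift x f) (σ (FreeGroup.lift x f') v)) = _
        abel
      have hA : δ (FreeGroup.of (a i)) = 0 := by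
        simp only [hδ]
        rw [ho, FreeGroup.lift_apply_of, (y.2 i).1]
        exact sub_self _
      have hB : δ (FreeGroup.of (b i)) = 0 := by
        simp only [hδ]
        rw [ho, FreeGroup.lift_apply_of, (y.2 i).2]
        exact sub_self _
      have hinv : ∀ f, δ f = 0 → δ f⁻¹ = 0 := by
        intro f hf
        have h1 := UE_der_inv hδd f
        rw [hf, zero_add] at h1
        have h2 := congrArg (σ (FreeGroup.lift x f)⁻¹) h1
        rwa [UE_rep_inv, map_zero] at h2
      have hmul : ∀ f f', δ f = 0 → δ f' = 0 → δ (f * f') = 0 := by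
        intro f f' hf hf'
        rw [hδd, hf, hf', map_zero, add_zero]
      have hr0 : δ (r : FreeGroup ι) = 0 := by
        rw [hr]
        exact hmul _ _ (hmul _ _ (hmul _ _ hA hB) (hinv _ hA)) (hinv _ hB)
      simp only [hδ] at hr0
      rw [hker, map_one] at hr0
      have h1 : (1 : Module.End K E) v = v := rfl
      rw [h1, sub_self, sub_zero] at hr0
      exact hr0
  let ρ : DRel σ x a b →ₗ[K] Th σ x a b :=
    { toFun := fun y => ⟨fun r => D y.1.1 (r : FreeGroup ι), hmem y⟩
      map_add' := by
        intro y y'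
        refine Subtype.ext ?_
        funext r
        change D (y.1.1 + y'.1.1) (r : FreeGroup ι) = D y.1.1 r + D y'.1.1 r
        rw [map_add]
        rfl
      map_smul' := by
        intro c y
        refine Subtype.ext ?_
        funext r
        change D (c • y.1.1) (r : FreeGroup ι) = c • D y.1.1 r
        rw [map_smul]
        rfl }
  have hρ : ∀ (D' : FreeGroup ι → E) (y : DRel σ x a b),
      (∀ f f', D' (f * f') = D' f + σ (FreeGroup.lift x f) (D' f')) →
      (∀ l, D' (FreeGroup.of l) = y.1.1 l) → ∀ r : (FreeGroup.lift x).ker,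
        (ρ y).1 r = D' r := by
    intro D' y h' hy r
    have h1 := hu D' h'
    have h2 : (fun l => D' (FreeGroup.of l)) = y.1.1 := funext hy
    rw [h2] at h1
    change D y.1.1 (r : FreeGroup ι) = D' r
    rw [h1]
  refine ⟨ρ, hρ, ?_⟩
  have hsurj : Function.Surjective (FreeGroup.lift x) := by
    rw [← MonoidHom.range_eq_top, FreeGroup.range_lift_eq_closure]
    exact hP.top
  -- crossed homomorphisms and derivations
  have hcr : ∀ z : Krel σ P, ∀ f f', z.1.1 (FreeGroup.lift x (f * f')) =
      z.1.1 (FreeGroup.lift x f) + σ (FreeGroup.lift x f) (z.1.1 (FreeGroup.lift x f')) := by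
    intro z f f'
    rw [map_mul]
    exact z.2.1 _ _
  have hcr1 : ∀ z : Krel σ P, z.1.1 1 = 0 := by
    intro z
    have h1 := UE_der_one (D := fun f => z.1.1 (FreeGroup.lift x f)) (hcr z)
    simpa using h1
  have hPa : ∀ i, x (a i) ∈ P i := fun i => by
    rw [hP.gen]
    exact Subgroup.subset_closure (by simp)
  have hPb : ∀ i, x (b i) ∈ P i := fun i => by
    rw [hP.gen]
    exact Subgroup.subset_closure (by simp)
  have hzD : ∀ z : Krel σ P, ((fun l => z.1.1 (x l)), z.1.2) ∈ DRel σ x a b := fun z i =>
    ⟨z.2.2 i _ (hPa i), z.2.2 i _ (hPb i)⟩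
  have hzk : ∀ z : Krel σ P, (⟨((fun l => z.1.1 (x l)), z.1.2), hzD z⟩ : DRel σ x a b) ∈
      LinearMap.ker ρ := by
    intro z
    rw [LinearMap.mem_ker]
    refine Subtype.ext ?_
    funext r
    rw [hρ (fun f => z.1.1 (FreeGroup.lift x f)) _ (hcr z) (fun l => by
      simp only [FreeGroup.lift_apply_of]) r]
    rw [hker, hcr1]
    rfl
  let Φ : Krel σ P →ₗ[K] LinearMap.ker ρ :=
    { toFun := fun z => ⟨⟨((fun l => z.1.1 (x l)), z.1.2), hzD z⟩, hzk z⟩
      map_add' := fun z z' => rfl
      map_smul' := fun c z => rfl }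
  have hΦ : Function.Bijective Φ := by
    constructor
    · intro z z' h
      have h0 : (fun l => z.1.1 (x l)) = (fun l => z'.1.1 (x l)) ∧ z.1.2 = z'.1.2 := by
        have h1 : (((fun l => z.1.1 (x l)), z.1.2) : (ι → E) × (κ → E)) =
            ((fun l => z'.1.1 (x l)), z'.1.2) := congrArg (fun t : LinearMap.ker ρ => t.1.1) h
        exact ⟨(Prod.ext_iff.1 h1).1, (Prod.ext_iff.1 h1).2⟩
      have h2 : (fun f => z.1.1 (FreeGroup.lift x f)) = fun f => z'.1.1 (FreeGroup.lift x f) := by
        refine UE_der_unique (σ := σ) (x := x) (hcr z) (hcr z') ?_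
        intro l
        simp only [FreeGroup.lift_apply_of]
        exact congrFun h0.1 l
      refine Subtype.ext (Prod.ext ?_ h0.2)
      funext g
      obtain ⟨f, rfl⟩ := hsurj g
      exact congrFun h2 f
    · rintro ⟨y, hy⟩
      have hy0 : ∀ r : FreeGroup ι, FreeGroup.lift x r = 1 → D y.1.1 r = 0 := by
        intro r hr
        have h1 := congrArg Subtype.val (LinearMap.mem_ker.1 hy)
        exact congrFun h1 ⟨r, MonoidHom.mem_ker.2 hr⟩
      let s : G → FreeGroup ι := Function.surjInv hsurj
      have hs : ∀ g, FreeGroup.lift x (s g) = g := Function.surjInv_eq hsurj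
      have hfac : ∀ f, D y.1.1 f = D y.1.1 (s (FreeGroup.lift x f)) := by
        intro f
        have h1 : f = s (FreeGroup.lift x f) * ((s (FreeGroup.lift x f))⁻¹ * f) := by group
        have h2 : FreeGroup.lift x ((s (FreeGroup.lift x f))⁻¹ * f) = 1 := by
          rw [map_mul, map_inv, hs, inv_mul_cancel]
        have h3 := hd y.1.1 (s (FreeGroup.lift x f)) ((s (FreeGroup.lift x f))⁻¹ * f)
        rw [← h1, hy0 _ h2, map_zero, add_zero] at h3
        exact h3
      let Dg : G → E := fun g => D y.1.1 (s g)
      have hDg : ∀ g h, Dg (g * h) = Dg g + σ g (Dg h) := by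
        intro g h
        have h1 := hd y.1.1 (s g) (s h)
        rw [hfac, map_mul, hs, hs] at h1
        exact h1
      have hDo : ∀ l, Dg (x l) = y.1.1 l := by
        intro l
        have h1 := hfac (FreeGroup.of l)
        rw [FreeGroup.lift_apply_of, ho] at h1
        exact h1.symm
      have hD1 : Dg 1 = 0 := by
        have h1 := hDg 1 1
        rw [mul_one, map_one] at h1
        have h2 : Dg 1 + 0 = Dg 1 + Dg 1 := by
          rw [add_zero]
          exact h1
        exact (add_left_cancel h2).symm
      have hDP : ∀ i, ∀ p ∈ P i, Dg p = y.1.2 i - σ p (y.1.2 i) := by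
        intro i p hp
        rw [hP.gen] at hp
        induction hp using Subgroup.closure_induction with
        | mem q hq =>
          rcases hq with rfl | hq
          · rw [hDo]
            exact (y.2 i).1
          · rw [Set.mem_singleton_iff] at hq
            subst hq
            rw [hDo]
            exact (y.2 i).2
        | one =>
          rw [hD1, map_one]
          exact (sub_self _).symm
        | mul q q' _ _ hq hq' =>
          rw [hDg, hq, hq', map_mul, map_sub]
          change y.1.2 i - σ q (y.1.2 i) + (σ q (y.1.2 i) - σ q (σ q' (y.1.2 i))) =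
            y.1.2 i - σ q (σ q' (y.1.2 i))
          abel
        | inv q _ hq =>
          have h1 := hDg q q⁻¹
          rw [mul_inv_cancel, hD1, hq] at h1
          have h2 := congrArg (σ q⁻¹) h1
          rw [map_zero, map_add, map_sub, UE_rep_inv, UE_rep_inv] at h2
          have h3 : Dg q⁻¹ = -(σ q⁻¹ (y.1.2 i) - y.1.2 i) := by
            rw [eq_neg_iff_add_eq_zero, add_comm]
            exact h2.symm
          rw [h3]
          abel
      refine ⟨⟨(Dg, y.1.2), hDg, hDP⟩, ?_⟩
      refine Subtype.ext (Subtype.ext (Prod.ext ?_ rfl))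
      funext l
      exact hDo l
  exact ⟨(LinearEquiv.ofBijective Φ hΦ).symm⟩

end

end Thu
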