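import Pool.Agent.W_04c03c_h58t.UD
import Pool.Agent.W_04c03c_h58t.UE
import Pool.Agent.W_04c03c_h58t.GA

/-!
# The dimension of the space of equivariant homomorphisms on the relation module
-/

namespace Thu

open RCan MulAction

/-- the linear algebra -/
theorem UF_lin {K T D W : Type} [Field K] [AddCommGroup T] [Module K T] [AddCommGroup D]
    [Module K D] [AddCommGroup W] [Module K W] [FiniteDimensional K D] [FiniteDimensional K W]
    (ρ : D →ₗ[K] T) (C : T →ₗ[K] W) (B Z : Submodule K W) (hBZ : B ≤ Z)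
    (h1 : ∀ θ, C θ ∈ B → θ ∈ LinearMap.range ρ) (h2 : ∀ θ, C θ ∈ Z) :
    FiniteDimensional K T ∧
    Module.finrank K T + Module.finrank K (LinearMap.ker ρ) + Module.finrank K B ≤
      Module.finrank K D + Module.finrank K Z := by
  set Q : T →ₗ[K] (W ⧸ B) := B.mkQ ∘ₗ C with hQ
  have hker : LinearMap.ker Q ≤ LinearMap.range ρ := by
    intro θ hθ
    apply h1
    have h3 : B.mkQ (C θ) = 0 := hθ
    rwa [Submodule.mkQ_apply, Submodule.Quotient.mk_eq_zero] at h3
  have hrange : LinearMap.range Q ≤ Z.map B.mkQ := by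
    rintro _ ⟨θ, rfl⟩
    exact ⟨C θ, h2 θ, rfl⟩
  have : FiniteDimensional K (LinearMap.ker Q) := Submodule.finiteDimensional_of_le hker
  have : Module.Finite K (T ⧸ LinearMap.ker Q) :=
    Module.Finite.equiv (Q.quotKerEquivRange).symm
  have : Module.Finite K T := Module.Finite.of_submodule_quotient (LinearMap.ker Q)
  refine ⟨inferInstance, ?_⟩
  have e1 := LinearMap.finrank_range_add_finrank_ker Q
  have e2 := Submodule.finrank_mono hker
  have e3 := Submodule.finrank_mono hrange
  have e4 := LinearMap.finrank_range_add_finrank_ker ρ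
  have e6 := LinearMap.finrank_range_add_finrank_ker (B.mkQ ∘ₗ Z.subtype)
  have e7 : Module.finrank K (LinearMap.range (B.mkQ ∘ₗ Z.subtype)) =
      Module.finrank K (Z.map B.mkQ) := by
    rw [LinearMap.range_comp, Submodule.range_subtype]
  have e8 : Module.finrank K (LinearMap.ker (B.mkQ ∘ₗ Z.subtype)) = Module.finrank K B := by
    have h1 : LinearMap.ker (B.mkQ ∘ₗ Z.subtype) = Submodule.comap Z.subtype B := by
      ext z
      simp
    rw [h1]
    exact (Submodule.comapSubtypeEquivOfLe hBZ).finrank_eq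
  omega

section

variable {G Ξ V : Type} [Group G] [MulAction G Ξ] [MulAction G V] {sm : V → V → Prop}
  {cusp : V → Option Ξ} {K : Type} [Field K] {E : Type} [AddCommGroup E] [Module K E]
  {ι κ : Type}

/-- Proof. Let `γ` be from `exists_gamma`, `s` from `exists_sec`, `C` from `exists_C`, `ρ` from `exists_rho`.
`C` goes to `Z = ker (crQ 2)`, which contains `B = range (crQ 1)` (`crQ_crQ`). If `C θ ∈ B` then `θ` is in the range
of `ρ` (`exists_D`; `y = (fun l => D (of l), v)` is in `DRel`, and `exists_rho`). So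
`finrank Th ≤ finrank (range ρ) + finrank Z - finrank B` (the induced map `Th / range ρ → Z / B` is injective; `Th` is
finite-dimensional), and `finrank (range ρ) + finrank Krel = finrank DRel` (rank-nullity), `finrank_drel`. -/
theorem finrank_th (hF : Face G Ξ V sm cusp) (hT : TFree G) [Fintype ι] [Fintype κ] {ξ : κ → Ξ}
    (hξ : Reps G ξ) [FiniteDimensional K E] (σ : Representation K G E)
    [FiniteDimensional K (EQE sm cusp σ 1)] [FiniteDimensional K (EQE sm cusp σ 2)]
    {x : ι → G} {a b : κ → ι} (hP : Per x a b fun i => stabilizer G (ξ i)) :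
    FiniteDimensional K (Th σ x a b) ∧
    Module.finrank K (Th σ x a b) + Module.finrank K (Krel σ fun i => stabilizer G (ξ i)) +
        Fintype.card κ * Module.finrank K E +
        Module.finrank K (LinearMap.range (crQ (sm := sm) (cusp := cusp) hF σ 1)) ≤
      Fintype.card ι * Module.finrank K E +
        Module.finrank K (LinearMap.ker (crQ (sm := sm) (cusp := cusp) hF σ 2)) := by
  classical
  obtain ⟨γ, hγ, hγ'⟩ := exists_gamma hF hξ
  obtain ⟨s, hs, hs', hs1, hsP⟩ := exists_sec hT hP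
  obtain ⟨C, hC, hC'⟩ := exists_C hF hξ.ex hγ hγ' σ hP hs hs' hs1 hsP
  obtain ⟨ρ, hρ, ⟨eρ⟩⟩ := exists_rho σ hP
  obtain ⟨hD1, hD2⟩ := finrank_drel σ x hP.inj
  have hclaim : ∀ θ : Th σ x a b,
      C θ ∈ LinearMap.range (crQ (sm := sm) (cusp := cusp) hF σ 1) →
        θ ∈ LinearMap.range ρ := by
    rintro θ ⟨e, he⟩
    obtain ⟨D, v, h1, h2, h3⟩ := exists_D hF hγ hγ' σ hP hs hs' hs1 hsP θ.2 e
      (fun v w t hvw hwt hvt => by rw [he]; exact hC' θ v w t hvw hwt hvt)
    refine ⟨⟨(fun l => D (FreeGroup.of l), v), h3⟩, ?_⟩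
    apply Subtype.ext
    funext r
    rw [hρ D _ h1 (fun l => rfl) r]
    exact h2 r
  have hBZ : LinearMap.range (crQ (sm := sm) (cusp := cusp) hF σ 1) ≤
      LinearMap.ker (crQ (sm := sm) (cusp := cusp) hF σ 2) := by
    rintro _ ⟨e, rfl⟩
    exact crQ_crQ hF σ e
  obtain ⟨hfd, hle⟩ := UF_lin ρ C (LinearMap.range (crQ (sm := sm) (cusp := cusp) hF σ 1))
    (LinearMap.ker (crQ (sm := sm) (cusp := cusp) hF σ 2)) hBZ hclaim hC
  refine ⟨hfd, ?_⟩
  have e5 : Module.finrank K (LinearMap.ker ρ) =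
      Module.finrank K (Krel σ fun i => stabilizer G (ξ i)) := eρ.finrank_eq
  rw [e5] at hle
  generalize Module.finrank K (LinearMap.range (crQ (sm := sm) (cusp := cusp) hF σ 1)) = nB at *
  generalize Module.finrank K (LinearMap.ker (crQ (sm := sm) (cusp := cusp) hF σ 2)) = nZ at *
  omega

end

end Thu
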