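import Pool.Agent.W_04c03c_h58t.VDef
import Pool.Agent.W_04c03c_h10t.CutB

/-!
# The cut bound for tuples of matrices with commuting pairs (part of helper10)
-/

namespace Thu

open MvPolynomial

/-- The irreducible components of the scheme of the tuples `(X l)` of matrices with `X (a i)`, `X (b i)`
commuting, cut by `r` equations: a point which is isolated after the cut forces
`card ι * n ^ 2 ≤ card κ * (n ^ 2 - n) + r`. -/
theorem cut_bound {K : Type} [Field K] [IsAlgClosed K] {ι κ : Type} [Fintype ι] [Fintype κ] {n : ℕ}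
    {a b : κ → ι} (hinj : Function.Injective (Sum.elim a b))
    (A : ι → Matrix (Fin n) (Fin n) K) (s : Finset (MvPolynomial (ι × Fin n × Fin n) K))
    (h : RingHom.ker (evT A) ∈ (comIdeal K n a b ⊔ Ideal.span (s : Set _)).minimalPrimes) :
    Fintype.card ι * n ^ 2 ≤ Fintype.card κ * (n ^ 2 - n) + s.card := by
  classical
  have hbinj : Function.Injective b := fun i j hij => by
    have h1 := @hinj (Sum.inr i) (Sum.inr j) hij
    exact Sum.inr_injective h1
  have hab : ∀ i j, b i ≠ a j := fun i j hij => by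
    have h1 := @hinj (Sum.inr i) (Sum.inl j) hij
    exact absurd h1 (by simp)
  have hcomm : ∀ i, A (a i) * A (b i) = A (b i) * A (a i) := by
    intro i
    rw [← sub_eq_zero]
    ext r t
    have h1 : (gm K n (a i) * gm K n (b i) - gm K n (b i) * gm K n (a i)) r t ∈
        RingHom.ker (evT A) := by
      apply h.1.2
      exact Ideal.mem_sup_left (Ideal.subset_span ⟨i, r, t, rfl⟩)
    rw [RingHom.mem_ker] at h1
    have h2 : ∀ l, (gm K n l).map (evT A) = A l := by
      intro l
      ext u w
      simp [gm, evT]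
    have h3 : (gm K n (a i) * gm K n (b i) - gm K n (b i) * gm K n (a i)).map (evT A) =
        A (a i) * A (b i) - A (b i) * A (a i) := by
      rw [Matrix.map_sub _ (map_sub _), Matrix.map_mul, Matrix.map_mul, h2, h2]
    rw [← h3]
    exact h1
  choose Cm v hC hv using fun i : κ => exists_cyc (A (a i))
  let N : ι → Matrix (Fin n) (Fin n) K := fun l =>
    if hl : ∃ i, b i = l then Cm hl.choose - A l else 0
  have hNb : ∀ i, N (b i) = Cm i - A (b i) := by
    intro i
    have hl : ∃ j, b j = b i := ⟨i, rfl⟩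
    have h1 : hl.choose = i := hbinj hl.choose_spec
    simp only [N]
    rw [dif_pos hl, h1]
  have hNa : ∀ i, N (a i) = 0 := by
    intro i
    have hl : ¬ ∃ j, b j = a i := fun ⟨j, hj⟩ => hab j i hj
    simp only [N]
    rw [dif_neg hl]
  have hcomQ : ∀ q, comC K n a b q ∈ RingHom.ker (eval (lineC A N)) := by
    rintro ⟨i, r, t⟩
    rw [RingHom.mem_ker]
    have h1 : (gC K n (a i) * gC K n (b i) - gC K n (b i) * gC K n (a i)).map
        (eval (lineC A N)) = 0 := by
      rw [Matrix.map_sub _ (map_sub _), Matrix.map_mul, Matrix.map_mul, eval_gC, eval_gC, hNa, hNb,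
        Matrix.map_zero _ (map_zero _), smul_zero, add_zero, Matrix.mul_add, Matrix.add_mul,
        ← Matrix.map_mul, ← Matrix.map_mul, hcomm, Matrix.mul_smul, Matrix.smul_mul,
        ← Matrix.map_mul, ← Matrix.map_mul, Matrix.mul_sub, Matrix.sub_mul, hcomm, hC, sub_self]
    exact congrFun (congrFun h1 r) t
  have hprime : (RingHom.ker (eval (lineC A N))).IsPrime := RingHom.ker_isPrime _
  have hI : Ideal.span (Set.range (comC K n a b)) ⊔ Ideal.span (tauC N '' (s : Set _)) ≤
      RingHom.ker (eval (lineC A N)) := by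
    refine sup_le (Ideal.span_le.2 ?_) (Ideal.span_le.2 ?_)
    · rintro _ ⟨q, rfl⟩
      exact hcomQ q
    · rintro _ ⟨p, hp, rfl⟩
      have h1 : p ∈ RingHom.ker (evT A) := h.1.2 (Ideal.mem_sup_right (Ideal.subset_span hp))
      rw [SetLike.mem_coe, RingHom.mem_ker, eval_tau, (RingHom.mem_ker).1 h1, Polynomial.C_0]
  have hmin : RingHom.ker (eval (lineC A N)) ∈
      (Ideal.span (Set.range (comC K n a b)) ⊔
        Ideal.span (tauC N '' (s : Set _))).minimalPrimes := by
    refine minimal_of_fibre (zeroC K ι n) zeroC_surj (C Polynomial.X) zeroC_ker _ _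
      (RingHom.ker (evT A)) ?_ hI ?_ ?_
    · rw [Ideal.map_sup, map_comC, Ideal.map_span, Set.image_image]
      simp only [zeroC_tau, Set.image_id']
      exact h
    · intro f hf
      rw [RingHom.mem_ker] at hf
      rw [Ideal.mem_comap, RingHom.mem_ker, evT_zero A N, hf, Polynomial.eval_zero]
    · intro hX
      rw [RingHom.mem_ker, eval_C] at hX
      exact Polynomial.X_ne_zero hX
  let e : κ × Fin (n - 1) × Fin n → MvPolynomial (ι × Fin n × Fin n) (Polynomial K) := fun q =>
    ((gC K n (a q.1) * gC K n (b q.1) ^ ((q.2.1 : ℕ) + 1) -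
      gC K n (b q.1) ^ ((q.2.1 : ℕ) + 1) * gC K n (a q.1)).mulVec
        (C ∘ Polynomial.C ∘ v q.1)) q.2.2
  let F : Finset (MvPolynomial (ι × Fin n × Fin n) (Polynomial K)) :=
    Finset.univ.image e ∪ s.image (tauC N)
  have hFcard : F.card ≤ Fintype.card κ * (n ^ 2 - n) + s.card := by
    refine (Finset.card_union_le _ _).trans (Nat.add_le_add ?_ Finset.card_image_le)
    refine Finset.card_image_le.trans (le_of_eq ?_)
    rw [Finset.card_univ, Fintype.card_prod, Fintype.card_prod, Fintype.card_fin, Fintype.card_fin,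
      Nat.sub_mul, one_mul, sq]
  have hF1 : Ideal.span (F : Set _) ≤ Ideal.span (Set.range (comC K n a b)) ⊔
      Ideal.span (tauC N '' (s : Set _)) := by
    rw [Ideal.span_le]
    intro p hp
    rw [Finset.mem_coe, Finset.mem_union, Finset.mem_image, Finset.mem_image] at hp
    rcases hp with ⟨q, -, rfl⟩ | ⟨p, hp, rfl⟩
    · refine Ideal.mem_sup_left (comm_mem _ _ _ _ (fun r t => ?_) _ _)
      exact Ideal.subset_span ⟨(q.1, r, t), rfl⟩
    · exact Ideal.mem_sup_right (Ideal.subset_span ⟨p, hp, rfl⟩)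
  have hF2 : ∀ q : Ideal (MvPolynomial (ι × Fin n × Fin n) (Polynomial K)), q.IsPrime →
      Ideal.span (F : Set _) ≤ q → q ≤ RingHom.ker (eval (lineC A N)) →
      Ideal.span (Set.range (comC K n a b)) ⊔ Ideal.span (tauC N '' (s : Set _)) ≤ q := by
    intro q hq hFq hqQ
    refine sup_le (Ideal.span_le.2 ?_) (Ideal.span_le.2 ?_)
    · rintro _ ⟨⟨i, r, t⟩, rfl⟩
      refine mem_of_kry q _ _ (C ∘ Polynomial.C ∘ v i) ?_ ?_ r t
      · intro hd
        have h1 := hqQ hd
        rw [RingHom.mem_ker, RingHom.map_det, RingHom.mapMatrix_apply, kry_map, eval_gC,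
          hNb] at h1
        have h2 : (eval (lineC A N)) ∘ (C ∘ Polynomial.C ∘ v i) = Polynomial.C ∘ v i := by
          ext j
          simp
        rw [h2] at h1
        exact kry_line _ _ _ (hv i) h1
      · intro j hj r
        apply hFq
        apply Ideal.subset_span
        rw [Finset.mem_coe, Finset.mem_union, Finset.mem_image]
        exact Or.inl ⟨(i, ⟨j, by omega⟩, r), Finset.mem_univ _, rfl⟩
    · rintro _ ⟨p, hp, rfl⟩
      apply hFq
      apply Ideal.subset_span
      rw [Finset.mem_coe, Finset.mem_union, Finset.mem_image, Finset.mem_image]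
      exact Or.inr ⟨p, hp, rfl⟩
  have hminF : RingHom.ker (eval (lineC A N)) ∈ (Ideal.span (F : Set _)).minimalPrimes :=
    ⟨⟨hprime, hF1.trans hI⟩, fun q hq hqQ => hmin.2 ⟨hq.1, hF2 q hq.1 hq.2 hqQ⟩ hqQ⟩
  have h1 := Ideal.height_le_card_of_mem_minimalPrimes_span_finset hminF
  have h2 := (height_eval (lineC A N)).trans h1
  rw [Nat.cast_le, Fintype.card_prod, Fintype.card_prod, Fintype.card_fin] at h2
  rw [sq n] at hFcard ⊢
  exact h2.trans hFcard

end Thu
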