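import Pool.Agent.W_04c03c_h58t.VDef

/-!
# The number of equations at a representation (part of helper66)
-/

namespace Thu

open MvPolynomial

/-- Near a representation `ρ` the ideal of the representations is generated by the commutation relations
and `finrank Th + card ι` more equations. -/
theorem local_eqs {K : Type} [Field K] {G : Type} [Group G] {ι κ : Type} [Fintype ι] [Fintype κ]
    {n : ℕ} (δ : G →* Kˣ) (ρ : G →* Matrix (Fin n) (Fin n) K) (hδ : ∀ g, (ρ g).det = (δ g : K))
    {x : ι → G} (hx : Subgroup.closure (Set.range x) = ⊤) {a b : κ → ι}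
    (hab : ∀ i, x (a i) * x (b i) = x (b i) * x (a i))
    [FiniteDimensional K (Th (adRep ρ) x a b)] :
    ∃ s : Finset (MvPolynomial (ι × Fin n × Fin n) K),
      s.card ≤ Module.finrank K (Th (adRep ρ) x a b) + Fintype.card ι ∧
      (∀ f ∈ s, evT (fun l => ρ (x l)) f = 0) ∧
      ∀ q : Ideal (MvPolynomial (ι × Fin n × Fin n) K), q.IsPrime →
        q ≤ RingHom.ker (evT fun l => ρ (x l)) → comIdeal K n a b ⊔ Ideal.span (s : Set _) ≤ q →
        RingHom.ker (toRep (n := n) δ x) ≤ q := by
  sorry

end Thu
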