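import Pool.Agent.W_04c03c_h58t.VDef

/-!
# The coordinate ring of the representations is generated by the entries of the generators
-/

namespace Thu

open MvPolynomial

section

variable {K : Type} [Field K] {G ι : Type} [Group G] {n : ℕ}

theorem VC0_adj {R : Type} [CommRing R] (A B : Matrix (Fin n) (Fin n) R) (h : A * B = 1) :
    A.det • B = A.adjugate := by
  calc A.det • B = (A.adjugate * A) * B := by
        rw [Matrix.adjugate_mul, Matrix.smul_mul, one_mul]
    _ = A.adjugate := by rw [mul_assoc, h, mul_one]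

/-- the matrix of the classes of the variables of `g` -/
noncomputable def gq (δ : G →* Kˣ) (g : G) :
    Matrix (Fin n) (Fin n) (MvPolynomial (G × Fin n × Fin n) K ⧸ repIdeal n δ) :=
  (gm K n g).map (Ideal.Quotient.mk (repIdeal n δ))

/-- Proof. The generators of `repIdeal` (first and second kind; `Matrix.map_mul`, `RingHom.map_matrix_mul` or
entrywise). -/
theorem gq_mul (δ : G →* Kˣ) (g h : G) : gq (n := n) δ (g * h) = gq δ g * gq δ h := by
  have h1 : gq (n := n) δ g * gq δ h = (gm K n g * gm K n h).map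
      (Ideal.Quotient.mk (repIdeal n δ)) := by
    unfold gq
    exact Matrix.map_mul.symm
  rw [h1]
  ext i j
  change Ideal.Quotient.mk (repIdeal n δ) (gm K n (g * h) i j) =
    Ideal.Quotient.mk (repIdeal n δ) ((gm K n g * gm K n h) i j)
  rw [Ideal.Quotient.eq]
  exact Ideal.subset_span (Or.inl ⟨g, h, i, j, rfl⟩)

/-- Proof. As `gq_mul`. -/
theorem gq_one (δ : G →* Kˣ) : gq (n := n) δ 1 = 1 := by
  have h1 : (1 : Matrix (Fin n) (Fin n) (MvPolynomial (G × Fin n × Fin n) K ⧸ repIdeal n δ)) =
      (1 : Matrix (Fin n) (Fin n) (MvPolynomial (G × Fin n × Fin n) K)).map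
        (Ideal.Quotient.mk (repIdeal n δ)) := by
    rw [Matrix.map_one _ (map_zero _) (map_one _)]
  rw [h1]
  ext i j
  change Ideal.Quotient.mk (repIdeal n δ) (gm K n (1 : G) i j) =
    Ideal.Quotient.mk (repIdeal n δ)
      ((1 : Matrix (Fin n) (Fin n) (MvPolynomial (G × Fin n × Fin n) K)) i j)
  rw [Ideal.Quotient.eq]
  exact Ideal.subset_span (Or.inr (Or.inl ⟨i, j, rfl⟩))

/-- Proof. The third kind of generators; `RingHom.map_det`. -/
theorem gq_det (δ : G →* Kˣ) (g : G) :
    (gq (n := n) δ g).det = algebraMap K _ ((δ g : Kˣ) : K) := by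
  have h1 : (gq (n := n) δ g).det = Ideal.Quotient.mk (repIdeal n δ) (gm K n g).det := by
    unfold gq
    rw [RingHom.map_det]
    rfl
  rw [h1]
  change _ = Ideal.Quotient.mk (repIdeal n δ) (C ((δ g : Kˣ) : K))
  rw [Ideal.Quotient.eq]
  exact Ideal.subset_span (Or.inr (Or.inr ⟨g, rfl⟩))

/-- Proof. `toRep δ x` sends the entries of the generic matrix `l` to the entries of `gq δ (x l)`. Let `A` be its
range, a subalgebra. The set of the `g` such that all entries of `gq δ g` are in `A` contains `1` (`gq_one`), is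
closed under products (`gq_mul`) and inverses: `gq δ g⁻¹ = (gq δ g)⁻¹`, and as `gq δ g * gq δ g⁻¹ = 1`
(`gq_mul`, `gq_one`), `gq δ g⁻¹ = (det)⁻¹ • adjugate (gq δ g)`, with `det = algebraMap (δ g)` (`gq_det`) and the
entries of the adjugate in `A` (`Matrix.adjugate_apply`, `det_apply`, or map the matrix over `A` by
`A.subtype`: `RingHom.map_adjugate`). So it is everything (`Subgroup.closure_induction`, `hx`), and the entries of
all `gq δ g` generate the quotient (`MvPolynomial.induction_on` after `Ideal.Quotient.mk_surjective`). -/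
theorem toRep_surj (δ : G →* Kˣ) {x : ι → G} (hx : Subgroup.closure (Set.range x) = ⊤) :
    Function.Surjective (toRep (n := n) δ x) := by
  have hall : ∀ g : G, ∀ i j : Fin n, gq (n := n) δ g i j ∈ (toRep (n := n) δ x).range := by
    intro g
    have hg : g ∈ Subgroup.closure (Set.range x) := by
      rw [hx]
      exact Subgroup.mem_top g
    induction hg using Subgroup.closure_induction with
    | mem g hg =>
      obtain ⟨l, rfl⟩ := hg
      intro i j
      refine (AlgHom.mem_range _).2 ⟨X (l, i, j), ?_⟩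
      unfold toRep
      rw [aeval_X]
      rfl
    | one =>
      intro i j
      rw [gq_one, Matrix.one_apply]
      split_ifs
      · exact Subalgebra.one_mem _
      · exact Subalgebra.zero_mem _
    | mul g h _ _ hg hh =>
      intro i j
      rw [gq_mul, Matrix.mul_apply]
      exact Subalgebra.sum_mem _ (fun k _ => Subalgebra.mul_mem _ (hg i k) (hh k j))
    | inv g _ hg =>
      intro i j
      have h1 : gq (n := n) δ g * gq δ g⁻¹ = 1 := by
        rw [← gq_mul, mul_inv_cancel, gq_one]
      have h2 : (gq (n := n) δ g).det • gq (n := n) δ g⁻¹ = (gq (n := n) δ g).adjugate :=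
        VC0_adj _ _ h1
      have h3 : gq (n := n) δ g⁻¹ i j =
          ((δ g : Kˣ) : K)⁻¹ • (gq (n := n) δ g).adjugate i j := by
        rw [← h2, gq_det, Matrix.smul_apply, smul_eq_mul, ← Algebra.smul_def, smul_smul,
          inv_mul_cancel₀ (Units.ne_zero _), one_smul]
      rw [h3]
      refine Subalgebra.smul_mem _ ?_ _
      have h4 : gq (n := n) δ g = (toRep (n := n) δ x).range.val.toRingHom.mapMatrix
          (Matrix.of fun i j => (⟨gq (n := n) δ g i j, hg i j⟩ : (toRep (n := n) δ x).range)) := by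
        ext i j
        rfl
      rw [h4, ← RingHom.map_adjugate]
      exact Subtype.prop _
  intro y
  obtain ⟨p, rfl⟩ := Ideal.Quotient.mk_surjective y
  rw [← AlgHom.mem_range]
  induction p using MvPolynomial.induction_on with
  | C a => exact Subalgebra.algebraMap_mem _ a
  | add p q hp hq =>
    rw [map_add]
    exact Subalgebra.add_mem _ hp hq
  | mul_X p q hp =>
    rw [map_mul]
    exact Subalgebra.mul_mem _ hp (hall q.1 q.2.1 q.2.2)

/-- The evaluation vanishes on the relations. Proof: `Ideal.span_le`, the three kinds of generators. -/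
theorem repIdeal_le (δ : G →* Kˣ) (ρ : G →* Matrix (Fin n) (Fin n) K)
    (hδ : ∀ g, (ρ g).det = (δ g : K)) : repIdeal n δ ≤ RingHom.ker (evP ρ) := by
  unfold repIdeal
  rw [Ideal.span_le]
  rintro p (⟨g, h, i, j, rfl⟩ | ⟨i, j, rfl⟩ | ⟨g, rfl⟩)
  · rw [SetLike.mem_coe, RingHom.mem_ker, Matrix.sub_apply, Matrix.mul_apply, map_sub, map_sum]
    simp [gm, evP, Matrix.mul_apply]
  · rw [SetLike.mem_coe, RingHom.mem_ker, Matrix.sub_apply, map_sub, Matrix.one_apply]
    by_cases hij : i = j <;> simp [gm, evP, hij]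
  · rw [SetLike.mem_coe, RingHom.mem_ker, map_sub, AlgHom.map_det]
    have h1 : (evP ρ).mapMatrix (gm K n g) = ρ g := by
      ext i j
      simp [gm, evP]
    rw [h1, hδ, evP, aeval_C]
    simp

/-- the evaluation on the coordinate ring -/
noncomputable def evR {δ : G →* Kˣ} {ρ : G →* Matrix (Fin n) (Fin n) K}
    (hδ : ∀ g, (ρ g).det = (δ g : K)) : (MvPolynomial (G × Fin n × Fin n) K ⧸ repIdeal n δ) →ₐ[K] K :=
  Ideal.Quotient.liftₐ (repIdeal n δ) (evP ρ) fun _ h => repIdeal_le δ ρ hδ h

/-- Every point of the coordinate ring is a representation. Proof: `ρ g = (gq δ g).map ψ`, a homomorphism by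
`gq_mul`, `gq_one`; determinant by `gq_det`; the two homomorphisms agree on the classes of the variables
(`Ideal.Quotient.algHom_ext`, `MvPolynomial.algHom_ext`). -/
theorem exists_rep (δ : G →* Kˣ) (ψ : (MvPolynomial (G × Fin n × Fin n) K ⧸ repIdeal n δ) →ₐ[K] K) :
    ∃ (ρ : G →* Matrix (Fin n) (Fin n) K) (hδ : ∀ g, (ρ g).det = (δ g : K)), evR hδ = ψ := by
  let ρ : G →* Matrix (Fin n) (Fin n) K :=
    { toFun := fun g => (gq (n := n) δ g).map ψ
      map_one' := by
        rw [gq_one, Matrix.map_one _ (map_zero _) (map_one _)]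
      map_mul' := by
        intro g h
        rw [gq_mul]
        exact Matrix.map_mul (f := ψ.toRingHom) }
  have hρ : ∀ g, ρ g = (gq (n := n) δ g).map ψ := fun g => rfl
  have hδ : ∀ g, (ρ g).det = (δ g : K) := by
    intro g
    have h1 : (ρ g).det = ψ (gq (n := n) δ g).det := by
      rw [hρ, AlgHom.map_det]
      rfl
    rw [h1, gq_det, AlgHom.commutes]
    rfl
  refine ⟨ρ, hδ, ?_⟩
  apply Ideal.Quotient.algHom_ext
  apply MvPolynomial.algHom_ext
  intro q
  simp only [AlgHom.comp_apply]
  change evP ρ (X q) = ψ (Ideal.Quotient.mk (repIdeal n δ) (X q))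
  unfold evP
  rw [aeval_X]
  rfl

/-- Proof. Both sides are algebra homomorphisms; compare on the variables. -/
theorem evR_toRep {δ : G →* Kˣ} {ρ : G →* Matrix (Fin n) (Fin n) K}
    (hδ : ∀ g, (ρ g).det = (δ g : K)) (x : ι → G) (f : MvPolynomial (ι × Fin n × Fin n) K) :
    evR hδ (toRep δ x f) = evT (fun l => ρ (x l)) f := by
  have h : (evR hδ).comp (toRep δ x) = evT (fun l => ρ (x l)) := by
    apply MvPolynomial.algHom_ext
    intro q
    rw [AlgHom.comp_apply]
    unfold toRep evT
    rw [aeval_X, aeval_X]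
    change evP ρ (X (x q.1, q.2.1, q.2.2)) = _
    unfold evP
    rw [aeval_X]
  rw [← h]
  rfl

end

end Thu
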