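import Pool.Agent.W_04c03c_h58t.VA
import Pool.Agent.W_04c03c_h58t.VB
import Pool.Agent.W_04c03c_h58t.VC0

/-!
# The height of the maximal ideal of a representation
-/

namespace Thu

open MvPolynomial

/-- Proof. Let `R` be the coordinate ring (Noetherian, as a quotient of a polynomial ring in finitely many
variables by `toRep_surj`), `m` the kernel of `evR hδ`. By `Ideal.exists_finset_card_eq_height_of_isNoetherianRing`
there is a finset `s'` of `R` with `m` minimal over `span s'` and `s'.card = m.height`. Let `H` be a finset of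
preimages under `toRep δ x` (`H.card ≤ s'.card`, `toRep '' H = s'`), `M` the kernel of `evT (fun l => ρ (x l))`, and
`s` from `local_eqs`. `M` is minimal over `comIdeal ⊔ span (s ∪ H)`: it contains it (`comIdeal ≤ M` because
`ρ (x (a i)), ρ (x (b i))` commute; `s`; for `H` by `evR_toRep`); if `q` is a prime with `comIdeal ⊔ span (s ∪ H) ≤ q ≤ M`
then `ker (toRep) ≤ q` (third property of `s`), so `q.map toRep` is a prime (`Ideal.map_isPrime_of_surjective`)
which contains `span s'` and is contained in `m`, so it is `m` by minimality, and `q = M` by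
`Ideal.comap_map_of_surjective` (`ker ≤ q`). Now `cut_bound`. -/
theorem height_bound {K : Type} [Field K] [IsAlgClosed K] {G : Type} [Group G] {ι κ : Type}
    [Fintype ι] [Fintype κ] {n : ℕ} {δ : G →* Kˣ} {ρ : G →* Matrix (Fin n) (Fin n) K}
    (hδ : ∀ g, (ρ g).det = (δ g : K)) {x : ι → G} (hx : Subgroup.closure (Set.range x) = ⊤)
    {a b : κ → ι} (hinj : Function.Injective (Sum.elim a b))
    (hab : ∀ i, x (a i) * x (b i) = x (b i) * x (a i))
    [FiniteDimensional K (Th (adRep ρ) x a b)] :
    ((Fintype.card ι * n ^ 2 : ℕ) : ℕ∞) ≤ ((Fintype.card κ * (n ^ 2 - n) +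
      (Module.finrank K (Th (adRep ρ) x a b) + Fintype.card ι) : ℕ) : ℕ∞) +
        (RingHom.ker (evR hδ)).height := by
  classical
  have hsurj : Function.Surjective (toRep (n := n) δ x) := toRep_surj δ hx
  have hN : IsNoetherianRing (MvPolynomial (G × Fin n × Fin n) K ⧸ repIdeal n δ) :=
    isNoetherianRing_of_surjective _ _ (toRep (n := n) δ x).toRingHom hsurj
  have hm : (RingHom.ker (evR hδ)).IsPrime := RingHom.ker_isPrime _
  obtain ⟨s', hps', hcard⟩ :=
    Ideal.exists_finset_card_eq_height_of_isNoetherianRing (RingHom.ker (evR hδ))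
  obtain ⟨s, hs1, hs2, hs3⟩ := local_eqs δ ρ hδ hx hab
  choose g hg using hsurj
  have hker : ∀ f, f ∈ RingHom.ker (evT fun l => ρ (x l)) ↔
      toRep (n := n) δ x f ∈ RingHom.ker (evR hδ) := by
    intro f
    rw [RingHom.mem_ker, RingHom.mem_ker, evR_toRep]
  have hmin : RingHom.ker (evT fun l => ρ (x l)) ∈
      (comIdeal K n a b ⊔ Ideal.span ((s ∪ s'.image g : Finset _) : Set _)).minimalPrimes := by
    refine ⟨⟨RingHom.ker_isPrime _, ?_⟩, ?_⟩
    · refine sup_le ?_ ?_
      · rw [comIdeal, Ideal.span_le]
        rintro p ⟨i, r, t, rfl⟩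
        rw [SetLike.mem_coe, RingHom.mem_ker]
        have h1 : ∀ l : ι, (gm K n l).map (evT fun l => ρ (x l)) = ρ (x l) := by
          intro l
          ext u v
          simp [gm, evT]
        have h2 : (evT fun l => ρ (x l)) ((gm K n (a i) * gm K n (b i) -
            gm K n (b i) * gm K n (a i)) r t) = (ρ (x (a i)) * ρ (x (b i)) -
            ρ (x (b i)) * ρ (x (a i))) r t := by
          have h3 : ((gm K n (a i) * gm K n (b i) - gm K n (b i) * gm K n (a i)).map
            (evT fun l => ρ (x l))) = ρ (x (a i)) * ρ (x (b i)) - ρ (x (b i)) * ρ (x (a i)) := by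
            rw [Matrix.map_sub _ (map_sub _), Matrix.map_mul, Matrix.map_mul, h1, h1]
          rw [← h3]
          rfl
        rw [h2, ← map_mul, ← map_mul, hab i, sub_self]
        rfl
      · rw [Ideal.span_le]
        intro f hf
        rw [SetLike.mem_coe]
        rw [Finset.coe_union, Finset.coe_image] at hf
        rcases hf with hf | ⟨u, hu, rfl⟩
        · exact hs2 f hf
        · rw [hker, hg]
          exact hps'.1.2 (Ideal.subset_span hu)
    · rintro q ⟨hq1, hq2⟩ hqM
      have := hq1
      have hs4 : comIdeal K n a b ⊔ Ideal.span (s : Set _) ≤ q := by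
        refine le_trans (sup_le_sup_left (Ideal.span_mono ?_) _) hq2
        rw [Finset.coe_union]
        exact Set.subset_union_left
      have hkq := hs3 q hq1 hqM hs4
      have hsurj : Function.Surjective (toRep (n := n) δ x) := toRep_surj δ hx
      have hq3 : (q.map (toRep (n := n) δ x)).IsPrime :=
        Ideal.map_isPrime_of_surjective hsurj hkq
      have hq4 : Ideal.span (s' : Set _) ≤ q.map (toRep (n := n) δ x) := by
        rw [Ideal.span_le]
        intro u hu
        rw [SetLike.mem_coe, ← hg u]
        refine Ideal.mem_map_of_mem _ (hq2 (Ideal.mem_sup_right (Ideal.subset_span ?_)))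
        rw [Finset.coe_union, Finset.coe_image]
        exact Or.inr ⟨u, hu, rfl⟩
      have hq5 : q.map (toRep (n := n) δ x) ≤ RingHom.ker (evR hδ) := by
        rw [Ideal.map_le_iff_le_comap]
        intro f hf
        rw [Ideal.mem_comap, ← hker]
        exact hqM hf
      have hq6 := hps'.2 ⟨hq3, hq4⟩ hq5
      intro f hf
      have hf1 : toRep (n := n) δ x f ∈ q.map (toRep (n := n) δ x) := hq6 ((hker f).1 hf)
      obtain ⟨f', hf', hff'⟩ := (Ideal.mem_map_iff_of_surjective _ hsurj).1 hf1
      have hf2 : f - f' ∈ q := by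
        apply hkq
        rw [RingHom.mem_ker, map_sub, hff', sub_self]
      have := q.add_mem hf2 hf'
      rwa [sub_add_cancel] at this
  have h1 := cut_bound hinj (fun l => ρ (x l)) (s ∪ s'.image g) hmin
  have h2 : (s ∪ s'.image g).card ≤
      (Module.finrank K (Th (adRep ρ) x a b) + Fintype.card ι) + s'.card :=
    (Finset.card_union_le _ _).trans (add_le_add hs1 Finset.card_image_le)
  rw [← hcard]
  have h3 : Fintype.card ι * n ^ 2 ≤ (Fintype.card κ * (n ^ 2 - n) +
      (Module.finrank K (Th (adRep ρ) x a b) + Fintype.card ι)) + s'.card := by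
    calc Fintype.card ι * n ^ 2 ≤ Fintype.card κ * (n ^ 2 - n) + (s ∪ s'.image g).card := h1
      _ ≤ Fintype.card κ * (n ^ 2 - n) +
        ((Module.finrank K (Th (adRep ρ) x a b) + Fintype.card ι) + s'.card) := by
          exact Nat.add_le_add_left h2 _
      _ = _ := by rw [← add_assoc]
  exact_mod_cast h3

end Thu
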