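import Mathlib

/-!
# From points to components
-/

namespace Thu

/-- A maximal ideal is the kernel of a point. -/
theorem VC2_pt {K : Type} [Field K] [IsAlgClosed K] {R : Type} [CommRing R] [Algebra K R]
    [Algebra.FiniteType K R] (M : Ideal R) (hM : M.IsMaximal) :
    ∃ ψ : R →ₐ[K] K, RingHom.ker ψ = M := by
  letI : Field (R ⧸ M) := Ideal.Quotient.field M
  have h1 : Algebra.FiniteType K (R ⧸ M) :=
    Algebra.FiniteType.of_surjective (Ideal.Quotient.mkₐ K M) (Ideal.Quotient.mkₐ_surjective K M)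
  have h2 : Module.Finite K (R ⧸ M) := finite_of_finite_type_of_isJacobsonRing K (R ⧸ M)
  have hbij : Function.Bijective (algebraMap K (R ⧸ M)) :=
    IsAlgClosed.algebraMap_bijective_of_isIntegral
  let e : K ≃ₐ[K] (R ⧸ M) := AlgEquiv.ofBijective (Algebra.ofId K (R ⧸ M)) hbij
  refine ⟨(e.symm : (R ⧸ M) →ₐ[K] K).comp (Ideal.Quotient.mkₐ K M), ?_⟩
  ext r
  rw [RingHom.mem_ker]
  show e.symm (Ideal.Quotient.mk M r) = 0 ↔ r ∈ M
  rw [map_eq_zero_iff _ e.symm.injective, Ideal.Quotient.eq_zero_iff_mem]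

/-- The height is bounded by the dimension of the only component through the point. -/
theorem VC2_height {R : Type} [CommRing R] {q M : Ideal R} (hM : M.IsPrime)
    (h : ∀ p : Ideal R, p.IsPrime → p ≤ M → q ≤ p) :
    (M.height : WithBot ℕ∞) ≤ ringKrullDim (R ⧸ q) := by
  rw [ringKrullDim_quotient]
  have h1 : M.height = Order.height (⟨M, hM⟩ : PrimeSpectrum R) :=
    PrimeSpectrum.height_eq_orderHeight ⟨M, hM⟩
  rw [h1]
  have hne : Nonempty (PrimeSpectrum.zeroLocus (R := R) q) := ⟨⟨⟨M, hM⟩, h M hM le_rfl⟩⟩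
  rw [Order.krullDim_eq_iSup_length, WithBot.coe_le_coe]
  refine Order.height_le fun p hp => ?_
  have hmem : ∀ i, p i ∈ PrimeSpectrum.zeroLocus (R := R) q := by
    intro i
    have h2 : p i ≤ (⟨M, hM⟩ : PrimeSpectrum R) := by
      rw [← hp]
      exact p.monotone (Fin.le_last i)
    exact h (p i).asIdeal (p i).isPrime h2
  let p' : LTSeries (PrimeSpectrum.zeroLocus (R := R) q) :=
    { length := p.length
      toFun := fun i => ⟨p i, hmem i⟩
      step := fun i => p.step i }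
  exact le_iSup (fun p : LTSeries (PrimeSpectrum.zeroLocus (R := R) q) => (p.length : ℕ∞)) p'

/-- An element outside of `q` in all the other minimal primes. -/
theorem VC2_sep {R : Type} [CommRing R] [IsNoetherianRing R] {q : Ideal R}
    (hq : q ∈ minimalPrimes R) : ∃ g : R, g ∉ q ∧ ∀ p ∈ minimalPrimes R, p ≠ q → g ∈ p := by
  classical
  have hfin := minimalPrimes.finite_of_isNoetherianRing R
  have hqp : q.IsPrime := hq.1.1
  have h1 : ¬ ((hfin.toFinset.erase q).inf id ≤ q) := by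
    intro h
    obtain ⟨p, hp, hpq⟩ := (Ideal.IsPrime.inf_le' hqp).1 h
    rw [Finset.mem_erase, Set.Finite.mem_toFinset] at hp
    exact hp.1 (le_antisymm hpq (hq.2 ⟨hp.2.1.1, bot_le⟩ hpq))
  obtain ⟨g, hg, hgq⟩ := SetLike.not_le_iff_exists.1 h1
  refine ⟨g, hgq, fun p hp hne => ?_⟩
  have h2 : (hfin.toFinset.erase q).inf id ≤ p :=
    Finset.inf_le (f := id) (Finset.mem_erase.2 ⟨hne, (Set.Finite.mem_toFinset _).2 hp⟩)
  exact h2 hg

/-- A bound for the heights of all points gives a bound for the dimension of every irreducible component.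

Proof. `R` is Noetherian and a Jacobson ring. The finitely many minimal primes other than `q` are not contained in
`q`, so there is `g₁ ∉ q` in all of them (`Ideal.minimalPrimes` finite: `minimalPrimes.finite_of_isNoetherianRing`;
`Ideal.IsPrime.inf_le'`, or a product). `g₂` from `hy` is not in `q`, because `q ≤ ker φ`. So `g₁ * g₂ ∉ q`, and as `q`
is the intersection of the maximal ideals which contain it (Jacobson) there is a maximal ideal `M ≥ q` with
`g₁ * g₂ ∉ M`; `R / M` is a finite extension of `K` (Nullstellensatz: `finite_of_finite_type_of_isJacobsonRing`), so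
it is `K` and `M = ker ψ` for some `ψ : R →ₐ[K] K`. Then `y ψ ≤ y φ`, and `(ker ψ).height ≤ ringKrullDim (R ⧸ q)`: every
prime `p ≤ ker ψ` contains a minimal prime, which does not contain `g₁`, so it is `q`. So an `LTSeries` of primes
ending at `ker ψ` is one of primes containing `q`, hence of `R ⧸ q` (`PrimeSpectrum` of the quotient,
`ringKrullDim`; alternatively `Ideal.height` of `ker ψ` equals the height of its image in `R ⧸ q`). -/
theorem comp_of_points {K : Type} [Field K] [IsAlgClosed K] {R : Type} [CommRing R] [Algebra K R]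
    [Algebra.FiniteType K R] {q : Ideal R} (hq : q ∈ minimalPrimes R) (φ : R →ₐ[K] K)
    (hφ : q ≤ RingHom.ker φ) (y : (R →ₐ[K] K) → ℕ) (N : ℕ)
    (hy : ∃ g : R, φ g ≠ 0 ∧ ∀ ψ : R →ₐ[K] K, ψ g ≠ 0 → y ψ ≤ y φ)
    (hN : ∀ ψ : R →ₐ[K] K, (N : ℕ∞) ≤ (RingHom.ker ψ).height + y ψ) :
    (N : WithBot ℕ∞) ≤ ringKrullDim (R ⧸ q) + (y φ : ℕ∞) := by
  have hnoeth : IsNoetherianRing R := Algebra.FiniteType.isNoetherianRing K R
  have hjac : IsJacobsonRing R := isJacobsonRing_of_finiteType (A := K)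
  have hqp : q.IsPrime := hq.1.1
  obtain ⟨g₁, hg₁, hg₁'⟩ := VC2_sep hq
  obtain ⟨g₂, hg₂, hy'⟩ := hy
  have hg₂q : g₂ ∉ q := fun h => hg₂ (hφ h)
  have hg : g₁ * g₂ ∉ q := fun h => (hqp.mem_or_mem h).elim hg₁ hg₂q
  have hM : ∃ M : Ideal R, M.IsMaximal ∧ q ≤ M ∧ g₁ * g₂ ∉ M := by
    by_contra hcon
    push Not at hcon
    apply hg
    rw [← IsJacobsonRing.out inferInstance hqp.isRadical, Ideal.jacobson, Ideal.mem_sInf]
    intro J hJ
    exact hcon J hJ.2 hJ.1
  obtain ⟨M, hMmax, _, hgM⟩ := hM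
  obtain ⟨ψ, hψ⟩ := VC2_pt (K := K) M hMmax
  have hg₁M : g₁ ∉ M := fun h => hgM (M.mul_mem_right _ h)
  have hg₂M : g₂ ∉ M := fun h => hgM (M.mul_mem_left _ h)
  have hψ₂ : ψ g₂ ≠ 0 := by
    intro h
    apply hg₂M
    rw [← hψ]
    exact h
  have h1 := hN ψ
  have h2 : (M.height : WithBot ℕ∞) ≤ ringKrullDim (R ⧸ q) := by
    refine VC2_height hMmax.isPrime fun p hp hpM => ?_
    obtain ⟨p', hp', hle⟩ := Ideal.exists_minimalPrimes_le (I := (⊥ : Ideal R)) (J := p) bot_le
    have h3 : p' = q := by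
      by_contra hne
      exact hg₁M (hpM (hle (hg₁' p' hp' hne)))
    rw [← h3]
    exact hle
  rw [hψ] at h1
  have h4 : (N : ℕ∞) ≤ M.height + (y φ : ℕ∞) := by
    refine h1.trans (add_le_add le_rfl ?_)
    exact_mod_cast hy' ψ hψ₂
  have h5 : ((N : ℕ∞) : WithBot ℕ∞) ≤ (M.height : WithBot ℕ∞) + ((y φ : ℕ∞) : WithBot ℕ∞) := by
    rw [← WithBot.coe_add]
    exact WithBot.coe_le_coe.2 h4
  exact h5.trans (add_le_add h2 le_rfl)

end Thu
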