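import Pool.Agent.W_04c03c_h58t.VC0

/-!
# Semicontinuity of the dimension of `YY`
-/

namespace Thu

open MvPolynomial

/-- Linear algebra: a submodule of a finite-dimensional space which is the intersection of kernels of linear
functionals: there are `r = finrank M - finrank Y` of the functionals and `r` vectors with nonzero determinant.

Proof. The span of the functionals `f t` in `Dual K M` is the annihilator of `Y` (finite-dimensional duality), of
dimension `r`; `exists_linearIndependent` and a basis give `t : Fin r → T` with `f (t i)` linearly independent; the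
map `M → (Fin r → K)`, `v ↦ (f (t i) v)` is then onto (its transpose is injective); take preimages `v j` of the
standard basis. -/
theorem exists_det {K M T : Type} [Field K] [AddCommGroup M] [Module K M] [FiniteDimensional K M]
    (f : T → Module.Dual K M) (Y : Submodule K M) (hY : ∀ v, v ∈ Y ↔ ∀ t, f t v = 0) :
    ∃ (r : ℕ) (t : Fin r → T) (v : Fin r → M), r + Module.finrank K Y = Module.finrank K M ∧
      (Matrix.of fun i j => f (t i) (v j)).det ≠ 0 := by
  obtain ⟨φ, hφ1, hφ2, _⟩ := Submodule.exists_fun_fin_finrank_span_eq K (Set.range f)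
  choose t ht using hφ1
  have hYS : (Submodule.span K (Set.range f)).dualCoannihilator = Y := by
    apply SetLike.coe_injective
    rw [Submodule.coe_dualCoannihilator_span]
    ext v
    constructor
    · intro h
      exact (hY v).2 fun t => h (f t) ⟨t, rfl⟩
    · rintro h _ ⟨t, rfl⟩
      exact (hY v).1 h t
  have h1 : Module.finrank K (Submodule.span K (Set.range f)) + Module.finrank K Y =
      Module.finrank K M := by
    have h2 := Subspace.finrank_add_finrank_dualCoannihilator_eq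
      (Submodule.span K (Set.range f))
    rwa [hYS] at h2
  have hYS' : (Submodule.span K (Set.range φ)).dualCoannihilator = Y := by
    rw [hφ2]
    exact hYS
  have hker : LinearMap.ker (LinearMap.pi φ) = Y := by
    rw [← hYS']
    apply SetLike.coe_injective
    rw [Submodule.coe_dualCoannihilator_span]
    ext v
    constructor
    · rintro h _ ⟨i, rfl⟩
      exact congrFun (LinearMap.mem_ker.1 h) i
    · intro h
      exact LinearMap.mem_ker.2 (funext fun i => h (φ i) ⟨i, rfl⟩)
  have hrange : LinearMap.range (LinearMap.pi φ) = ⊤ := by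
    apply Submodule.eq_top_of_finrank_eq
    have h2 := LinearMap.finrank_range_add_finrank_ker (LinearMap.pi φ)
    rw [hker] at h2
    rw [Module.finrank_fin_fun]
    omega
  have hsurj := LinearMap.range_eq_top.1 hrange
  choose v hv using fun j : Fin (Module.finrank K (Submodule.span K (Set.range f))) =>
    hsurj (Pi.single j 1)
  refine ⟨_, t, v, h1, ?_⟩
  have h2 : (Matrix.of fun i j => f (t i) (v j)) = 1 := by
    ext i j
    rw [Matrix.of_apply, ht i, Matrix.one_apply]
    have h3 := congrFun (hv j) i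
    rw [LinearMap.pi_apply, Pi.single_apply] at h3
    exact h3
  rw [h2, Matrix.det_one]
  exact one_ne_zero

/-- Proof. If the determinant is not zero then the functionals `f (t i)` are linearly independent, and they
vanish on `Y`, so `r + finrank Y ≤ finrank M`. -/
theorem det_le {K M : Type} [Field K] [AddCommGroup M] [Module K M] [FiniteDimensional K M]
    {r : ℕ} (f : Fin r → Module.Dual K M) (v : Fin r → M) (Y : Submodule K M)
    (hY : ∀ w ∈ Y, ∀ t, f t w = 0) (h : (Matrix.of fun i j => f i (v j)).det ≠ 0) :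
    r + Module.finrank K Y ≤ Module.finrank K M := by
  set A : Matrix (Fin r) (Fin r) K := Matrix.of fun i j => f i (v j) with hA
  have hsurj : Function.Surjective (LinearMap.pi f) := by
    intro c
    refine ⟨∑ j, (A⁻¹.mulVec c) j • v j, ?_⟩
    have h1 : A.mulVec (A⁻¹.mulVec c) = c := by
      rw [Matrix.mulVec_mulVec, Matrix.mul_nonsing_inv _ (isUnit_iff_ne_zero.2 h),
        Matrix.one_mulVec]
    funext i
    rw [LinearMap.pi_apply, map_sum]
    conv_rhs => rw [← h1]
    refine Finset.sum_congr rfl fun j _ => ?_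
    rw [map_smul, smul_eq_mul, mul_comm]
    rfl
  have hle : Y ≤ LinearMap.ker (LinearMap.pi f) := fun w hw =>
    LinearMap.mem_ker.2 (funext fun i => hY w hw i)
  have h2 := LinearMap.finrank_range_add_finrank_ker (LinearMap.pi f)
  rw [LinearMap.range_eq_top.2 hsurj, finrank_top, Module.finrank_fin_fun] at h2
  have h3 := Submodule.finrank_mono hle
  omega

/-- the entry of `A Y A' - c Y` -/
def VC3_E {R : Type} [CommRing R] {n : ℕ} (A A' : Matrix (Fin n) (Fin n) R) (c : R)
    (Y : Matrix (Fin n) (Fin n) R) (u₀ u w : Fin n) : R :=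
  if u = w then (A * Y * A' - c • Y) u u - (A * Y * A' - c • Y) u₀ u₀
  else (A * Y * A' - c • Y) u w

theorem VC3_map {R S : Type} [CommRing R] [CommRing S] {n : ℕ} (φ : R →+* S)
    (A A' : Matrix (Fin n) (Fin n) R) (c : R) (Y : Matrix (Fin n) (Fin n) R) (u₀ u w : Fin n) :
    φ (VC3_E A A' c Y u₀ u w) = VC3_E (A.map φ) (A'.map φ) (φ c) (Y.map φ) u₀ u w := by
  have h1 : ∀ i j, φ ((A * Y * A' - c • Y) i j) =
      (A.map φ * Y.map φ * A'.map φ - φ c • Y.map φ) i j := by
    intro i j
    rw [← Matrix.map_mul, ← Matrix.map_mul, Matrix.sub_apply, Matrix.sub_apply, map_sub,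
      Matrix.map_apply, Matrix.smul_apply, Matrix.smul_apply, Matrix.map_apply, smul_eq_mul,
      smul_eq_mul, map_mul]
  unfold VC3_E
  split_ifs
  · rw [map_sub, h1, h1]
  · rw [h1]

/-- the functional -/
def VC3_f {K : Type} [Field K] {n : ℕ} (A A' : Matrix (Fin n) (Fin n) K) (c : K)
    (u₀ u w : Fin n) : Module.Dual K (Matrix (Fin n) (Fin n) K) where
  toFun Y := VC3_E A A' c Y u₀ u w
  map_add' Y Z := by
    have h0 : A * (Y + Z) * A' - c • (Y + Z) = (A * Y * A' - c • Y) + (A * Z * A' - c • Z) := by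
      rw [mul_add, add_mul, smul_add]
      abel
    have h1 : ∀ i j, (A * (Y + Z) * A' - c • (Y + Z)) i j =
        (A * Y * A' - c • Y) i j + (A * Z * A' - c • Z) i j := by
      intro i j
      rw [h0, Matrix.add_apply]
    unfold VC3_E
    split_ifs
    · rw [h1, h1]
      ring
    · rw [h1]
  map_smul' t Y := by
    have h1 : ∀ i j, (A * (t • Y) * A' - c • (t • Y)) i j = t * (A * Y * A' - c • Y) i j := by
      intro i j
      rw [Matrix.mul_smul, Matrix.smul_mul, smul_comm c t, ← smul_sub, Matrix.smul_apply,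
        smul_eq_mul]
    unfold VC3_E
    simp only [h1, RingHom.id_apply, smul_eq_mul]
    split_ifs
    · ring
    · rfl

theorem VC3_mem {K : Type} [Field K] {G : Type} [Group G] {n : ℕ} (ω : G →* Kˣ)
    (ρ : G →* Matrix (Fin n) (Fin n) K) (u₀ : Fin n) (Y : Matrix (Fin n) (Fin n) K) :
    Y ∈ YY ω ρ ↔ ∀ t : G × Fin n × Fin n,
      VC3_f (ρ t.1) (ρ t.1⁻¹) ((ω t.1 : Kˣ) : K) u₀ t.2.1 t.2.2 Y = 0 := by
  constructor
  · intro h t
    obtain ⟨c, hc⟩ := h t.1
    change VC3_E _ _ _ _ _ _ _ = 0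
    unfold VC3_E
    rw [hc]
    split_ifs with h1
    · simp
    · simp [Matrix.one_apply_ne h1]
  · intro h g
    refine ⟨(ρ g * Y * ρ g⁻¹ - ((ω g : Kˣ) : K) • Y) u₀ u₀, ?_⟩
    ext i j
    have h1 := h (g, i, j)
    change VC3_E _ _ _ _ _ _ _ = 0 at h1
    unfold VC3_E at h1
    simp only at h1
    rw [Matrix.smul_apply, smul_eq_mul]
    by_cases hij : i = j
    · rw [if_pos hij] at h1
      rw [← hij, Matrix.one_apply_eq, mul_one]
      exact sub_eq_zero.1 h1
    · rw [if_neg hij] at h1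
      rw [Matrix.one_apply_ne hij, mul_zero]
      exact h1

theorem VC3_gq {K : Type} [Field K] {G : Type} [Group G] {n : ℕ} {δ : G →* Kˣ}
    {ρ : G →* Matrix (Fin n) (Fin n) K} (hδ : ∀ g, (ρ g).det = (δ g : K)) (g : G) :
    (gq δ g).map (evR hδ : _ →+* K) = ρ g := by
  ext i j
  change evR hδ (Ideal.Quotient.mk _ (gm K n g i j)) = ρ g i j
  have h1 : evR hδ (Ideal.Quotient.mk _ (gm K n g i j)) = evP ρ (gm K n g i j) := rfl
  rw [h1]
  change (aeval fun q : G × Fin n × Fin n => ρ q.1 q.2.1 q.2.2) (X (g, i, j)) = ρ g i j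
  rw [aeval_X]

/-- Semicontinuity.

Proof. For `t = (g, u, w) ∈ G × Fin n × Fin n` and a representation `ρ'` let `f t Y` be the entry `(u, w)` of
`Z = ρ' g * Y * ρ' g⁻¹ - ω g • Y` if `u ≠ w`, and `Z u u - Z u₀ u₀` if `u = w` (`u₀ = ⟨0, _⟩`; if `n = 0` the statement is
trivial with `p = 1`: all spaces are zero). Then `Y ∈ YY ω ρ'` iff all `f t Y = 0`. `exists_det` for `ρ' = ρ` gives
`r, t, v`. Let `p` be the determinant of the `r × r` matrix over the coordinate ring obtained from the same
formulas with `gq δ g` instead of `ρ' g` (and the constant matrix `v j`); then `evR hδ' p` is the determinant for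
`ρ'` (`AlgHom.map_det` or `RingHom.map_det`; `evR hδ' (gq δ g u w) = ρ' g u w`). `det_le` for `ρ'`. -/
theorem yy_semi {K : Type} [Field K] {G : Type} [Group G] {n : ℕ} {δ : G →* Kˣ} (ω : G →* Kˣ)
    {ρ : G →* Matrix (Fin n) (Fin n) K} (hδ : ∀ g, (ρ g).det = (δ g : K)) :
    ∃ p : MvPolynomial (G × Fin n × Fin n) K ⧸ repIdeal n δ, evR hδ p ≠ 0 ∧
      ∀ (ρ' : G →* Matrix (Fin n) (Fin n) K) (hδ' : ∀ g, (ρ' g).det = (δ g : K)),
        evR hδ' p ≠ 0 → Module.finrank K (YY ω ρ') ≤ Module.finrank K (YY ω ρ) := by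
  rcases Nat.eq_zero_or_pos n with hn | hn
  · subst hn
    refine ⟨1, by rw [map_one]; exact one_ne_zero, fun ρ' _ _ => ?_⟩
    have h1 := Submodule.finrank_le (YY ω ρ')
    rw [Module.finrank_matrix, Fintype.card_fin] at h1
    omega
  set u₀ : Fin n := ⟨0, hn⟩
  obtain ⟨r, t, v, hr, hdet⟩ := exists_det (fun t : G × Fin n × Fin n =>
    VC3_f (ρ t.1) (ρ t.1⁻¹) ((ω t.1 : Kˣ) : K) u₀ t.2.1 t.2.2) (YY ω ρ) (VC3_mem ω ρ u₀)
  let Pm : Matrix (Fin r) (Fin r) (MvPolynomial (G × Fin n × Fin n) K ⧸ repIdeal n δ) :=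
    Matrix.of fun i j => VC3_E (gq δ (t i).1) (gq δ (t i).1⁻¹)
      (algebraMap K _ ((ω (t i).1 : Kˣ) : K)) ((v j).map (algebraMap K _)) u₀ (t i).2.1 (t i).2.2
  have key : ∀ (ρ' : G →* Matrix (Fin n) (Fin n) K) (hδ' : ∀ g, (ρ' g).det = (δ g : K)),
      evR hδ' Pm.det = (Matrix.of fun i j => VC3_f (ρ' (t i).1) (ρ' (t i).1⁻¹)
        ((ω (t i).1 : Kˣ) : K) u₀ (t i).2.1 (t i).2.2 (v j)).det := by
    intro ρ' hδ'
    rw [AlgHom.map_det]
    congr 1
    ext i j
    change (evR hδ' : (MvPolynomial (G × Fin n × Fin n) K ⧸ repIdeal n δ) →+* K)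
      (VC3_E _ _ _ _ _ _ _) = VC3_E _ _ _ _ _ _ _
    rw [VC3_map, VC3_gq, VC3_gq]
    have h1 : (evR hδ' : (MvPolynomial (G × Fin n × Fin n) K ⧸ repIdeal n δ) →+* K)
        (algebraMap K _ ((ω (t i).1 : Kˣ) : K)) =
        ((ω (t i).1 : Kˣ) : K) := (evR hδ').commutes _
    have h2 : ((v j).map (algebraMap K (MvPolynomial (G × Fin n × Fin n) K ⧸ repIdeal n δ))).map
        (evR hδ' : (MvPolynomial (G × Fin n × Fin n) K ⧸ repIdeal n δ) →+* K) = v j := by
      ext a b
      exact (evR hδ').commutes _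
    rw [h1, h2]
  refine ⟨Pm.det, ?_, fun ρ' hδ' hne => ?_⟩
  · rw [key ρ hδ]
    exact hdet
  · rw [key ρ' hδ'] at hne
    have h1 := det_le (fun i => VC3_f (ρ' (t i).1) (ρ' (t i).1⁻¹) ((ω (t i).1 : Kˣ) : K) u₀
      (t i).2.1 (t i).2.2) v (YY ω ρ') (fun w hw i => (VC3_mem ω ρ' u₀ w).1 hw (t i)) hne
    omega

end Thu
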