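import Pool.Agent.W_04c03c_h58t.VDef

/-!
# `YY` and the invariants of the twisted dual of the adjoint representation
-/

namespace Thu

section

variable {K : Type} [Field K] {G : Type} [Group G] {n : ℕ}

/-- Proof. `Matrix.traceLinearMap` is onto for `n ≠ 0`; rank-nullity; `finrank (Matrix (Fin n) (Fin n) K) = n ^ 2`. -/
theorem finrank_sl (hn : n ≠ 0) : Module.finrank K (Sl n K) + 1 = n ^ 2 := by
  have i₀ : Fin n := ⟨0, Nat.pos_of_ne_zero hn⟩
  have h1 := LinearMap.finrank_range_add_finrank_ker (Matrix.traceLinearMap (Fin n) K K)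
  have h2 : LinearMap.range (Matrix.traceLinearMap (Fin n) K K) = ⊤ := by
    rw [LinearMap.range_eq_top]
    intro c
    refine ⟨Matrix.single i₀ i₀ c, ?_⟩
    rw [Matrix.traceLinearMap_apply, Matrix.trace_single_eq_same]
  rw [h2, finrank_top, Module.finrank_self, Module.finrank_matrix] at h1
  simp only [Fintype.card_fin, Module.finrank_self, mul_one] at h1
  rw [sq, ← h1, add_comm]

/-- the pairing of the matrices with the matrices of trace zero -/
noncomputable def VC4_T (n : ℕ) (K : Type) [Field K] :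
    Matrix (Fin n) (Fin n) K →ₗ[K] Module.Dual K (Sl n K) where
  toFun Y :=
    { toFun := fun Z => (Y * Z.1).trace
      map_add' := fun Z W => by
        rw [Submodule.coe_add, mul_add, Matrix.trace_add]
      map_smul' := fun c Z => by
        rw [Submodule.coe_smul, Matrix.mul_smul, Matrix.trace_smul, RingHom.id_apply] }
  map_add' Y Z := LinearMap.ext fun W => by
    show ((Y + Z) * W.1).trace = (Y * W.1).trace + (Z * W.1).trace
    rw [add_mul, Matrix.trace_add]
  map_smul' c Y := LinearMap.ext fun W => by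
    show ((c • Y) * W.1).trace = c • (Y * W.1).trace
    rw [Matrix.smul_mul, Matrix.trace_smul]

theorem VC4_T_apply (Y : Matrix (Fin n) (Fin n) K) (Z : Sl n K) :
    VC4_T n K Y Z = (Y * Z.1).trace := rfl

theorem VC4_trace_mul_single (Y : Matrix (Fin n) (Fin n) K) (w u : Fin n) :
    (Y * Matrix.single w u (1 : K)).trace = Y u w := by
  rw [Matrix.trace_mul_comm, Matrix.trace_single_mul]
  simp

theorem VC4_ker (hn : n ≠ 0) (Y : Matrix (Fin n) (Fin n) K) :
    VC4_T n K Y = 0 ↔ ∃ c : K, Y = c • 1 := by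
  have i₀ : Fin n := ⟨0, Nat.pos_of_ne_zero hn⟩
  constructor
  · intro h
    refine ⟨Y i₀ i₀, ?_⟩
    ext u w
    rw [Matrix.smul_apply, smul_eq_mul]
    by_cases huw : u = w
    · subst huw
      rw [Matrix.one_apply_eq, mul_one]
      have h1 : Matrix.single u u (1 : K) - Matrix.single i₀ i₀ 1 ∈ Sl n K := by
        rw [LinearMap.mem_ker, Matrix.traceLinearMap_apply, Matrix.trace_sub,
          Matrix.trace_single_eq_same, Matrix.trace_single_eq_same, sub_self]
      have h2 := LinearMap.congr_fun h ⟨_, h1⟩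
      rw [VC4_T_apply, mul_sub, Matrix.trace_sub, VC4_trace_mul_single, VC4_trace_mul_single,
        LinearMap.zero_apply] at h2
      exact sub_eq_zero.1 h2
    · rw [Matrix.one_apply_ne huw, mul_zero]
      have h1 : Matrix.single w u (1 : K) ∈ Sl n K := by
        rw [LinearMap.mem_ker, Matrix.traceLinearMap_apply,
          Matrix.trace_single_eq_of_ne _ _ _ (Ne.symm huw)]
      have h2 := LinearMap.congr_fun h ⟨_, h1⟩
      rw [VC4_T_apply, VC4_trace_mul_single, LinearMap.zero_apply] at h2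
      exact h2
  · rintro ⟨c, rfl⟩
    refine LinearMap.ext fun Z => ?_
    rw [VC4_T_apply, Matrix.smul_mul, one_mul, Matrix.trace_smul, LinearMap.zero_apply]
    have h1 : Matrix.trace Z.1 = 0 := Z.2
    rw [h1, smul_zero]

theorem VC4_finrank_ker (hn : n ≠ 0) : Module.finrank K (LinearMap.ker (VC4_T n K)) = 1 := by
  have i₀ : Fin n := ⟨0, Nat.pos_of_ne_zero hn⟩
  have h1 : LinearMap.ker (VC4_T n K) = K ∙ (1 : Matrix (Fin n) (Fin n) K) := by
    ext Y
    rw [LinearMap.mem_ker, VC4_ker hn, Submodule.mem_span_singleton]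
    exact ⟨fun ⟨c, hc⟩ => ⟨c, hc.symm⟩, fun ⟨c, hc⟩ => ⟨c, hc.symm⟩⟩
  rw [h1]
  refine finrank_span_singleton ?_
  intro h2
  have h3 := congrFun (congrFun h2 i₀) i₀
  rw [Matrix.one_apply_eq] at h3
  exact one_ne_zero h3

theorem VC4_range (hn : n ≠ 0) : LinearMap.range (VC4_T n K) = ⊤ := by
  have h1 := LinearMap.finrank_range_add_finrank_ker (VC4_T n K)
  rw [VC4_finrank_ker hn, Module.finrank_matrix] at h1
  simp only [Fintype.card_fin, Module.finrank_self, mul_one] at h1
  have h2 := finrank_sl (K := K) hn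
  rw [sq, ← h1] at h2
  apply Submodule.eq_top_of_finrank_eq
  rw [Subspace.dual_finrank_eq]
  omega

theorem VC4_yy {ω : G →* Kˣ} (hω : ∀ g, ω g * ω g = 1) (ρ : G →* Matrix (Fin n) (Fin n) K)
    (hn : n ≠ 0) : YY ω ρ = (Inv (dualW ω (adRep ρ))).comap (VC4_T n K) := by
  have hT : ∀ (g : G) (Y : Matrix (Fin n) (Fin n) K), dualW ω (adRep ρ) g (VC4_T n K Y) =
      VC4_T n K ((ω g : K) • (ρ g * Y * ρ g⁻¹)) := by
    intro g Y
    refine LinearMap.ext fun Z => ?_
    rw [dualW_apply, VC4_T_apply, VC4_T_apply, adRep_apply, Matrix.smul_mul, Matrix.trace_smul,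
      smul_eq_mul, inv_inv]
    congr 1
    rw [← mul_assoc, ← mul_assoc, Matrix.trace_mul_comm, ← mul_assoc, ← mul_assoc]
  have hωω : ∀ g, (ω g : K) * (ω g : K) = 1 := fun g => by
    rw [← Units.val_mul, hω, Units.val_one]
  ext Y
  rw [Submodule.mem_comap]
  constructor
  · intro h g
    obtain ⟨c, hc⟩ := h g
    rw [hT, ← sub_eq_zero, ← map_sub, VC4_ker hn]
    refine ⟨(ω g : K) * c, ?_⟩
    rw [mul_smul, ← hc, smul_sub, ← mul_smul (ω g : K) (ω g : K) Y, hωω, one_smul]
  · intro h g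
    have h1 := h g
    rw [hT, ← sub_eq_zero, ← map_sub, VC4_ker hn] at h1
    obtain ⟨c, hc⟩ := h1
    refine ⟨(ω g : K) * c, ?_⟩
    rw [mul_smul, ← hc, smul_sub, ← mul_smul (ω g : K) (ω g : K) (ρ g * Y * ρ g⁻¹), hωω, one_smul]

/-- Proof. Let `T : Matrix → Dual K (Sl n K)`, `T Y Z = trace (Y * Z)`. Its kernel is the space of the scalar matrices:
if `trace (Y * Z) = 0` for all `Z` of trace zero, take `Z = E_{uw}`, `u ≠ w`, and `Z = E_{uu} - E_{ww}`. By
dimensions (`finrank_sl`) it is onto. `dualW ω (adRep ρ) g (T Y) = T (ω g • (ρ g * Y * ρ g⁻¹))` (`trace_mul_cycle`), so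
`T Y` is invariant iff `ω g • ρ g * Y * ρ g⁻¹ - Y` is scalar for all `g`, iff (multiply by `ω g`, `hω`) `Y ∈ YY ω ρ`.
So `T` maps `YY ω ρ` onto `Inv (dualW ω (adRep ρ))` with kernel the scalar matrices (contained in `YY ω ρ`), of
dimension one (`hn`). -/
theorem finrank_yy {ω : G →* Kˣ} (hω : ∀ g, ω g * ω g = 1) (ρ : G →* Matrix (Fin n) (Fin n) K)
    (hn : n ≠ 0) :
    Module.finrank K (YY ω ρ) = Module.finrank K (Inv (dualW ω (adRep ρ))) + 1 := by
  have h1 := LinearMap.finrank_range_add_finrank_ker ((VC4_T n K).comp (YY ω ρ).subtype)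
  have h2 : LinearMap.range ((VC4_T n K).comp (YY ω ρ).subtype) = Inv (dualW ω (adRep ρ)) := by
    rw [LinearMap.range_comp, Submodule.range_subtype, VC4_yy hω ρ hn,
      Submodule.map_comap_eq_of_surjective (LinearMap.range_eq_top.1 (VC4_range hn))]
  have h3 : LinearMap.ker (VC4_T n K) ≤ YY ω ρ := by
    rw [VC4_yy hω ρ hn]
    intro Y hY
    rw [LinearMap.mem_ker] at hY
    rw [Submodule.mem_comap, hY]
    exact Submodule.zero_mem _
  have h4 : Module.finrank K (LinearMap.ker ((VC4_T n K).comp (YY ω ρ).subtype)) = 1 := by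
    rw [LinearMap.ker_comp, (Submodule.comapSubtypeEquivOfLe h3).finrank_eq, VC4_finrank_ker hn]
  rw [h2, h4] at h1
  exact h1.symm

end

end Thu
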