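import Pool.Agent.W_04c03c_h58t.VC1
import Pool.Agent.W_04c03c_h58t.VC2
import Pool.Agent.W_04c03c_h58t.VC3
import Pool.Agent.W_04c03c_h58t.VC4

/-!
# From the inequality for the relation module to the components
-/

namespace Thu

open MvPolynomial

section

variable {K : Type} [Field K] {G : Type} [Group G] {n : ℕ}

theorem VD_point {δ : G →* Kˣ} {ρ ρ' : G →* Matrix (Fin n) (Fin n) K}
    (hδ : ∀ g, (ρ g).det = (δ g : K)) (hδ' : ∀ g, (ρ' g).det = (δ g : K))
    (h : evR hδ = evR hδ') : ρ = ρ' := by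
  ext g i j
  have h1 := DFunLike.congr_fun h (Ideal.Quotient.mk _ (X (g, i, j)))
  have h2 : ∀ {ρ : G →* Matrix (Fin n) (Fin n) K} (hδ : ∀ g, (ρ g).det = (δ g : K)),
      evR hδ (Ideal.Quotient.mk _ (X (g, i, j))) = ρ g i j := by
    intro ρ hδ
    show evP ρ (X (g, i, j)) = _
    unfold evP
    rw [aeval_X]
  rw [h2, h2] at h1
  exact h1

/-- The bound for the components from the bound for the heights of the points. -/
theorem comp_bound [IsAlgClosed K] {ι : Type} [Finite ι] (δ : G →* Kˣ) {x : ι → G}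
    (hx : Subgroup.closure (Set.range x) = ⊤) (ω : G →* Kˣ) (N : ℕ)
    (hN : ∀ (ρ : G →* Matrix (Fin n) (Fin n) K) (hδ : ∀ g, (ρ g).det = (δ g : K)),
      (N : ℕ∞) ≤ (RingHom.ker (evR hδ)).height + (Module.finrank K (YY ω ρ) : ℕ))
    (ρ : G →* Matrix (Fin n) (Fin n) K) (hδ : ∀ g, (ρ g).det = (δ g : K))
    (q : Ideal (MvPolynomial (G × Fin n × Fin n) K)) (hq : q ∈ (repIdeal n δ).minimalPrimes)
    (hqρ : q ≤ RingHom.ker (evP ρ)) :
    (N : WithBot ℕ∞) ≤ ringKrullDim (MvPolynomial (G × Fin n × Fin n) K ⧸ q) +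
      ((Module.finrank K (YY ω ρ) : ℕ) : ℕ∞) := by
  have hfin : Algebra.FiniteType K (MvPolynomial (G × Fin n × Fin n) K ⧸ repIdeal n δ) :=
    Algebra.FiniteType.of_surjective (toRep (n := n) δ x) (toRep_surj δ hx)
  rw [Ideal.minimalPrimes_eq_comap] at hq
  obtain ⟨q', hq', rfl⟩ := hq
  choose P hP hP' using exists_rep (K := K) (n := n) δ
  obtain ⟨y, hy⟩ : ∃ y : ((MvPolynomial (G × Fin n × Fin n) K ⧸ repIdeal n δ) →ₐ[K] K) → ℕ,
      ∀ ψ, y ψ = Module.finrank K (YY ω (P ψ)) := ⟨_, fun _ => rfl⟩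
  have hyρ : ∀ (ρ : G →* Matrix (Fin n) (Fin n) K) (hδ : ∀ g, (ρ g).det = (δ g : K)),
      y (evR hδ) = Module.finrank K (YY ω ρ) := by
    intro ρ hδ
    rw [hy, VD_point _ hδ (hP' (evR hδ))]
  have h1 : q' ≤ RingHom.ker (evR hδ) := by
    intro r hr
    obtain ⟨p, rfl⟩ := Ideal.Quotient.mk_surjective r
    exact hqρ hr
  obtain ⟨p, hp, hp'⟩ := yy_semi ω hδ
  have h2 := comp_of_points hq' (evR hδ) h1 y N
    ⟨p, hp, fun ψ hψ => by
      have h3 := hp' (P ψ) (hP ψ) (by rw [hP' ψ]; exact hψ)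
      rw [hyρ, hy]
      exact h3⟩
    (fun ψ => by
      have h3 := hN (P ψ) (hP ψ)
      rw [hP' ψ] at h3
      rw [hy]
      exact h3)
  rw [hyρ] at h2
  have h4 : ringKrullDim ((MvPolynomial (G × Fin n × Fin n) K ⧸ repIdeal n δ) ⧸ q') =
      ringKrullDim (MvPolynomial (G × Fin n × Fin n) K ⧸
        Ideal.comap (Ideal.Quotient.mk (repIdeal n δ)) q') := by
    have h5 : repIdeal n δ ≤ Ideal.comap (Ideal.Quotient.mk (repIdeal n δ)) q' := by
      intro r hr
      rw [Ideal.mem_comap, Ideal.Quotient.eq_zero_iff_mem.2 hr]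
      exact q'.zero_mem
    rw [← ringKrullDim_eq_of_ringEquiv (DoubleQuot.quotQuotEquivQuotOfLE h5),
      Ideal.map_comap_of_surjective _ Ideal.Quotient.mk_surjective]
  rw [← h4]
  exact h2

theorem VD_arith {n k N T S I Y m : ℕ} (hn : n ≠ 0)
    (h1 : N * n ^ 2 ≤ k * (n ^ 2 - n) + (T + N) + m) (h2 : S + 1 = n ^ 2) (h3 : Y = I + 1)
    (h4 : T + (k + 1) * S ≤ N * S + I) : n ^ 2 + k * (n - 1) ≤ m + Y := by
  obtain ⟨n', rfl⟩ : ∃ n', n = n' + 1 := ⟨n - 1, by omega⟩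
  have e1 : (n' + 1) ^ 2 - (n' + 1) = n' * (n' + 1) := by
    have : (n' + 1) ^ 2 = n' * (n' + 1) + (n' + 1) := by ring
    omega
  have e2 : S = n' * (n' + 1) + n' := by
    have : (n' + 1) ^ 2 = n' * (n' + 1) + n' + 1 := by ring
    omega
  rw [e1, ← h2] at h1
  rw [← h2, Nat.add_sub_cancel]
  have e3 : k * S = k * (n' * (n' + 1)) + k * n' := by
    rw [e2]
    ring
  have e4 : (k + 1) * S = k * S + S := by ring
  have e5 : N * (S + 1) = N * S + N := by ring
  omega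

/-- The height bound from the inequality for the relation module. -/
theorem point_bound [IsAlgClosed K] {ι κ : Type} [Fintype ι] [Fintype κ] {δ : G →* Kˣ}
    {ρ : G →* Matrix (Fin n) (Fin n) K} (hδ : ∀ g, (ρ g).det = (δ g : K)) (hn : n ≠ 0)
    {x : ι → G} (hx : Subgroup.closure (Set.range x) = ⊤)
    {a b : κ → ι} (hinj : Function.Injective (Sum.elim a b))
    (hab : ∀ i, x (a i) * x (b i) = x (b i) * x (a i)) {ω : G →* Kˣ} (hω : ∀ g, ω g * ω g = 1)
    (hfin : FiniteDimensional K (Th (adRep ρ) x a b))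
    (hth : Module.finrank K (Th (adRep ρ) x a b) + (Fintype.card κ + 1) * Module.finrank K (Sl n K) ≤
      Fintype.card ι * Module.finrank K (Sl n K) +
        Module.finrank K (Inv (dualW ω (adRep ρ)))) :
    ((n ^ 2 + Fintype.card κ * (n - 1) : ℕ) : ℕ∞) ≤
      (RingHom.ker (evR hδ)).height + (Module.finrank K (YY ω ρ) : ℕ) := by
  have h1 := height_bound hδ hx hinj hab
  have h2 := finrank_sl (K := K) hn
  have h3 := finrank_yy hω ρ hn
  rcases eq_or_ne (RingHom.ker (evR hδ)).height ⊤ with h | h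
  · rw [h, top_add]
    exact le_top
  · obtain ⟨m, hm⟩ := ENat.ne_top_iff_exists.1 h
    rw [← hm] at h1 ⊢
    norm_cast at h1 ⊢
    exact VD_arith hn h1 h2 h3 hth

end

end Thu
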