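import Pool.Agent.W_04c03c_h58t.UDef

/-!
# The ideals of the representations and of the commutation relations
-/

namespace Thu

open MvPolynomial

/-- the generic matrices -/
noncomputable def gm (K : Type) [Field K] {ι : Type} (n : ℕ) (l : ι) :
    Matrix (Fin n) (Fin n) (MvPolynomial (ι × Fin n × Fin n) K) := fun i j => X (l, i, j)

/-- the ideal generated by the entries of the commutators of the generic matrices `a i`, `b i` -/
noncomputable def comIdeal (K : Type) [Field K] {ι κ : Type} (n : ℕ) (a b : κ → ι) :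
    Ideal (MvPolynomial (ι × Fin n × Fin n) K) :=
  Ideal.span {p | ∃ (i : κ) (r s : Fin n),
    p = (gm K n (a i) * gm K n (b i) - gm K n (b i) * gm K n (a i)) r s}

/-- the ideal of the relations of the representations of `G` of dimension `n` and determinant `δ` -/
noncomputable def repIdeal {K : Type} [Field K] {G : Type} [Group G] (n : ℕ) (δ : G →* Kˣ) :
    Ideal (MvPolynomial (G × Fin n × Fin n) K) :=
  Ideal.span {p | (∃ (g h : G) (i j : Fin n), p = (gm K n (g * h) - gm K n g * gm K n h) i j) ∨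
    (∃ i j : Fin n, p = (gm K n (1 : G) - 1) i j) ∨
    ∃ g : G, p = (gm K n g).det - C ((δ g : Kˣ) : K)}

section

variable {K : Type} [Field K] {G ι : Type} [Group G] {n : ℕ}

/-- the evaluation at a representation -/
noncomputable def evP (ρ : G →* Matrix (Fin n) (Fin n) K) :
    MvPolynomial (G × Fin n × Fin n) K →ₐ[K] K := aeval fun q => ρ q.1 q.2.1 q.2.2

/-- the evaluation at a tuple of matrices -/
noncomputable def evT (A : ι → Matrix (Fin n) (Fin n) K) :
    MvPolynomial (ι × Fin n × Fin n) K →ₐ[K] K := aeval fun q => A q.1 q.2.1 q.2.2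

/-- the homomorphism from the polynomial ring of the generators to the coordinate ring -/
noncomputable def toRep (δ : G →* Kˣ) (x : ι → G) :
    MvPolynomial (ι × Fin n × Fin n) K →ₐ[K] (MvPolynomial (G × Fin n × Fin n) K ⧸ repIdeal n δ) :=
  aeval fun q => Ideal.Quotient.mk _ (X (x q.1, q.2.1, q.2.2))

/-- the matrices of trace zero -/
abbrev Sl (n : ℕ) (K : Type) [Field K] : Submodule K (Matrix (Fin n) (Fin n) K) :=
  LinearMap.ker (Matrix.traceLinearMap (Fin n) K K)

theorem conj_mem_sl (ρ : G →* Matrix (Fin n) (Fin n) K) (g : G) (Y : Sl n K) :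
    ρ g * Y.1 * ρ g⁻¹ ∈ Sl n K := by
  rw [LinearMap.mem_ker, Matrix.traceLinearMap_apply, Matrix.trace_mul_cycle, ← map_mul,
    inv_mul_cancel, map_one, one_mul]
  exact Y.2

/-- the adjoint representation on the matrices of trace zero -/
noncomputable def adRep (ρ : G →* Matrix (Fin n) (Fin n) K) : Representation K G (Sl n K) where
  toFun g :=
    { toFun := fun Y => ⟨ρ g * Y.1 * ρ g⁻¹, conj_mem_sl ρ g Y⟩
      map_add' := fun Y Z => Subtype.ext (by
        simp [mul_add, add_mul])
      map_smul' := fun c Y => Subtype.ext (by simp) }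
  map_one' := LinearMap.ext fun Y => Subtype.ext (by simp)
  map_mul' := fun g h => LinearMap.ext fun Y => Subtype.ext (by simp [mul_assoc])

theorem adRep_apply (ρ : G →* Matrix (Fin n) (Fin n) K) (g : G) (Y : Sl n K) :
    (adRep ρ g Y).1 = ρ g * Y.1 * ρ g⁻¹ := rfl

/-- the matrices `Y` with `ρ(g) Y ρ(g)⁻¹ - ω(g) Y` scalar for all `g` -/
def YY (ω : G →* Kˣ) (ρ : G →* Matrix (Fin n) (Fin n) K) :
    Submodule K (Matrix (Fin n) (Fin n) K) where
  carrier := {Y | ∀ g, ∃ c : K, ρ g * Y * ρ g⁻¹ - (ω g : K) • Y = c • 1}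
  zero_mem' := fun g => ⟨0, by simp⟩
  add_mem' := by
    intro Y Z hY hZ g
    obtain ⟨c, hc⟩ := hY g
    obtain ⟨d, hd⟩ := hZ g
    refine ⟨c + d, ?_⟩
    rw [add_smul, ← hc, ← hd, mul_add, add_mul, smul_add]
    abel
  smul_mem' := by
    intro t Y hY g
    obtain ⟨c, hc⟩ := hY g
    refine ⟨t * c, ?_⟩
    rw [mul_smul, ← hc, smul_sub, Matrix.mul_smul, Matrix.smul_mul, smul_comm t (ω g : K) Y]

end

end Thu
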