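import Pool.Agent.W_04c03c_h58t.XF
import Pool.Agent.W_04c03c_h58t.UF

/-!
# The dimension of the space of equivariant homomorphisms on the relation module
-/

namespace Thu

open RCan MulAction

section

variable {G Ξ V : Type} [Group G] [MulAction G Ξ] [MulAction G V] {sm : V → V → Prop}
  {cusp : V → Option Ξ} {K : Type} [Field K]

/-- The basic inequality. -/
theorem star (hF : Face G Ξ V sm cusp) (hT : TFree G) [Group.FG G] [Nonempty Ξ] {ω : G →* Kˣ}
    {z : DSub sm cusp K 3} (hz : Ori hF ω z) (h1 : H1Z sm cusp K) {κ : Type} [Fintype κ]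
    {ξ : κ → Ξ} (hξ : Reps G ξ) (hne : ∀ i, ∃ η, η ≠ ξ i)
    (hω : ∀ i, ∀ p ∈ stabilizer G (ξ i), ω p = 1) {ι : Type} [Fintype ι] {x : ι → G} {a b : κ → ι}
    (hP : Per x a b fun i => stabilizer G (ξ i)) {E : Type} [AddCommGroup E] [Module K E]
    [FiniteDimensional K E] (σ : Representation K G E) :
    FiniteDimensional K (Th σ x a b) ∧
    Module.finrank K (Th σ x a b) + (Fintype.card κ + 1) * Module.finrank K E ≤
      Fintype.card ι * Module.finrank K E + Module.finrank K (Inv (dualW ω σ)) := by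
  obtain ⟨c, hc⟩ := exists_euler hF hT hz
  have hc0 := x_nonpos hF hT hz h1 hξ hne (x := fun i => x (a i)) (y := fun i => x (b i))
    ⟨hP.gen, hP.comm, hP.ind⟩ hω c hc
  obtain ⟨d, hd⟩ := exists_dims (sm := sm) (cusp := cusp) hF hT K ω
  have i1 : FiniteDimensional K (EQE sm cusp σ 1) := (hd 1 E σ).1
  have i2 : FiniteDimensional K (EQE sm cusp σ 2) := (hd 2 E σ).1
  have hinj := crQ_zero_inj hF σ
  obtain ⟨i3, h3⟩ := finrank_pot hF σ
  obtain ⟨i4, h4⟩ := finrank_krel hF hξ σ hinj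
  obtain ⟨i5, h5⟩ := finrank_th hF hT hξ σ hP
  refine ⟨i5, ?_⟩
  have h6 := hc E σ
  have h7 : c * (Module.finrank K E : ℤ) ≤ 0 :=
    mul_nonpos_of_nonpos_of_nonneg hc0 (Int.natCast_nonneg _)
  have h8 : (Fintype.card κ + 1) * Module.finrank K E =
      Fintype.card κ * Module.finrank K E + Module.finrank K E := by ring
  omega

end

end Thu
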