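import Pool.Agent.W_04c03c_h58t.VD
import Pool.Agent.W_04c03c_h58t.XG
import Pool.Agent.W_04c03c_h58t.GE

/-!
# The dimension of the components of the representation schemes
-/

namespace Thu

open RCan Q62 MulAction MvPolynomial

/-- generators of the group which contain bases of the cusp groups -/
theorem exists_gens {G : Type} [Group G] [hfg : Group.FG G] {k : ℕ} (H : Fin k → Subgroup G)
    (hH : ∀ i, Nonempty (H i ≃* Multiplicative (ℤ × ℤ))) (hd : ∀ i j, i ≠ j → H i ⊓ H j = ⊥) :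
    ∃ (ι : Type) (_ : Fintype ι) (x : ι → G) (a b : Fin k → ι), Per x a b H := by
  choose x y hxy hgen hind using fun i => exists_basis_of_Z2 (hH i)
  obtain ⟨S, hS⟩ := hfg.out
  refine ⟨(Fin k ⊕ Fin k) ⊕ S, inferInstance,
    Sum.elim (Sum.elim (fun i => (x i : G)) fun i => (y i : G)) Subtype.val,
    fun i => Sum.inl (Sum.inl i), fun i => Sum.inl (Sum.inr i), ⟨?_, ?_, ?_, ?_, hd, ?_⟩⟩
  · rw [eq_top_iff, ← hS]
    refine Subgroup.closure_mono ?_
    intro g hg
    exact ⟨Sum.inr ⟨g, hg⟩, rfl⟩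
  · intro i
    show H i = Subgroup.closure {(x i : G), (y i : G)}
    refine le_antisymm ?_ ?_
    · intro g hg
      obtain ⟨m, n, h⟩ := hgen i ⟨g, hg⟩
      have h1 : g = (x i : G) ^ m * (y i : G) ^ n := congrArg Subtype.val h
      rw [h1]
      exact mul_mem (zpow_mem (Subgroup.subset_closure (by simp)) m)
        (zpow_mem (Subgroup.subset_closure (by simp)) n)
    · rw [Subgroup.closure_le]
      rintro g (rfl | rfl)
      · exact (x i).2
      · exact (y i).2
  · intro i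
    exact congrArg Subtype.val (hxy i)
  · intro i m n h
    exact hind i m n (Subtype.ext h)
  · rintro (i | i) (j | j) h
    · exact congrArg Sum.inl (Sum.inl.inj (Sum.inl.inj h))
    · exact absurd (Sum.inl.inj h) (by simp)
    · exact absurd (Sum.inl.inj h) (by simp)
    · exact congrArg Sum.inr (Sum.inr.inj (Sum.inl.inj h))

/-- The dimension bound. -/
theorem dim_bound {G : Type} [Group G] [Group.FG G] (hT : TFree G) {k : ℕ} (i₀ : Fin k)
    (H : Fin k → Subgroup G) (hH : ∀ i, Nonempty (H i ≃* Multiplicative (ℤ × ℤ)))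
    (hne : ∀ (i j : Fin k) (g : G), H j = (H i).map (MulAut.conj g).toMonoidHom → i = j)
    (hS : SphereRelHyp G H) :
    ∃ ε : G →* ℤˣ, (∀ i, ∀ g ∈ H i, ε g = 1) ∧
      ∀ (K : Type) [Field K] [IsAlgClosed K] (n : ℕ), n ≠ 0 →
      ∀ (δ : G →* Kˣ) (ρ : G →* Matrix (Fin n) (Fin n) K), (∀ g, (ρ g).det = (δ g : K)) →
      ∀ q ∈ (repIdeal n δ).minimalPrimes, q ≤ RingHom.ker (evP ρ) →
        ((n ^ 2 + k * (n - 1) : ℕ) : WithBot ℕ∞) ≤
          ringKrullDim (MvPolynomial (G × Fin n × Fin n) K ⧸ q) +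
            ((Module.finrank K (YY (sgU ε K) ρ) : ℕ) : ℕ∞) := by
  obtain ⟨Ξ, V, _, _, sm, cusp, hF, ξ, ε, hξ, hst, two, h1, hd, hε, hori⟩ :=
    q1_geo hT i₀ H hH hne hS
  obtain ⟨ι, _, x, a, b, hP⟩ := exists_gens H hH hd
  have hne' : Nonempty Ξ := ⟨ξ i₀⟩
  have hP' : Per x a b fun i => stabilizer G (ξ i) := by
    have e : (fun i => stabilizer G (ξ i)) = H := funext hst
    rw [e]
    exact hP
  refine ⟨ε, hε, ?_⟩
  intro K _ _ n hn δ ρ hδ q hq hqρ
  obtain ⟨z, hz⟩ := hori K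
  refine comp_bound δ hP.top (sgU ε K) _ ?_ ρ hδ q hq hqρ
  intro ρ' hδ'
  obtain ⟨hfin, hth⟩ := star hF hT hz (h1 K) hξ two (by
    intro i p hp
    rw [hst] at hp
    apply Units.ext
    rw [sgU_apply, hε i p hp]
    simp) hP' (adRep ρ')
  rw [Fintype.card_fin] at hth
  have h2 := point_bound hδ' hn hP.top hP.inj hP.comm (sgU_sq ε K) hfin (by
    rw [Fintype.card_fin]
    exact hth)
  rw [Fintype.card_fin] at h2
  exact h2

end Thu
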