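import Pool.Agent.W_04c03c_h58t.WDef
import Pool.Agent.W_04c03c_h10t.CutC

/-!
# The cut bound for tuples of matrices with commuting pairs and filling relations (part of helper10)
-/

namespace Thu

open MvPolynomial

/-- A point of the scheme of the tuples `(X l)` of matrices with `X (a i)`, `X (b i)` commuting and
`X (a i) ^ e i = 1` which is isolated after a cut by `r` equations. -/
theorem cut_fill {K : Type} [Field K] [IsAlgClosed K] {ι κ : Type} [Fintype ι] [Fintype κ] {n : ℕ}
    {a b : κ → ι} (hinj : Function.Injective (Sum.elim a b)) (e : κ → ℕ)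
    (A : ι → Matrix (Fin n) (Fin n) K) (s : Finset (MvPolynomial (ι × Fin n × Fin n) K))
    (h : RingHom.ker (evT A) ∈ (fillIdeal K n a b e ⊔ Ideal.span (s : Set _)).minimalPrimes) :
    Fintype.card ι * n ^ 2 ≤
      (∑ i : κ, if e i = 0 then n ^ 2 - n else n ^ 2) + s.card := by
  classical
  have hbinj : Function.Injective b := fun i j hij => by
    have h1 := @hinj (Sum.inr i) (Sum.inr j) hij
    exact Sum.inr_injective h1
  have hab : ∀ i j, b i ≠ a j := fun i j hij => by
    have h1 := @hinj (Sum.inr i) (Sum.inl j) hij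
    exact absurd h1 (by simp)
  have hgm : ∀ l, (gm K n l).map (evT A) = A l := by
    intro l
    ext u w
    simp [gm, evT]
  have hcomm : ∀ i, A (a i) * A (b i) = A (b i) * A (a i) := by
    intro i
    rw [← sub_eq_zero]
    ext r t
    have h1 : (gm K n (a i) * gm K n (b i) - gm K n (b i) * gm K n (a i)) r t ∈
        RingHom.ker (evT A) := by
      apply h.1.2
      exact Ideal.mem_sup_left (Ideal.subset_span (Or.inl ⟨i, r, t, rfl⟩))
    rw [RingHom.mem_ker] at h1
    have h3 : (gm K n (a i) * gm K n (b i) - gm K n (b i) * gm K n (a i)).map (evT A) =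
        A (a i) * A (b i) - A (b i) * A (a i) := by
      rw [Matrix.map_sub _ (map_sub _), Matrix.map_mul, Matrix.map_mul, hgm, hgm]
    rw [← h3]
    exact h1
  have hpow : ∀ i, A (a i) ^ e i = 1 := by
    intro i
    rw [← sub_eq_zero]
    ext r t
    have h1 : (gm K n (a i) ^ e i - 1) r t ∈ RingHom.ker (evT A) := by
      apply h.1.2
      exact Ideal.mem_sup_left (Ideal.subset_span (Or.inr ⟨i, r, t, rfl⟩))
    rw [RingHom.mem_ker] at h1
    have h4 : (gm K n (a i) ^ e i).map (evT A) = A (a i) ^ e i := by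
      rw [← AlgHom.mapMatrix_apply, map_pow, AlgHom.mapMatrix_apply, hgm]
    have h3 : (gm K n (a i) ^ e i - 1).map (evT A) = A (a i) ^ e i - 1 := by
      rw [Matrix.map_sub _ (map_sub _), h4, Matrix.map_one _ (map_zero _) (map_one _)]
    rw [← h3]
    exact h1
  choose Cm v hC hv using fun i : κ => exists_cyc (A (a i))
  let N : ι → Matrix (Fin n) (Fin n) K := fun l =>
    if hl : ∃ i, b i = l then Cm hl.choose - A l else 0
  have hNb : ∀ i, N (b i) = Cm i - A (b i) := by
    intro i
    have hl : ∃ j, b j = b i := ⟨i, rfl⟩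
    have h1 : hl.choose = i := hbinj hl.choose_spec
    simp only [N]
    rw [dif_pos hl, h1]
  have hNa : ∀ i, N (a i) = 0 := by
    intro i
    have hl : ¬ ∃ j, b j = a i := fun ⟨j, hj⟩ => hab j i hj
    simp only [N]
    rw [dif_neg hl]
  have hcomQ : ∀ q, comC K n a b q ∈ RingHom.ker (eval (lineC A N)) := by
    rintro ⟨i, r, t⟩
    rw [RingHom.mem_ker]
    have h1 : (gC K n (a i) * gC K n (b i) - gC K n (b i) * gC K n (a i)).map
        (eval (lineC A N)) = 0 := by
      rw [Matrix.map_sub _ (map_sub _), Matrix.map_mul, Matrix.map_mul, eval_gC, eval_gC, hNa, hNb,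
        Matrix.map_zero _ (map_zero _), smul_zero, add_zero, Matrix.mul_add, Matrix.add_mul,
        ← Matrix.map_mul, ← Matrix.map_mul, hcomm, Matrix.mul_smul, Matrix.smul_mul,
        ← Matrix.map_mul, ← Matrix.map_mul, Matrix.mul_sub, Matrix.sub_mul, hcomm, hC, sub_self]
    exact congrFun (congrFun h1 r) t
  have hpowQ : ∀ q, powC K n a e q ∈ RingHom.ker (eval (lineC A N)) := by
    rintro ⟨i, r, t⟩
    rw [RingHom.mem_ker]
    have h1 : (gC K n (a i) ^ e i - 1).map (eval (lineC A N)) = 0 := by
      rw [Matrix.map_sub _ (map_sub _), Matrix.map_pow, eval_gC, hNa,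
        Matrix.map_zero _ (map_zero _), smul_zero, add_zero, ← Matrix.map_pow, hpow,
        Matrix.map_one _ (map_zero _) (map_one _), Matrix.map_one _ (map_zero _) (map_one _),
        sub_self]
    exact congrFun (congrFun h1 r) t
  have hprime : (RingHom.ker (eval (lineC A N))).IsPrime := RingHom.ker_isPrime _
  have hI : (Ideal.span (Set.range (comC K n a b)) ⊔ Ideal.span (Set.range (powC K n a e))) ⊔
      Ideal.span (tauC N '' (s : Set _)) ≤ RingHom.ker (eval (lineC A N)) := by
    refine sup_le (sup_le (Ideal.span_le.2 ?_) (Ideal.span_le.2 ?_)) (Ideal.span_le.2 ?_)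
    · rintro _ ⟨q, rfl⟩
      exact hcomQ q
    · rintro _ ⟨q, rfl⟩
      exact hpowQ q
    · rintro _ ⟨p, hp, rfl⟩
      have h1 : p ∈ RingHom.ker (evT A) := h.1.2 (Ideal.mem_sup_right (Ideal.subset_span hp))
      rw [SetLike.mem_coe, RingHom.mem_ker, eval_tau, (RingHom.mem_ker).1 h1, Polynomial.C_0]
  have hmin : RingHom.ker (eval (lineC A N)) ∈
      ((Ideal.span (Set.range (comC K n a b)) ⊔ Ideal.span (Set.range (powC K n a e))) ⊔
        Ideal.span (tauC N '' (s : Set _))).minimalPrimes := by
    refine minimal_of_fibre (zeroC K ι n) zeroC_surj (C Polynomial.X) zeroC_ker _ _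
      (RingHom.ker (evT A)) ?_ hI ?_ ?_
    · rw [Ideal.map_sup, map_fillC, Ideal.map_span, Set.image_image]
      simp only [zeroC_tau, Set.image_id']
      exact h
    · intro f hf
      rw [RingHom.mem_ker] at hf
      rw [Ideal.mem_comap, RingHom.mem_ker, evT_zero A N, hf, Polynomial.eval_zero]
    · intro hX
      rw [RingHom.mem_ker, eval_C] at hX
      exact Polynomial.X_ne_zero hX
  let f1 : κ × Fin (n - 1) × Fin n → MvPolynomial (ι × Fin n × Fin n) (Polynomial K) := fun q =>
    ((gC K n (a q.1) * gC K n (b q.1) ^ ((q.2.1 : ℕ) + 1) -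
      gC K n (b q.1) ^ ((q.2.1 : ℕ) + 1) * gC K n (a q.1)).mulVec
        (C ∘ Polynomial.C ∘ v q.1)) q.2.2
  let f2 : κ × Fin n → MvPolynomial (ι × Fin n × Fin n) (Polynomial K) := fun q =>
    ((gC K n (a q.1) ^ e q.1 - 1).mulVec (C ∘ Polynomial.C ∘ v q.1)) q.2
  let F : Finset (MvPolynomial (ι × Fin n × Fin n) (Polynomial K)) :=
    Finset.univ.image f1 ∪ (((Finset.univ.filter fun i => ¬ e i = 0) ×ˢ Finset.univ).image f2 ∪
      s.image (tauC N))
  have hFcard : F.card ≤ (∑ i : κ, if e i = 0 then n ^ 2 - n else n ^ 2) + s.card := by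
    have h1 : (Finset.univ.image f1).card ≤ Fintype.card κ * (n ^ 2 - n) := by
      refine Finset.card_image_le.trans (le_of_eq ?_)
      rw [Finset.card_univ, Fintype.card_prod, Fintype.card_prod, Fintype.card_fin,
        Fintype.card_fin, Nat.sub_mul, one_mul, sq]
    have h2 : (((Finset.univ.filter fun i => ¬ e i = 0) ×ˢ
        (Finset.univ : Finset (Fin n))).image f2).card ≤
        (Finset.univ.filter fun i => ¬ e i = 0).card * n := by
      refine Finset.card_image_le.trans (le_of_eq ?_)
      rw [Finset.card_product, Finset.card_univ, Fintype.card_fin]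
    have h3 : (∑ i : κ, if e i = 0 then n ^ 2 - n else n ^ 2) =
        Fintype.card κ * (n ^ 2 - n) + (Finset.univ.filter fun i => ¬ e i = 0).card * n := by
      have h4 : ∀ i : κ, (if e i = 0 then n ^ 2 - n else n ^ 2) =
          (n ^ 2 - n) + if ¬ e i = 0 then n else 0 := by
        intro i
        have h5 : n ≤ n ^ 2 := by
          rw [sq]
          exact Nat.le_mul_self n
        split_ifs
        · rfl
        · omega
      rw [Finset.sum_congr rfl fun i _ => h4 i, Finset.sum_add_distrib, Finset.sum_const,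
        Finset.card_univ, smul_eq_mul, ← Finset.sum_filter, Finset.sum_const, smul_eq_mul]
    rw [h3, add_assoc]
    refine (Finset.card_union_le _ _).trans (Nat.add_le_add h1 ?_)
    exact (Finset.card_union_le _ _).trans (Nat.add_le_add h2 Finset.card_image_le)
  have hF1 : Ideal.span (F : Set _) ≤ (Ideal.span (Set.range (comC K n a b)) ⊔
      Ideal.span (Set.range (powC K n a e))) ⊔ Ideal.span (tauC N '' (s : Set _)) := by
    rw [Ideal.span_le]
    intro p hp
    rw [Finset.mem_coe, Finset.mem_union, Finset.mem_union, Finset.mem_image, Finset.mem_image,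
      Finset.mem_image] at hp
    rcases hp with ⟨q, -, rfl⟩ | ⟨q, -, rfl⟩ | ⟨p, hp, rfl⟩
    · refine Ideal.mem_sup_left (Ideal.mem_sup_left (comm_mem _ _ _ _ (fun r t => ?_) _ _))
      exact Ideal.subset_span ⟨(q.1, r, t), rfl⟩
    · refine Ideal.mem_sup_left (Ideal.mem_sup_right (pow_mem_vec _ _ _ (fun r t => ?_) _))
      exact Ideal.subset_span ⟨(q.1, r, t), rfl⟩
    · exact Ideal.mem_sup_right (Ideal.subset_span ⟨p, hp, rfl⟩)
  have hF2 : ∀ q : Ideal (MvPolynomial (ι × Fin n × Fin n) (Polynomial K)), q.IsPrime →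
      Ideal.span (F : Set _) ≤ q → q ≤ RingHom.ker (eval (lineC A N)) →
      (Ideal.span (Set.range (comC K n a b)) ⊔ Ideal.span (Set.range (powC K n a e))) ⊔
        Ideal.span (tauC N '' (s : Set _)) ≤ q := by
    intro q hq hFq hqQ
    have hdet : ∀ i, (kry (gC K n (b i)) (C ∘ Polynomial.C ∘ v i)).det ∉ q := by
      intro i hd
      have h1 := hqQ hd
      rw [RingHom.mem_ker, RingHom.map_det, RingHom.mapMatrix_apply, kry_map, eval_gC,
        hNb] at h1
      have h2 : (eval (lineC A N)) ∘ (C ∘ Polynomial.C ∘ v i) = Polynomial.C ∘ v i := by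
        ext j
        simp
      rw [h2] at h1
      exact kry_line _ _ _ (hv i) h1
    have hcom : ∀ i r t, (gC K n (a i) * gC K n (b i) - gC K n (b i) * gC K n (a i)) r t ∈ q := by
      intro i r t
      refine mem_of_kry q _ _ (C ∘ Polynomial.C ∘ v i) (hdet i) ?_ r t
      intro j hj r
      apply hFq
      apply Ideal.subset_span
      rw [Finset.mem_coe, Finset.mem_union, Finset.mem_image]
      exact Or.inl ⟨(i, ⟨j, by omega⟩, r), Finset.mem_univ _, rfl⟩
    refine sup_le (sup_le (Ideal.span_le.2 ?_) (Ideal.span_le.2 ?_)) (Ideal.span_le.2 ?_)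
    · rintro _ ⟨⟨i, r, t⟩, rfl⟩
      exact hcom i r t
    · rintro _ ⟨⟨i, r, t⟩, rfl⟩
      by_cases he : e i = 0
      · have h1 : powC K n a e (i, r, t) = 0 := by
          simp [powC, he]
        rw [h1]
        exact q.zero_mem
      · refine mem_of_kry_pow q _ _ (C ∘ Polynomial.C ∘ v i) (hdet i) (e i) (hcom i) ?_ r t
        intro r
        apply hFq
        apply Ideal.subset_span
        rw [Finset.mem_coe, Finset.mem_union, Finset.mem_union, Finset.mem_image,
          Finset.mem_image]
        exact Or.inr (Or.inl ⟨(i, r), by simp [he], rfl⟩)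
    · rintro _ ⟨p, hp, rfl⟩
      apply hFq
      apply Ideal.subset_span
      rw [Finset.mem_coe, Finset.mem_union, Finset.mem_union, Finset.mem_image,
        Finset.mem_image, Finset.mem_image]
      exact Or.inr (Or.inr ⟨p, hp, rfl⟩)
  have hminF : RingHom.ker (eval (lineC A N)) ∈ (Ideal.span (F : Set _)).minimalPrimes :=
    ⟨⟨hprime, hF1.trans hI⟩, fun q hq hqQ => hmin.2 ⟨hq.1, hF2 q hq.1 hq.2 hqQ⟩ hqQ⟩
  have h1 := Ideal.height_le_card_of_mem_minimalPrimes_span_finset hminF
  have h2 := (height_eval (lineC A N)).trans h1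
  rw [Nat.cast_le, Fintype.card_prod, Fintype.card_prod, Fintype.card_fin] at h2
  rw [sq n] at hFcard ⊢
  exact h2.trans hFcard

end Thu
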