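import Pool.Agent.W_04c03c_h62i.WB3

/-!
# The number of equations at a representation of a filling
-/

namespace Thu

open MvPolynomial

/-- The free group acts over the local ring.

Proof. The images of the generic matrices in the local ring `O` have invertible determinants (the image under
`ε` of the determinant is `(A l).det ≠ 0`, and an element of `O` which is not in the maximal ideal is a unit), so they
are units of the matrix ring (`Matrix.isUnit_iff_isUnit_det`); `FreeGroup.lift` to the units, then `Units.val`. -/
theorem exists_X {K O ι : Type} [Field K] [CommRing O] [Algebra K O] [IsLocalRing O] {n : ℕ}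
    (ε : O →ₐ[K] K) (φ : MvPolynomial (ι × Fin n × Fin n) K →ₐ[K] O)
    (A : ι → Matrix (Fin n) (Fin n) K) (hA : ∀ l, IsUnit (A l).det)
    (hφ : ∀ p, ε (φ p) = evT A p) :
    ∃ X : FreeGroup ι →* Matrix (Fin n) (Fin n) O,
      ∀ l, X (FreeGroup.of l) = (gm K n l).map φ := by
  exact WB0_X ε φ A hA hφ

/-- Near a representation `ρ` of the filling `Q` the ideal of the representations is generated up to
radical by the commutation and filling relations, and `finrank Th + card ι - (number of the filled cusps)` more
equations.

Proof. Let `A l = ρ (π (x l))`, `m = ker (evT A)` (a prime ideal), `O = Localization.AtPrime m` (a Noetherian local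
`K`-algebra), `φ = algebraMap`, `ε : O →ₐ[K] K` the homomorphism with `ε (φ p) = evT A p` (`IsLocalization.liftAlgHom`; the
elements outside `m` go to units of `K`), `X` from `exists_X`, and
`J₁ = (fillIdeal K n a b e ⊔ span {(gm K n l).det - C (δ (π (x l)))}).map φ`. Then `LocD π x a b e ρ ε X J₁`: `ev`: both
sides are homomorphisms in `f` which agree on the generators; `le`: `ε ∘ φ = evT A` vanishes on `fillIdeal`
(`A (a i), A (b i)` commute by `hab`; `A (a i) ^ e i = 1` by `hker`) and on the determinants (`hδ`); `com`, `fil`: clear; `det`: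
the set of the `f` with this property is closed under products and inverses (work in `O ⧸ J₁`, where
`det (X f)` and the class of `δ (π (lift x f))` are homomorphisms of the free group to the units which agree on the
generators). `exists_eqs` gives `s₀ ⊆ JJ`, `s₀.card ≤ finrank Th`. For `f ∈ s₀` choose a numerator `p f` (`f = φ (p f) / φ d`,
`d ∉ m`: `IsLocalization.mk'_surjective`); `evT A (p f) = 0` as `ε f = 0` (`jj_le`). Let
`s = image p s₀ ∪ {(gm K n l).det - C (δ (π (x l))) | l not of the form a i with e i ≠ 0}`; the number of these `l` is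
`card ι - card {i | e i ≠ 0}` (`a` is injective by `hinj`). Now let `q` be a prime as in the last claim, and `q' = q.map φ`, a
prime ideal of `O` with `q'.comap φ = q` (`IsLocalization`: `q` is disjoint from the complement of `m`;
`IsLocalization.isPrime_of_isPrime_disjoint`, `IsLocalization.comap_map_of_isPrime_disjoint`). `q'` contains `J₁`: the
determinants for `l = a i`, `e i ≠ 0` by `det_fil` (`(A l).det = δ (π (x l))`). It contains `s₀` (`f * φ d = φ (p f) ∈ q'` and
`φ d` is a unit). So it contains `JJ` (`exists_eqs`), and `ker_toRep` for `S = O ⧸ q'`, the composition of `X` with the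
quotient map and `φ' = (quotient map) ∘ φ` gives that the kernel of `toRep` is contained in `ker φ' = q'.comap φ = q`
(`hX`: the entries of `X r - 1` are in `JJ`; `hdet`: `LocD.det`, `hδ`). -/
theorem local_fill {K : Type} [Field K] [IsAlgClosed K] {G Q : Type} [Group G] [Group Q] {π : G →* Q}
    (hπ : Function.Surjective π) {ι κ : Type} [Fintype ι] [Fintype κ]
    {n : ℕ} (δ : Q →* Kˣ) (ρ : Q →* Matrix (Fin n) (Fin n) K) (hδ : ∀ g, (ρ g).det = (δ g : K))
    {x : ι → G} (hx : Subgroup.closure (Set.range x) = ⊤) {a b : κ → ι}
    (hinj : Function.Injective (Sum.elim a b))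
    (hab : ∀ i, x (a i) * x (b i) = x (b i) * x (a i)) (e : κ → ℕ)
    (hker : π.ker = Subgroup.normalClosure (Set.range fun i => x (a i) ^ e i))
    [FiniteDimensional K (Th (adRep (ρ.comp π)) x a b)] :
    ∃ s : Finset (MvPolynomial (ι × Fin n × Fin n) K),
      s.card + (Finset.univ.filter fun i => e i ≠ 0).card ≤
        Module.finrank K (Th (adRep (ρ.comp π)) x a b) + Fintype.card ι ∧
      (∀ f ∈ s, evT (fun l => ρ (π (x l))) f = 0) ∧
      ∀ q : Ideal (MvPolynomial (ι × Fin n × Fin n) K), q.IsPrime →
        q ≤ RingHom.ker (evT fun l => ρ (π (x l))) →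
        fillIdeal K n a b e ⊔ Ideal.span (s : Set _) ≤ q →
        RingHom.ker (toRep (n := n) δ fun l => π (x l)) ≤ q := by
  have hprm : (RingHom.ker (evT fun l => ρ (π (x l)))).IsPrime := RingHom.ker_isPrime _
  obtain ⟨m, hm⟩ : ∃ m : Ideal (MvPolynomial (ι × Fin n × Fin n) K),
    m = RingHom.ker (evT fun l => ρ (π (x l))) := ⟨_, rfl⟩
  have hmp : m.IsPrime := by
    rw [hm]
    exact hprm
  have hu : ∀ y : m.primeCompl, IsUnit (evT (fun l => ρ (π (x l))) (y : _)) := by
    rintro ⟨y, hy⟩
    rw [isUnit_iff_ne_zero]
    intro h0
    apply hy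
    show y ∈ m
    rw [hm]
    exact h0
  have hφ : ∀ p, IsLocalization.liftAlgHom (S := Localization.AtPrime m) hu
      (IsScalarTower.toAlgHom K (MvPolynomial (ι × Fin n × Fin n) K)
        (Localization.AtPrime m) p) = evT (fun l => ρ (π (x l))) p := by
    intro p
    rw [IsLocalization.liftAlgHom_apply]
    exact IsLocalization.lift_eq _ p
  have ha : Function.Injective a := by
    intro i j hij
    exact Sum.inl_injective (hinj hij)
  refine WB3_fill (a := a) (b := b) hπ hδ hx ha hab hker
    (IsLocalization.liftAlgHom (S := Localization.AtPrime m) hu)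
    (IsScalarTower.toAlgHom K (MvPolynomial (ι × Fin n × Fin n) K)
      (Localization.AtPrime m)) hφ ?_ ?_
  · intro f
    obtain ⟨⟨p, d⟩, hpd⟩ := IsLocalization.surj m.primeCompl f
    exact ⟨p, d, IsLocalization.map_units _ d, hpd⟩
  · intro q hq hqm p hp
    rw [← hm] at hqm
    have h1 := Ideal.under_map_of_isLocalizationAtPrime (S := Localization.AtPrime m) m hqm
    rw [← h1]
    exact hp

end Thu
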