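import Pool.Agent.W_04c03c_h58t.WA
import Pool.Agent.W_04c03c_h58t.WB
import Pool.Agent.W_04c03c_h58t.VC0

/-!
# The height of the maximal ideal of a representation of a filling
-/

namespace Thu

open MvPolynomial

/-- The height of the maximal ideal of a representation of a filling (compare `VC1.lean`). -/
theorem height_fill {K : Type} [Field K] [IsAlgClosed K] {G Q : Type} [Group G] [Group Q]
    {π : G →* Q} (hπ : Function.Surjective π) {ι κ : Type} [Fintype ι] [Fintype κ] {n : ℕ}
    {δ : Q →* Kˣ} {ρ : Q →* Matrix (Fin n) (Fin n) K} (hδ : ∀ g, (ρ g).det = (δ g : K))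
    {x : ι → G} (hx : Subgroup.closure (Set.range x) = ⊤)
    {a b : κ → ι} (hinj : Function.Injective (Sum.elim a b))
    (hab : ∀ i, x (a i) * x (b i) = x (b i) * x (a i)) (e : κ → ℕ)
    (hfil : π.ker = Subgroup.normalClosure (Set.range fun i => x (a i) ^ e i))
    [FiniteDimensional K (Th (adRep (ρ.comp π)) x a b)] :
    ((Fintype.card ι * n ^ 2 + (Finset.univ.filter fun i => e i ≠ 0).card : ℕ) : ℕ∞) ≤
      (((∑ i : κ, if e i = 0 then n ^ 2 - n else n ^ 2) +
      (Module.finrank K (Th (adRep (ρ.comp π)) x a b) + Fintype.card ι) : ℕ) : ℕ∞) +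
        (RingHom.ker (evR hδ)).height := by
  classical
  have hx' : Subgroup.closure (Set.range fun l => π (x l)) = ⊤ := by
    have h1 : (Set.range fun l => π (x l)) = π '' Set.range x := by
      rw [← Set.range_comp]
      rfl
    rw [h1, ← MonoidHom.map_closure, hx, ← MonoidHom.range_eq_map]
    exact MonoidHom.range_eq_top.2 hπ
  have hfil1 : ∀ i, π (x (a i)) ^ e i = 1 := by
    intro i
    rw [← map_pow, ← MonoidHom.mem_ker, hfil]
    exact Subgroup.subset_normalClosure ⟨i, rfl⟩
  have hsurj : Function.Surjective (toRep (n := n) δ (fun l => π (x l))) := toRep_surj δ hx'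
  have hN : IsNoetherianRing (MvPolynomial (Q × Fin n × Fin n) K ⧸ repIdeal n δ) :=
    isNoetherianRing_of_surjective _ _ (toRep (n := n) δ (fun l => π (x l))).toRingHom hsurj
  have hm : (RingHom.ker (evR hδ)).IsPrime := RingHom.ker_isPrime _
  obtain ⟨s', hps', hcard⟩ :=
    Ideal.exists_finset_card_eq_height_of_isNoetherianRing (RingHom.ker (evR hδ))
  obtain ⟨s, hs1, hs2, hs3⟩ := local_fill hπ δ ρ hδ hx hinj hab e hfil
  choose g hg using hsurj
  have hker : ∀ f, f ∈ RingHom.ker (evT fun l => ρ (π (x l))) ↔
      toRep (n := n) δ (fun l => π (x l)) f ∈ RingHom.ker (evR hδ) := by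
    intro f
    rw [RingHom.mem_ker, RingHom.mem_ker, evR_toRep]
  have hmin : RingHom.ker (evT fun l => ρ (π (x l))) ∈
      (fillIdeal K n a b e ⊔ Ideal.span ((s ∪ s'.image g : Finset _) : Set _)).minimalPrimes := by
    refine ⟨⟨RingHom.ker_isPrime _, ?_⟩, ?_⟩
    · refine sup_le ?_ ?_
      · rw [fillIdeal, Ideal.span_le]
        have h1 : ∀ l : ι, (gm K n l).map (evT fun l => ρ (π (x l))) = ρ (π (x l)) := by
          intro l
          ext u v
          simp [gm, evT]
        have h2 : ∀ (M : Matrix (Fin n) (Fin n) (MvPolynomial (ι × Fin n × Fin n) K)) (r t : Fin n),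
            (evT fun l => ρ (π (x l))) (M r t) = M.map (evT fun l => ρ (π (x l))) r t :=
          fun M r t => rfl
        rintro p (⟨i, r, t, rfl⟩ | ⟨i, r, t, rfl⟩)
        · rw [SetLike.mem_coe, RingHom.mem_ker, h2, Matrix.map_sub _ (map_sub _), Matrix.map_mul,
            Matrix.map_mul, h1, h1, ← map_mul, ← map_mul, ← map_mul, ← map_mul, hab i, sub_self]
          rfl
        · have h4 : (gm K n (a i) ^ e i).map (evT fun l => ρ (π (x l))) = 1 := by
            have h5 := map_pow (evT fun l => ρ (π (x l))).mapMatrix (gm K n (a i)) (e i)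
            rw [AlgHom.mapMatrix_apply, AlgHom.mapMatrix_apply] at h5
            rw [h5, h1, ← map_pow, hfil1, map_one]
          rw [SetLike.mem_coe, RingHom.mem_ker, h2, Matrix.map_sub _ (map_sub _), h4,
            Matrix.map_one _ (map_zero _) (map_one _), sub_self]
          rfl
      · rw [Ideal.span_le]
        intro f hf
        rw [SetLike.mem_coe]
        rw [Finset.coe_union, Finset.coe_image] at hf
        rcases hf with hf | ⟨u, hu, rfl⟩
        · exact hs2 f hf
        · rw [hker, hg]
          exact hps'.1.2 (Ideal.subset_span hu)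
    · rintro q ⟨hq1, hq2⟩ hqM
      have := hq1
      have hs4 : fillIdeal K n a b e ⊔ Ideal.span (s : Set _) ≤ q := by
        refine le_trans (sup_le_sup_left (Ideal.span_mono ?_) _) hq2
        rw [Finset.coe_union]
        exact Set.subset_union_left
      have hkq := hs3 q hq1 hqM hs4
      have hsurj : Function.Surjective (toRep (n := n) δ (fun l => π (x l))) := toRep_surj δ hx'
      have hq3 : (q.map (toRep (n := n) δ (fun l => π (x l)))).IsPrime :=
        Ideal.map_isPrime_of_surjective hsurj hkq
      have hq4 : Ideal.span (s' : Set _) ≤ q.map (toRep (n := n) δ (fun l => π (x l))) := by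
        rw [Ideal.span_le]
        intro u hu
        rw [SetLike.mem_coe, ← hg u]
        refine Ideal.mem_map_of_mem _ (hq2 (Ideal.mem_sup_right (Ideal.subset_span ?_)))
        rw [Finset.coe_union, Finset.coe_image]
        exact Or.inr ⟨u, hu, rfl⟩
      have hq5 : q.map (toRep (n := n) δ (fun l => π (x l))) ≤ RingHom.ker (evR hδ) := by
        rw [Ideal.map_le_iff_le_comap]
        intro f hf
        rw [Ideal.mem_comap, ← hker]
        exact hqM hf
      have hq6 := hps'.2 ⟨hq3, hq4⟩ hq5
      intro f hf
      have hf1 : toRep (n := n) δ (fun l => π (x l)) f ∈ q.map (toRep (n := n) δ (fun l => π (x l))) := hq6 ((hker f).1 hf)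
      obtain ⟨f', hf', hff'⟩ := (Ideal.mem_map_iff_of_surjective _ hsurj).1 hf1
      have hf2 : f - f' ∈ q := by
        apply hkq
        rw [RingHom.mem_ker, map_sub, hff', sub_self]
      have := q.add_mem hf2 hf'
      rwa [sub_add_cancel] at this
  have h1 := cut_fill hinj e (fun l => ρ (π (x l))) (s ∪ s'.image g) hmin
  have h2 : (s ∪ s'.image g).card + (Finset.univ.filter fun i => e i ≠ 0).card ≤
      (Module.finrank K (Th (adRep (ρ.comp π)) x a b) + Fintype.card ι) + s'.card := by
    have h3 := Finset.card_union_le s (s'.image g)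
    have h4 : (s'.image g).card ≤ s'.card := Finset.card_image_le
    omega
  rw [← hcard]
  have h3 : Fintype.card ι * n ^ 2 + (Finset.univ.filter fun i => e i ≠ 0).card ≤
      ((∑ i : κ, if e i = 0 then n ^ 2 - n else n ^ 2) +
      (Module.finrank K (Th (adRep (ρ.comp π)) x a b) + Fintype.card ι)) + s'.card := by
    omega
  exact_mod_cast h3

end Thu
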