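import Pool.Agent.W_04c03c_h58t.WC
import Pool.Agent.W_04c03c_h58t.VC4

/-!
# The bound at the points of the representation scheme of a filling
-/

namespace Thu

open MvPolynomial

theorem WD_sum {κ : Type} [Fintype κ] (e : κ → ℕ) (A B : ℕ) :
    (∑ i : κ, if e i = 0 then A else B) =
      (Finset.univ.filter fun i => e i = 0).card * A +
        (Finset.univ.filter fun i => e i ≠ 0).card * B := by
  rw [Finset.sum_ite, Finset.sum_const, Finset.sum_const, smul_eq_mul, smul_eq_mul]

theorem WD_card {κ : Type} [Fintype κ] (e : κ → ℕ) :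
    Fintype.card κ = (Finset.univ.filter fun i => e i = 0).card +
      (Finset.univ.filter fun i => e i ≠ 0).card := by
  have h := Finset.card_filter_add_card_filter_not (s := (Finset.univ : Finset κ))
    (fun i => e i = 0)
  rw [Finset.card_univ] at h
  exact h.symm

theorem WD_arith {n u m N T S I Y h : ℕ} (hn : n ≠ 0)
    (h1 : N * n ^ 2 + m ≤ (u * (n ^ 2 - n) + m * n ^ 2) + (T + N) + h) (h2 : S + 1 = n ^ 2)
    (h3 : Y = I + 1) (h4 : T + ((u + m) + 1) * S ≤ N * S + I) : n ^ 2 + u * (n - 1) ≤ h + Y := by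
  obtain ⟨n', rfl⟩ : ∃ n', n = n' + 1 := ⟨n - 1, by omega⟩
  have e1 : (n' + 1) ^ 2 - (n' + 1) = n' * (n' + 1) := by
    have : (n' + 1) ^ 2 = n' * (n' + 1) + (n' + 1) := by ring
    omega
  have e2 : S = n' * (n' + 1) + n' := by
    have : (n' + 1) ^ 2 = n' * (n' + 1) + n' + 1 := by ring
    omega
  rw [e1, ← h2] at h1
  rw [← h2, Nat.add_sub_cancel]
  have e3 : u * S = u * (n' * (n' + 1)) + u * n' := by
    rw [e2]
    ring
  have e4 : ((u + m) + 1) * S = u * S + m * S + S := by ring
  have e5 : N * (S + 1) = N * S + N := by ring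
  have e6 : m * (S + 1) = m * S + m := by ring
  omega

/-- The bound at a point. -/
theorem point_fill {K : Type} [Field K] [IsAlgClosed K] {G Q : Type} [Group G] [Group Q]
    {π : G →* Q} (hπ : Function.Surjective π) {ι κ : Type} [Fintype ι] [Fintype κ] {n : ℕ}
    (hn : n ≠ 0)
    {δ : Q →* Kˣ} {ρ : Q →* Matrix (Fin n) (Fin n) K} (hδ : ∀ g, (ρ g).det = (δ g : K))
    {x : ι → G} (hx : Subgroup.closure (Set.range x) = ⊤)
    {a b : κ → ι} (hinj : Function.Injective (Sum.elim a b))
    (hab : ∀ i, x (a i) * x (b i) = x (b i) * x (a i)) (e : κ → ℕ)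
    (hfil : π.ker = Subgroup.normalClosure (Set.range fun i => x (a i) ^ e i))
    {ω : G →* Kˣ} (hω : ∀ g, ω g * ω g = 1)
    (hfin : FiniteDimensional K (Th (adRep (ρ.comp π)) x a b))
    (hth : Module.finrank K (Th (adRep (ρ.comp π)) x a b) +
      (Fintype.card κ + 1) * Module.finrank K (Sl n K) ≤
      Fintype.card ι * Module.finrank K (Sl n K) +
        Module.finrank K (Inv (dualW ω (adRep (ρ.comp π))))) :
    ((n ^ 2 + (Finset.univ.filter fun i => e i = 0).card * (n - 1) : ℕ) : ℕ∞) ≤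
      (RingHom.ker (evR hδ)).height + (Module.finrank K (YY ω (ρ.comp π)) : ℕ) := by
  have h1 := height_fill hπ hδ hx hinj hab e hfil
  have h2 := finrank_sl (K := K) hn
  have h3 := finrank_yy hω (ρ.comp π) hn
  rcases eq_or_ne (RingHom.ker (evR hδ)).height ⊤ with h | h
  · rw [h, top_add]
    exact le_top
  · obtain ⟨m, hm⟩ := ENat.ne_top_iff_exists.1 h
    rw [← hm] at h1 ⊢
    rw [WD_sum] at h1
    rw [WD_card e] at hth
    norm_cast at h1 ⊢
    exact WD_arith hn h1 h2 h3 hth

end Thu
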