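import Pool.Agent.W_04c03c_h58t.VDef

/-!
# The ideal of the commutation relations and of the filling relations
-/

namespace Thu

open MvPolynomial

/-- The ideal generated by the entries of the commutators of the generic matrices `a i`, `b i` and of
`(a i) ^ (e i) - 1` (nothing if `e i = 0`). -/
noncomputable def fillIdeal (K : Type) [Field K] {ι κ : Type} (n : ℕ) (a b : κ → ι) (e : κ → ℕ) :
    Ideal (MvPolynomial (ι × Fin n × Fin n) K) :=
  Ideal.span {p | (∃ (i : κ) (r s : Fin n),
    p = (gm K n (a i) * gm K n (b i) - gm K n (b i) * gm K n (a i)) r s) ∨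
    ∃ (i : κ) (r s : Fin n), p = (gm K n (a i) ^ e i - 1) r s}

end Thu
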