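import Pool.Agent.W_04c03c_h58t.WV
import Pool.Agent.W_04c03c_h58t.WD
import Pool.Agent.W_04c03c_h58t.XG
import Pool.Agent.W_04c03c_h58t.GE

/-!
# The dimension of the components of the representation schemes of partial fillings
-/

namespace Thu

open RCan Q62 MulAction MvPolynomial

/-- A basis of `ℤ²` adapted to an element.

Proof. Transport to `ℤ × ℤ`. Let `r = (p, q)`. If `r = 0`: the standard basis and `m = 0`. Otherwise `m = gcd p q`,
`p = m p'`, `q = m q'`, Bezout `s p' + t q' = 1`; `x = (p', q')`, `y = (-t, s)`: determinant one, so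
`(u, v) = (s u + t v) x + (p' v - q' u) y`. -/
theorem exists_adapted {H : Type} [Group H] (e : Nonempty (H ≃* Multiplicative (ℤ × ℤ))) (r : H) :
    ∃ (x y : H) (m : ℕ), x * y = y * x ∧ (∀ h : H, ∃ a b : ℤ, h = x ^ a * y ^ b) ∧
      (∀ a b : ℤ, x ^ a * y ^ b = 1 → a = 0 ∧ b = 0) ∧ r = x ^ m ∧ (m = 0 ↔ r = 1) := by
  obtain ⟨e⟩ := e
  obtain ⟨f, hf⟩ : ∃ f : ℤ × ℤ → H, f = fun v => e.symm (Multiplicative.ofAdd v) := ⟨_, rfl⟩
  have hadd : ∀ u v, f (u + v) = f u * f v := by
    intro u v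
    rw [hf]
    show e.symm (Multiplicative.ofAdd (u + v)) = _
    rw [ofAdd_add, map_mul]
  have hpow : ∀ (n : ℤ) v, f (n • v) = f v ^ n := by
    intro n v
    rw [hf]
    show e.symm (Multiplicative.ofAdd (n • v)) = _
    rw [ofAdd_zsmul, map_zpow]
  have hinj : ∀ v, f v = 1 → v = 0 := by
    intro v hv
    rw [hf] at hv
    have h1 := e.symm.map_eq_one_iff.1 hv
    exact Multiplicative.ofAdd.injective h1
  have hsurj : ∀ h, ∃ v, f v = h := fun h => ⟨Multiplicative.toAdd (e h), by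
    rw [hf]
    exact e.symm_apply_apply h⟩
  obtain ⟨⟨p, q⟩, hpq⟩ := hsurj r
  obtain ⟨m, p', q', s, t, hst, hp, hq, hm⟩ : ∃ (m : ℕ) (p' q' s t : ℤ), s * p' + t * q' = 1 ∧
      p = m * p' ∧ q = m * q' ∧ (m = 0 ↔ (p = 0 ∧ q = 0)) := by
    by_cases h0 : p = 0 ∧ q = 0
    · exact ⟨0, 1, 0, 1, 0, by norm_num, by rw [h0.1]; simp, by rw [h0.2]; simp, by simp [h0]⟩
    · have hpos : 0 < Int.gcd p q := by
        rw [Int.gcd_pos_iff]
        by_contra h
        push Not at h
        exact h0 ⟨h.1, h.2⟩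
      obtain ⟨p', q', h1, h2, h3⟩ := Int.exists_gcd_one hpos
      refine ⟨Int.gcd p q, p', q', Int.gcdA p' q', Int.gcdB p' q', ?_, ?_, ?_, ?_⟩
      · have h4 := Int.gcd_eq_gcd_ab p' q'
        rw [h1] at h4
        push_cast at h4
        linarith
      · rw [mul_comm]
        exact h2
      · rw [mul_comm]
        exact h3
      · constructor
        · intro h
          omega
        · intro h
          exact absurd h h0
  have key : ∀ a b : ℤ, f (p', q') ^ a * f (-t, s) ^ b = f (a * p' - b * t, a * q' + b * s) := by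
    intro a b
    rw [← hpow, ← hpow, ← hadd]
    congr 1
    ext
    · simp
      ring
    · simp
  refine ⟨f (p', q'), f (-t, s), m, ?_, ?_, ?_, ?_, ?_⟩
  · rw [← hadd, ← hadd, add_comm]
  · intro h
    obtain ⟨⟨u, v⟩, rfl⟩ := hsurj h
    refine ⟨s * u + t * v, p' * v - q' * u, ?_⟩
    rw [key]
    congr 1
    ext
    · linear_combination (-u) * hst
    · linear_combination (-v) * hst
  · intro a b hab
    rw [key] at hab
    have h1 := hinj _ hab
    have h2 : a * p' - b * t = 0 := congrArg Prod.fst h1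
    have h3 : a * q' + b * s = 0 := congrArg Prod.snd h1
    constructor
    · linear_combination s * h2 + t * h3 - a * hst
    · linear_combination p' * h3 - q' * h2 - b * hst
  · have h1 := hpow m (p', q')
    rw [zpow_natCast] at h1
    rw [← h1, ← hpq, hp, hq]
    congr 1
  · rw [hm, ← hpq]
    constructor
    · rintro ⟨rfl, rfl⟩
      have h1 := hpow 0 (0, 0)
      rw [zero_smul, zpow_zero] at h1
      exact h1
    · intro h
      have h1 := hinj _ h
      exact ⟨congrArg Prod.fst h1, congrArg Prod.snd h1⟩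

/-- generators of the group which contain adapted bases of the cusp groups -/
theorem exists_gens_fill {G : Type} [Group G] [hfg : Group.FG G] {k : ℕ} (H : Fin k → Subgroup G)
    (hH : ∀ i, Nonempty (H i ≃* Multiplicative (ℤ × ℤ))) (hd : ∀ i j, i ≠ j → H i ⊓ H j = ⊥)
    (R : Fin k → G) (hR : ∀ i, R i ∈ H i) :
    ∃ (ι : Type) (_ : Fintype ι) (x : ι → G) (a b : Fin k → ι) (m : Fin k → ℕ), Per x a b H ∧
      (∀ i, R i = x (a i) ^ m i) ∧ ∀ i, m i = 0 ↔ R i = 1 := by
  choose x y m hxy hgen hind hm hm0 using fun i => exists_adapted (hH i) ⟨R i, hR i⟩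
  obtain ⟨S, hS⟩ := hfg.out
  refine ⟨(Fin k ⊕ Fin k) ⊕ S, inferInstance,
    Sum.elim (Sum.elim (fun i => (x i : G)) fun i => (y i : G)) Subtype.val,
    fun i => Sum.inl (Sum.inl i), fun i => Sum.inl (Sum.inr i), m, ⟨?_, ?_, ?_, ?_, hd, ?_⟩, ?_, ?_⟩
  · rw [eq_top_iff, ← hS]
    refine Subgroup.closure_mono ?_
    intro g hg
    exact ⟨Sum.inr ⟨g, hg⟩, rfl⟩
  · intro i
    show H i = Subgroup.closure {(x i : G), (y i : G)}
    refine le_antisymm ?_ ?_
    · intro g hg
      obtain ⟨m, n, h⟩ := hgen i ⟨g, hg⟩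
      have h1 : g = (x i : G) ^ m * (y i : G) ^ n := congrArg Subtype.val h
      rw [h1]
      exact mul_mem (zpow_mem (Subgroup.subset_closure (by simp)) m)
        (zpow_mem (Subgroup.subset_closure (by simp)) n)
    · rw [Subgroup.closure_le]
      rintro g (rfl | rfl)
      · exact (x i).2
      · exact (y i).2
  · intro i
    exact congrArg Subtype.val (hxy i)
  · intro i m n h
    exact hind i m n (Subtype.ext h)
  · rintro (i | i) (j | j) h
    · exact congrArg Sum.inl (Sum.inl.inj (Sum.inl.inj h))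
    · exact absurd (Sum.inl.inj h) (by simp)
    · exact absurd (Sum.inl.inj h) (by simp)
    · exact congrArg Sum.inr (Sum.inr.inj (Sum.inl.inj h))
  · intro i
    exact congrArg Subtype.val (hm i)
  · intro i
    rw [hm0 i, Subtype.ext_iff]
    rfl

/-- The space `YY` of a representation of a quotient. -/
theorem yy_comp {K : Type} [Field K] {G Q : Type} [Group G] [Group Q] {π : G →* Q}
    (hπ : Function.Surjective π) {n : ℕ} (ω : Q →* Kˣ) (ρ : Q →* Matrix (Fin n) (Fin n) K) :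
    YY (ω.comp π) (ρ.comp π) = YY ω ρ := by
  ext Y
  constructor
  · intro h q
    obtain ⟨g, rfl⟩ := hπ q
    obtain ⟨c, hc⟩ := h g
    refine ⟨c, ?_⟩
    rw [← hc]
    simp
  · intro h g
    obtain ⟨c, hc⟩ := h (π g)
    refine ⟨c, ?_⟩
    rw [← hc]
    simp

/-- The dimension bound for partial fillings. -/
theorem dim_fill {G : Type} [Group G] [Group.FG G] (hT : TFree G) {k : ℕ} (i₀ : Fin k)
    (H : Fin k → Subgroup G) (hH : ∀ i, Nonempty (H i ≃* Multiplicative (ℤ × ℤ)))
    (hne : ∀ (i j : Fin k) (g : G), H j = (H i).map (MulAut.conj g).toMonoidHom → i = j)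
    (hS : SphereRelHyp G H) :
    ∃ ε : G →* ℤˣ, (∀ i, ∀ g ∈ H i, ε g = 1) ∧
      ∀ (Q : Type) [Group Q] (π : G →* Q), Function.Surjective π →
      ∀ R : Fin k → G, (∀ i, R i ∈ H i) → π.ker = Subgroup.normalClosure (Set.range R) →
      ∀ (K : Type) [Field K] [IsAlgClosed K] (n : ℕ), n ≠ 0 →
      ∀ (δ : Q →* Kˣ) (ρ : Q →* Matrix (Fin n) (Fin n) K), (∀ g, (ρ g).det = (δ g : K)) →
      ∀ q ∈ (repIdeal n δ).minimalPrimes, q ≤ RingHom.ker (evP ρ) →
        ((n ^ 2 + Nat.card {i // R i = 1} * (n - 1) : ℕ) : WithBot ℕ∞) ≤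
          ringKrullDim (MvPolynomial (Q × Fin n × Fin n) K ⧸ q) +
            ((Module.finrank K (YY (sgU ε K) (ρ.comp π)) : ℕ) : ℕ∞) := by
  classical
  obtain ⟨Ξ, V, _, _, sm, cusp, hF, ξ, ε, hξ, hst, two, h1, hd, hε, hori⟩ :=
    q1_geo hT i₀ H hH hne hS
  have hne' : Nonempty Ξ := ⟨ξ i₀⟩
  refine ⟨ε, hε, ?_⟩
  intro Q _ π hπ R hR hker K _ _ n hn δ ρ hδ q hq hqρ
  obtain ⟨ι, _, x, a, b, m, hP, hRm, hm0⟩ := exists_gens_fill H hH hd R hR
  have hP' : Per x a b fun i => stabilizer G (ξ i) := by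
    have e : (fun i => stabilizer G (ξ i)) = H := funext hst
    rw [e]
    exact hP
  have hker' : π.ker = Subgroup.normalClosure (Set.range fun i => x (a i) ^ m i) := by
    rw [hker]
    congr 2
    exact funext hRm
  obtain ⟨z, hz⟩ := hori K
  -- the character of the quotient
  have hkε : π.ker ≤ (sgU ε K).ker := by
    rw [hker]
    refine Subgroup.normalClosure_le_normal ?_
    rintro _ ⟨i, rfl⟩
    rw [SetLike.mem_coe, MonoidHom.mem_ker]
    apply Units.ext
    rw [sgU_apply, hε i _ (hR i)]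
    simp
  obtain ⟨ω, hω⟩ : ∃ ω : Q →* Kˣ, ω.comp π = sgU ε K := by
    refine ⟨(π.liftOfSurjective hπ) ⟨sgU ε K, hkε⟩, ?_⟩
    exact MonoidHom.liftOfRightInverse_comp _ _ _ _
  have hx' : Subgroup.closure (Set.range fun l => π (x l)) = ⊤ := by
    have h1 : (Set.range fun l => π (x l)) = π '' Set.range x := by
      rw [← Set.range_comp]
      rfl
    rw [h1, ← MonoidHom.map_closure, hP.top, ← MonoidHom.range_eq_map]
    exact MonoidHom.range_eq_top.2 hπ
  rw [← hω, yy_comp hπ]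
  refine comp_bound δ hx' ω _ ?_ ρ hδ q hq hqρ
  intro ρ' hδ'
  obtain ⟨hfin, hth⟩ := star hF hT hz (h1 K) hξ two (by
    intro i p hp
    rw [hst] at hp
    apply Units.ext
    rw [sgU_apply, hε i p hp]
    simp) hP' (adRep (ρ'.comp π))
  have h2 := point_fill hπ hn hδ' hP.top hP.inj hP.comm m hker' (sgU_sq ε K) hfin hth
  rw [← hω, yy_comp hπ] at h2
  have h3 : Nat.card {i // R i = 1} = (Finset.univ.filter fun i => m i = 0).card := by
    rw [Nat.card_eq_fintype_card, Fintype.card_subtype]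
    congr 1
    ext i
    simp [hm0 i]
  rw [h3]
  exact h2

end Thu
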