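import Pool.Agent.W_04c03c_h58t.VDef

/-!
# The space `YY` of an irreducible representation
-/

namespace Thu

section

variable {K : Type} [Field K] {G : Type} [Group G] {n : ℕ}

/-- irreducible representations by matrices -/
def Irr (ρ : G →* Matrix (Fin n) (Fin n) K) : Prop :=
  ∀ W : Submodule K (Fin n → K), (∀ g, ∀ v ∈ W, (ρ g).mulVec v ∈ W) → W = ⊥ ∨ W = ⊤

/-- The representation is not isomorphic to its twist by `ω`, unless `ω` is trivial. -/
def NoTwist (ω : G →* Kˣ) (ρ : G →* Matrix (Fin n) (Fin n) K) : Prop :=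
  ∀ Y : Matrix (Fin n) (Fin n) K, IsUnit Y → (∀ g, ρ g * Y = (ω g : K) • (Y * ρ g)) → ω = 1

/-- An intertwiner of an irreducible representation and its twist is zero or invertible. -/
theorem WI_unit (ω : G →* Kˣ) {ρ : G →* Matrix (Fin n) (Fin n) K} (hρ : Irr ρ)
    {Y : Matrix (Fin n) (Fin n) K} (hY : ∀ g, ρ g * Y = (ω g : K) • (Y * ρ g)) :
    Y = 0 ∨ IsUnit Y := by
  have h1 := hρ (LinearMap.ker Y.mulVecLin) (by
    intro g v hv
    rw [LinearMap.mem_ker, Matrix.mulVecLin_apply] at hv ⊢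
    have h2 : ((ω g : Kˣ) : K) • (Y * ρ g).mulVec v = 0 := by
      rw [← Matrix.smul_mulVec, ← hY, ← Matrix.mulVec_mulVec, hv, Matrix.mulVec_zero]
    have h3 := (smul_eq_zero.1 h2).resolve_left (ω g).ne_zero
    rw [Matrix.mulVec_mulVec]
    exact h3)
  rcases h1 with h1 | h1
  · right
    rw [← Matrix.mulVec_injective_iff_isUnit]
    exact LinearMap.ker_eq_bot.1 h1
  · left
    have h2 : Y.mulVecLin = 0 := LinearMap.ker_eq_top.1 h1
    ext i j
    have h3 := congrFun (LinearMap.congr_fun h2 (Pi.single j 1)) i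
    simpa using h3

/-- Schur's lemma. -/
theorem WI_schur [IsAlgClosed K] (hn : n ≠ 0) {ρ : G →* Matrix (Fin n) (Fin n) K} (hρ : Irr ρ)
    {Y : Matrix (Fin n) (Fin n) K} (hY : ∀ g, ρ g * Y = Y * ρ g) : ∃ c : K, Y = c • 1 := by
  have hne : Nonempty (Fin n) := ⟨⟨0, Nat.pos_of_ne_zero hn⟩⟩
  obtain ⟨c, hc⟩ := Module.End.exists_eigenvalue (Matrix.toLin' Y)
  refine ⟨c, ?_⟩
  have h1 : ∀ g, ρ g * (Y - c • 1) = ((1 : G →* Kˣ) g : K) • ((Y - c • 1) * ρ g) := by
    intro g
    rw [MonoidHom.one_apply, Units.val_one, one_smul, mul_sub, sub_mul, hY]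
    simp
  rcases WI_unit 1 hρ h1 with h2 | h2
  · exact sub_eq_zero.1 h2
  · exfalso
    obtain ⟨v, hv⟩ := hc.exists_hasEigenvector
    have h3 := (Module.End.mem_eigenspace_iff.1 hv.1)
    rw [Matrix.toLin'_apply] at h3
    have h4 : (Y - c • 1).mulVec v = 0 := by
      rw [Matrix.sub_mulVec, h3, Matrix.smul_mulVec, Matrix.one_mulVec, sub_self]
    have h5 := (Matrix.mulVec_injective_iff_isUnit.2 h2) (h4.trans (Matrix.mulVec_zero _).symm)
    exact hv.2 h5

/-- For irreducible representations `YY` is the space of the scalar matrices. -/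
theorem yy_irr [IsAlgClosed K] (hn : (n : K) ≠ 0) {ω : G →* Kˣ}
    {ρ : G →* Matrix (Fin n) (Fin n) K} (hρ : Irr ρ) (hω : NoTwist ω ρ) :
    Module.finrank K (YY ω ρ) = 1 := by
  have hn0 : n ≠ 0 := by
    rintro rfl
    exact hn Nat.cast_zero
  have hne : Nonempty (Fin n) := ⟨⟨0, Nat.pos_of_ne_zero hn0⟩⟩
  have hinv : ∀ g, ρ g⁻¹ * ρ g = 1 := fun g => by rw [← map_mul, inv_mul_cancel, map_one]
  have hinv' : ∀ g, ρ g * ρ g⁻¹ = 1 := fun g => by rw [← map_mul, mul_inv_cancel, map_one]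
  have key : ∀ Y ∈ YY ω ρ, ∃ c : K, Y = c • 1 := by
    intro Y hY
    refine ⟨(n : K)⁻¹ * Y.trace, ?_⟩
    rw [← sub_eq_zero]
    obtain ⟨Z, hZ⟩ : ∃ Z, Z = Y - ((n : K)⁻¹ * Y.trace) • (1 : Matrix (Fin n) (Fin n) K) := ⟨_, rfl⟩
    rw [← hZ]
    have htr : Z.trace = 0 := by
      rw [hZ, Matrix.trace_sub, Matrix.trace_smul, Matrix.trace_one, Fintype.card_fin, smul_eq_mul]
      field_simp
      ring
    have hZ1 : ∀ g, ρ g * Z = (ω g : K) • (Z * ρ g) := by
      intro g
      obtain ⟨c, hc⟩ := hY g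
      have h1 : ρ g * Z * ρ g⁻¹ - (ω g : K) • Z =
          (c - (1 - (ω g : K)) * ((n : K)⁻¹ * Y.trace)) • 1 := by
        rw [hZ, mul_sub, sub_mul, smul_sub, Matrix.mul_smul, Matrix.smul_mul, mul_one, hinv',
          sub_smul, ← hc, smul_smul, sub_mul, one_mul, sub_smul]
        abel
      have h2 : (n : K) * (c - (1 - (ω g : K)) * ((n : K)⁻¹ * Y.trace)) = 0 := by
        have h3 := congrArg Matrix.trace h1
        rw [Matrix.trace_sub, Matrix.trace_smul, Matrix.trace_smul, htr, Matrix.trace_mul_cycle,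
          hinv, one_mul, htr, Matrix.trace_one, Fintype.card_fin, smul_zero, sub_zero,
          smul_eq_mul] at h3
        rw [mul_comm]
        exact h3.symm
      rw [(mul_eq_zero.1 h2).resolve_left hn, zero_smul, sub_eq_zero] at h1
      calc ρ g * Z = ρ g * Z * (ρ g⁻¹ * ρ g) := by rw [hinv, mul_one]
        _ = (ρ g * Z * ρ g⁻¹) * ρ g := by rw [mul_assoc, mul_assoc, mul_assoc]
        _ = _ := by rw [h1, Matrix.smul_mul]
    rcases WI_unit ω hρ hZ1 with h4 | h4
    · exact h4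
    · have h5 := hω Z h4 hZ1
      rw [h5] at hZ1
      obtain ⟨c, hc⟩ := WI_schur hn0 hρ (Y := Z) (fun g => by
        have h6 := hZ1 g
        rw [MonoidHom.one_apply, Units.val_one, one_smul] at h6
        exact h6)
      rw [hc, Matrix.trace_smul, Matrix.trace_one, Fintype.card_fin, smul_eq_mul] at htr
      rw [hc, (mul_eq_zero.1 htr).resolve_right hn, zero_smul]
  have h1 : YY ω ρ = Submodule.span K {(1 : Matrix (Fin n) (Fin n) K)} := by
    apply le_antisymm
    · intro Y hY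
      obtain ⟨c, rfl⟩ := key Y hY
      exact Submodule.smul_mem _ _ (Submodule.mem_span_singleton_self _)
    · rw [Submodule.span_singleton_le_iff_mem]
      intro g
      refine ⟨1 - (ω g : K), ?_⟩
      rw [mul_one, hinv', sub_smul, one_smul]
  rw [h1]
  exact finrank_span_singleton one_ne_zero

end

end Thu
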