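import Pool.Agent.W_04c03c_h58t.WE
import Pool.Agent.W_04c03c_h58t.WI

/-!
# The bound for irreducible representations
-/

namespace Thu

theorem WF_irr {K : Type} [Field K] {G Q : Type} [Group G] [Group Q] {π : G →* Q}
    (hπ : Function.Surjective π) {n : ℕ} {ρ : Q →* Matrix (Fin n) (Fin n) K} (h : Irr ρ) :
    Irr (ρ.comp π) := by
  intro W hW
  refine h W fun q v hv => ?_
  obtain ⟨g, rfl⟩ := hπ q
  exact hW g v hv

theorem WF_arith {n u : ℕ} (hn : 0 < n) {d : WithBot ℕ∞}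
    (h : ((n ^ 2 + u : ℕ) : WithBot ℕ∞) ≤ d + ((1 : ℕ) : ℕ∞)) :
    ((n ^ 2 - 1 + u : ℕ) : WithBot ℕ∞) ≤ d := by
  obtain ⟨m, hm⟩ : ∃ m, n ^ 2 = m + 1 := ⟨n ^ 2 - 1, by
    have := Nat.pow_pos (n := 2) hn
    omega⟩
  rw [hm, Nat.add_sub_cancel]
  rw [hm] at h
  induction d using WithBot.recBotCoe with
  | bot =>
    rw [WithBot.bot_add] at h
    exact absurd (le_bot_iff.1 h) (WithBot.natCast_ne_bot _)
  | coe d =>
    have h1 : ((m + 1 + u : ℕ) : ℕ∞) ≤ d + 1 := by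
      have h2 : (((m + 1 + u : ℕ) : ℕ∞) : WithBot ℕ∞) ≤ ((d + ((1 : ℕ) : ℕ∞) : ℕ∞) : WithBot ℕ∞) := by
        rw [WithBot.coe_add]
        exact h
      have h3 := WithBot.coe_le_coe.1 h2
      simpa using h3
    have h4 : ((m + u : ℕ) : ℕ∞) ≤ d := by
      have h5 : ((m + 1 + u : ℕ) : ℕ∞) = ((m + u : ℕ) : ℕ∞) + 1 := by
        push_cast
        ring
      rw [h5] at h1
      exact (ENat.add_le_add_iff_right ENat.one_ne_top).1 h1
    exact WithBot.coe_le_coe.2 h4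

end Thu
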