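import Pool.Agent.W_04c03c_h58t.VC2
import Pool.Agent.W_04c03c_h58t.VC3

/-!
# From the heights of the points to the components
-/

namespace Thu

open MvPolynomial

section

variable {K : Type} [Field K] {G : Type} [Group G] {n : ℕ}

theorem WV_point {δ : G →* Kˣ} {ρ ρ' : G →* Matrix (Fin n) (Fin n) K}
    (hδ : ∀ g, (ρ g).det = (δ g : K)) (hδ' : ∀ g, (ρ' g).det = (δ g : K))
    (h : evR hδ = evR hδ') : ρ = ρ' := by
  ext g i j
  have h1 := DFunLike.congr_fun h (Ideal.Quotient.mk _ (X (g, i, j)))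
  have h2 : ∀ {ρ : G →* Matrix (Fin n) (Fin n) K} (hδ : ∀ g, (ρ g).det = (δ g : K)),
      evR hδ (Ideal.Quotient.mk _ (X (g, i, j))) = ρ g i j := by
    intro ρ hδ
    show evP ρ (X (g, i, j)) = _
    unfold evP
    rw [aeval_X]
  rw [h2, h2] at h1
  exact h1

/-- The bound for the components from the bound for the heights of the points. -/
theorem comp_bound [IsAlgClosed K] {ι : Type} [Finite ι] (δ : G →* Kˣ) {x : ι → G}
    (hx : Subgroup.closure (Set.range x) = ⊤) (ω : G →* Kˣ) (N : ℕ)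
    (hN : ∀ (ρ : G →* Matrix (Fin n) (Fin n) K) (hδ : ∀ g, (ρ g).det = (δ g : K)),
      (N : ℕ∞) ≤ (RingHom.ker (evR hδ)).height + (Module.finrank K (YY ω ρ) : ℕ))
    (ρ : G →* Matrix (Fin n) (Fin n) K) (hδ : ∀ g, (ρ g).det = (δ g : K))
    (q : Ideal (MvPolynomial (G × Fin n × Fin n) K)) (hq : q ∈ (repIdeal n δ).minimalPrimes)
    (hqρ : q ≤ RingHom.ker (evP ρ)) :
    (N : WithBot ℕ∞) ≤ ringKrullDim (MvPolynomial (G × Fin n × Fin n) K ⧸ q) +
      ((Module.finrank K (YY ω ρ) : ℕ) : ℕ∞) := by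
  have hfin : Algebra.FiniteType K (MvPolynomial (G × Fin n × Fin n) K ⧸ repIdeal n δ) :=
    Algebra.FiniteType.of_surjective (toRep (n := n) δ x) (toRep_surj δ hx)
  rw [Ideal.minimalPrimes_eq_comap] at hq
  obtain ⟨q', hq', rfl⟩ := hq
  choose P hP hP' using exists_rep (K := K) (n := n) δ
  obtain ⟨y, hy⟩ : ∃ y : ((MvPolynomial (G × Fin n × Fin n) K ⧸ repIdeal n δ) →ₐ[K] K) → ℕ,
      ∀ ψ, y ψ = Module.finrank K (YY ω (P ψ)) := ⟨_, fun _ => rfl⟩
  have hyρ : ∀ (ρ : G →* Matrix (Fin n) (Fin n) K) (hδ : ∀ g, (ρ g).det = (δ g : K)),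
      y (evR hδ) = Module.finrank K (YY ω ρ) := by
    intro ρ hδ
    rw [hy, WV_point _ hδ (hP' (evR hδ))]
  have h1 : q' ≤ RingHom.ker (evR hδ) := by
    intro r hr
    obtain ⟨p, rfl⟩ := Ideal.Quotient.mk_surjective r
    exact hqρ hr
  obtain ⟨p, hp, hp'⟩ := yy_semi ω hδ
  have h2 := comp_of_points hq' (evR hδ) h1 y N
    ⟨p, hp, fun ψ hψ => by
      have h3 := hp' (P ψ) (hP ψ) (by rw [hP' ψ]; exact hψ)
      rw [hyρ, hy]
      exact h3⟩
    (fun ψ => by
      have h3 := hN (P ψ) (hP ψ)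
      rw [hP' ψ] at h3
      rw [hy]
      exact h3)
  rw [hyρ] at h2
  have h4 : ringKrullDim ((MvPolynomial (G × Fin n × Fin n) K ⧸ repIdeal n δ) ⧸ q') =
      ringKrullDim (MvPolynomial (G × Fin n × Fin n) K ⧸
        Ideal.comap (Ideal.Quotient.mk (repIdeal n δ)) q') := by
    have h5 : repIdeal n δ ≤ Ideal.comap (Ideal.Quotient.mk (repIdeal n δ)) q' := by
      intro r hr
      rw [Ideal.mem_comap, Ideal.Quotient.eq_zero_iff_mem.2 hr]
      exact q'.zero_mem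
    rw [← ringKrullDim_eq_of_ringEquiv (DoubleQuot.quotQuotEquivQuotOfLE h5),
      Ideal.map_comap_of_surjective _ Ideal.Quotient.mk_surjective]
  rw [← h4]
  exact h2

end

end Thu
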