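import Pool.Agent.W_04c03c_h58t.XDef
import Pool.Agent.W_04c03c_h58t.DH
import Pool.Agent.W_04c03c_h62i.JB

/-!
# Duality for one-dimensional coefficients (part of helper62)
-/

namespace Thu

open RCan MulAction

section

variable {G Ξ V : Type} [Group G] [MulAction G Ξ] [MulAction G V] {sm : V → V → Prop}
  {cusp : V → Option Ξ} {K : Type} [Field K]

/-- `H² (G, Ξ; χ)` is dual to `H¹ (G; χ⁻¹ ω)`. -/
theorem xi_dual (hF : Face G Ξ V sm cusp) (hT : TFree G) [Group.FG G] {ω : G →* Kˣ}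
    {z : DSub sm cusp K 3} (hz : Ori hF ω z) (χ : G →* Kˣ) :
    Module.finrank K (LinearMap.ker (crQ (sm := sm) (cusp := cusp) hF (charRep χ) 2)) +
        Module.finrank K (Q62.Prin (χ⁻¹ * ω)) =
      Module.finrank K (LinearMap.range (crQ (sm := sm) (cusp := cusp) hF (charRep χ) 1)) +
        Module.finrank K (Q62.XHom (χ⁻¹ * ω)) := by
  obtain ⟨d, hd⟩ := exists_dims hF hT K ω
  have h1 : FiniteDimensional K (EQE sm cusp (charRep χ) 2) := (hd 2 K (charRep χ)).1
  have h2 : FiniteDimensional K (EQf sm cusp χ 2) := Module.Finite.equiv (eqI hF χ 2)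
  rw [eqI_ker, eqI_range]
  exact Q62.dual_count (face_toW hF) hT χ ω hz.sq z (ori_zz hz) (ori_gen hz)
    (fun ⟨e, he⟩ => hz.nv e he) (ori_tw hz) h2 (Q62.XHom_fd _)

end

end Thu
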