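import Pool.Agent.W_04c03c_h62i.IK
import Pool.Agent.W_04c03c_h62i.IO
import Pool.Agent.W_04c03c_h62i.JB

/-!
# Isotropy of the boundary values for one-dimensional coefficients (part of helper62)
-/

namespace Thu

open RCan MulAction

section

variable {G Ξ V : Type} [Group G] [MulAction G Ξ] [MulAction G V] {sm : V → V → Prop}
  {cusp : V → Option Ξ} {K : Type} [Field K]

/-- the values at the basis elements of the cusps -/
def XC_ev (χ : G →* Kˣ) {κ : Type} (x y : κ → G) : Q62.XHom χ →ₗ[K] (κ → K × K) where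
  toFun d i := (d.1 (x i), d.1 (y i))
  map_add' _ _ := rfl
  map_smul' _ _ := rfl

theorem XC_rank [Group.FG G] (χ : G →* Kˣ) {κ : Type} {P : κ → Subgroup G} {x y : κ → G}
    (hxy : Tori P x y) :
    Module.finrank K (LinearMap.range (XC_ev χ x y)) + Module.finrank K (XRel χ P) =
      Module.finrank K (Q62.XHom χ) := by
  have hfd : FiniteDimensional K (Q62.XHom χ) := Q62.XHom_fd χ
  have h1 := LinearMap.finrank_range_add_finrank_ker (XC_ev χ x y)
  have hle : XRel χ P ≤ Q62.XHom χ := fun d hd => hd.1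
  have h2 : LinearMap.ker (XC_ev χ x y) = (XRel χ P).comap (Q62.XHom χ).subtype := by
    ext d
    rw [LinearMap.mem_ker, Submodule.mem_comap]
    constructor
    · intro hd
      refine ⟨d.2, fun i p hp => ?_⟩
      rw [hxy.gen i] at hp
      refine Q62.XHom_zero_of_gen d.2 ?_ p hp
      intro s hs
      have h3 := congrFun hd i
      rcases hs with rfl | hs
      · exact congrArg Prod.fst h3
      · rw [Set.mem_singleton_iff.1 hs]
        exact congrArg Prod.snd h3
    · rintro ⟨-, hd⟩
      funext i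
      have hx : x i ∈ P i := by
        rw [hxy.gen i]
        exact Subgroup.subset_closure (by simp)
      have hy : y i ∈ P i := by
        rw [hxy.gen i]
        exact Subgroup.subset_closure (by simp)
      exact Prod.ext (hd i _ hx) (hd i _ hy)
  rw [h2, (Submodule.comapSubtypeEquivOfLe hle).finrank_eq] at h1
  exact h1

theorem XC_gen {P : Subgroup G} {x y : G} (h : P = Subgroup.closure {x, y}) (hx : x ∈ P)
    (hy : y ∈ P) : Subgroup.closure {(⟨x, hx⟩ : P), ⟨y, hy⟩} = ⊤ := by
  apply Subgroup.map_injective P.subtype_injective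
  rw [MonoidHom.map_closure, Set.image_pair, ← MonoidHom.range_eq_map, Subgroup.range_subtype]
  exact h.symm

/-- the symplectic form -/
noncomputable def XC_S {κ : Type} [Fintype κ] (t : κ → K) :
    (κ → K × K) →ₗ[K] (κ → K × K) →ₗ[K] K :=
  LinearMap.mk₂ K (fun u v => ∑ i, t i * ((u i).1 * (v i).2 - (u i).2 * (v i).1))
    (fun u u' v => by
      rw [← Finset.sum_add_distrib]
      refine Finset.sum_congr rfl fun i _ => ?_
      rw [Pi.add_apply, Prod.fst_add, Prod.snd_add]
      ring)
    (fun c u v => by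
      rw [smul_eq_mul, Finset.mul_sum]
      refine Finset.sum_congr rfl fun i _ => ?_
      rw [Pi.smul_apply, Prod.smul_fst, Prod.smul_snd, smul_eq_mul, smul_eq_mul]
      ring)
    (fun u v v' => by
      rw [← Finset.sum_add_distrib]
      refine Finset.sum_congr rfl fun i _ => ?_
      rw [Pi.add_apply, Prod.fst_add, Prod.snd_add]
      ring)
    (fun c u v => by
      rw [smul_eq_mul, Finset.mul_sum]
      refine Finset.sum_congr rfl fun i _ => ?_
      rw [Pi.smul_apply, Prod.smul_fst, Prod.smul_snd, smul_eq_mul, smul_eq_mul]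
      ring)

theorem XC_S_apply {κ : Type} [Fintype κ] (t : κ → K) (u v : κ → K × K) :
    XC_S t u v = ∑ i, t i * ((u i).1 * (v i).2 - (u i).2 * (v i).1) := rfl

theorem XC_nd {κ : Type} [Fintype κ] {t : κ → K} (ht : ∀ i, t i ≠ 0) (w : κ → K × K)
    (h : ∀ u, XC_S t u w = 0) : w = 0 := by
  classical
  funext i
  have hs : ∀ p : K × K, XC_S t (Pi.single i p) w = t i * (p.1 * (w i).2 - p.2 * (w i).1) := by
    intro p
    rw [XC_S_apply, Finset.sum_eq_single i]
    · rw [Pi.single_eq_same]
    · intro j _ hj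
      rw [Pi.single_eq_of_ne hj, Prod.fst_zero, Prod.snd_zero]
      ring
    · intro h
      exact absurd (Finset.mem_univ i) h
  have h1 := h (Pi.single i (1, 0))
  have h2 := h (Pi.single i (0, 1))
  rw [hs] at h1 h2
  simp only [one_mul, zero_mul, sub_zero, zero_sub, mul_neg, neg_eq_zero] at h1 h2
  exact Prod.ext ((mul_eq_zero.1 h2).resolve_left (ht i)) ((mul_eq_zero.1 h1).resolve_left (ht i))

/-- The restrictions to the cusps of the crossed homomorphisms for `χ` and for `χ⁻¹ ω` annihilate each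
other. -/
theorem xi_iso (hF : Face G Ξ V sm cusp) (hT : TFree G) [Group.FG G] {ω : G →* Kˣ}
    {z : DSub sm cusp K 3} (hz : Ori hF ω z) (h1 : H1Z sm cusp K) {κ : Type} [Fintype κ]
    {ξ : κ → Ξ} (hξ : Reps G ξ) (hne : ∀ i, ∃ η, η ≠ ξ i) {x y : κ → G}
    (hxy : Tori (fun i => stabilizer G (ξ i)) x y) (hω : ∀ i, ∀ p ∈ stabilizer G (ξ i), ω p = 1)
    (χ : G →* Kˣ) (hχ : ∀ i, ∀ p ∈ stabilizer G (ξ i), χ p = 1) :
    Module.finrank K (Q62.XHom χ) + Module.finrank K (Q62.XHom (χ⁻¹ * ω)) ≤
      2 * Fintype.card κ + Module.finrank K (XRel χ fun i => stabilizer G (ξ i)) +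
        Module.finrank K (XRel (χ⁻¹ * ω) fun i => stabilizer G (ξ i)) := by
  have hx : ∀ i, x i ∈ stabilizer G (ξ i) := by
    intro i
    rw [hxy.gen i]
    exact Subgroup.subset_closure (by simp)
  have hy : ∀ i, y i ∈ stabilizer G (ξ i) := by
    intro i
    rw [hxy.gen i]
    exact Subgroup.subset_closure (by simp)
  obtain ⟨t, ht, key⟩ := Q62.iso_pairW (face_toW hF) hT hF.fin ξ (fun i => face_full hF (ξ i)) hne
    (fun ζ => by
      obtain ⟨i, g, rfl⟩ := hξ.ex ζ
      exact ⟨i, g, rfl⟩)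
    (fun i j hij hc => by
      obtain ⟨g, hg⟩ := hc
      exact hij (hξ.ne j i g hg).symm)
    h1 z (ori_zz hz) (ori_gen hz) (fun ⟨e, he⟩ => hz.nv e he) ω hz.sq (ori_tw hz) hω
    (fun i => ⟨x i, hx i⟩) (fun i => ⟨y i, hy i⟩)
    (fun i => Subtype.ext (hxy.comm i)) (fun i => XC_gen (hxy.gen i) (hx i) (hy i))
    (fun i m n h => hxy.ind i m n (by
      have h2 := congrArg Subtype.val h
      simpa using h2))
  have h2 := Q62.finrank_add_le_of_orth (XC_ev χ x y) (XC_ev (χ⁻¹ * ω) x y) (XC_S t)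
    (XC_nd ht) (fun d d' => by
      rw [XC_S_apply]
      exact key χ hχ d.1 d.2 d'.1 d'.2)
  have h3 : Module.finrank K (κ → K × K) = 2 * Fintype.card κ := by
    rw [Module.finrank_pi_fintype]
    simp [mul_comm]
  have h4 := XC_rank χ hxy
  have h5 := XC_rank (χ⁻¹ * ω) hxy
  rw [h3] at h2
  omega

end

end Thu
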