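import Pool.Agent.W_04c03c_h58t.XDef

/-!
# One-dimensional representations
-/

namespace Thu

section

variable {K G κ : Type} [Field K] [Group G]

theorem XE_le (χ : G →* Kˣ) (P : κ → Subgroup G) : XRel χ P ≤ Q62.XHom χ := fun _ h => h.1

/-- The isomorphism. -/
def XE_equiv (χ : G →* Kˣ) (P : κ → Subgroup G) (hχ : ∀ i, ∀ p ∈ P i, χ p = 1) :
    Krel (charRep χ) P ≃ₗ[K] XRel χ P × (κ → K) where
  toFun D := (⟨D.1.1, ⟨fun g h => D.2.1 g h, fun i p hp => by
    have h1 := D.2.2 i p hp
    rw [charRep_apply, hχ i p hp, Units.val_one, one_mul, sub_self] at h1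
    exact h1⟩⟩, D.1.2)
  invFun x := ⟨(x.1.1, x.2), ⟨fun g h => x.1.2.1 g h, fun i p hp => by
    show x.1.1 p = x.2 i - charRep χ p (x.2 i)
    rw [charRep_apply, hχ i p hp, Units.val_one, one_mul, sub_self]
    exact x.1.2.2 i p hp⟩⟩
  map_add' _ _ := rfl
  map_smul' _ _ := rfl
  left_inv _ := rfl
  right_inv _ := rfl

/-- Proof. For `χ` trivial on the `P i` the condition at `i` is `D p = v i - v i = 0`; so
`(D, v) ↦ (D, v)` is an isomorphism with `XRel χ P × (κ → K)`. -/
theorem finrank_krel_char [Fintype κ] (χ : G →* Kˣ) (P : κ → Subgroup G)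
    (hχ : ∀ i, ∀ p ∈ P i, χ p = 1) [FiniteDimensional K (Q62.XHom χ)] :
    Module.finrank K (Krel (charRep χ) P) = Module.finrank K (XRel χ P) + Fintype.card κ := by
  have h1 : FiniteDimensional K (XRel χ P) := Submodule.finiteDimensional_of_le (XE_le χ P)
  rw [LinearEquiv.finrank_eq (XE_equiv χ P hχ), Module.finrank_prod,
    Module.finrank_fintype_fun_eq_card]

theorem XE_one {χ : G →* Kˣ} {D : G → K} (hD : D ∈ Q62.XHom χ) : D 1 = 0 := by
  have h := hD 1 1
  rw [mul_one, map_one, Units.val_one, one_mul] at h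
  have h2 : D 1 + 0 = D 1 + D 1 := by rw [add_zero]; exact h
  exact (add_left_cancel h2).symm

theorem XE_inv {χ : G →* Kˣ} {D : G → K} (hD : D ∈ Q62.XHom χ) {g : G} (hg : D g = 0) :
    D g⁻¹ = 0 := by
  have h := hD g g⁻¹
  rw [mul_inv_cancel, XE_one hD, hg, zero_add] at h
  rcases mul_eq_zero.1 h.symm with h1 | h1
  · exact absurd h1 (Units.ne_zero _)
  · exact h1

/-- Crossed homomorphisms of a finitely generated group with values in a character.

Proof. The evaluation at a finite set of generators is injective on `XHom χ` (`Subgroup.closure_induction`;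
`D 1 = 0`, `D g⁻¹ = - (χ g)⁻¹ * D g`). -/
theorem finite_xhom [Group.FG G] (χ : G →* Kˣ) : FiniteDimensional K (Q62.XHom χ) := by
  obtain ⟨S, hS⟩ := Group.fg_def.1 (inferInstance : Group.FG G)
  let ev : Q62.XHom χ →ₗ[K] (S → K) :=
    { toFun := fun D s => D.1 s.1
      map_add' := fun _ _ => rfl
      map_smul' := fun _ _ => rfl }
  have hinj : Function.Injective ev := by
    rw [injective_iff_map_eq_zero]
    intro D hD
    have h0 : ∀ g ∈ Subgroup.closure (S : Set G), D.1 g = 0 := by
      intro g hg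
      induction hg using Subgroup.closure_induction with
      | mem x hx => exact congrFun hD ⟨x, hx⟩
      | one => exact XE_one D.2
      | mul x y _ _ hx hy =>
        have h1 : D.1 (x * y) = D.1 x + (χ x : K) * D.1 y := D.2 x y
        rw [h1, hx, hy, mul_zero, add_zero]
      | inv x _ hx => exact XE_inv D.2 hx
    apply Subtype.ext
    funext g
    exact h0 g (by rw [hS]; exact Subgroup.mem_top g)
  exact FiniteDimensional.of_injective ev hinj

theorem XE_mem_inv (ω χ : G →* Kˣ) (μ : Module.Dual K K) :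
    μ ∈ Inv (dualW ω (charRep χ)) ↔ ∀ g, (((χ⁻¹ * ω) g : Kˣ) : K) * μ 1 = μ 1 := by
  have h1 : ∀ g v, dualW ω (charRep χ) g μ v = (((χ⁻¹ * ω) g : Kˣ) : K) * μ 1 * v := by
    intro g v
    have h2 : μ ((χ g⁻¹ : K) * v) = (χ g⁻¹ : K) * v * μ 1 := by
      have h3 := μ.map_smul ((χ g⁻¹ : K) * v) 1
      rw [smul_eq_mul, mul_one, smul_eq_mul] at h3
      exact h3
    rw [dualW_apply, charRep_apply, h2, MonoidHom.mul_apply, MonoidHom.inv_apply, map_inv]
    push_cast
    ring
  have h4 : ∀ v, μ v = μ 1 * v := by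
    intro v
    have h3 := μ.map_smul v 1
    rw [smul_eq_mul, mul_one, smul_eq_mul] at h3
    rw [h3, mul_comm]
  constructor
  · intro h g
    have h5 : dualW ω (charRep χ) g μ = μ := h g
    have h6 := h1 g 1
    rw [h5, mul_one] at h6
    exact h6.symm
  · intro h g
    ext
    rw [h1 g 1, mul_one]
    exact h g

/-- Proof. `Inv (dualW ω (charRep χ))` is everything (dimension one) if `χ⁻¹ * ω = 1` and zero otherwise;
`Prin (χ⁻¹ * ω)` is zero if `χ⁻¹ * ω = 1`, and otherwise it is spanned by `g ↦ (χ⁻¹ * ω) g - 1 ≠ 0`. -/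
theorem prin_inv (ω χ : G →* Kˣ) :
    Module.finrank K (Q62.Prin (χ⁻¹ * ω)) + Module.finrank K (Inv (dualW ω (charRep χ))) = 1 := by
  set ψ : G →* Kˣ := χ⁻¹ * ω with hψ
  by_cases h : ψ = 1
  · have e1 : Q62.Prin ψ = ⊥ := by
      rw [eq_bot_iff]
      rintro d ⟨m, hm⟩
      rw [Submodule.mem_bot]
      funext g
      rw [hm g, h]
      simp
    have e2 : Inv (dualW ω (charRep χ)) = ⊤ := by
      rw [eq_top_iff]
      intro μ _
      rw [XE_mem_inv]
      intro g
      rw [← hψ, h]
      simp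
    rw [e1, e2, finrank_bot, finrank_top, zero_add, Subspace.dual_finrank_eq,
      Module.finrank_self]
  · obtain ⟨g, hg⟩ : ∃ g, ψ g ≠ 1 := by
      by_contra hcon
      push Not at hcon
      exact h (MonoidHom.ext hcon)
    have hg' : ((ψ g : Kˣ) : K) - 1 ≠ 0 := by
      intro h1
      exact hg (Units.ext (sub_eq_zero.1 h1))
    have e1 : Q62.Prin ψ = Submodule.span K {fun g => ((ψ g : Kˣ) : K) - 1} := by
      ext d
      rw [Submodule.mem_span_singleton]
      constructor
      · rintro ⟨m, hm⟩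
        refine ⟨m, ?_⟩
        funext g
        rw [hm g, Pi.smul_apply, smul_eq_mul, mul_comm]
      · rintro ⟨m, rfl⟩
        exact ⟨m, fun g => by rw [Pi.smul_apply, smul_eq_mul, mul_comm]⟩
    have e2 : Inv (dualW ω (charRep χ)) = ⊥ := by
      rw [eq_bot_iff]
      intro μ hμ
      rw [XE_mem_inv] at hμ
      rw [Submodule.mem_bot]
      have h1 := hμ g
      rw [← hψ] at h1
      have h2 : (((ψ g : Kˣ) : K) - 1) * μ 1 = 0 := by
        rw [sub_mul, h1, one_mul, sub_self]
      rcases mul_eq_zero.1 h2 with h3 | h3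
      · exact absurd h3 hg'
      · ext
        exact h3
    have e3 : (fun g => ((ψ g : Kˣ) : K) - 1 : G → K) ≠ 0 := by
      intro h1
      exact hg' (congrFun h1 g)
    rw [e1, e2, finrank_bot, finrank_span_singleton e3]

end

end Thu
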