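import Pool.Agent.W_04c03c_h58t.DH
import Pool.Agent.W_04c03c_h58t.XB
import Pool.Agent.W_04c03c_h58t.XC
import Pool.Agent.W_04c03c_h58t.XE
import Pool.Agent.W_04c03c_h58t.FB

/-!
# The universal Euler number is not positive
-/

namespace Thu

open RCan MulAction

section

variable {G Ξ V : Type} [Group G] [MulAction G Ξ] [MulAction G V] {sm : V → V → Prop}
  {cusp : V → Option Ξ} {K : Type} [Field K]

/-- Proof. For a character `χ` trivial on the cusps: `exists_dims` gives the finiteness, `crQ_zero_inj`,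
`finrank_pot`, `finrank_krel` and `finrank_krel_char` give `finrank (ker (crQ 1)) + 1 = finrank (XRel χ) + card κ +
finrank (range (crQ 0))`, and `xi_dual`, `prin_inv` and the hypothesis for `charRep χ` give
`x = finrank (XHom (χ⁻¹ * ω)) - finrank (XRel χ) - card κ`. -/
theorem x_char (hF : Face G Ξ V sm cusp) (hT : TFree G) [Group.FG G] [Nonempty Ξ] {ω : G →* Kˣ}
    {z : DSub sm cusp K 3} (hz : Ori hF ω z) {κ : Type} [Fintype κ] {ξ : κ → Ξ} (hξ : Reps G ξ)
    (χ : G →* Kˣ) (hχ : ∀ i, ∀ p ∈ stabilizer G (ξ i), χ p = 1) (x : ℤ)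
    (hx : (Module.finrank K (LinearMap.ker (crQ (sm := sm) (cusp := cusp) hF (charRep χ) 2)) : ℤ) -
          Module.finrank K (LinearMap.range (crQ (sm := sm) (cusp := cusp) hF (charRep χ) 1)) =
        Module.finrank K (LinearMap.ker (crQ (sm := sm) (cusp := cusp) hF (charRep χ) 1)) -
          Module.finrank K (LinearMap.range (crQ (sm := sm) (cusp := cusp) hF (charRep χ) 0)) +
        x * Module.finrank K K + Module.finrank K (Inv (dualW ω (charRep χ)))) :
    x + Fintype.card κ + Module.finrank K (XRel χ fun i => stabilizer G (ξ i)) =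
      Module.finrank K (Q62.XHom (χ⁻¹ * ω)) := by
  obtain ⟨d, hd⟩ := exists_dims (sm := sm) (cusp := cusp) hF hT K ω
  have := finite_xhom χ
  have i1 : FiniteDimensional K (EQE sm cusp (charRep χ) 1) := (hd 1 K (charRep χ)).1
  have hinj := crQ_zero_inj hF (charRep χ)
  obtain ⟨i2, h2⟩ := finrank_pot hF (charRep χ)
  obtain ⟨i3, h3⟩ := finrank_krel hF hξ (charRep χ) hinj
  have h4 := finrank_krel_char χ (fun i => stabilizer G (ξ i)) hχ
  have h5 := xi_dual hF hT hz χ
  have h6 := prin_inv ω χ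
  rw [Module.finrank_self] at hx h2
  omega

/-- the universal Euler number is not positive -/
theorem x_nonpos (hF : Face G Ξ V sm cusp) (hT : TFree G) [Group.FG G] [Nonempty Ξ] {ω : G →* Kˣ}
    {z : DSub sm cusp K 3} (hz : Ori hF ω z) (h1 : H1Z sm cusp K) {κ : Type} [Fintype κ]
    {ξ : κ → Ξ} (hξ : Reps G ξ) (hne : ∀ i, ∃ η, η ≠ ξ i) {x y : κ → G}
    (hxy : Tori (fun i => stabilizer G (ξ i)) x y) (hω : ∀ i, ∀ p ∈ stabilizer G (ξ i), ω p = 1)
    (c : ℤ) (hc : ∀ (E : Type) [AddCommGroup E] [Module K E] [FiniteDimensional K E]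
      (σ : Representation K G E),
      (Module.finrank K (LinearMap.ker (crQ (sm := sm) (cusp := cusp) hF σ 2)) : ℤ) -
          Module.finrank K (LinearMap.range (crQ (sm := sm) (cusp := cusp) hF σ 1)) =
        Module.finrank K (LinearMap.ker (crQ (sm := sm) (cusp := cusp) hF σ 1)) -
          Module.finrank K (LinearMap.range (crQ (sm := sm) (cusp := cusp) hF σ 0)) +
        c * Module.finrank K E + Module.finrank K (Inv (dualW ω σ))) : c ≤ 0 := by
  have h2 := x_char hF hT hz hξ 1 (fun _ _ _ => rfl) c (hc K (charRep 1))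
  have h3 := x_char hF hT hz hξ ω hω c (hc K (charRep ω))
  have h4 := xi_iso hF hT hz h1 hξ hne hxy hω 1 (fun _ _ _ => rfl)
  have e1 : ω⁻¹ * ω = 1 := by
    ext g
    simp
  have e2 : (1 : G →* Kˣ)⁻¹ * ω = ω := by
    ext g
    simp
  rw [e1] at h3
  rw [e2] at h2 h4
  omega

end

end Thu
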