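import Pool.Agent.W_04c03c_h58t.YDef

/-!
# The homomorphism of a functional: additivity and equivariance
-/

namespace Thu

section

variable {K O G Q ι κ : Type} [Field K] [CommRing O] [Algebra K O] [Group G] [Group Q] {n : ℕ}
  {π : G →* Q} {x : ι → G} {a b : κ → ι} {e : κ → ℕ} {ρ : Q →* Matrix (Fin n) (Fin n) K}
  {ε : O →ₐ[K] K} {X : FreeGroup ι →* Matrix (Fin n) (Fin n) O} {J₁ : Ideal O}

/-- Proof. For `π (lift x r) = 1` the entries of `X r - 1` are in `JJ` (definition) and in the kernel of `ε`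
(`h.ev`: `(X r).map ε = ρ 1 = 1`); `J₁` by `h.le`. -/
theorem jj_le (h : LocD π x a b e ρ ε X J₁) : JJ π x X J₁ ≤ RingHom.ker ε := by
  unfold JJ
  refine sup_le h.le ?_
  rw [Ideal.span_le]
  rintro _ ⟨r, hr, i, j, rfl⟩
  have h1 := congrFun (congrFun (h.ev r) i) j
  rw [hr, map_one, Matrix.map_apply] at h1
  change ε ((X r - 1) i j) = 0
  rw [Matrix.sub_apply, map_sub, h1]
  by_cases hij : i = j
  · subst hij
    simp
  · simp [Matrix.one_apply_ne hij]

/-- Additivity. Proof. `X (r * s) - 1 = (X r - 1) * (X s - 1) + (X r - 1) + (X s - 1)`; the entries of the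
product are in `JJ * JJ ≤ ker ε * JJ` (`jj_le`), where `L` vanishes. -/
theorem thL_mul (h : LocD π x a b e ρ ε X J₁) {L : O →ₗ[K] K} (hL : Good π x ε X J₁ L)
    {r s : FreeGroup ι} (hr : π (FreeGroup.lift x r) = 1) (hs : π (FreeGroup.lift x s) = 1) :
    thL X L (r * s) = thL X L r + thL X L s := by
  have hsq : ∀ y z, y ∈ JJ π x X J₁ → z ∈ JJ π x X J₁ → L (y * z) = 0 := by
    intro y z hy hz
    exact hL.2 _ (Ideal.mul_mem_mul (jj_le h hy) hz)
  have hmem : ∀ r : FreeGroup ι, π (FreeGroup.lift x r) = 1 → ∀ i j, (X r - 1) i j ∈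
      JJ π x X J₁ := by
    intro r hr i j
    exact Submodule.mem_sup_right (Ideal.subset_span ⟨r, hr, i, j, rfl⟩)
  have h1 : X (r * s) - 1 = (X r - 1) * (X s - 1) + (X r - 1) + (X s - 1) := by
    rw [map_mul]
    noncomm_ring
  funext i j
  unfold thL
  rw [h1]
  simp only [Matrix.add_apply, map_add, Matrix.mul_apply, map_sum]
  rw [Finset.sum_eq_zero (fun k _ => hsq _ _ (hmem r hr i k) (hmem s hs k j)), zero_add]

/-- For `u, w : O` and `y ∈ JJ`: `L (u * y * w) = ε u * ε w * L y`. Proof: `u = algebraMap (ε u) + u'` with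
`ε u' = 0`, the same for `w`; the other terms are in `ker ε * JJ`. -/
theorem good_mul (h : LocD π x a b e ρ ε X J₁) {L : O →ₗ[K] K} (hL : Good π x ε X J₁ L)
    (u w : O) {y : O} (hy : y ∈ JJ π x X J₁) : L (u * y * w) = ε u * L y * ε w := by
  have hk : ∀ u : O, ∀ y ∈ JJ π x X J₁, L (u * y) = ε u * L y := by
    intro u y hy
    have h1 : u * y = ε u • y + (u - algebraMap K O (ε u)) * y := by
      rw [Algebra.smul_def]
      ring
    rw [h1, map_add, map_smul, smul_eq_mul]
    rw [hL.2 ((u - algebraMap K O (ε u)) * y) (Ideal.mul_mem_mul ?_ hy), add_zero]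
    rw [RingHom.mem_ker, map_sub]
    change ε u - ε (algebraMap K O (ε u)) = 0
    rw [AlgHom.commutes, Algebra.algebraMap_self, RingHom.id_apply, sub_self]
  have h2 : u * y * w = u * (w * y) := by ring
  rw [h2, hk u _ (Ideal.mul_mem_left _ _ hy), hk w y hy]
  ring

/-- Equivariance. Proof. `X (f * r * f⁻¹) - 1 = X f * (X r - 1) * X f⁻¹` (`X f * X f⁻¹ = 1`), entrywise a sum of
terms `u * y * w` as in `good_mul`, and `ε` of the entries of `X f`, `X f⁻¹` by `h.ev`. -/
theorem thL_conj (h : LocD π x a b e ρ ε X J₁) {L : O →ₗ[K] K} (hL : Good π x ε X J₁ L)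
    (f : FreeGroup ι) {r : FreeGroup ι} (hr : π (FreeGroup.lift x r) = 1) :
    thL X L (f * r * f⁻¹) =
      ρ (π (FreeGroup.lift x f)) * thL X L r * ρ (π (FreeGroup.lift x f))⁻¹ := by
  have hmem : ∀ i j, (X r - 1) i j ∈ JJ π x X J₁ := by
    intro i j
    exact Submodule.mem_sup_right (Ideal.subset_span ⟨r, hr, i, j, rfl⟩)
  have hff : X f * X f⁻¹ = 1 := by rw [← map_mul, mul_inv_cancel, map_one]
  have h1 : X (f * r * f⁻¹) - 1 = X f * (X r - 1) * X f⁻¹ := by
    rw [map_mul, map_mul, mul_sub, sub_mul, mul_one, hff]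
  have hev : ∀ (g : FreeGroup ι) i j, ε (X g i j) = ρ (π (FreeGroup.lift x g)) i j := by
    intro g i j
    rw [← h.ev g, Matrix.map_apply]
  funext i j
  have h3 : ρ (π (FreeGroup.lift x f))⁻¹ = ρ (π (FreeGroup.lift x f⁻¹)) := by
    congr 1
    rw [map_inv, map_inv]
  unfold thL
  rw [h1, h3]
  simp only [Matrix.mul_apply, map_sum, Finset.sum_mul]
  refine Finset.sum_congr rfl fun k _ => Finset.sum_congr rfl fun l _ => ?_
  rw [good_mul h hL _ _ (hmem l k), hev, hev]

end

end Thu
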