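import Pool.Agent.W_04c03c_h58t.WDef

/-!
# A local ring at a representation: definitions
-/

namespace Thu

open MvPolynomial

section

variable {K O G Q ι κ : Type} [Field K] [CommRing O] [Algebra K O] [Group G] [Group Q] {n : ℕ}

/-- A representation `X` of the free group over a `K`-algebra `O` with a point `ε : O → K`, where it is the
representation `ρ` of the filling `Q` of `G`; the ideal `J₁` contains the commutation relations, the filling
relations and the conditions on the determinant. -/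
structure LocD (π : G →* Q) (x : ι → G) (a b : κ → ι) (e : κ → ℕ)
    (ρ : Q →* Matrix (Fin n) (Fin n) K) (ε : O →ₐ[K] K)
    (X : FreeGroup ι →* Matrix (Fin n) (Fin n) O) (J₁ : Ideal O) : Prop where
  surj : Function.Surjective π
  gen : Subgroup.closure (Set.range x) = ⊤
  ker : π.ker = Subgroup.normalClosure (Set.range fun i => x (a i) ^ e i)
  hab : ∀ i, x (a i) * x (b i) = x (b i) * x (a i)
  ev : ∀ f, (X f).map ε = ρ (π (FreeGroup.lift x f))
  le : J₁ ≤ RingHom.ker ε
  com : ∀ i r s, (X (FreeGroup.of (a i)) * X (FreeGroup.of (b i)) -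
    X (FreeGroup.of (b i)) * X (FreeGroup.of (a i))) r s ∈ J₁
  fil : ∀ i r s, (X (FreeGroup.of (a i)) ^ e i - 1) r s ∈ J₁
  det : ∀ f, (X f).det - algebraMap K O (ρ (π (FreeGroup.lift x f))).det ∈ J₁

/-- the ideal generated by `J₁` and the entries of `X r - 1` for the relations `r` of `Q` -/
def JJ (π : G →* Q) (x : ι → G) (X : FreeGroup ι →* Matrix (Fin n) (Fin n) O) (J₁ : Ideal O) :
    Ideal O :=
  J₁ ⊔ Ideal.span {p | ∃ r : FreeGroup ι, π (FreeGroup.lift x r) = 1 ∧ ∃ i j, p = (X r - 1) i j}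

/-- the value of a functional at `X r - 1` -/
def thL (X : FreeGroup ι →* Matrix (Fin n) (Fin n) O) (L : O →ₗ[K] K) (r : FreeGroup ι) :
    Matrix (Fin n) (Fin n) K := fun i j => L ((X r - 1) i j)

/-- `L` vanishes on `J₁` and on the product of the maximal ideal with `JJ`. -/
def Good (π : G →* Q) (x : ι → G) (ε : O →ₐ[K] K) (X : FreeGroup ι →* Matrix (Fin n) (Fin n) O)
    (J₁ : Ideal O) (L : O →ₗ[K] K) : Prop :=
  (∀ y ∈ J₁, L y = 0) ∧ ∀ y ∈ RingHom.ker ε * JJ π x X J₁, L y = 0

end

end Thu
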