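import Mathlib
import Pool.Agent.W_04c03c_h58t.YDef
import Pool.Agent.W_04c03c_h58t.YA

/-!
# The homomorphism of a functional: trace, commutators and filling relations
-/

namespace Thu

theorem YB_minor {R : Type} [CommRing R] (I : Ideal R) {m : Type} [Fintype m] [DecidableEq m]
    (M : Matrix m m R) (hM : ∀ i j, M i j ∈ I) : M.det ∈ I ^ Fintype.card m := by
  rw [Matrix.det_apply]
  refine Ideal.sum_mem _ fun σ _ => ?_
  have h1 : ∏ i, M (σ i) i ∈ ∏ _i : m, I := Ideal.prod_mem_prod fun i _ => hM _ _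
  rw [Finset.prod_const, Finset.card_univ] at h1
  rcases Int.units_eq_one_or (Equiv.Perm.sign σ) with h | h
  · rw [h, one_smul]
    exact h1
  · rw [h, Units.neg_smul, one_smul]
    exact Ideal.neg_mem_iff _ |>.2 h1

/-- The determinant of `1 + A` modulo products of two entries.

Proof. For example: in `R ⧸ (I * I)` (`I` the ideal containing the entries of `A`) the products of two entries
of `A` vanish; expand `det (1 + A) = ∑ σ, sign σ * ∏ i, (1 + A) (σ i) i`: for `σ ≠ 1` at least two factors are entries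
of `A`, so the term vanishes, and for `σ = 1` the product of the `1 + A i i` is `1 + ∑ A i i` (induction over the
finset). -/
theorem det_one_add {R : Type} [CommRing R] {n : ℕ} (I : Ideal R) (A : Matrix (Fin n) (Fin n) R)
    (hA : ∀ i j, A i j ∈ I) : (1 + A).det - 1 - A.trace ∈ I * I := by
  have h := Matrix.det_one_add_smul (1 : R) A
  rw [one_smul] at h
  rw [h]
  have e1 : ∀ t u : R, 1 + t * 1 + u * 1 ^ 2 - 1 - t = u := by
    intro t u
    ring
  rw [e1, Polynomial.eval_eq_sum_range]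
  refine Ideal.sum_mem _ fun k _ => ?_
  rw [one_pow, mul_one, Polynomial.coeff_divX, Polynomial.coeff_divX,
    Matrix.coeff_det_one_add_X_smul_eq_sum_minors]
  refine Ideal.sum_mem _ fun t ht => ?_
  have h1 := YB_minor I (A.submatrix (Subtype.val : t → Fin n) (Subtype.val : t → Fin n))
    (fun i j => hA _ _)
  rw [Fintype.card_coe, (Finset.mem_powersetCard.1 ht).2] at h1
  rw [← pow_two]
  exact Ideal.pow_le_pow_right (by omega) h1

section

variable {K O G Q ι κ : Type} [Field K] [CommRing O] [Algebra K O] [Group G] [Group Q] {n : ℕ}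
  {π : G →* Q} {x : ι → G} {a b : κ → ι} {e : κ → ℕ} {ρ : Q →* Matrix (Fin n) (Fin n) K}
  {ε : O →ₐ[K] K} {X : FreeGroup ι →* Matrix (Fin n) (Fin n) O} {J₁ : Ideal O}

/-- Trace zero. Proof. With `A = X r - 1` (entries in `JJ`, and `JJ ≤ ker ε` since `(X r').map ε = 1` for the
relations `r'`, `h.le`): `trace A = (det (1 + A) - 1) - (element of JJ * JJ)` by `det_one_add`, `det (X r) - 1 ∈ J₁` by
`h.det` (`ρ 1 = 1`), and `JJ * JJ ≤ ker ε * JJ`. -/
theorem thL_trace (h : LocD π x a b e ρ ε X J₁) {L : O →ₗ[K] K} (hL : Good π x ε X J₁ L)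
    {r : FreeGroup ι} (hr : π (FreeGroup.lift x r) = 1) : (thL X L r).trace = 0 := by
  have hmem : ∀ i j, (X r - 1) i j ∈ JJ π x X J₁ := by
    intro i j
    exact Submodule.mem_sup_right (Ideal.subset_span ⟨r, hr, i, j, rfl⟩)
  have h1 := det_one_add (JJ π x X J₁) (X r - 1) hmem
  have h2 : (1 : Matrix (Fin n) (Fin n) O) + (X r - 1) = X r := by abel
  rw [h2] at h1
  have h3 := hL.2 _ (Ideal.mul_mono_left (jj_le h) h1)
  have h4 := h.det r
  rw [hr, map_one, Matrix.det_one, map_one] at h4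
  have h5 := hL.1 _ h4
  rw [map_sub, h5, zero_sub, neg_eq_zero] at h3
  have h6 : (thL X L r).trace = L (X r - 1).trace := by
    unfold Matrix.trace
    rw [map_sum]
    rfl
  rw [h6, h3]

/-- Proof. `X (A B A⁻¹ B⁻¹) - 1 = (X A * X B - X B * X A) * X A⁻¹ * X B⁻¹`, entries in `J₁` (`h.com`). -/
theorem thL_com (h : LocD π x a b e ρ ε X J₁) {L : O →ₗ[K] K} (hL : Good π x ε X J₁ L) (i : κ) :
    thL X L (FreeGroup.of (a i) * FreeGroup.of (b i) * (FreeGroup.of (a i))⁻¹ *
      (FreeGroup.of (b i))⁻¹) = 0 := by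
  have hff : ∀ f : FreeGroup ι, X f * X f⁻¹ = 1 := fun f => by
    rw [← map_mul, mul_inv_cancel, map_one]
  have h1 : X (FreeGroup.of (a i) * FreeGroup.of (b i) * (FreeGroup.of (a i))⁻¹ *
      (FreeGroup.of (b i))⁻¹) - 1 = (X (FreeGroup.of (a i)) * X (FreeGroup.of (b i)) -
        X (FreeGroup.of (b i)) * X (FreeGroup.of (a i))) *
        (X (FreeGroup.of (a i))⁻¹ * X (FreeGroup.of (b i))⁻¹) := by
    rw [sub_mul, map_mul, map_mul, map_mul]
    have h2 : X (FreeGroup.of (b i)) * X (FreeGroup.of (a i)) *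
        (X (FreeGroup.of (a i))⁻¹ * X (FreeGroup.of (b i))⁻¹) = 1 := by
      calc X (FreeGroup.of (b i)) * X (FreeGroup.of (a i)) *
        (X (FreeGroup.of (a i))⁻¹ * X (FreeGroup.of (b i))⁻¹) = X (FreeGroup.of (b i)) *
          (X (FreeGroup.of (a i)) * X (FreeGroup.of (a i))⁻¹) * X (FreeGroup.of (b i))⁻¹ := by
            simp only [mul_assoc]
        _ = 1 := by rw [hff, mul_one, hff]
    rw [h2]
    simp only [mul_assoc]
  funext r s
  show L ((X _ - 1) r s) = 0
  rw [h1, Matrix.mul_apply]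
  exact hL.1 _ (Ideal.sum_mem _ fun k _ => Ideal.mul_mem_right _ _ (h.com i r k))

/-- Proof. `h.fil`, `X (A ^ m) = X A ^ m`. -/
theorem thL_fil (h : LocD π x a b e ρ ε X J₁) {L : O →ₗ[K] K} (hL : Good π x ε X J₁ L) (i : κ) :
    thL X L (FreeGroup.of (a i) ^ e i) = 0 := by
  funext r s
  show L ((X _ - 1) r s) = 0
  rw [map_pow]
  exact hL.1 _ (h.fil i r s)

end

end Thu
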