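import Pool.Agent.W_04c03c_h58t.YA
import Pool.Agent.W_04c03c_h58t.YB

/-!
# The map from the functionals to `Th` and its kernel
-/

namespace Thu

section

variable {K O G Q ι κ : Type} [Field K] [CommRing O] [Algebra K O] [Group G] [Group Q] {n : ℕ}
  {π : G →* Q} {x : ι → G} {a b : κ → ι} {e : κ → ℕ} {ρ : Q →* Matrix (Fin n) (Fin n) K}
  {ε : O →ₐ[K] K} {X : FreeGroup ι →* Matrix (Fin n) (Fin n) O} {J₁ : Ideal O}

/-- the functionals -/
def GoodS (π : G →* Q) (x : ι → G) (ε : O →ₐ[K] K) (X : FreeGroup ι →* Matrix (Fin n) (Fin n) O)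
    (J₁ : Ideal O) : Submodule K (O →ₗ[K] K) where
  carrier := {L | Good π x ε X J₁ L}
  zero_mem' := ⟨fun _ _ => rfl, fun _ _ => rfl⟩
  add_mem' := by
    intro L L' h h'
    refine ⟨fun y hy => ?_, fun y hy => ?_⟩
    · rw [LinearMap.add_apply, h.1 y hy, h'.1 y hy, add_zero]
    · rw [LinearMap.add_apply, h.2 y hy, h'.2 y hy, add_zero]
  smul_mem' := by
    intro c L h
    refine ⟨fun y hy => ?_, fun y hy => ?_⟩
    · rw [LinearMap.smul_apply, h.1 y hy, smul_zero]
    · rw [LinearMap.smul_apply, h.2 y hy, smul_zero]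

theorem YC_ker {π : G →* Q} {x : ι → G} (r : (FreeGroup.lift x).ker) :
    π (FreeGroup.lift x (r : FreeGroup ι)) = 1 := by
  rw [MonoidHom.mem_ker.1 r.2, map_one]

theorem YC_mem_sl {n : ℕ} {K : Type} [Field K] {A : Matrix (Fin n) (Fin n) K}
    (h : A.trace = 0) : A ∈ Sl n K := h

/-- Proof. `Θ L r = ⟨thL X L r, _⟩` (`thL_trace`); it is in `Th` by `thL_mul`, `thL_conj`, `thL_com`
(`π (lift x r) = π 1 = 1` for `r` in the kernel of `FreeGroup.lift x`; `adRep_apply`). Linear in `L`: clear. -/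
theorem exists_Theta (h : LocD π x a b e ρ ε X J₁) :
    ∃ Θ : GoodS π x ε X J₁ →ₗ[K] Th (adRep (ρ.comp π)) x a b,
      ∀ L (r : (FreeGroup.lift x).ker), ((Θ L).1 r).1 = thL X L.1 r := by
  have hsl : ∀ (L : GoodS π x ε X J₁) (r : (FreeGroup.lift x).ker),
      thL X L.1 (r : FreeGroup ι) ∈ Sl n K := by
    intro L r
    exact YC_mem_sl (thL_trace h L.2 (YC_ker r))
  let T : GoodS π x ε X J₁ → ((FreeGroup.lift x).ker → Sl n K) := fun L r =>
    ⟨thL X L.1 (r : FreeGroup ι), hsl L r⟩
  have hT : ∀ L, T L ∈ Th (adRep (ρ.comp π)) x a b := by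
    intro L
    refine ⟨fun r s => ?_, fun f r r' hr => ?_, fun i r hr => ?_⟩
    · apply Subtype.ext
      exact thL_mul h L.2 (YC_ker r) (YC_ker s)
    · apply Subtype.ext
      rw [adRep_apply]
      change thL X L.1 (r' : FreeGroup ι) = _
      rw [hr, thL_conj h L.2 f (YC_ker r)]
      simp only [MonoidHom.comp_apply, map_inv]
      rfl
    · apply Subtype.ext
      change thL X L.1 (r : FreeGroup ι) = _
      rw [hr, thL_com h L.2 i]
      rfl
  refine ⟨{ toFun := fun L => ⟨T L, hT L⟩
            map_add' := ?_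
            map_smul' := ?_ }, fun L r => rfl⟩
  · intro L L'
    apply Subtype.ext
    funext r
    apply Subtype.ext
    rfl
  · intro c L
    apply Subtype.ext
    funext r
    apply Subtype.ext
    rfl

/-- A functional with vanishing homomorphism vanishes on `JJ`.

Proof. Let `R'` be the set of the `r : FreeGroup ι` with `π (lift x r) = 1` and `thL X L r = 0`: a subgroup
(`thL_mul`; `thL X L 1 = 0`; inverses: `thL r⁻¹ = - thL r`), normal (`thL_conj`), which contains the kernel of
`FreeGroup.lift x` (hypothesis) and the `of (a i) ^ e i` (`thL_fil`; `π (x (a i) ^ e i) = 1` by `h.ker`). So it contains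
every `r` with `π (lift x r) = 1`: `lift x r` is in the normal closure of the `x (a i) ^ e i` (`h.ker`), which is the
image of the normal closure of the `of (a i) ^ e i` under the surjection `FreeGroup.lift x` (`h.gen`;
`Subgroup.map_normalClosure`), so `r = r₁ * r₂` with `r₁` in this normal closure and `lift x r₂ = 1`. Hence `L` vanishes at
all the entries of the `X r - 1`, and on `J₁`; and an element of `JJ` is a sum of an element of `J₁` and of products
`u * y`, `y` an entry: `u * y = ε u • y + u' * y` with `u' ∈ ker ε` (`Submodule.span_induction` or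
`Submodule.mem_span_iff...`; prove `L (u * y) = ε u * L y` for all `y ∈ JJ` first, `good_mul`). -/
theorem thL_inj (h : LocD π x a b e ρ ε X J₁) {L : O →ₗ[K] K} (hL : Good π x ε X J₁ L)
    (h0 : ∀ r : FreeGroup ι, FreeGroup.lift x r = 1 → thL X L r = 0) :
    ∀ y ∈ JJ π x X J₁, L y = 0 := by
  have h1 : thL X L 1 = 0 := h0 1 (map_one _)
  have hinv : ∀ r : FreeGroup ι, π (FreeGroup.lift x r) = 1 → thL X L r = 0 →
      thL X L r⁻¹ = 0 := by
    intro r hr hr0
    have h2 := thL_mul h hL (r := r) (s := r⁻¹) hr (by rw [map_inv, map_inv, hr, inv_one])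
    rw [mul_inv_cancel, h1, hr0, zero_add] at h2
    exact h2.symm
  let N : Subgroup (FreeGroup ι) :=
    { carrier := {r | π (FreeGroup.lift x r) = 1 ∧ thL X L r = 0}
      mul_mem' := by
        rintro r s ⟨hr, hr0⟩ ⟨hs, hs0⟩
        refine ⟨by rw [map_mul, map_mul, hr, hs, mul_one], ?_⟩
        rw [thL_mul h hL hr hs, hr0, hs0, add_zero]
      one_mem' := ⟨by rw [map_one, map_one], h1⟩
      inv_mem' := by
        rintro r ⟨hr, hr0⟩
        exact ⟨by rw [map_inv, map_inv, hr, inv_one], hinv r hr hr0⟩ }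
  have hNn : N.Normal := ⟨by
    rintro r ⟨hr, hr0⟩ f
    refine ⟨?_, ?_⟩
    · rw [map_mul, map_mul, map_mul, map_mul, hr, mul_one, map_inv, map_inv, mul_inv_cancel]
    · rw [thL_conj h hL f hr, hr0, Matrix.mul_zero, Matrix.zero_mul]⟩
  have hsurj : Function.Surjective (FreeGroup.lift x) :=
    FreeGroup.lift_surjective_iff_closure_range_eq_top.2 h.gen
  have hfil : Subgroup.normalClosure
      (Set.range fun i => (FreeGroup.of (a i) : FreeGroup ι) ^ e i) ≤ N := by
    apply Subgroup.normalClosure_le_normal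
    rintro _ ⟨i, rfl⟩
    refine ⟨?_, thL_fil h hL i⟩
    rw [map_pow, FreeGroup.lift_apply_of]
    have h2 : x (a i) ^ e i ∈ π.ker := by
      rw [h.ker]
      exact Subgroup.subset_normalClosure ⟨i, rfl⟩
    exact h2
  have hall : ∀ r : FreeGroup ι, π (FreeGroup.lift x r) = 1 → thL X L r = 0 := by
    intro r hr
    have h2 : FreeGroup.lift x r ∈ Subgroup.map (FreeGroup.lift x) (Subgroup.normalClosure
        (Set.range fun i => (FreeGroup.of (a i) : FreeGroup ι) ^ e i)) := by
      rw [Subgroup.map_normalClosure _ _ hsurj, ← Set.range_comp]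
      have h3 : FreeGroup.lift x r ∈ π.ker := hr
      rw [h.ker] at h3
      have h4 : (⇑(FreeGroup.lift x) ∘ fun i => (FreeGroup.of (a i) : FreeGroup ι) ^ e i) =
          fun i => x (a i) ^ e i := by
        funext i
        simp
      rw [h4]
      exact h3
    obtain ⟨r₁, hr₁, he⟩ := h2
    have h3 : FreeGroup.lift x (r₁⁻¹ * r) = 1 := by
      rw [map_mul, map_inv, he, inv_mul_cancel]
    have h4 : thL X L (r₁⁻¹ * r) = 0 := h0 _ h3
    have h5 := hfil hr₁
    have h6 := thL_mul h hL (r := r₁) (s := r₁⁻¹ * r) h5.1 (by rw [h3, map_one])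
    rw [mul_inv_cancel_left, h5.2, h4, add_zero] at h6
    exact h6
  intro y hy
  unfold JJ at hy
  obtain ⟨y1, hy1, y2, hy2, rfl⟩ := Submodule.mem_sup.1 hy
  rw [map_add, hL.1 y1 hy1, zero_add]
  clear hy
  refine Submodule.span_induction (p := fun y _ => L y = 0) ?_ (map_zero L) ?_ ?_ hy2
  · rintro _ ⟨r, hr, i, j, rfl⟩
    exact congrFun (congrFun (hall r hr) i) j
  · intro y z _ _ hy hz
    rw [map_add, hy, hz, add_zero]
  · intro u y hy hy0
    have h2 : y ∈ JJ π x X J₁ := by
      unfold JJ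
      exact Submodule.mem_sup_right hy
    have h3 := good_mul h hL u 1 h2
    rw [mul_one, hy0, mul_zero, zero_mul] at h3
    exact h3

end

end Thu
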