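import Pool.Agent.W_04c03c_h58t.YC

/-!
# The number of equations in a local ring
-/

namespace Thu

/-- Proof. `Dual K V` embeds in a finite-dimensional space, so it is finite-dimensional of dimension at most
`finrank T`; `V` embeds in its double dual (`Module.eval_ker`, `forall_dual_apply_eq_zero_iff`), so it is
finite-dimensional, and `finrank (Dual K V) = finrank V` (`Subspace.dual_finrank_eq`). -/
theorem finrank_le_of_dual {K V T : Type} [Field K] [AddCommGroup V] [Module K V] [AddCommGroup T]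
    [Module K T] [FiniteDimensional K T] (f : Module.Dual K V →ₗ[K] T)
    (hf : Function.Injective f) :
    FiniteDimensional K V ∧ Module.finrank K V ≤ Module.finrank K T := by
  have h1 : FiniteDimensional K (Module.Dual K V) := FiniteDimensional.of_injective f hf
  have h2 : FiniteDimensional K V :=
    FiniteDimensional.of_injective (Module.Dual.eval K V)
      (LinearMap.ker_eq_bot.1 (Module.eval_ker K V))
  refine ⟨h2, ?_⟩
  have h3 := LinearMap.finrank_le_finrank_of_injective hf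
  rwa [Subspace.dual_finrank_eq] at h3

section

variable {K O G Q ι κ : Type} [Field K] [CommRing O] [Algebra K O] [Group G] [Group Q] {n : ℕ}
  {π : G →* Q} {x : ι → G} {a b : κ → ι} {e : κ → ℕ} {ρ : Q →* Matrix (Fin n) (Fin n) K}
  {ε : O →ₐ[K] K} {X : FreeGroup ι →* Matrix (Fin n) (Fin n) O} {J₁ : Ideal O}

/-- The number of equations.

Proof. Let `J = JJ π x X J₁` and `N = J₁ ⊔ ker ε * J`, as `K`-submodules of `O` (`N ≤ J`). `V = J / N` (for
example the image of `J` in `O ⧸ N`). A functional on `V` extends to `O ⧸ N` (a subspace of a vector space has a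
complement: `LinearMap.exists_extend`), so gives an `L ∈ GoodS`; choose the extension linearly
(compose with a projection onto the subspace). `Θ` of `exists_Theta` composed with this map is injective: if
`Θ L = 0` then `L` vanishes on `J` (`thL_inj`), so the functional is zero. `finrank_le_of_dual`:
`finrank V ≤ finrank Th`, so there is a finset `s` of `J` with at most `finrank Th` elements whose images span `V`
(a basis; `Module.finBasis`), and `J ≤ N ⊔ span K s ≤ (J₁ ⊔ Ideal.span s) ⊔ ker ε • J`. `J` is finitely generated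
(`IsNoetherianRing O`), `ker ε` is the maximal ideal, contained in the Jacobson radical; Nakayama
(`Submodule.le_of_le_smul_of_le_jacobson_bot`). -/
theorem exists_eqs [IsNoetherianRing O] [IsLocalRing O] (h : LocD π x a b e ρ ε X J₁)
    [FiniteDimensional K (Th (adRep (ρ.comp π)) x a b)] :
    ∃ s : Finset O, s.card ≤ Module.finrank K (Th (adRep (ρ.comp π)) x a b) ∧
      (∀ f ∈ s, f ∈ JJ π x X J₁) ∧ JJ π x X J₁ ≤ J₁ ⊔ Ideal.span (s : Set O) := by
  classical
  obtain ⟨Θ, hΘ⟩ := exists_Theta h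
  obtain ⟨J, hJ⟩ : ∃ J : Ideal O, J = JJ π x X J₁ := ⟨_, rfl⟩
  obtain ⟨N, hN⟩ : ∃ N : Ideal O, N = J₁ ⊔ RingHom.ker ε * J := ⟨_, rfl⟩
  obtain ⟨NK, hNK⟩ : ∃ NK : Submodule K O, ∀ y, y ∈ NK ↔ y ∈ N :=
    ⟨N.restrictScalars K, fun y => Iff.rfl⟩
  obtain ⟨JK, hJK⟩ : ∃ JK : Submodule K O, ∀ y, y ∈ JK ↔ y ∈ J :=
    ⟨J.restrictScalars K, fun y => Iff.rfl⟩
  obtain ⟨V, hVm, hVs⟩ : ∃ V : Submodule K (O ⧸ NK), (∀ y ∈ J, NK.mkQ y ∈ V) ∧
      ∀ v ∈ V, ∃ y ∈ J, NK.mkQ y = v := by
    refine ⟨JK.map NK.mkQ, fun y hy => Submodule.mem_map_of_mem ((hJK y).2 hy), ?_⟩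
    rintro _ ⟨y, hy, rfl⟩
    exact ⟨y, (hJK y).1 hy, rfl⟩
  obtain ⟨p, hp⟩ := LinearMap.exists_leftInverse_of_injective V.subtype V.ker_subtype
  have hp' : ∀ v : V, p v.1 = v := fun v => LinearMap.congr_fun hp v
  have hgood : ∀ φ : Module.Dual K V, (φ ∘ₗ p ∘ₗ NK.mkQ) ∈ GoodS π x ε X J₁ := by
    intro φ
    have h0 : ∀ y ∈ N, (φ ∘ₗ p ∘ₗ NK.mkQ) y = 0 := by
      intro y hy
      have h1 : NK.mkQ y = 0 := by
        rw [Submodule.mkQ_apply, Submodule.Quotient.mk_eq_zero]
        exact (hNK y).2 hy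
      rw [LinearMap.comp_apply, LinearMap.comp_apply, h1, map_zero, map_zero]
    refine ⟨fun y hy => h0 y ?_, fun y hy => h0 y ?_⟩
    · rw [hN]
      exact Submodule.mem_sup_left hy
    · rw [hN, hJ]
      exact Submodule.mem_sup_right hy
  obtain ⟨E, hE⟩ : ∃ E : Module.Dual K V →ₗ[K] GoodS π x ε X J₁,
      ∀ φ, (E φ).1 = φ ∘ₗ p ∘ₗ NK.mkQ :=
    ⟨{ toFun := fun φ => ⟨φ ∘ₗ p ∘ₗ NK.mkQ, hgood φ⟩
       map_add' := fun _ _ => rfl
       map_smul' := fun _ _ => rfl }, fun _ => rfl⟩
  have hinj : Function.Injective (Θ ∘ₗ E) := by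
    refine (injective_iff_map_eq_zero (Θ ∘ₗ E)).2 fun φ hφ => ?_
    have h1 : ∀ r : FreeGroup ι, FreeGroup.lift x r = 1 → thL X (E φ).1 r = 0 := by
      intro r hr
      have h2 := hΘ (E φ) ⟨r, hr⟩
      have h3 : Θ (E φ) = 0 := hφ
      rw [h3] at h2
      exact h2.symm
    have h2 := thL_inj h (E φ).2 h1
    refine LinearMap.ext fun v => ?_
    obtain ⟨v, hv⟩ := v
    obtain ⟨y, hy, rfl⟩ := hVs v hv
    have h3 := h2 y (by rw [← hJ]; exact hy)
    rw [hE, LinearMap.comp_apply, LinearMap.comp_apply] at h3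
    have h4 := hp' ⟨NK.mkQ y, hv⟩
    rw [h4] at h3
    exact h3
  obtain ⟨hfin, hle⟩ := finrank_le_of_dual (T := Th (adRep (ρ.comp π)) x a b) (Θ ∘ₗ E) hinj
  have hb : ∀ i, ∃ y ∈ J, NK.mkQ y = ((Module.finBasis K V i : V) : O ⧸ NK) := fun i =>
    hVs _ (Module.finBasis K V i).2
  choose y hyJ hyb using hb
  refine ⟨Finset.univ.image y, ?_, ?_, ?_⟩
  · refine (Finset.card_image_le).trans ?_
    rw [Finset.card_univ, Fintype.card_fin]
    exact hle
  · intro f hf
    obtain ⟨i, -, rfl⟩ := Finset.mem_image.1 hf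
    rw [← hJ]
    exact hyJ i
  · rw [← hJ]
    have hjac : RingHom.ker ε ≤ Ideal.jacobson ⊥ := by
      rw [IsLocalRing.jacobson_eq_maximalIdeal ⊥ bot_ne_top]
      apply IsLocalRing.le_maximalIdeal
      intro h1
      have h2 : (1 : O) ∈ RingHom.ker ε := by rw [h1]; exact Submodule.mem_top
      have h3 : ε 1 = 0 := h2
      rw [map_one] at h3
      exact one_ne_zero h3
    refine Submodule.le_of_le_smul_of_le_jacobson_bot (I := RingHom.ker ε)
      (IsNoetherian.noetherian J) hjac ?_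
    intro z hz
    obtain ⟨c, hc⟩ : ∃ c : Fin (Module.finrank K V) → K,
        c = fun i => (Module.finBasis K V).repr ⟨NK.mkQ z, hVm z hz⟩ i := ⟨_, rfl⟩
    have h1 : NK.mkQ z = NK.mkQ (∑ i, c i • y i) := by
      have h2 := (Module.finBasis K V).sum_repr ⟨NK.mkQ z, hVm z hz⟩
      have h3 : ((∑ i, c i • Module.finBasis K V i : V) : O ⧸ NK) = NK.mkQ z := by
        rw [hc]
        exact congrArg Subtype.val h2
      rw [← h3, map_sum, Submodule.coe_sum]
      refine Finset.sum_congr rfl fun i _ => ?_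
      rw [map_smul, hyb]
      rfl
    have h2 : z - ∑ i, c i • y i ∈ N := by
      rw [← hNK, ← Submodule.Quotient.mk_eq_zero, ← Submodule.mkQ_apply, map_sub, h1, sub_self]
    have h3 : ∑ i, c i • y i ∈ Ideal.span ((Finset.univ.image y : Finset O) : Set O) := by
      refine Submodule.sum_mem _ fun i _ => ?_
      rw [Algebra.smul_def]
      refine Ideal.mul_mem_left _ _ (Ideal.subset_span ?_)
      rw [Finset.mem_coe]
      exact Finset.mem_image_of_mem y (Finset.mem_univ i)
    have h4 : z = (z - ∑ i, c i • y i) + ∑ i, c i • y i := by ring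
    rw [hN] at h2
    rw [h4]
    refine Submodule.add_mem _ ?_ ?_
    · obtain ⟨u, hu, v, hv, huv⟩ := Submodule.mem_sup.1 h2
      rw [← huv]
      exact Submodule.add_mem _ (Submodule.mem_sup_left (Submodule.mem_sup_left hu))
        (Submodule.mem_sup_right hv)
    · exact Submodule.mem_sup_left (Submodule.mem_sup_right h3)

end

end Thu
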