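import Pool.Agent.W_04c03c_h58t.WDef

/-!
# The determinant of a matrix of finite order, and the universal property of the coordinate ring
-/

namespace Thu

open MvPolynomial

/-- Proof. In the domain `D = MvPolynomial .. ⧸ q` let `u` be the class of `(gm K n l).det`. Then `u ^ m = 1`: the
class of the matrix `gm K n l` has `m`-th power `1` (`hm`), take determinants. `K` is algebraically closed, so
`T ^ m - 1 = ∏ (T - ζ)` over `K` (`IsAlgClosed.splits`), and evaluating at `u` one factor vanishes: `(gm K n l).det - C ζ`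
is in `q`, so in the kernel of `evT A`: `(A l).det = ζ` (`evT A` of the determinant of the generic matrix is the
determinant of `A l`: `RingHom.map_det`). -/
theorem det_fil {K : Type} [Field K] [IsAlgClosed K] {ι : Type} {n : ℕ}
    (A : ι → Matrix (Fin n) (Fin n) K) (q : Ideal (MvPolynomial (ι × Fin n × Fin n) K))
    (hq : q.IsPrime) (hqA : q ≤ RingHom.ker (evT A)) (l : ι) {m : ℕ} (hm0 : m ≠ 0)
    (hm : ∀ r s, (gm K n l ^ m - 1) r s ∈ q) :
    (gm K n l).det - C (A l).det ∈ q := by
  have hmon : (Ideal.Quotient.mk q (gm K n l).det) ^ m = 1 := by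
    rw [RingHom.map_det]
    have h1 : (RingHom.mapMatrix (Ideal.Quotient.mk q)) (gm K n l) ^ m = 1 := by
      rw [← map_pow, ← sub_eq_zero,
        ← map_one (RingHom.mapMatrix (m := Fin n) (Ideal.Quotient.mk q)), ← map_sub]
      ext r s
      rw [RingHom.mapMatrix_apply, Matrix.map_apply, Matrix.zero_apply]
      exact Ideal.Quotient.eq_zero_iff_mem.2 (hm r s)
    rw [← Matrix.det_pow, h1, Matrix.det_one]
  have hint : IsIntegral K (Ideal.Quotient.mk q (gm K n l).det) :=
    IsIntegral.of_pow (Nat.pos_of_ne_zero hm0) (by rw [hmon]; exact isIntegral_one)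
  obtain ⟨ζ, hζ⟩ := (IsAlgClosed.algebraMap_bijective_of_isIntegral (k := K)
    (K := integralClosure K (MvPolynomial (ι × Fin n × Fin n) K ⧸ q))).2
    ⟨Ideal.Quotient.mk q (gm K n l).det, hint⟩
  have h2 : algebraMap K (MvPolynomial (ι × Fin n × Fin n) K ⧸ q) ζ =
      Ideal.Quotient.mk q (gm K n l).det := congrArg Subtype.val hζ
  have h3 : (gm K n l).det - C ζ ∈ q := by
    rw [← Ideal.Quotient.eq_zero_iff_mem, map_sub, ← h2]
    exact sub_self _
  have h4 := hqA h3
  rw [RingHom.mem_ker, map_sub] at h4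
  have h5 : (evT A) (gm K n l).det = (A l).det := by
    rw [AlgHom.map_det]
    congr 1
    ext i j
    simp [evT, gm]
  have h6 : (evT A) (C ζ) = ζ := by simp [evT]
  rw [h5, h6, sub_eq_zero] at h4
  rw [h4]
  exact h3

/-- The universal property of the coordinate ring.

Proof. Let `g ↦ s g` be a section of the surjection `f ↦ π (lift x f)` (`hπ`, `hx`). Then `g ↦ X (s g)` is a homomorphism
`Q → Matrix`: `s (g * h) * (s g * s h)⁻¹` is mapped to `1`, so `X (s (g * h)) = X (s g) * X (s h)` (`hX`), and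
`det (X (s g)) = algebraMap (δ g)` (`hdet`). So the algebra homomorphism `Ψ : MvPolynomial (Q × Fin n × Fin n) K → S`,
`X (g, i, j) ↦ X (s g) i j` vanishes on `repIdeal` (`Ideal.span_le`), and induces a homomorphism `Ψ'` of the quotient with
`Ψ' (toRep δ (π ∘ x) p) = φ p` for all `p` (compare on the variables: `X (s (π (x l))) = X (of l)` by `hX`). So `φ` vanishes
on the kernel of `toRep`. -/
theorem ker_toRep {K S G Q ι : Type} [Field K] [CommRing S] [Algebra K S] [Group G] [Group Q]
    {n : ℕ} {π : G →* Q} (hπ : Function.Surjective π) {x : ι → G}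
    (hx : Subgroup.closure (Set.range x) = ⊤) (δ : Q →* Kˣ)
    (X : FreeGroup ι →* Matrix (Fin n) (Fin n) S)
    (hX : ∀ r, π (FreeGroup.lift x r) = 1 → X r = 1)
    (hdet : ∀ f, (X f).det = algebraMap K S (δ (π (FreeGroup.lift x f)) : Kˣ))
    (φ : MvPolynomial (ι × Fin n × Fin n) K →ₐ[K] S)
    (hφ : ∀ l i j, φ (MvPolynomial.X (l, i, j)) = X (FreeGroup.of l) i j) :
    RingHom.ker (toRep (n := n) δ fun l => π (x l)) ≤ RingHom.ker φ := by
  classical
  have hsurj : Function.Surjective fun f : FreeGroup ι => π (FreeGroup.lift x f) :=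
    hπ.comp (FreeGroup.lift_surjective_iff_closure_range_eq_top.2 hx)
  choose s hs using hsurj
  simp only at hs
  have hXX : ∀ f g : FreeGroup ι, π (FreeGroup.lift x f) = π (FreeGroup.lift x g) →
      X f = X g := by
    intro f g hfg
    have h1 : X (f * g⁻¹) = 1 := by
      apply hX
      rw [map_mul, map_mul, hfg, map_inv, map_inv, mul_inv_cancel]
    have h2 : X (f * g⁻¹) * X g = X f := by
      rw [← map_mul, inv_mul_cancel_right]
    rw [← h2, h1, one_mul]
  let Ψ : MvPolynomial (Q × Fin n × Fin n) K →ₐ[K] S :=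
    aeval fun q => X (s q.1) q.2.1 q.2.2
  have hΨX : ∀ (g : Q) (i j : Fin n), Ψ (MvPolynomial.X (g, i, j)) = X (s g) i j := by
    intro g i j
    exact aeval_X _ _
  have hgm : ∀ g : Q, (Ψ : MvPolynomial (Q × Fin n × Fin n) K →+* S).mapMatrix (gm K n g) =
      X (s g) := by
    intro g
    ext i j
    exact hΨX g i j
  have hrep : ∀ p ∈ repIdeal n δ, Ψ p = 0 := by
    intro p hp
    have h1 : repIdeal n δ ≤ RingHom.ker (Ψ : MvPolynomial (Q × Fin n × Fin n) K →+* S) := by
      unfold repIdeal
      rw [Ideal.span_le]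
      rintro p (⟨g, h, i, j, rfl⟩ | ⟨i, j, rfl⟩ | ⟨g, rfl⟩)
      · have h2 : (Ψ : MvPolynomial (Q × Fin n × Fin n) K →+* S).mapMatrix
            (gm K n (g * h) - gm K n g * gm K n h) = 0 := by
          rw [map_sub, map_mul, hgm, hgm, hgm, ← map_mul, sub_eq_zero]
          apply hXX
          rw [hs, map_mul, map_mul, hs, hs]
        exact congrFun (congrFun h2 i) j
      · have h2 : (Ψ : MvPolynomial (Q × Fin n × Fin n) K →+* S).mapMatrix
            (gm K n (1 : Q) - 1) = 0 := by
          rw [map_sub, map_one, hgm, sub_eq_zero]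
          exact hX _ (hs 1)
        exact congrFun (congrFun h2 i) j
      · change (Ψ : MvPolynomial (Q × Fin n × Fin n) K →+* S) _ = 0
        rw [map_sub, RingHom.map_det, hgm, hdet, hs]
        change _ - Ψ (C _) = 0
        rw [← algebraMap_eq, AlgHom.commutes, sub_self]
    exact h1 hp
  let Ψ' : (MvPolynomial (Q × Fin n × Fin n) K ⧸ repIdeal n δ) →ₐ[K] S :=
    Ideal.Quotient.liftₐ (repIdeal n δ) Ψ hrep
  have hcomp : Ψ'.comp (toRep (n := n) δ fun l => π (x l)) = φ := by
    apply MvPolynomial.algHom_ext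
    rintro ⟨l, i, j⟩
    rw [AlgHom.comp_apply, hφ]
    have h1 : (toRep (n := n) δ fun l => π (x l)) (MvPolynomial.X (l, i, j)) =
        Ideal.Quotient.mk _ (MvPolynomial.X (π (x l), i, j)) := aeval_X _ _
    rw [h1]
    change Ψ (MvPolynomial.X (π (x l), i, j)) = _
    rw [hΨX]
    have h2 : X (s (π (x l))) = X (FreeGroup.of l) := by
      apply hXX
      rw [hs, FreeGroup.lift_apply_of]
    rw [h2]
  intro p hp
  rw [RingHom.mem_ker] at hp ⊢
  rw [← hcomp, AlgHom.comp_apply, hp, map_zero]

end Thu
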